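import Pool.Agent.Full.End.LPoly

/-!
# FULL, end game: winding numbers

`Wn g m`: the closed curve `g : [0, 4] → ℂ \ {0}` has winding number `m` around `0`, i.e. a continuous
logarithm `l` of `g` satisfies `l 4 = l 0 + 2 π i m`.
-/

set_option autoImplicit false

namespace Full

open Set Filter Topology Complex ComplexConjugate

lemma simply_univ (X : Type*) [TopologicalSpace X] [SimplyConnectedSpace X] :
    IsSimplyConnected (univ : Set X) := by
  have : SimplyConnectedSpace (univ : Set X) := (Homeomorph.Set.univ X).toHomotopyEquiv.simplyConnectedSpace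
  exact this

/-- continuous logarithms -/
lemma exists_log {X : Type*} [TopologicalSpace X] [LocallyPathConnectedSpace X] [SimplyConnectedSpace X]
    {g : X → ℂ} (hg : Continuous g) (h0 : ∀ x, g x ≠ 0) :
    ∃ l : X → ℂ, Continuous l ∧ ∀ x, exp (l x) = g x := by
  obtain ⟨f, hf, hf'⟩ := Complex.exists_continuousOn_eqOn_exp_comp (simply_univ X) isOpen_univ
    hg.continuousOn (by rintro ⟨x, -, hx⟩; exact h0 x hx)
  exact ⟨f, continuousOn_univ.1 hf, fun x => hf' (mem_univ x)⟩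

lemma two_pi_I_ne : (2 * (Real.pi : ℂ) * I) ≠ 0 := by
  simp [Real.pi_ne_zero]

/-- a continuous function with integer values is constant -/
lemma const_of_int {X : Type*} [TopologicalSpace X] [PreconnectedSpace X] {r : X → ℝ}
    (hr : Continuous r) (h : ∀ x, ∃ n : ℤ, r x = n) (a b : X) : r a = r b := by
  have key : ∀ a b : X, ¬ r a < r b := by
    intro a b hlt
    obtain ⟨n, hn⟩ := h a
    obtain ⟨m, hm⟩ := h b
    have hmem : r a + 1 / 2 ∈ range r := by
      refine (isPreconnected_range hr).ordConnected.out (mem_range_self a) (mem_range_self b) ⟨by linarith, ?_⟩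
      rw [hn, hm] at hlt ⊢
      have : n + 1 ≤ m := by exact_mod_cast hlt
      have h2 : (n : ℝ) + 1 ≤ m := by exact_mod_cast this
      linarith
    obtain ⟨x, hx⟩ := hmem
    obtain ⟨k, hk⟩ := h x
    rw [hk, hn] at hx
    have h3 : (2 * k : ℤ) = 2 * n + 1 := by
      have : (2 * k : ℝ) = 2 * n + 1 := by linarith
      exact_mod_cast this
    omega
  rcases lt_trichotomy (r a) (r b) with h1 | h1 | h1
  · exact absurd h1 (key a b)
  · exact h1
  · exact absurd h1 (key b a)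

/-- two continuous logarithms of the same function differ by a constant -/
lemma log_unique {X : Type*} [TopologicalSpace X] [PreconnectedSpace X] {σ τ : X → ℂ}
    (hσ : Continuous σ) (hτ : Continuous τ) (h : ∀ x, exp (σ x) = exp (τ x)) (a b : X) :
    σ a - τ a = σ b - τ b := by
  have h1 : ∀ x, ∃ n : ℤ, σ x - τ x = n * (2 * Real.pi * I) := by
    intro x
    obtain ⟨n, hn⟩ := Complex.exp_eq_exp_iff_exists_int.1 (h x)
    exact ⟨n, by rw [hn]; ring⟩
  have hc : Continuous fun x => (σ x - τ x).im / (2 * Real.pi) :=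
    (continuous_im.comp (hσ.sub hτ)).div_const _
  have h2 : ∀ x, ∀ n : ℤ, σ x - τ x = n * (2 * Real.pi * I) → (σ x - τ x).im / (2 * Real.pi) = n := by
    intro x n hn
    rw [hn]
    have : ((n : ℂ) * (2 * Real.pi * I)).im = n * (2 * Real.pi) := by simp
    rw [this, mul_div_assoc, div_self (by positivity), mul_one]
  have h3 := const_of_int hc (fun x => by
    obtain ⟨n, hn⟩ := h1 x
    exact ⟨n, h2 x n hn⟩) a b
  obtain ⟨n, hn⟩ := h1 a
  obtain ⟨m, hm⟩ := h1 b
  rw [h2 a n hn, h2 b m hm] at h3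
  rw [hn, hm]
  have : ((n : ℤ) : ℂ) = m := by exact_mod_cast h3
  rw [this]

/-- the closed curve `g` on `[0, 4]` has winding number `m` around `0` -/
def Wn (g : ℝ → ℂ) (m : ℤ) : Prop :=
  ∃ l : ℝ → ℂ, Continuous l ∧ (∀ t, exp (l t) = g t) ∧ l 4 = l 0 + m * (2 * Real.pi * I)

lemma Wn.all {g : ℝ → ℂ} {m : ℤ} (h : Wn g m) {l : ℝ → ℂ} (hl : Continuous l)
    (hl2 : ∀ t, exp (l t) = g t) : l 4 = l 0 + m * (2 * Real.pi * I) := by
  obtain ⟨τ, hτ, hτ2, h4⟩ := h
  have := log_unique hl hτ (fun x => by rw [hτ2, hl2]) 0 4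
  rw [h4] at this
  linear_combination -this

lemma Wn.unique {g : ℝ → ℂ} {m m' : ℤ} (h : Wn g m) (h' : Wn g m') : m = m' := by
  obtain ⟨τ, hτ, hτ2, h4⟩ := h'
  have h5 := h.all hτ hτ2
  rw [h4] at h5
  have h6 : ((m' : ℂ) - m) * (2 * Real.pi * I) = 0 := by linear_combination h5
  rcases mul_eq_zero.1 h6 with h7 | h7
  · have : (m' : ℂ) = m := sub_eq_zero.1 h7
    exact_mod_cast this.symm
  · exact absurd h7 two_pi_I_ne

lemma exists_wn {g : ℝ → ℂ} (hg : Continuous g) (h0 : ∀ t, g t ≠ 0) (hcl : g 4 = g 0) : ∃ m, Wn g m := by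
  obtain ⟨σ, hσ, hσ2⟩ := exists_log hg h0
  obtain ⟨n, hn⟩ := Complex.exp_eq_exp_iff_exists_int.1 ((hσ2 4).trans (hcl.trans (hσ2 0).symm))
  exact ⟨n, σ, hσ, hσ2, hn⟩

/-- homotopy invariance of the winding number -/
lemma Wn.homotopy {H : ℝ × ℝ → ℂ} (hH : Continuous H) (h0 : ∀ x, H x ≠ 0)
    (hcl : ∀ s, H (4, s) = H (0, s)) {s s' : ℝ} {m : ℤ} (h : Wn (fun t => H (t, s)) m) :
    Wn (fun t => H (t, s')) m := by
  obtain ⟨σ, hσ, hσ2⟩ := exists_log hH h0
  have h1 := h.all (l := fun t => σ (t, s)) (by fun_prop) (fun t => hσ2 _)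
  have h2 := log_unique (σ := fun s => σ (4, s)) (τ := fun s => σ (0, s)) (by fun_prop) (by fun_prop)
    (fun s => by rw [hσ2, hσ2, hcl]) s s'
  refine ⟨fun t => σ (t, s'), by fun_prop, fun t => hσ2 _, ?_⟩
  simp only at h1 h2 ⊢
  linear_combination h1 - h2

/-- constant curves have winding number zero -/
lemma wn_const {c : ℂ} (hc : c ≠ 0) : Wn (fun _ => c) 0 :=
  ⟨fun _ => log c, continuous_const, fun _ => exp_log hc, by simp⟩

/-- **Borsuk**: an antipodal curve has odd winding number -/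
lemma wn_of_antipodal {g : ℝ → ℂ} (hg : Continuous g) (h0 : ∀ t, g t ≠ 0)
    (ha : ∀ t ∈ Icc (0 : ℝ) 2, g (t + 2) = -g t) : ∃ m, Wn g m ∧ Odd m := by
  obtain ⟨σ, hσ, hσ2⟩ := exists_log hg h0
  -- extend by constants outside `[0, 2]`
  let c : ℝ → ℝ := fun t => max 0 (min 2 t)
  have hc : Continuous c := by fun_prop
  have hcm : ∀ t, c t ∈ Icc (0 : ℝ) 2 := fun t => ⟨le_max_left _ _, max_le (by norm_num) (min_le_left _ _)⟩
  have h1 := log_unique (σ := fun t => σ (c t + 2)) (τ := fun t => Real.pi * I + σ (c t))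
    (hσ.comp (hc.add continuous_const)) (continuous_const.add (hσ.comp hc))
    (fun t => by
      rw [hσ2, exp_add, exp_pi_mul_I, hσ2, ha _ (hcm t)]; ring) 0 2
  have c0 : c 0 = 0 := by simp [c]
  have c2 : c 2 = 2 := by simp [c]
  simp only [c0, c2] at h1
  have e4 : (2 : ℝ) + 2 = 4 := by norm_num
  have e2 : (0 : ℝ) + 2 = 2 := by norm_num
  rw [e4, e2] at h1
  -- `σ 2 - σ 0 = σ 4 - σ 2 =: d`, `exp d = -1`
  have h2 : exp (σ 2) = -exp (σ 0) := by
    rw [hσ2, hσ2]
    have := ha 0 ⟨le_rfl, by norm_num⟩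
    rwa [zero_add] at this
  have h3 : exp (σ 2) = exp (σ 0 + Real.pi * I) := by rw [h2, exp_add, exp_pi_mul_I]; ring
  obtain ⟨n, hn⟩ := Complex.exp_eq_exp_iff_exists_int.1 h3
  refine ⟨2 * n + 1, ⟨σ, hσ, hσ2, ?_⟩, ⟨n, rfl⟩⟩
  push_cast
  linear_combination -h1 + 2 * hn

end Full
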