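import Pool.Agent.Full.End.PolyIn
import Pool.Agent.Full.End.Wind

/-!
# FULL, end game: the winding number of a labelled lattice polygon

If the centre of a tile is not close to the curve `γ`, the winding number `sc` of a labelled lattice polygon
along `γ` around the tile is the winding number of `γ` around the centre of the tile.
-/

set_option autoImplicit false

namespace Full

open Set Complex

/-- the centre of a tile -/
noncomputable def tctr (a : ℝ) (p : ℤ × ℤ) : ℂ := ⟨a * (p.1 + 1 / 2), a * (p.2 + 1 / 2)⟩

lemma near_int {w : ℂ} (h : ‖exp w - 1‖ ≤ 1 / 8) : ∃ c : ℤ, ‖w - c * (2 * Real.pi * I)‖ ≤ 1 / 4 := by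
  have h1 : exp (log (exp w)) = exp w := exp_log (exp_ne_zero w)
  obtain ⟨n, hn⟩ := Complex.exp_eq_exp_iff_exists_int.1 h1
  refine ⟨-n, ?_⟩
  have h2 : w - ((-n : ℤ) : ℂ) * (2 * Real.pi * I) = log (1 + (exp w - 1)) := by
    rw [add_sub_cancel, hn]
    push_cast
    ring
  rw [h2]
  have h3 := Complex.norm_log_one_add_half_le_self (z := exp w - 1) (by linarith)
  linarith

lemma int_eq_zero_of_small {c : ℤ} (h : ‖(c : ℂ) * (2 * Real.pi * I)‖ < 6) : c = 0 := by
  by_contra hc
  have h1 : (1 : ℝ) ≤ ‖(c : ℂ)‖ := by
    rw [Complex.norm_intCast]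
    have : (1 : ℤ) ≤ |c| := Int.one_le_abs hc
    exact_mod_cast this
  have h2 : ‖(2 * Real.pi * I : ℂ)‖ = 2 * Real.pi := by
    rw [norm_mul, norm_mul, norm_I, mul_one, Complex.norm_real, Real.norm_of_nonneg Real.pi_pos.le]
    norm_num
  rw [norm_mul, h2] at h
  have h3 := Real.pi_gt_three
  nlinarith

/-- a continuous logarithm varies little as long as the function varies little -/
lemma log_close {l g : ℝ → ℂ} (hfl : Continuous l) (hlg : ∀ t, exp (l t) = g t) {s r : ℝ}
    (h : ∀ x ∈ uIcc s r, ‖g x - g s‖ ≤ ‖g s‖ / 8) : ‖l r - l s‖ ≤ 1 / 4 := by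
  have hpt : ∀ x ∈ uIcc s r, ∃ c : ℤ, ‖l x - l s - c * (2 * Real.pi * I)‖ ≤ 1 / 4 := by
    intro x hx
    apply near_int
    rw [exp_sub, hlg, hlg]
    have h0 : g s ≠ 0 := by rw [← hlg]; exact exp_ne_zero _
    have h1 : g x / g s - 1 = (g x - g s) / g s := by field_simp
    rw [h1, norm_div, div_le_iff₀ (norm_pos_iff.2 h0)]
    have := h x hx
    linarith
  by_contra hlt
  push Not at hlt
  -- intermediate value `1`
  have hbig : 5 < ‖l r - l s‖ := by
    obtain ⟨c, hc⟩ := hpt r right_mem_uIcc
    by_contra h5
    push Not at h5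
    have h6 : c = 0 := by
      apply int_eq_zero_of_small
      have e : (c : ℂ) * (2 * Real.pi * I) = (l r - l s) - (l r - l s - c * (2 * Real.pi * I)) := by ring
      rw [e]
      refine (norm_sub_le _ _).trans_lt ?_
      linarith
    rw [h6] at hc
    simp only [Int.cast_zero, zero_mul, sub_zero] at hc
    linarith
  have hiv := intermediate_value_uIcc (f := fun x => ‖l x - l s‖) (a := s) (b := r)
    ((hfl.sub continuous_const).norm.continuousOn)
  have hmem : (1 : ℝ) ∈ uIcc ‖l s - l s‖ ‖l r - l s‖ := by
    rw [sub_self, norm_zero, mem_uIcc]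
    left
    constructor <;> linarith
  obtain ⟨x, hx, hx1⟩ := hiv hmem
  obtain ⟨c, hc⟩ := hpt x hx
  simp only at hx1
  have h6 : c = 0 := by
    apply int_eq_zero_of_small
    have e : (c : ℂ) * (2 * Real.pi * I) = (l x - l s) - (l x - l s - c * (2 * Real.pi * I)) := by ring
    rw [e]
    refine (norm_sub_le _ _).trans_lt ?_
    linarith
  rw [h6] at hc
  simp only [Int.cast_zero, zero_mul, sub_zero] at hc
  linarith

/-- the step of the principal logarithm along an edge of the lattice -/
lemma log_step {a : ℝ} (ha : 0 < a) {u w p : ℤ × ℤ} (h : Adj u w) (hu : 8 * a ≤ ‖gp a u - tctr a p‖)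
    (hw : gp a w - tctr a p ≠ 0) :
    ‖log (gp a w - tctr a p) - log (gp a u - tctr a p) + sphi u w p * (2 * Real.pi * I)‖ ≤ 1 / 4 := by
  set x := gp a u - tctr a p with hx
  set y := gp a w - tctr a p with hy
  have hx0 : x ≠ 0 := by
    intro h0
    rw [h0, norm_zero] at hu
    linarith
  have hxy : ‖y - x‖ ≤ a := by
    have e : y - x = gp a w - gp a u := by rw [hx, hy]; ring
    rw [e]
    exact gp_near ha.le (show Near w u by
      have := Adj.symm h
      unfold Adj at this
      unfold Near
      omega)
  -- the real difference is `2 π i k` up to `1/4`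
  obtain ⟨k, hk⟩ : ∃ k : ℤ, ‖(log y - log x) - k * (2 * Real.pi * I)‖ ≤ 1 / 4 := by
    apply near_int
    rw [exp_sub, exp_log hw, exp_log hx0]
    have h1 : y / x - 1 = (y - x) / x := by field_simp
    rw [h1, norm_div, div_le_iff₀ (norm_pos_iff.2 hx0)]
    linarith
  -- imaginary parts
  have him : |(y.arg - x.arg) - k * (2 * Real.pi)| ≤ 1 / 4 := by
    have h1 := abs_im_le_norm ((log y - log x) - k * (2 * Real.pi * I))
    have h2 : ((log y - log x) - k * (2 * Real.pi * I)).im = (y.arg - x.arg) - k * (2 * Real.pi) := by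
      simp [log_im]
    rw [h2] at h1
    linarith
  rw [abs_le] at him
  have hpi := Real.pi_gt_three
  -- coordinates
  have hxre : x.re = a * ((u.1 : ℝ) - p.1 - 1 / 2) := by
    rw [hx]; simp only [gp, tctr, sub_re]; ring
  have hxim : x.im = a * ((u.2 : ℝ) - p.2 - 1 / 2) := by
    rw [hx]; simp only [gp, tctr, sub_im]; ring
  have hyre : y.re = a * ((w.1 : ℝ) - p.1 - 1 / 2) := by
    rw [hy]; simp only [gp, tctr, sub_re]; ring
  have hyim : y.im = a * ((w.2 : ℝ) - p.2 - 1 / 2) := by
    rw [hy]; simp only [gp, tctr, sub_im]; ring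
  -- signs of half integers
  have hpos : ∀ m q : ℤ, q + 1 ≤ m → 0 < a * ((m : ℝ) - q - 1 / 2) := by
    intro m q hmq
    have : (q : ℝ) + 1 ≤ m := by exact_mod_cast hmq
    exact mul_pos ha (by linarith)
  have hneg : ∀ m q : ℤ, m ≤ q → a * ((m : ℝ) - q - 1 / 2) < 0 := by
    intro m q hmq
    have : (m : ℝ) ≤ q := by exact_mod_cast hmq
    exact mul_neg_of_pos_of_neg ha (by linarith)
  have hkey : k = -sphi u w p := by
    -- range of the arguments
    have ax := arg_mem_Ioc x
    have ay := arg_mem_Ioc y
    have kcases : ∀ z : ℤ, -(3 * Real.pi) < (z : ℝ) * (2 * Real.pi) → (z : ℝ) * (2 * Real.pi) < 3 * Real.pi →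
        z = -1 ∨ z = 0 ∨ z = 1 := by
      intro z h1 h2
      have h3 : (z : ℝ) < 2 := by
        by_contra hcon
        push Not at hcon
        nlinarith
      have h4 : (-2 : ℝ) < z := by
        by_contra hcon
        push Not at hcon
        nlinarith
      have h5 : z < 2 := by exact_mod_cast h3
      have h6 : -2 < z := by exact_mod_cast h4
      omega
    have hk3 := kcases k (by linarith [ax.1, ax.2, ay.1, ay.2]) (by linarith [ax.1, ax.2, ay.1, ay.2])
    have kzero : |y.arg - x.arg| ≤ Real.pi + 1 → k = 0 := by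
      intro h1
      rw [abs_le] at h1
      rcases hk3 with h2 | h2 | h2
      · exfalso
        rw [h2] at him
        push_cast at him
        linarith [him.1, him.2]
      · exact h2
      · exfalso
        rw [h2] at him
        push_cast at him
        linarith [him.1, him.2]
    rcases lt_or_ge p.2 u.2 with hu2 | hu2 <;> rcases lt_or_ge p.2 w.2 with hw2 | hw2
    · -- both above
      have h1 : 0 ≤ x.arg := arg_nonneg_iff.2 (by rw [hxim]; exact (hpos _ _ hu2).le)
      have h2 : 0 ≤ y.arg := arg_nonneg_iff.2 (by rw [hyim]; exact (hpos _ _ hw2).le)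
      have h3 : sphi u w p = 0 := by
        unfold sphi
        rw [if_neg (by omega), if_neg (by omega), sub_zero]
      rw [h3, neg_zero]
      apply kzero
      rw [abs_le]
      constructor <;> linarith [ax.1, ax.2, ay.1, ay.2]
    · -- from above to below
      have hvert : w.1 = u.1 ∧ w.2 = u.2 - 1 := by
        rcases h.cases with h1 | h1 | h1 | h1 <;> omega
      have hu2' : u.2 = p.2 + 1 := by omega
      have hw2' : w.2 = p.2 := by omega
      have h1 : 0 ≤ x.arg := arg_nonneg_iff.2 (by rw [hxim]; exact (hpos _ _ hu2).le)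
      have h2 : y.arg < 0 := arg_neg_iff.2 (by rw [hyim]; exact hneg _ _ hw2)
      rcases lt_or_ge p.1 u.1 with hu1 | hu1
      · have h3 : sphi u w p = 0 := by
          unfold sphi
          rw [if_neg (by omega), if_neg (by omega), sub_zero]
        rw [h3, neg_zero]
        apply kzero
        have h4 : x.arg ≤ Real.pi / 2 := arg_le_pi_div_two_iff.2 (Or.inl (by rw [hxre]; exact (hpos _ _ hu1).le))
        have h5 : -(Real.pi / 2) ≤ y.arg := neg_pi_div_two_le_arg_iff.2 (Or.inl (by
          rw [hyre, hvert.1]; exact (hpos _ _ hu1).le))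
        rw [abs_le]
        constructor <;> linarith
      · have h3 : sphi u w p = 1 := by
          unfold sphi
          rw [if_pos ⟨hvert.1.symm, hu1, hu2', hw2'⟩, if_neg (by omega), sub_zero]
        rw [h3]
        have h4 : Real.pi / 2 < x.arg := by
          by_contra hcon
          push Not at hcon
          rcases arg_le_pi_div_two_iff.1 hcon with h5 | h5
          · rw [hxre] at h5
            have := hneg _ _ hu1
            linarith
          · rw [hxim] at h5
            have := hpos _ _ hu2
            linarith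
        have h5 : y.arg < -(Real.pi / 2) := by
          by_contra hcon
          push Not at hcon
          rcases neg_pi_div_two_le_arg_iff.1 hcon with h6 | h6
          · rw [hyre, hvert.1] at h6
            have := hneg _ _ hu1
            linarith
          · rw [hyim] at h6
            have := hneg _ _ hw2
            linarith
        rcases hk3 with h6 | h6 | h6
        · exact h6
        · exfalso
          rw [h6] at him
          push_cast at him
          linarith [him.1, him.2]
        · exfalso
          rw [h6] at him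
          push_cast at him
          linarith [him.1, him.2]
    · -- from below to above
      have hvert : w.1 = u.1 ∧ w.2 = u.2 + 1 := by
        rcases h.cases with h1 | h1 | h1 | h1 <;> omega
      have hu2' : u.2 = p.2 := by omega
      have hw2' : w.2 = p.2 + 1 := by omega
      have h1 : 0 ≤ y.arg := arg_nonneg_iff.2 (by rw [hyim]; exact (hpos _ _ hw2).le)
      have h2 : x.arg < 0 := arg_neg_iff.2 (by rw [hxim]; exact hneg _ _ hu2)
      rcases lt_or_ge p.1 u.1 with hu1 | hu1
      · have h3 : sphi u w p = 0 := by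
          unfold sphi
          rw [if_neg (by omega), if_neg (by omega), sub_zero]
        rw [h3, neg_zero]
        apply kzero
        have h4 : y.arg ≤ Real.pi / 2 := arg_le_pi_div_two_iff.2 (Or.inl (by
          rw [hyre, hvert.1]; exact (hpos _ _ hu1).le))
        have h5 : -(Real.pi / 2) ≤ x.arg := neg_pi_div_two_le_arg_iff.2 (Or.inl (by
          rw [hxre]; exact (hpos _ _ hu1).le))
        rw [abs_le]
        constructor <;> linarith
      · have h3 : sphi u w p = -1 := by
          unfold sphi
          rw [if_neg (by omega), if_pos ⟨hvert.1.symm, hu1, hu2', hw2'⟩, zero_sub]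
        rw [h3, neg_neg]
        have h4 : Real.pi / 2 < y.arg := by
          by_contra hcon
          push Not at hcon
          rcases arg_le_pi_div_two_iff.1 hcon with h5 | h5
          · rw [hyre, hvert.1] at h5
            have := hneg _ _ hu1
            linarith
          · rw [hyim] at h5
            have := hpos _ _ hw2
            linarith
        have h5 : x.arg < -(Real.pi / 2) := by
          by_contra hcon
          push Not at hcon
          rcases neg_pi_div_two_le_arg_iff.1 hcon with h6 | h6
          · rw [hxre] at h6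
            have := hneg _ _ hu1
            linarith
          · rw [hxim] at h6
            have := hneg _ _ hu2
            linarith
        rcases hk3 with h6 | h6 | h6
        · exfalso
          rw [h6] at him
          push_cast at him
          linarith [him.1, him.2]
        · exfalso
          rw [h6] at him
          push_cast at him
          linarith [him.1, him.2]
        · exact h6
    · -- both below
      have h1 : x.arg < 0 := arg_neg_iff.2 (by rw [hxim]; exact hneg _ _ hu2)
      have h2 : y.arg < 0 := arg_neg_iff.2 (by rw [hyim]; exact hneg _ _ hw2)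
      have h3 : sphi u w p = 0 := by
        unfold sphi
        rw [if_neg (by omega), if_neg (by omega), sub_zero]
      rw [h3, neg_zero]
      apply kzero
      rw [abs_le]
      constructor <;> linarith [ax.1, ax.2, ay.1, ay.2]
  rw [hkey] at hk
  have e : log y - log x + (sphi u w p : ℂ) * (2 * Real.pi * I) =
      (log y - log x) - ((-sphi u w p : ℤ) : ℂ) * (2 * Real.pi * I) := by
    push_cast
    ring
  rw [e]
  exact hk

/-- **the winding number of a labelled polygon around a far tile** -/
theorem LPoly.sc_eq {γ : ℝ → ℂ} {a θ : ℝ} {n : ℕ} {v : ℕ → ℤ × ℤ} {t : ℕ → ℝ} (h : LPoly γ a θ n v t)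
    (ha : 0 < a) {p : ℤ × ℤ} {D : ℝ} (hfar : ∀ s ∈ Icc (0 : ℝ) 4, D ≤ ‖γ s - tctr a p‖) (hD : 40 * a ≤ D)
    (hθ : ∀ s ∈ Icc (0 : ℝ) 4, ∀ s' ∈ Icc (0 : ℝ) 4, |s - s'| ≤ θ → ‖γ s - γ s'‖ ≤ D / 8) {m : ℤ}
    (hm : Wn (fun t => γ t - tctr a p) m) : sc n v p = m := by
  obtain ⟨l, hfl, hlg, hl4⟩ := hm
  set x : ℕ → ℂ := fun i => gp a (v i) - tctr a p with hx
  have hxg : ∀ i ≤ n, ‖x i - (γ (t i) - tctr a p)‖ ≤ 3 * a := by
    intro i hi
    have := h.close i hi
    have e : x i - (γ (t i) - tctr a p) = gp a (v i) - γ (t i) := by rw [hx]; ring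
    rw [e]; exact this
  have hxbig : ∀ i ≤ n, 37 * a ≤ ‖x i‖ := by
    intro i hi
    have h1 := hfar (t i) (h.mem i hi)
    have h2 := hxg i hi
    have e : γ (t i) - tctr a p = x i - (x i - (γ (t i) - tctr a p)) := by ring
    have h3 := norm_sub_le (x i) (x i - (γ (t i) - tctr a p))
    rw [← e] at h3
    linarith
  have hx0 : ∀ i ≤ n, x i ≠ 0 := by
    intro i hi h0
    have := hxbig i hi
    rw [h0, norm_zero] at this
    linarith
  have hc : ∀ i, ∃ c : ℤ, i ≤ n → ‖l (t i) - log (x i) - c * (2 * Real.pi * I)‖ ≤ 1 / 4 := by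
    intro i
    by_cases hi : i ≤ n
    · have h0 := hx0 i hi
      obtain ⟨c, hc⟩ := near_int (w := l (t i) - log (x i)) (by
        rw [exp_sub, hlg, exp_log h0]
        have h1 : (γ (t i) - tctr a p) / x i - 1 = -(x i - (γ (t i) - tctr a p)) / x i := by
          field_simp
          ring
        rw [h1, norm_div, norm_neg, div_le_iff₀ (norm_pos_iff.2 h0)]
        have h2 := hxg i hi
        have h3 := hxbig i hi
        linarith)
      exact ⟨c, fun _ => hc⟩
    · exact ⟨0, fun h => absurd h hi⟩
  choose c hc using hc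
  have hstep : ∀ i < n, c (i + 1) - c i = sphi (v i) (v (i + 1)) p := by
    intro i hi
    have h1 := hc i hi.le
    have h2 := hc (i + 1) hi
    have h3 : ‖l (t (i + 1)) - l (t i)‖ ≤ 1 / 4 := by
      refine log_close hfl hlg fun y hy => ?_
      have hmono := h.mono i hi
      rw [uIcc_of_le hmono] at hy
      have hmem : y ∈ Icc (0 : ℝ) 4 := ⟨(h.mem i hi.le).1.trans hy.1, hy.2.trans (h.mem (i + 1) hi).2⟩
      have h4 := hθ y hmem (t i) (h.mem i hi.le) (by
        rw [abs_of_nonneg (by linarith [hy.1])]
        have := h.jump i hi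
        linarith [hy.2])
      have h5 := hfar (t i) (h.mem i hi.le)
      have e : γ y - tctr a p - (γ (t i) - tctr a p) = γ y - γ (t i) := by ring
      simp only [e]
      linarith
    have h4 := log_step ha (h.adj i hi) (p := p) (by
      have := hxbig i hi.le
      show 8 * a ≤ ‖x i‖
      linarith) (hx0 (i + 1) hi)
    have h5 : c (i + 1) - c i - sphi (v i) (v (i + 1)) p = 0 := by
      apply int_eq_zero_of_small
      have e : ((c (i + 1) - c i - sphi (v i) (v (i + 1)) p : ℤ) : ℂ) * (2 * Real.pi * I) =
          (l (t (i + 1)) - l (t i)) -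
          (log (gp a (v (i + 1)) - tctr a p) - log (gp a (v i) - tctr a p) +
            sphi (v i) (v (i + 1)) p * (2 * Real.pi * I)) +
          ((l (t i) - log (x i) - c i * (2 * Real.pi * I)) -
          (l (t (i + 1)) - log (x (i + 1)) - c (i + 1) * (2 * Real.pi * I))) := by
        simp only [hx]
        push_cast
        ring
      rw [e]
      refine (norm_add_le _ _).trans_lt ?_
      have h6 := norm_sub_le (l (t (i + 1)) - l (t i))
        (log (gp a (v (i + 1)) - tctr a p) - log (gp a (v i) - tctr a p) +
            sphi (v i) (v (i + 1)) p * (2 * Real.pi * I))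
      have h7 := norm_sub_le (l (t i) - log (x i) - c i * (2 * Real.pi * I))
        (l (t (i + 1)) - log (x (i + 1)) - c (i + 1) * (2 * Real.pi * I))
      linarith
    linarith
  have hsum : sc n v p = c n - c 0 := by
    unfold sc
    rw [← Finset.sum_range_sub]
    exact Finset.sum_congr rfl fun i hi => (hstep i (Finset.mem_range.1 hi)).symm
  -- the end points
  have hend : ∀ s ∈ Icc (0 : ℝ) 4, ∀ r ∈ Icc (0 : ℝ) 4, |r - s| ≤ θ → ‖l r - l s‖ ≤ 1 / 4 := by
    intro s hs r hr hrs
    refine log_close hfl hlg fun y hy => ?_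
    have hmem : y ∈ Icc (0 : ℝ) 4 := by
      rw [Set.mem_uIcc] at hy
      rcases hy with hy | hy
      · exact ⟨hs.1.trans hy.1, hy.2.trans hr.2⟩
      · exact ⟨hr.1.trans hy.1, hy.2.trans hs.2⟩
    have h4 := hθ y hmem s hs ((abs_sub_left_of_mem_uIcc hy).trans hrs)
    have h5 := hfar s hs
    have e : γ y - tctr a p - (γ s - tctr a p) = γ y - γ s := by ring
    simp only [e]
    linarith
  have h40 : (4 : ℝ) ∈ Icc (0 : ℝ) 4 := ⟨by norm_num, le_rfl⟩
  have h00 : (0 : ℝ) ∈ Icc (0 : ℝ) 4 := ⟨le_rfl, by norm_num⟩
  have e1 := hend 0 h00 (t 0) (h.mem 0 (Nat.zero_le n)) (by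
    rw [sub_zero, abs_of_nonneg (h.mem 0 (Nat.zero_le n)).1]; exact h.start)
  have e2 := hend 4 h40 (t n) (h.mem n le_rfl) (by
    rw [abs_sub_comm, abs_of_nonneg (by linarith [(h.mem n le_rfl).2])]
    linarith [h.fin])
  have e3 := hc 0 (Nat.zero_le n)
  have e4 := hc n le_rfl
  have hxn : x n = x 0 := by simp only [hx, h.closed]
  have h6 : m - sc n v p = 0 := by
    apply int_eq_zero_of_small
    have e : ((m - sc n v p : ℤ) : ℂ) * (2 * Real.pi * I) =
        (l (t 0) - l 0) - (l (t n) - l 4) +
        ((l (t n) - log (x n) - c n * (2 * Real.pi * I)) - (l (t 0) - log (x 0) - c 0 * (2 * Real.pi * I))) := by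
      rw [hl4, hxn, hsum]
      push_cast
      ring
    rw [e]
    refine (norm_add_le _ _).trans_lt ?_
    have h7 := norm_sub_le (l (t 0) - l 0) (l (t n) - l 4)
    have h8 := norm_sub_le (l (t n) - log (x n) - c n * (2 * Real.pi * I))
      (l (t 0) - log (x 0) - c 0 * (2 * Real.pi * I))
    linarith
  linarith

end Full
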