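import Pool.Agent.Full.End.SandDefs

/-!
# FULL, end game: the sandwich, proofs

`sandMinus : SandMinus`, `sandPlus : SandPlus`.
-/

set_option autoImplicit false

open Set Filter Topology H47Perc

namespace Full

/-! ## Geometry of the tiles -/

lemma even_cA (p : ℤ × ℤ) : Even ((cA p).1 + (cA p).2) := by
  unfold cA
  split_ifs with h
  · exact h
  · rw [Int.not_even_iff_odd] at h
    have : p.1 + 1 + p.2 = p.1 + p.2 + 1 := by ring
    simp only [this]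
    exact h.add_one

lemma even_cB (p : ℤ × ℤ) : Even ((cB p).1 + (cB p).2) := by
  unfold cB
  split_ifs with h
  · have : p.1 + 1 + (p.2 + 1) = p.1 + p.2 + 2 := by ring
    simp only [this]
    exact h.add even_two
  · rw [Int.not_even_iff_odd] at h
    have : p.1 + (p.2 + 1) = p.1 + p.2 + 1 := by ring
    simp only [this]
    exact h.add_one

lemma cA_snd (p : ℤ × ℤ) : (cA p).2 = p.2 := by
  unfold cA; split_ifs <;> rfl

lemma cB_snd (p : ℤ × ℤ) : (cB p).2 = p.2 + 1 := by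
  unfold cB; split_ifs <;> rfl

lemma cAB_fst (p : ℤ × ℤ) : (cA p).1 + (cB p).1 = 2 * p.1 + 1 := by
  unfold cA cB; split_ifs <;> simp only <;> ring

lemma cA_fst (p : ℤ × ℤ) : (cA p).1 = p.1 ∨ (cA p).1 = p.1 + 1 := by
  unfold cA; split_ifs
  · exact Or.inl rfl
  · exact Or.inr rfl

lemma pos_pv {ε : ℝ} {w : ℤ × ℤ} (h : Even (w.1 + w.2)) : pos ε (pv w) = pt ε w := by
  obtain ⟨k, hk⟩ := h
  have h1 : (w.1 + w.2) / 2 = k := by omega
  have h2 : (w.2 - w.1) / 2 = k - w.1 := by omega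
  have h3 : (w.2 : ℝ) = 2 * k - w.1 := by
    have : w.2 = 2 * k - w.1 := by omega
    rw [this]; push_cast; ring
  apply Complex.ext
  · simp only [pos, pv, pt, h1, h3]
    ring
  · simp only [pos, pv, pt, h2, h3]
    push_cast
    ring

/-- the first tile coordinate of a point of the plane -/
noncomputable def tc1 (ε : ℝ) (x : ℂ) : ℝ := (x.re - x.im) / ε

/-- the second tile coordinate of a point of the plane -/
noncomputable def tc2 (ε : ℝ) (x : ℂ) : ℝ := (x.re + x.im) / ε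

lemma tc1_pt {ε : ℝ} (hε : 0 < ε) (w : ℤ × ℤ) : tc1 ε (pt ε w) = w.1 := by
  unfold tc1 pt
  field_simp
  ring

lemma tc2_pt {ε : ℝ} (hε : 0 < ε) (w : ℤ × ℤ) : tc2 ε (pt ε w) = w.2 := by
  unfold tc2 pt
  field_simp
  ring

lemma pt_inj {ε : ℝ} (hε : 0 < ε) {w w' : ℤ × ℤ} (h : pt ε w = pt ε w') : w = w' := by
  have h1 : (w.1 : ℝ) = w'.1 := by rw [← tc1_pt hε, ← tc1_pt hε, h]
  have h2 : (w.2 : ℝ) = w'.2 := by rw [← tc2_pt hε, ← tc2_pt hε, h]
  exact Prod.ext (by exact_mod_cast h1) (by exact_mod_cast h2)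

/-- parametrisation of the open diagonal -/
lemma diag_param {ε : ℝ} (hε : 0 < ε) {p : ℤ × ℤ} {x : ℂ} (hx : x ∈ diag ε p) :
    ∃ t : ℝ, 0 ≤ t ∧ t ≤ 1 ∧ tc2 ε x = p.2 + t ∧
      tc1 ε x = (1 - t) * (cA p).1 + t * (cB p).1 ∧ (t = 0 → x = pt ε (cA p)) ∧
      (t = 1 → x = pt ε (cB p)) := by
  unfold diag at hx
  obtain ⟨a, b, ha, hb, hab, rfl⟩ := hx
  have hA1 := tc1_pt hε (cA p)
  have hA2 := tc2_pt hε (cA p)
  have hB1 := tc1_pt hε (cB p)
  have hB2 := tc2_pt hε (cB p)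
  have hA2' : ((cA p).2 : ℝ) = p.2 := by rw [cA_snd]
  have hB2' : ((cB p).2 : ℝ) = p.2 + 1 := by rw [cB_snd]; push_cast; ring
  refine ⟨b, hb, by linarith, ?_, ?_, ?_, ?_⟩
  · have : tc2 ε (a • pt ε (cA p) + b • pt ε (cB p))
        = a * tc2 ε (pt ε (cA p)) + b * tc2 ε (pt ε (cB p)) := by
      unfold tc2
      simp
      ring
    rw [this, hA2, hB2, hA2', hB2']
    have : a = 1 - b := by linarith
    rw [this]; ring
  · have : tc1 ε (a • pt ε (cA p) + b • pt ε (cB p))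
        = a * tc1 ε (pt ε (cA p)) + b * tc1 ε (pt ε (cB p)) := by
      unfold tc1
      simp
      ring
    rw [this, hA1, hB1]
    have : a = 1 - b := by linarith
    rw [this]
  · intro h
    have : a = 1 := by linarith
    rw [h, this]; simp
  · intro h
    have : a = 0 := by linarith
    rw [h, this]; simp

/-- two open diagonals meet only in a common corner -/
lemma diag_inter {ε : ℝ} (hε : 0 < ε) {p p' : ℤ × ℤ} {x : ℂ} (hx : x ∈ diag ε p)
    (hx' : x ∈ diag ε p') (hne : p ≠ p') :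
    ∃ w, (w = cA p ∨ w = cB p) ∧ (w = cA p' ∨ w = cB p') ∧ x = pt ε w := by
  obtain ⟨t, t0, t1, h2, h1, hA, hB⟩ := diag_param hε hx
  obtain ⟨t', t0', t1', h2', h1', hA', hB'⟩ := diag_param hε hx'
  have hend : t = 0 ∨ t = 1 := by
    by_contra hcon
    push Not at hcon
    have hlt0 : 0 < t := lt_of_le_of_ne t0 (Ne.symm hcon.1)
    have hlt1 : t < 1 := lt_of_le_of_ne t1 hcon.2
    have e2 : p.2 = p'.2 := by
      have i1 : (p.2 : ℝ) < p'.2 + 1 := by linarith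
      have i2 : (p'.2 : ℝ) < p.2 + 1 := by linarith
      have i1' : p.2 < p'.2 + 1 := by exact_mod_cast i1
      have i2' : p'.2 < p.2 + 1 := by exact_mod_cast i2
      omega
    have hs : ((cA p).1 : ℝ) + (cB p).1 = 2 * p.1 + 1 := by exact_mod_cast cAB_fst p
    have hs' : ((cA p').1 : ℝ) + (cB p').1 = 2 * p'.1 + 1 := by exact_mod_cast cAB_fst p'
    have b1 : (p.1 : ℝ) < tc1 ε x ∧ tc1 ε x < p.1 + 1 := by
      rcases cA_fst p with h | h
      · have hc : ((cA p).1 : ℝ) = p.1 := by rw [h]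
        have hd : ((cB p).1 : ℝ) = p.1 + 1 := by linarith
        rw [h1, hc, hd]
        constructor <;> nlinarith
      · have hc : ((cA p).1 : ℝ) = p.1 + 1 := by rw [h]; push_cast; ring
        have hd : ((cB p).1 : ℝ) = p.1 := by linarith
        rw [h1, hc, hd]
        constructor <;> nlinarith
    have b2 : (p'.1 : ℝ) ≤ tc1 ε x ∧ tc1 ε x ≤ p'.1 + 1 := by
      rcases cA_fst p' with h | h
      · have hc : ((cA p').1 : ℝ) = p'.1 := by rw [h]
        have hd : ((cB p').1 : ℝ) = p'.1 + 1 := by linarith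
        rw [h1', hc, hd]
        constructor <;> nlinarith
      · have hc : ((cA p').1 : ℝ) = p'.1 + 1 := by rw [h]; push_cast; ring
        have hd : ((cB p').1 : ℝ) = p'.1 := by linarith
        rw [h1', hc, hd]
        constructor <;> nlinarith
    have e1 : p.1 = p'.1 := by
      have i1 : (p.1 : ℝ) < p'.1 + 1 := by linarith
      have i2 : (p'.1 : ℝ) < p.1 + 1 := by linarith
      have i1' : p.1 < p'.1 + 1 := by exact_mod_cast i1
      have i2' : p'.1 < p.1 + 1 := by exact_mod_cast i2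
      omega
    exact hne (Prod.ext e1 e2)
  have hend' : t' = 0 ∨ t' = 1 := by
    have hk : ∃ k : ℤ, t' = k := by
      rcases hend with h | h
      · exact ⟨p.2 - p'.2, by push_cast; linarith⟩
      · exact ⟨p.2 + 1 - p'.2, by push_cast; linarith⟩
    obtain ⟨k, hk⟩ := hk
    have i0 : 0 ≤ k := by
      have : (0 : ℝ) ≤ k := by rw [← hk]; exact t0'
      exact_mod_cast this
    have i1 : k ≤ 1 := by
      have : (k : ℝ) ≤ 1 := by rw [← hk]; exact t1'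
      exact_mod_cast this
    have : k = 0 ∨ k = 1 := by omega
    rcases this with h | h
    · left; rw [hk, h]; simp
    · right; rw [hk, h]; simp
  have hw : ∃ w, (w = cA p ∨ w = cB p) ∧ x = pt ε w := by
    rcases hend with h | h
    · exact ⟨_, Or.inl rfl, hA h⟩
    · exact ⟨_, Or.inr rfl, hB h⟩
  have hw' : ∃ w, (w = cA p' ∨ w = cB p') ∧ x = pt ε w := by
    rcases hend' with h | h
    · exact ⟨_, Or.inl rfl, hA' h⟩
    · exact ⟨_, Or.inr rfl, hB' h⟩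
  obtain ⟨w, h3, h4⟩ := hw
  obtain ⟨w', h3', h4'⟩ := hw'
  have : w = w' := pt_inj hε (h4.symm.trans h4')
  subst this
  exact ⟨w, h3, h3', h4⟩

lemma pv_inj {w w' : ℤ × ℤ} (h : Even (w.1 + w.2)) (h' : Even (w'.1 + w'.2))
    (he : pv w = pv w') : w = w' :=
  pt_inj one_pos (by rw [← pos_pv h, ← pos_pv h', he])

lemma bond_inj : Function.Injective bond := by
  intro p p' h
  unfold bond at h
  have key : ∀ a b : ℤ × ℤ, (a = cA p ∧ b = cB p) → (a.1 + b.1 = 2 * p.1 + 1 ∧ a.2 + b.2 = 2 * p.2 + 1) := by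
    rintro a b ⟨rfl, rfl⟩
    exact ⟨cAB_fst p, by rw [cA_snd, cB_snd]; ring⟩
  have e1 := cAB_fst p
  have e2 := cAB_fst p'
  have f1 := cA_snd p
  have f2 := cB_snd p
  have f1' := cA_snd p'
  have f2' := cB_snd p'
  rw [Sym2.eq_iff] at h
  rcases h with ⟨h1, h2⟩ | ⟨h1, h2⟩
  · have g1 := pv_inj (even_cA p) (even_cA p') h1
    have g2 := pv_inj (even_cB p) (even_cB p') h2
    rw [g1, g2] at e1
    rw [g1] at f1
    exact Prod.ext (by omega) (by omega)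
  · have g1 := pv_inj (even_cA p) (even_cB p') h1
    have g2 := pv_inj (even_cB p) (even_cA p') h2
    rw [g1, g2] at e1
    rw [g1] at f1
    rw [g2] at f2
    exact Prod.ext (by omega) (by omega)

lemma isClosed_diag (ε : ℝ) (p : ℤ × ℤ) : IsClosed (diag ε p) := by
  have : IsCompact (diag ε p) := by
    unfold diag
    rw [segment_eq_image]
    exact isCompact_Icc.image (by fun_prop)
  exact this.isClosed

lemma diag_subset_openSet {ε : ℝ} {p : ℤ × ℤ} {ω : Finset (Sym2 (ℤ × ℤ))} (h : bond p ∈ ω) :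
    diag ε p ⊆ openSet ε ω := by
  intro x hx
  refine ⟨pv (cA p), pv (cB p), h, ?_⟩
  rw [pos_pv (even_cA p), pos_pv (even_cB p)]
  exact hx

lemma mem_openSet_diag {ε : ℝ} {ω : Finset (Sym2 (ℤ × ℤ))} (hω : ∀ e ∈ ω, ∃ p, e = bond p) {x : ℂ}
    (hx : x ∈ openSet ε ω) : ∃ p, bond p ∈ ω ∧ x ∈ diag ε p := by
  obtain ⟨z, z', he, hx⟩ := hx
  obtain ⟨p, hp⟩ := hω _ he
  refine ⟨p, hp ▸ he, ?_⟩
  unfold bond at hp
  unfold diag
  rw [← pos_pv (even_cA p), ← pos_pv (even_cB p)]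
  rw [Sym2.eq_iff] at hp
  rcases hp with ⟨h1, h2⟩ | ⟨h1, h2⟩
  · rw [← h1, ← h2]; exact hx
  · rw [← h1, ← h2, segment_symm]; exact hx

/-! ## SandMinus -/

lemma ivt_piece {f : ℝ → ℝ} (hf : Continuous f) (h0 : f 0 ≤ 0) (h1 : 1 ≤ f 1) :
    ∃ a b, 0 ≤ a ∧ a ≤ b ∧ b ≤ 1 ∧ f a = 0 ∧ f b = 1 ∧ ∀ s ∈ Icc a b, 0 ≤ f s ∧ f s ≤ 1 := by
  have c1 : IsCompact (Icc (0 : ℝ) 1 ∩ f ⁻¹' Iic 0) :=
    isCompact_Icc.inter_right (isClosed_Iic.preimage hf)
  obtain ⟨a, ha, hamax⟩ := c1.exists_isGreatest ⟨0, ⟨le_rfl, zero_le_one⟩, h0⟩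
  have ha0 : f a ≤ 0 := ha.2
  have c2 : IsCompact (Icc a 1 ∩ f ⁻¹' Ici 1) :=
    isCompact_Icc.inter_right (isClosed_Ici.preimage hf)
  obtain ⟨b, hb, hbmin⟩ := c2.exists_isLeast ⟨1, ⟨ha.1.2, le_rfl⟩, h1⟩
  have hb1 : 1 ≤ f b := hb.2
  have hfa : f a = 0 := by
    obtain ⟨s, hs, hfs⟩ := intermediate_value_Icc ha.1.2 hf.continuousOn
      (show (0 : ℝ) ∈ Icc (f a) (f 1) from ⟨ha0, by linarith⟩)
    have : s ≤ a := hamax ⟨⟨ha.1.1.trans hs.1, hs.2⟩, hfs.le⟩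
    have : s = a := le_antisymm this hs.1
    rw [← this, hfs]
  have hfb : f b = 1 := by
    obtain ⟨s, hs, hfs⟩ := intermediate_value_Icc hb.1.1 hf.continuousOn
      (show (1 : ℝ) ∈ Icc (f a) (f b) from ⟨by linarith, hb1⟩)
    have : b ≤ s := hbmin ⟨⟨hs.1, hs.2.trans hb.1.2⟩, hfs.ge⟩
    have : s = b := le_antisymm hs.2 this
    rw [← this, hfs]
  refine ⟨a, b, ha.1.1, hb.1.1, hb.1.2, hfa, hfb, fun s hs => ⟨?_, ?_⟩⟩
  · by_contra hlt
    push Not at hlt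
    have : s ≤ a := hamax ⟨⟨ha.1.1.trans hs.1, hs.2.trans hb.1.2⟩, hlt.le⟩
    have : s = a := le_antisymm this hs.1
    rw [this, hfa] at hlt
    exact lt_irrefl _ hlt
  · by_contra hlt
    push Not at hlt
    have : b ≤ s := hbmin ⟨⟨hs.1, hs.2.trans hb.1.2⟩, hlt.le⟩
    have : s = b := le_antisymm hs.2 this
    rw [this, hfb] at hlt
    exact lt_irrefl _ hlt

lemma tstep_joined {ε : ℝ} {T : Set (ℤ × ℤ)} {ω : Finset (Sym2 (ℤ × ℤ))} {F : Set ℂ}
    (hF : ∀ p ∈ T, diag ε p ⊆ F) {w w' : ℤ × ℤ} (h : TStep T ω w w') :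
    JoinedIn (openSet ε ω ∩ F) (pt ε w) (pt ε w') := by
  obtain ⟨p, hp, hb, h⟩ := h
  have h1 : JoinedIn (openSet ε ω ∩ F) (pt ε (cA p)) (pt ε (cB p)) := by
    have hs : segment ℝ (pt ε (cA p)) (pt ε (cB p)) ⊆ openSet ε ω ∩ F := fun x hx =>
      ⟨diag_subset_openSet hb hx, hF p hp hx⟩
    exact JoinedIn.of_segment_subset hs
  rcases h with ⟨rfl, rfl⟩ | ⟨rfl, rfl⟩
  · exact h1
  · exact h1.symm

lemma tpath_joined {ε : ℝ} {T : Set (ℤ × ℤ)} {ω : Finset (Sym2 (ℤ × ℤ))} {F : Set ℂ}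
    (hF : ∀ p ∈ T, diag ε p ⊆ F) {w w' : ℤ × ℤ} (h : Relation.ReflTransGen (TStep T ω) w w') :
    w = w' ∨ JoinedIn (openSet ε ω ∩ F) (pt ε w) (pt ε w') := by
  induction h with
  | refl => exact Or.inl rfl
  | tail _ h2 ih =>
    right
    rcases ih with rfl | ih
    · exact tstep_joined hF h2
    · exact ih.trans (tstep_joined hF h2)

theorem sandMinus : SandMinus := by
  intro q ε T VL VR ω hq hε hT hL hR ⟨w, hw, w', hw', hpath⟩
  have hne : w ≠ w' := by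
    rintro rfl
    obtain ⟨u, hu, hue⟩ := hL w hw
    obtain ⟨v, hv, hve⟩ := hR w hw'
    have : u = v := hq.inj (hue.trans hve.symm)
    subst this
    have h1 : u.re ≤ 0 := hu
    have h2 : 1 ≤ u.re := hv
    linarith
  rcases tpath_joined hT hpath with h | ⟨γ, hγ⟩
  · exact absurd h hne
  have hemb : IsEmbedding q :=
    (IsOpenEmbedding.of_continuous_injective_isOpenMap hq.cont hq.inj hq.isOpenMap).isEmbedding
  set e := hemb.toHomeomorph with he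
  have hr : ∀ s : ℝ, γ.extend s ∈ range q := fun s => by
    obtain ⟨v, -, hv⟩ := (hγ (projIcc 0 1 zero_le_one s)).2
    exact ⟨v, hv⟩
  set u : ℝ → ℂ := fun s => e.symm ⟨γ.extend s, hr s⟩ with hu
  have huc : Continuous u :=
    e.symm.continuous.comp (γ.continuous_extend.subtype_mk hr)
  have hqu : ∀ s, q (u s) = γ.extend s := by
    intro s
    have := e.apply_symm_apply ⟨γ.extend s, hr s⟩
    have h2 := congrArg Subtype.val this
    exact h2
  have him : ∀ s, 0 ≤ (u s).im ∧ (u s).im ≤ 1 := by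
    intro s
    obtain ⟨v, hv, hve⟩ := (hγ (projIcc 0 1 zero_le_one s)).2
    have : u s = v := hq.inj ((hqu s).trans hve.symm)
    rw [this]; exact hv
  have h0 : (u 0).re ≤ 0 := by
    obtain ⟨v, hv, hve⟩ := hL w hw
    have : u 0 = v := hq.inj (by rw [hqu, hve]; simp)
    rw [this]; exact hv
  have h1 : 1 ≤ (u 1).re := by
    obtain ⟨v, hv, hve⟩ := hR w' hw'
    have : u 1 = v := hq.inj (by rw [hqu, hve]; simp)
    rw [this]; exact hv
  obtain ⟨a, b, ha, hab, hb, hfa, hfb, hf⟩ := ivt_piece (f := fun s => (u s).re)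
    (Complex.continuous_re.comp huc) h0 h1
  have hsq : ∀ s ∈ Icc a b, u s ∈ sq := fun s hs => ⟨(hf s hs).1, (hf s hs).2, (him s).1, (him s).2⟩
  refine ⟨γ.extend a, ⟨u a, ⟨hsq a ⟨le_rfl, hab⟩, hfa⟩, hqu a⟩, γ.extend b,
    ⟨u b, ⟨hsq b ⟨hab, le_rfl⟩, hfb⟩, hqu b⟩, ?_⟩
  refine JoinedIn.ofLine (f := fun s => γ.extend (a + s * (b - a))) ?_ ?_ ?_ ?_
  · exact (γ.continuous_extend.comp (by fun_prop)).continuousOn
  · simp
  · simp
  · rintro _ ⟨s, hs, rfl⟩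
    have hs' : a + s * (b - a) ∈ Icc a b := by
      constructor
      · nlinarith [hs.1]
      · nlinarith [hs.2]
    refine ⟨(hγ (projIcc 0 1 zero_le_one (a + s * (b - a)))).1, ?_⟩
    exact ⟨u (a + s * (b - a)), hsq _ hs', hqu _⟩

/-! ## SandPlus -/

theorem sandPlus : SandPlus := by
  classical
  intro q ε T VL VR ω hq hε h1 h2 h3 ⟨a, ha, b, hb, γ, hγ⟩ hω
  by_contra hno
  set R : ℤ × ℤ → Prop := fun w => ∃ v ∈ VL, Relation.ReflTransGen (TStep T ω) v w with hR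
  have hRVR : ∀ w, R w → w ∉ VR := fun w ⟨v, hv, hvw⟩ hw => hno ⟨v, hv, w, hw, hvw⟩
  have hRstep : ∀ p ∈ T, bond p ∈ ω → (R (cA p) ∨ R (cB p)) → (R (cA p) ∧ R (cB p)) := by
    intro p hp hb hR'
    rcases hR' with ⟨v, hv, h⟩ | ⟨v, hv, h⟩
    · exact ⟨⟨v, hv, h⟩, ⟨v, hv, h.tail ⟨p, hp, hb, Or.inl ⟨rfl, rfl⟩⟩⟩⟩
    · exact ⟨⟨v, hv, h.tail ⟨p, hp, hb, Or.inr ⟨rfl, rfl⟩⟩⟩, ⟨v, hv, h⟩⟩
  set A : Set (ℤ × ℤ) := {p | bond p ∈ ω ∧ ((p ∉ T ∧ diag ε p ⊆ q '' {u | u.re < 1 / 2}) ∨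
    (p ∈ T ∧ (R (cA p) ∨ R (cB p))))} with hA
  set B : Set (ℤ × ℤ) := {p | bond p ∈ ω ∧ ((p ∉ T ∧ diag ε p ⊆ q '' {u | 1 / 2 < u.re}) ∨
    (p ∈ T ∧ ¬ (R (cA p) ∨ R (cB p))))} with hB
  have hfin : {p | bond p ∈ ω}.Finite :=
    Set.Finite.preimage bond_inj.injOn ω.finite_toSet
  have fA : A.Finite := hfin.subset (fun p hp => hp.1)
  have fB : B.Finite := hfin.subset (fun p hp => hp.1)
  have cq : IsClosed (q '' sq) := (isCompact_sq.image hq.cont).isClosed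
  set SA : Set ℂ := ⋃ p ∈ A, diag ε p ∩ q '' sq with hSA
  set SB : Set ℂ := ⋃ p ∈ B, diag ε p ∩ q '' sq with hSB
  have cA' : IsClosed SA := fA.isClosed_biUnion (fun p _ => (isClosed_diag ε p).inter cq)
  have cB' : IsClosed SB := fB.isClosed_biUnion (fun p _ => (isClosed_diag ε p).inter cq)
  have hlr : ∀ x, x ∈ q '' {u : ℂ | u.re < 1 / 2} → x ∈ q '' {u : ℂ | 1 / 2 < u.re} → False := by
    rintro x ⟨u, hu, rfl⟩ ⟨v, hv, hve⟩
    have : v = u := hq.inj hve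
    subst this
    have i1 : v.re < 1 / 2 := hu
    have i2 : 1 / 2 < v.re := hv
    linarith
  have hcov : range γ ⊆ SA ∪ SB := by
    rintro _ ⟨s, rfl⟩
    obtain ⟨hO, hQ⟩ := hγ s
    obtain ⟨p, hp, hx⟩ := mem_openSet_diag hω hO
    by_cases hpT : p ∈ T
    · by_cases hr : R (cA p) ∨ R (cB p)
      · exact Or.inl (mem_biUnion (show p ∈ A from ⟨hp, Or.inr ⟨hpT, hr⟩⟩) ⟨hx, hQ⟩)
      · exact Or.inr (mem_biUnion (show p ∈ B from ⟨hp, Or.inr ⟨hpT, hr⟩⟩) ⟨hx, hQ⟩)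
    · rcases h1 p hpT ⟨γ s, hx, hQ⟩ with h | h
      · exact Or.inl (mem_biUnion (show p ∈ A from ⟨hp, Or.inl ⟨hpT, h⟩⟩) ⟨hx, hQ⟩)
      · exact Or.inr (mem_biUnion (show p ∈ B from ⟨hp, Or.inl ⟨hpT, h⟩⟩) ⟨hx, hQ⟩)
  have haA : a ∈ SA := by
    obtain ⟨hO, hQ⟩ := hγ 0
    rw [γ.source] at hO hQ
    obtain ⟨p, hp, hx⟩ := mem_openSet_diag hω hO
    have hpT : p ∉ T := fun hpT => (disjoint_left.1 (h2 p hpT).1) hx ha
    obtain ⟨u, hu, rfl⟩ := ha
    rcases h1 p hpT ⟨_, hx, hQ⟩ with h | h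
    · exact mem_biUnion (show p ∈ A from ⟨hp, Or.inl ⟨hpT, h⟩⟩) ⟨hx, hQ⟩
    · exact absurd (h hx) (fun h' => hlr _ ⟨u, by
        have : u.re = 0 := hu.2
        show u.re < 1 / 2
        rw [this]; norm_num, rfl⟩ h')
  have hbB : b ∈ SB := by
    obtain ⟨hO, hQ⟩ := hγ 1
    rw [γ.target] at hO hQ
    obtain ⟨p, hp, hx⟩ := mem_openSet_diag hω hO
    have hpT : p ∉ T := fun hpT => (disjoint_left.1 (h2 p hpT).2) hx hb
    obtain ⟨u, hu, rfl⟩ := hb
    rcases h1 p hpT ⟨_, hx, hQ⟩ with h | h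
    · exact absurd (h hx) (fun h' => hlr _ h' ⟨u, by
        have : u.re = 1 := hu.2
        show 1 / 2 < u.re
        rw [this]; norm_num, rfl⟩)
    · exact mem_biUnion (show p ∈ B from ⟨hp, Or.inl ⟨hpT, h⟩⟩) ⟨hx, hQ⟩
  have hconn : IsPreconnected (range γ) := isPreconnected_range γ.continuous
  obtain ⟨x, -, hxA, hxB⟩ := isPreconnected_closed_iff.1 hconn SA SB cA' cB' hcov
    ⟨a, ⟨0, γ.source⟩, haA⟩ ⟨b, ⟨1, γ.target⟩, hbB⟩
  rw [hSA, mem_iUnion₂] at hxA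
  rw [hSB, mem_iUnion₂] at hxB
  obtain ⟨p, ⟨hpω, hpA⟩, hxp, hxq⟩ := hxA
  obtain ⟨p', ⟨hpω', hpB⟩, hxp', -⟩ := hxB
  rcases hpA with ⟨hpT, hpl⟩ | ⟨hpT, hpr⟩
  · rcases hpB with ⟨hpT', hpl'⟩ | ⟨hpT', hpr'⟩
    · exact hlr x (hpl hxp) (hpl' hxp')
    · have hne : p' ≠ p := by rintro rfl; exact hpT hpT'
      obtain ⟨w, hw', hw, rfl⟩ := diag_inter hε hxp' hxp hne
      have hwL := (h3 p' hpT' p hpT w hw' hw hxq).1 (hpl hxp)
      apply hpr'
      rcases hw' with rfl | rfl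
      · exact Or.inl ⟨_, hwL, Relation.ReflTransGen.refl⟩
      · exact Or.inr ⟨_, hwL, Relation.ReflTransGen.refl⟩
  · have hRR := hRstep p hpT hpω hpr
    rcases hpB with ⟨hpT', hpl'⟩ | ⟨hpT', hpr'⟩
    · have hne : p ≠ p' := by rintro rfl; exact hpT' hpT
      obtain ⟨w, hw, hw', rfl⟩ := diag_inter hε hxp hxp' hne
      have hwR := (h3 p hpT p' hpT' w hw hw' hxq).2 (hpl' hxp')
      rcases hw with rfl | rfl
      · exact hRVR _ hRR.1 hwR
      · exact hRVR _ hRR.2 hwR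
    · have hne : p ≠ p' := by rintro rfl; exact hpr' hpr
      obtain ⟨w, hw, hw', rfl⟩ := diag_inter hε hxp hxp' hne
      have hRw : R w := by
        rcases hw with rfl | rfl
        · exact hRR.1
        · exact hRR.2
      apply hpr'
      rcases hw' with rfl | rfl
      · exact Or.inl hRw
      · exact Or.inr hRw

end Full
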