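import Pool.Agent.Full.Asm.Final
import Pool.Agent.Full.End.PolyWn
import Pool.Agent.Full.End.Sand

/-!
# FULL: interface between the lattice part and the end game

`Coarse` = a simple closed lattice polygon `v 0, v 1, .., v n = v 0` (counterclockwise), with four marks, each on an edge
which points to the east (the region is above the edge).  Cell `p` = the unit square with lower left corner `p`; the
region of the polygon is the set of the cells `p` with `B.In p`.  The region is refined `k` times: the fine cell `f` lies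
in the coarse cell `cc k f`; the fine lattice point `w` is the point `fp k w` of the plane of the coarse lattice.

Arcs: `On 0` bottom (`e 0` to `e 1`), `On 1` right (`e 1` to `e 2`), `On 2` top (`e 2` to `e 3`), `On 3` left
(`e 3` to `e 0`).  `On 1` and `On 3` are wired (primal = even fine lattice points).
Sides of the observable (`side j` is opposite to the vertex `vert j`, the value at the mark `e j`): `Side 0` = right,
`Side 1` = top and left, `Side 2` = bottom.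

`Lat` is everything that the end game needs about the lattice observables; `CApprox` is everything that it needs about the
polygons.
-/

set_option autoImplicit false

open Set Filter Topology H47Perc Complex Metric

namespace Full

/-- coarse polygons -/
structure Coarse where
  n : ℕ
  v : ℕ → ℤ × ℤ
  M : Fin 4 → ℕ
  poly : SPoly n v
  ccw : ∀ p, sc n v p = 0 ∨ sc n v p = 1
  m01 : M 0 < M 1
  m12 : M 1 < M 2
  m23 : M 2 < M 3
  m3 : M 3 < n
  east : ∀ j, v (M j + 1) = v (M j) + (1, 0)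

/-- a coarse lattice point in the plane -/
noncomputable def cp (w : ℤ × ℤ) : ℂ := ⟨w.1, w.2⟩

/-- a fine lattice point in the plane of the coarse lattice -/
noncomputable def fp (k : ℕ) (w : ℤ × ℤ) : ℂ := ⟨w.1 / k, w.2 / k⟩

/-- the coarse cell of a fine cell -/
def cc (k : ℕ) (f : ℤ × ℤ) : ℤ × ℤ := (f.1 / k, f.2 / k)

/-- the cell of a point -/
noncomputable def cell (z : ℂ) : ℤ × ℤ := (⌊z.re⌋, ⌊z.im⌋)

namespace Coarse
variable (B : Coarse)

/-- the cells of the region -/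
def In (p : ℤ × ℤ) : Prop := sc B.n B.v p = 1

/-- the cell or one of its eight neighbours is in the region -/
def Nb (p : ℤ × ℤ) : Prop := ∃ p', B.In p' ∧ |p'.1 - p.1| ≤ 1 ∧ |p'.2 - p.2| ≤ 1

/-- the cell and its eight neighbours are in the region -/
def Int9 (p : ℤ × ℤ) : Prop := ∀ p' : ℤ × ℤ, |p'.1 - p.1| ≤ 1 → |p'.2 - p.2| ≤ 1 → B.In p'

/-- the edges of the closed arcs -/
def On (j : Fin 4) (i : ℕ) : Prop :=
  i < B.n ∧ if j = 3 then i ≤ B.M 0 ∨ B.M 3 ≤ i else B.M j ≤ i ∧ i ≤ B.M (j + 1)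

/-- the edges of the closed sides of the observable -/
def Side : ℕ → ℕ → Prop
  | 0, i => B.On 1 i
  | 1, i => B.On 2 i ∨ B.On 3 i
  | 2, i => B.On 0 i
  | _, _ => False

/-- `z` is at distance at least `R` from the edges `i` with `s i` -/
def Far (s : ℕ → Prop) (z : ℂ) (R : ℝ) : Prop := ∀ i < B.n, s i → R ≤ ‖z - cp (B.v i)‖

/-- `z` is inside, at distance at least `R` from the polygon -/
def Deep (z : ℂ) (R : ℝ) : Prop := B.In (cell z) ∧ B.Far (fun _ => True) z R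

/-- `z` is joined to the mark `j` inside the region, at distance at most `d` from the mark -/
def Acc (j : Fin 4) (z : ℂ) (d : ℝ) : Prop :=
  Relation.ReflTransGen (fun p p' => Adj p p' ∧ B.In p' ∧ ‖cp p' - cp (B.v (B.M j))‖ ≤ d)
    (B.v (B.M j)) (cell z)

/-- fine tile domains which approximate the region of the polygon, with left and right walls -/
structure Adm (k : ℕ) (T VL VR : Set (ℤ × ℤ)) : Prop where
  sub : ∀ f ∈ T, B.Nb (cc k f)
  int : ∀ f, B.Int9 (cc k f) → f ∈ T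
  left : ∀ w ∈ VL, ∃ i, B.On 3 i ∧ ‖fp k w - cp (B.v i)‖ ≤ 3
  right : ∀ w ∈ VR, ∃ i, B.On 1 i ∧ ‖fp k w - cp (B.v i)‖ ≤ 3
  left' : ∀ f ∈ T, ∀ f', f' ∉ T → ∀ w, (w = cA f ∨ w = cB f) → (w = cA f' ∨ w = cB f') →
    B.Far (fun i => B.On 0 i ∨ B.On 1 i ∨ B.On 2 i) (fp k w) 10 → w ∈ VL
  right' : ∀ f ∈ T, ∀ f', f' ∉ T → ∀ w, (w = cA f ∨ w = cB f) → (w = cA f' ∨ w = cB f') →
    B.Far (fun i => B.On 0 i ∨ B.On 2 i ∨ B.On 3 i) (fp k w) 10 → w ∈ VR

/-- all vertices of `ℤ²` near the region -/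
def Big (k : ℕ) (S : Finset (ℤ × ℤ)) : Prop :=
  ∀ f, B.Nb (cc k f) → pv (cA f) ∈ S ∧ pv (cB f) ∈ S

/-- `p` is, up to `η`, the probability of an open path in the region from the left to the right wall.  (The domain
may differ from the region at distance one from the polygon, and may be a mixture.) -/
structure Perc (η : ℝ) (k : ℕ) (p : ℝ) : Prop where
  lo : ∀ E : Finset (Sym2 (ℤ × ℤ)) → Prop,
    (∀ T VL VR, B.Adm k T VL VR → ∀ ω : Finset (Sym2 (ℤ × ℤ)), (∀ e ∈ ω, ∃ f, e = bond f) →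
      CrossT T VL VR ω → E ω) → ∀ S, B.Big k S → p ≤ perc half S E + η
  hi : ∀ E : Finset (Sym2 (ℤ × ℤ)) → Prop,
    (∀ T VL VR, B.Adm k T VL VR → ∀ ω : Finset (Sym2 (ℤ × ℤ)), (∀ e ∈ ω, ∃ f, e = bond f) →
      E ω → CrossT T VL VR ω) → ∀ S, B.Big k S → perc half S E ≤ p + η

/-- one arm bounds for the observable `F` (`p` = the crossing probability), up to `ε` -/
structure Bounds (C c ε : ℝ) (F : ℂ → ℂ) (p : ℝ) : Prop where
  bound : ∀ z, B.Deep z 10 → ‖F z‖ ≤ C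
  cont : ∀ z w R, 10 ≤ R → B.Deep z R → ‖z - w‖ ≤ R / 2 → ‖F z - F w‖ ≤ C * (‖z - w‖ / R) ^ c + ε
  side : ∀ j < 3, ∀ z d R, 10 ≤ d → d ≤ R → B.Deep z 10 → (∃ i, B.Side j i ∧ ‖z - cp (B.v i)‖ ≤ d) →
    B.Far (fun i => ∃ j' < 3, j' ≠ j ∧ B.Side j' i) z R → infDist (F z) (side j) ≤ C * (d / R) ^ c + ε
  mark : ∀ j : Fin 3, ∀ z d R, 10 ≤ d → d ≤ R → B.Deep z 10 → B.Acc j.castSucc z d →
    B.Far (B.Side j) z R → ‖F z - vert j‖ ≤ C * (d / R) ^ c + ε
  four : ∀ z d R, 10 ≤ d → d ≤ R → B.Deep z 10 → B.Acc 3 z d →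
    B.Far (fun i => B.On 0 i ∨ B.On 1 i) z R → ‖F z - cv p‖ ≤ C * (d / R) ^ c + ε

end Coarse

/-- **THE LATTICE PART**: for every coarse polygon and every `η` there is a number `U` (subdivisions of a coarse edge)
and there are observables `F n` for the refinements `k = n U` (the domains may differ from the region of the polygon
at distance one from the polygon), with one arm bounds which do not depend on anything, with the crossing
probability up to `η`, and with contour sums at most `η` -/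
def Lat : Prop :=
  ∃ C c : ℝ, 0 < C ∧ 0 < c ∧ ∀ (B : Coarse) (η : ℝ), 0 < η → ∃ (U : ℕ) (F : ℕ → ℂ → ℂ) (p : ℕ → ℝ), 0 < U ∧
    (∀ ε > 0, ∀ᶠ n in atTop, B.Bounds C c ε (F n) (p n)) ∧ (∀ᶠ n in atTop, B.Perc η (n * U) (p n)) ∧
    ∀ x₁ x₂ y₁ y₂ : ℝ, x₁ < x₂ → y₁ < y₂ → (∀ z ∈ Icc x₁ x₂ ×ℂ Icc y₁ y₂, B.Deep z 10) →
      ∀ᶠ n : ℕ in atTop, ‖dcont (1 / ((n * U : ℕ) : ℝ)) (F n) x₁ x₂ y₁ y₂‖ ≤ η

/-- `B` (scaled by `a`) approximates the closed curve `γ`, up to `τ`; `t i` is the label of the vertex `v i`.  Labels of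
the corners: `1/2`, `3/2`, `5/2`, `7/2` -/
structure CApprox (γ : ℝ → ℂ) (a τ : ℝ) (B : Coarse) (t : ℕ → ℝ) : Prop where
  pos : 0 < a
  le : a ≤ τ
  close : ∀ i ≤ B.n, ‖gp a (B.v i) - γ (t i)‖ ≤ τ
  mono : ∀ i < B.n, t i ≤ t (i + 1)
  jump : ∀ i < B.n, t (i + 1) ≤ t i + τ
  mem : ∀ i ≤ B.n, t i ∈ Icc (0 : ℝ) 4
  start : t 0 ≤ τ
  fin : 4 - τ ≤ t B.n
  mark : ∀ j : Fin 4, |t (B.M j) - ((j : ℕ) + 1 / 2)| ≤ τ
  wn : ∀ p, (∀ s ∈ Icc (0 : ℝ) 4, τ ≤ ‖γ s - tctr a p‖) → ∀ m, Wn (fun s => γ s - tctr a p) m →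
    sc B.n B.v p = m

/-- the boundary of the rectangle `[1/2 - hx, 1/2 + hx] × [1/2 - hy, 1/2 + hy]` under `q`, in the coordinates of the tile
lattice (rotated by 45 degrees) -/
noncomputable def gam (q : ℂ → ℂ) (hx hy : ℝ) (s : ℝ) : ℂ :=
  (1 + I) * q (rect (1 / 2 + I / 2) hx hy (sqb s))

/-- polygons exist -/
def GPoly : Prop :=
  ∀ q : ℂ → ℂ, IsTame q → Pos q → ∀ hx hy : ℝ, 0 < hx → 0 < hy → ∀ τ : ℝ, 0 < τ →
    ∃ (a : ℝ) (B : Coarse) (t : ℕ → ℝ), CApprox (gam q hx hy) a τ B t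

/-- the sandwich, lower side -/
def GMinus : Prop :=
  ∀ q : ℂ → ℂ, IsTame q → ∀ η : ℝ, 0 < η → η < 1 / 4 → ∃ τ > 0, ∀ (a : ℝ) (B : Coarse) (t : ℕ → ℝ),
    CApprox (gam q (1 / 2 + η) (1 / 2 - η)) a τ B t → ∃ ρ > 0, ∀ (ε : ℝ) (k : ℕ), 0 < ε → ε < ρ →
      |k * ε - a| < ρ → ∀ T VL VR, B.Adm k T VL VR → ∀ ω : Finset (Sym2 (ℤ × ℤ)), CrossT T VL VR ω → Crossed ε q ω

/-- the sandwich, upper side -/
def GPlus : Prop :=
  ∀ q : ℂ → ℂ, IsTame q → ∀ η : ℝ, 0 < η → η < 1 / 4 → ∃ τ > 0, ∀ (a : ℝ) (B : Coarse) (t : ℕ → ℝ),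
    CApprox (gam q (1 / 2 - η) (1 / 2 + η)) a τ B t → ∃ ρ > 0, ∀ (ε : ℝ) (k : ℕ), 0 < ε → ε < ρ →
      |k * ε - a| < ρ → ∀ T VL VR, B.Adm k T VL VR → ∀ ω : Finset (Sym2 (ℤ × ℤ)), (∀ e ∈ ω, ∃ f, e = bond f) →
        Crossed ε q ω → CrossT T VL VR ω

/-- the boundary value problem -/
def GBvp : Prop :=
  Lat → ∀ q : ℂ → ℂ, IsTame q → Pos q → ∀ (a τ : ℕ → ℝ) (B : ℕ → Coarse) (t : ℕ → ℕ → ℝ),
    Tendsto τ atTop (𝓝 0) → (∀ m, CApprox (gam q (1 / 2) (1 / 2)) (a m) (τ m) (B m) (t m)) →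
      ∃ (F : ℕ × ℝ → ℂ → ℂ) (p : ℕ × ℝ → ℝ) (k : ℕ × ℝ → ℕ), Appr q atTop F p ∧
        (∀ m, Tendsto (fun ε => k (m, ε) * ε) mesh (𝓝 (a m))) ∧
        ∀ m, ∀ᶠ ε in mesh, (B m).Perc (a m) (k (m, ε)) (p (m, ε))

end Full
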