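import Pool.Agent.Full.End.Limit

/-!
# FULL, end game: boundary conditions in the limit sense only

`D` is a bounded connected open set.  A function which is holomorphic in `D` and whose values approach the
side `j` of the equilateral triangle at every point of the arc `A j` is unique (if there is a mark
`z0 ∈ A j0 ∩ A (j0 + 1)`).  No continuity up to the boundary is assumed.
A family of functions on `D` which satisfies the boundary conditions asymptotically and whose ultrafilter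
limits are holomorphic converges to this function; the values at a fourth mark converge, too.
-/

set_option autoImplicit false

namespace Full

open Complex Set Filter Topology Metric

/-- the boundary value problem, boundary conditions in the limit sense -/
structure LSol (D : Set ℂ) (A : ℕ → Set ℂ) (F : ℂ → ℂ) : Prop where
  diff : DifferentiableOn ℂ F D
  bdry : ∀ j, ∀ ζ ∈ A j, Tendsto (fun z => infDist (F z) (side j)) (𝓝[D] ζ) (𝓝 0)

lemma side_compact (j : ℕ) : IsCompact (side j) := by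
  unfold side
  rw [segment_eq_image]
  exact isCompact_Icc.image (by fun_prop)

lemma exists_near_side {j : ℕ} {a : ℂ} {η : ℝ} (h : infDist a (side j) ≤ η) :
    ∃ x ∈ side j, ‖a - x‖ ≤ η := by
  obtain ⟨x, hx, hax⟩ := (side_compact j).exists_infDist_eq_dist (side_nonempty j) a
  refine ⟨x, hx, ?_⟩
  rw [← dist_eq_norm, ← hax]
  exact h

lemma norm_tau : ‖tau‖ = 1 := by
  have h : ‖tau‖ ^ 3 = 1 := by rw [← norm_pow, tau_cube, norm_one]
  nlinarith [norm_nonneg tau, sq_nonneg (‖tau‖ - 1), sq_nonneg (‖tau‖ + 1), h]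

lemma norm_vert (j : ℕ) : ‖vert j‖ = 1 := by
  rw [vert, norm_pow, norm_tau, one_pow]

lemma norm_sub_side {j : ℕ} {x y : ℂ} (hx : x ∈ side j) (hy : y ∈ side j) : ‖x - y‖ ≤ 2 := by
  have h : ∀ w ∈ side j, ‖w‖ ≤ 1 := by
    intro w hw
    obtain ⟨a, b, ha, hb, hab, rfl⟩ := hw
    calc ‖a • vert (j + 1) + b • vert (j + 2)‖ ≤ ‖a • vert (j + 1)‖ + ‖b • vert (j + 2)‖ := norm_add_le _ _
      _ = 1 := by
        rw [norm_smul, norm_smul, norm_vert, norm_vert, mul_one, mul_one, Real.norm_of_nonneg ha,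
          Real.norm_of_nonneg hb, hab]
  calc ‖x - y‖ ≤ ‖x‖ + ‖y‖ := norm_sub_le _ _
    _ ≤ 1 + 1 := add_le_add (h x hx) (h y hy)
    _ = 2 := by norm_num

/-- two points close to the same side: the cube of the difference has small real part -/
lemma cube_re_near {j : ℕ} {a b : ℂ} {η : ℝ} (hη : 0 ≤ η) (hη1 : η ≤ 1) (ha : infDist a (side j) ≤ η)
    (hb : infDist b (side j) ≤ η) : |((a - b) ^ 3).re| ≤ 60 * η := by
  obtain ⟨x, hx, hax⟩ := exists_near_side ha
  obtain ⟨y, hy, hby⟩ := exists_near_side hb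
  set d := x - y with hd
  set e := (a - x) - (b - y) with he
  have hab : a - b = d + e := by rw [hd, he]; ring
  have hne : ‖e‖ ≤ 2 * η := by
    calc ‖e‖ ≤ ‖a - x‖ + ‖b - y‖ := norm_sub_le _ _
      _ ≤ 2 * η := by linarith
  have hnd : ‖d‖ ≤ 2 := norm_sub_side hx hy
  have h0 : (d ^ 3).re = 0 := cube_re hx hy
  have h1 : (a - b) ^ 3 = d ^ 3 + e * (3 * d ^ 2 + 3 * d * e + e ^ 2) := by rw [hab]; ring
  rw [h1, add_re, h0, zero_add]
  calc |(e * (3 * d ^ 2 + 3 * d * e + e ^ 2)).re| ≤ ‖e * (3 * d ^ 2 + 3 * d * e + e ^ 2)‖ := abs_re_le_norm _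
    _ = ‖e‖ * ‖3 * d ^ 2 + 3 * d * e + e ^ 2‖ := norm_mul _ _
    _ ≤ (2 * η) * 28 := by
      refine mul_le_mul hne ?_ (norm_nonneg _) (by linarith)
      calc ‖3 * d ^ 2 + 3 * d * e + e ^ 2‖ ≤ ‖3 * d ^ 2‖ + ‖3 * d * e‖ + ‖e ^ 2‖ := norm_add₃_le
        _ = 3 * ‖d‖ ^ 2 + 3 * ‖d‖ * ‖e‖ + ‖e‖ ^ 2 := by
          rw [norm_mul, norm_mul, norm_mul, norm_pow, norm_pow]; norm_num
        _ ≤ 3 * 2 ^ 2 + 3 * 2 * 2 + 2 ^ 2 := by
          have h2 : ‖e‖ ≤ 2 := by linarith
          have h3 := norm_nonneg d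
          have h4 := norm_nonneg e
          gcongr
        _ = 28 := by norm_num
    _ ≤ 60 * η := by linarith

/-- two points close to the same vertex -/
lemma sub_near {j : ℕ} {a b : ℂ} {η : ℝ} (ha : infDist a (side j) ≤ η)
    (hb : infDist b (side j) ≤ η) (ha' : infDist a (side (j + 1)) ≤ η)
    (hb' : infDist b (side (j + 1)) ≤ η) : ‖a - b‖ ≤ 8 * η := by
  obtain ⟨x, hx, hax⟩ := exists_near_side ha
  obtain ⟨y, hy, hby⟩ := exists_near_side hb
  obtain ⟨x', hx', hax'⟩ := exists_near_side ha'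
  obtain ⟨y', hy', hby'⟩ := exists_near_side hb'
  obtain ⟨r, hr⟩ := side_sub hx hy
  obtain ⟨r', hr'⟩ := side_sub hx' hy'
  have hs3 : (0 : ℝ) < Real.sqrt 3 := Real.sqrt_pos.2 (by norm_num)
  have hs : Real.sqrt 3 ^ 2 = 3 := Real.sq_sqrt (by norm_num)
  have h1 : ‖(x - y) - (x' - y')‖ ≤ 4 * η := by
    have e : (x - y) - (x' - y') = ((a - x') - (b - y')) - ((a - x) - (b - y)) := by ring
    rw [e]
    have i1 := norm_sub_le ((a - x') - (b - y')) ((a - x) - (b - y))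
    have i2 := norm_sub_le (a - x') (b - y')
    have i3 := norm_sub_le (a - x) (b - y)
    linarith
  have h2 : (x - y) - (x' - y') = ((r : ℂ) - r' * tau) * (vert j * ((Real.sqrt 3 : ℝ) * I)) := by
    rw [hr, hr', vert, vert, pow_succ]; ring
  have h3 : ‖(x - y) - (x' - y')‖ = ‖(r : ℂ) - r' * tau‖ * Real.sqrt 3 := by
    rw [h2, norm_mul, norm_mul, norm_vert, one_mul, norm_mul, norm_I, mul_one, Complex.norm_real,
      Real.norm_of_nonneg hs3.le]
  have h4 : |r'| * (Real.sqrt 3 / 2) ≤ ‖(r : ℂ) - r' * tau‖ := by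
    have h5 : ((r : ℂ) - r' * tau).im = -(r' * (Real.sqrt 3 / 2)) := by
      unfold tau
      simp
    calc |r'| * (Real.sqrt 3 / 2) = |((r : ℂ) - r' * tau).im| := by
          rw [h5, abs_neg, abs_mul, abs_of_nonneg (by positivity : (0 : ℝ) ≤ Real.sqrt 3 / 2)]
      _ ≤ _ := abs_im_le_norm _
  have h6 : |r'| * (3 / 2) ≤ 4 * η := by
    have : |r'| * (Real.sqrt 3 / 2) * Real.sqrt 3 ≤ 4 * η := by
      calc |r'| * (Real.sqrt 3 / 2) * Real.sqrt 3 ≤ ‖(r : ℂ) - r' * tau‖ * Real.sqrt 3 := by gcongr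
        _ = ‖(x - y) - (x' - y')‖ := h3.symm
        _ ≤ 4 * η := h1
    have e : |r'| * (Real.sqrt 3 / 2) * Real.sqrt 3 = |r'| * (3 / 2) := by
      linear_combination (|r'| / 2) * hs
    linarith
  have h7 : ‖x' - y'‖ = |r'| * Real.sqrt 3 := by
    rw [hr', norm_mul, norm_mul, norm_vert, one_mul, norm_mul, norm_I, mul_one, Complex.norm_real,
      Complex.norm_real, Real.norm_of_nonneg hs3.le, Real.norm_eq_abs]
  have h8 : Real.sqrt 3 ≤ 2 := by nlinarith
  have h9 : ‖a - b‖ ≤ ‖x' - y'‖ + 2 * η := by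
    have e : a - b = (x' - y') + ((a - x') - (b - y')) := by ring
    rw [e]
    have i1 := norm_add_le (x' - y') ((a - x') - (b - y'))
    have i2 := norm_sub_le (a - x') (b - y')
    linarith
  have h10 : |r'| * Real.sqrt 3 ≤ 6 * η := by
    have := abs_nonneg r'
    nlinarith
  linarith

/-- the maximum principle with boundary values in the limit sense -/
lemma norm_le_one_of_limsup {D : Set ℂ} (hD : IsOpen D) (hc : IsPreconnected D)
    (hb : Bornology.IsBounded D) {f : ℂ → ℂ} (hf : DifferentiableOn ℂ f D)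
    (h : ∀ ζ ∈ frontier D, ∀ ε : ℝ, 0 < ε → ∀ᶠ z in 𝓝[D] ζ, ‖f z‖ ≤ 1 + ε) : ∀ z ∈ D, ‖f z‖ ≤ 1 := by
  intro z0 hz0
  by_contra hlt
  have hlt' : 1 < ‖f z0‖ := not_le.1 hlt
  set K : Set ℂ := {z | z ∈ D ∧ ‖f z0‖ ≤ ‖f z‖} with hK
  have hKD : K ⊆ D := fun z hz => hz.1
  have hKc : IsClosed K := by
    rw [← closure_subset_iff_isClosed]
    intro z hz
    by_cases hzD : z ∈ D
    · refine ⟨hzD, ?_⟩
      have hcont : ContinuousAt (fun w => ‖f w‖) z :=
        ((hf z hzD).differentiableAt (hD.mem_nhds hzD)).continuousAt.norm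
      by_contra hlt2
      have hlt3 : ‖f z‖ < ‖f z0‖ := not_le.1 hlt2
      have hev : ∀ᶠ w in 𝓝 z, ‖f w‖ < ‖f z0‖ := hcont.eventually_lt_const hlt3
      rw [mem_closure_iff_frequently] at hz
      obtain ⟨w, hw1, hw2⟩ := (hz.and_eventually hev).exists
      exact absurd hw1.2 (not_le.2 hw2)
    · exfalso
      have hfr : z ∈ frontier D := by
        rw [hD.frontier_eq]
        exact ⟨closure_mono hKD hz, hzD⟩
      have hev := h z hfr ((‖f z0‖ - 1) / 2) (by linarith)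
      rw [eventually_nhdsWithin_iff] at hev
      rw [mem_closure_iff_frequently] at hz
      obtain ⟨w, hw1, hw2⟩ := (hz.and_eventually hev).exists
      have := hw2 hw1.1
      have := hw1.2
      linarith
  have hKcomp : IsCompact K := Metric.isCompact_of_isClosed_isBounded hKc (hb.subset hKD)
  have hcontK : ContinuousOn (fun w => ‖f w‖) K := (hf.continuousOn.mono hKD).norm
  obtain ⟨c, hcK, hcmax⟩ := hKcomp.exists_isMaxOn ⟨z0, hz0, le_rfl⟩ hcontK
  have hmax : IsMaxOn (norm ∘ f) D c := by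
    intro w hw
    by_cases hwK : ‖f z0‖ ≤ ‖f w‖
    · exact hcmax ⟨hw, hwK⟩
    · exact (not_le.1 hwK).le.trans hcK.2
  have heq := Complex.norm_eqOn_of_isPreconnected_of_isMaxOn hc hD hf hcK.1 hmax
  have hDK : D = K := by
    refine Subset.antisymm (fun w hw => ⟨hw, ?_⟩) hKD
    have := heq hw
    simp only [Function.comp_apply, Function.const_apply] at this
    rw [this]
    exact hcK.2
  have hclopen : IsClopen D := ⟨hDK ▸ hKc, hD⟩
  rcases isClopen_iff.1 hclopen with h0 | h0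
  · rw [h0] at hz0
    exact hz0
  · rw [h0] at hb
    exact NormedSpace.unbounded_univ ℂ ℂ hb

/-- **uniqueness** with boundary conditions in the limit sense -/
theorem LSol.unique {D : Set ℂ} {A : ℕ → Set ℂ} {F G : ℂ → ℂ} (hD : IsOpen D) (hc : IsPreconnected D)
    (hb : Bornology.IsBounded D) (hA : frontier D ⊆ ⋃ j, A j) (hF : LSol D A F) (hG : LSol D A G)
    {z0 : ℂ} {j0 : ℕ} (hz0 : z0 ∈ closure D) (h0 : z0 ∈ A j0) (h1 : z0 ∈ A (j0 + 1)) : EqOn F G D := by
  have hcube : ∀ ζ ∈ frontier D, ∀ ε : ℝ, 0 < ε → ∀ᶠ z in 𝓝[D] ζ, |((F z - G z) ^ 3).re| ≤ ε := by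
    intro ζ hζ ε hε
    obtain ⟨j, hj⟩ := mem_iUnion.1 (hA hζ)
    have hm : (0 : ℝ) < min (ε / 60) 1 := lt_min (by positivity) one_pos
    have e1 := (hF.bdry j ζ hj).eventually_le_const hm
    have e2 := (hG.bdry j ζ hj).eventually_le_const hm
    filter_upwards [e1, e2] with z hz1 hz2
    have := cube_re_near hm.le (min_le_right _ _) hz1 hz2
    have h3 := min_le_left (ε / 60) 1
    linarith
  have hdiff3 : DifferentiableOn ℂ (fun z => (F z - G z) ^ 3) D := (hF.diff.sub hG.diff).pow 3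
  have key : ∀ s : ℂ, (s = 1 ∨ s = -1) → ∀ z ∈ D, ‖Complex.exp (s * (F z - G z) ^ 3)‖ ≤ 1 := by
    intro s hs
    refine norm_le_one_of_limsup hD hc hb ((hdiff3.const_mul s).cexp) ?_
    intro ζ hζ ε hε
    have hlog : 0 < Real.log (1 + ε) := Real.log_pos (by linarith)
    filter_upwards [hcube ζ hζ _ hlog] with z hz
    rw [Complex.norm_exp]
    have hb' : (s * (F z - G z) ^ 3).re ≤ Real.log (1 + ε) := by
      rcases hs with rfl | rfl
      · rw [one_mul]
        exact (le_abs_self _).trans hz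
      · rw [neg_one_mul, neg_re]
        exact (neg_le_abs _).trans hz
    calc Real.exp ((s * (F z - G z) ^ 3).re) ≤ Real.exp (Real.log (1 + ε)) := Real.exp_le_exp.2 hb'
      _ = 1 + ε := Real.exp_log (by linarith)
  have hre : ∀ z ∈ D, ((F z - G z) ^ 3).re = 0 := by
    intro z hz
    have a1 := key 1 (Or.inl rfl) z hz
    have a2 := key (-1) (Or.inr rfl) z hz
    rw [Complex.norm_exp, Real.exp_le_one_iff] at a1 a2
    rw [one_mul] at a1
    rw [neg_one_mul, neg_re] at a2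
    linarith
  rcases D.eq_empty_or_nonempty with hDe | ⟨c, hcD⟩
  · rw [hDe]
    exact fun z hz => absurd hz (notMem_empty z)
  have hn1 : ∀ z ∈ D, ‖Complex.exp ((F z - G z) ^ 3)‖ = 1 := by
    intro z hz
    rw [Complex.norm_exp, hre z hz, Real.exp_zero]
  have hconst := Complex.eqOn_of_isPreconnected_of_isMaxOn_norm hc hD (hdiff3.cexp) hcD
    (fun z hz => by
      show ‖Complex.exp ((F z - G z) ^ 3)‖ ≤ ‖Complex.exp ((F c - G c) ^ 3)‖
      rw [hn1 z hz, hn1 c hcD])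
  have hder : ∀ z ∈ D, deriv (fun w => (F w - G w) ^ 3) z = 0 := by
    intro z hz
    have hd : DifferentiableAt ℂ (fun w => (F w - G w) ^ 3) z := hdiff3.differentiableAt (hD.mem_nhds hz)
    have e1 := hd.hasDerivAt.cexp
    have e2 : (fun w => Complex.exp ((F w - G w) ^ 3)) =ᶠ[𝓝 z] fun _ => Complex.exp ((F c - G c) ^ 3) := by
      filter_upwards [hD.mem_nhds hz] with w hw
      exact hconst hw
    have e3 := (hasDerivAt_const z (Complex.exp ((F c - G c) ^ 3))).congr_of_eventuallyEq e2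
    have e4 := e1.unique e3
    exact (mul_eq_zero.1 e4).resolve_left (Complex.exp_ne_zero _)
  have hD1 : ∀ z ∈ D, (F z - G z) ^ 3 = (F c - G c) ^ 3 := fun z hz =>
    hD.is_const_of_deriv_eq_zero hc hdiff3 (fun w hw => hder w hw) hz hcD
  have hne : (𝓝[D] z0).NeBot := mem_closure_iff_nhdsWithin_neBot.1 hz0
  have hk0 : (F c - G c) ^ 3 = 0 := by
    by_contra hk
    have hkpos : 0 < ‖F c - G c‖ := by
      rw [norm_pos_iff]
      exact fun h => hk (by rw [h]; norm_num)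
    have hη : (0 : ℝ) < ‖F c - G c‖ / 16 := by positivity
    have e1 := (hF.bdry _ z0 h0).eventually_le_const hη
    have e2 := (hG.bdry _ z0 h0).eventually_le_const hη
    have e3 := (hF.bdry _ z0 h1).eventually_le_const hη
    have e4 := (hG.bdry _ z0 h1).eventually_le_const hη
    have e0 : ∀ᶠ z in 𝓝[D] z0, z ∈ D := self_mem_nhdsWithin
    obtain ⟨z, hz, h5, h6, h7, h8⟩ := (e0.and (e1.and (e2.and (e3.and e4)))).exists
    have h9 := sub_near h5 h6 h7 h8
    have h10 := hD1 z hz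
    have h11 : ‖F z - G z‖ ^ 3 = ‖F c - G c‖ ^ 3 := by rw [← norm_pow, ← norm_pow, h10]
    have h12 : ‖F z - G z‖ = ‖F c - G c‖ := by
      exact pow_left_injective₀ (n := 3) h11
    linarith
  intro z hz
  have h13 := hD1 z hz
  rw [hk0] at h13
  exact sub_eq_zero.1 (pow_eq_zero_iff (three_ne_zero) |>.1 h13)
  where
  pow_left_injective₀ {n : ℕ} {a b : ℂ} (h : ‖a‖ ^ 3 = ‖b‖ ^ 3) : ‖a‖ = ‖b‖ :=
    (pow_left_inj₀ (norm_nonneg _) (norm_nonneg _) three_ne_zero).1 h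

section

variable {ι : Type*} {l : Filter ι} {D : Set ℂ} {A : ℕ → Set ℂ} {F : ι → ℂ → ℂ}

/-- the asymptotic boundary value problem -/
structure AsySol (l : Filter ι) (D : Set ℂ) (A : ℕ → Set ℂ) (F : ι → ℂ → ℂ) : Prop where
  bound : ∀ z ∈ D, ∃ C : ℝ, ∀ᶠ i in l, ‖F i z‖ ≤ C
  bdry : ∀ j, ∀ ζ ∈ A j, ∀ η : ℝ, 0 < η → ∃ δ > 0, ∀ z ∈ D, dist z ζ < δ →
    ∀ᶠ i in l, infDist (F i z) (side j) ≤ η
  hol : ∀ U : Ultrafilter ι, (U : Filter ι) ≤ l → ∀ G : ℂ → ℂ,
    (∀ z ∈ D, Tendsto (fun i => F i z) U (𝓝 (G z))) → DifferentiableOn ℂ G D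

/-- a limit along an ultrafilter solves the boundary value problem -/
theorem AsySol.lsol (h : AsySol l D A F) {U : Ultrafilter ι} (hU : (U : Filter ι) ≤ l) {G : ℂ → ℂ}
    (hG : ∀ z ∈ D, Tendsto (fun i => F i z) U (𝓝 (G z))) : LSol D A G := by
  refine ⟨h.hol U hU G hG, fun j ζ hζ => ?_⟩
  rw [Metric.tendsto_nhds]
  intro ε hε
  obtain ⟨δ, hδ, h1⟩ := h.bdry j ζ hζ (ε / 2) (by positivity)
  rw [eventually_nhdsWithin_iff]
  filter_upwards [ball_mem_nhds ζ hδ] with z hz hzD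
  have h2 : Tendsto (fun i => infDist (F i z) (side j)) U (𝓝 (infDist (G z) (side j))) :=
    ((continuous_infDist_pt (side j)).tendsto _).comp (hG z hzD)
  have h3 : infDist (G z) (side j) ≤ ε / 2 := le_of_tendsto h2 (hU (h1 z hzD hz))
  rw [dist_zero_right, Real.norm_of_nonneg infDist_nonneg]
  linarith

/-- **the end game** with boundary conditions in the limit sense -/
theorem AsySol.exists_limit [l.NeBot] (h : AsySol l D A F) (hD : IsOpen D) (hc : IsPreconnected D)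
    (hb : Bornology.IsBounded D) (hA : frontier D ⊆ ⋃ j, A j) {z0 : ℂ} {j0 : ℕ} (hz : z0 ∈ closure D)
    (hz0 : z0 ∈ A j0) (hz1 : z0 ∈ A (j0 + 1)) :
    ∃ G : ℂ → ℂ, LSol D A G ∧ ∀ z ∈ D, Tendsto (fun i => F i z) l (𝓝 (G z)) := by
  have hlim : ∀ U : Ultrafilter ι, (U : Filter ι) ≤ l → ∀ z : ℂ, ∃ x : ℂ, z ∈ D →
      Tendsto (fun i => F i z) U (𝓝 x) := by
    intro U hU z
    by_cases hz : z ∈ D
    · obtain ⟨C, hC⟩ := h.bound z hz
      obtain ⟨x, -, hx⟩ := (isCompact_closedBall (0 : ℂ) C).ultrafilter_le_nhds (U.map fun i => F i z)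
        (le_principal_iff.2 (Filter.mem_map.2 (by
          filter_upwards [hU hC] with i hi
          simpa using hi)))
      exact ⟨x, fun _ => hx⟩
    · exact ⟨0, fun h => absurd h hz⟩
  have hlim' : ∀ U : Ultrafilter ι, ∃ G : ℂ → ℂ, (U : Filter ι) ≤ l → ∀ z ∈ D,
      Tendsto (fun i => F i z) U (𝓝 (G z)) := by
    intro U
    by_cases hU : (U : Filter ι) ≤ l
    · choose G hG using hlim U hU
      exact ⟨G, fun _ => hG⟩
    · exact ⟨0, fun h => absurd h hU⟩
  choose G hG using hlim'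
  have hEq : ∀ U V : Ultrafilter ι, (U : Filter ι) ≤ l → (V : Filter ι) ≤ l → EqOn (G U) (G V) D :=
    fun U V hU hV => LSol.unique hD hc hb hA (h.lsol hU (hG U hU)) (h.lsol hV (hG V hV)) hz hz0 hz1
  let U0 : Ultrafilter ι := Ultrafilter.of l
  have hU0 : (U0 : Filter ι) ≤ l := Ultrafilter.of_le l
  refine ⟨G U0, h.lsol hU0 (hG U0 hU0), fun z hz => ?_⟩
  rw [tendsto_iff_ultrafilter]
  intro V hV
  have h1 := hG V hV z hz
  rw [hEq V U0 hV hU0 hz] at h1
  exact h1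

/-- the values `p i` at a boundary point which is asymptotically joined to the interior converge -/
theorem tendsto_mark [l.NeBot] {G : ℂ → ℂ} (hG : ∀ z ∈ D, Tendsto (fun i => F i z) l (𝓝 (G z))) {x : ℂ}
    (hx : x ∈ closure D) {p : ι → ℂ}
    (hp : ∀ η : ℝ, 0 < η → ∃ δ > 0, ∀ z ∈ D, dist z x < δ → ∀ᶠ i in l, dist (F i z) (p i) ≤ η) :
    ∃ L : ℂ, Tendsto G (𝓝[D] x) (𝓝 L) ∧ Tendsto p l (𝓝 L) := by
  have hne : (𝓝[D] x).NeBot := mem_closure_iff_nhdsWithin_neBot.1 hx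
  -- `G` is Cauchy at `x`
  have hc : ∀ η : ℝ, 0 < η → ∃ δ > 0, ∀ z ∈ D, dist z x < δ → ∀ᶠ i in l, dist (G z) (p i) ≤ η := by
    intro η hη
    obtain ⟨δ, hδ, h⟩ := hp (η / 2) (by positivity)
    refine ⟨δ, hδ, fun z hz hzx => ?_⟩
    filter_upwards [h z hz hzx, Metric.tendsto_nhds.1 (hG z hz) (η / 2) (by positivity)] with i h1 h2
    calc dist (G z) (p i) ≤ dist (G z) (F i z) + dist (F i z) (p i) := dist_triangle _ _ _
      _ ≤ η := by
        rw [dist_comm (G z)]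
        linarith
  have hcau : Cauchy (map G (𝓝[D] x)) := by
    rw [Metric.cauchy_iff]
    refine ⟨hne.map G, fun ε hε => ?_⟩
    obtain ⟨δ, hδ, h⟩ := hc (ε / 3) (by positivity)
    refine ⟨G '' (ball x δ ∩ D), image_mem_map (inter_mem (mem_nhdsWithin_of_mem_nhds
      (ball_mem_nhds x hδ)) self_mem_nhdsWithin), ?_⟩
    rintro _ ⟨z, ⟨hz1, hz2⟩, rfl⟩ _ ⟨w, ⟨hw1, hw2⟩, rfl⟩
    obtain ⟨i, h1, h2⟩ := ((h z hz2 hz1).and (h w hw2 hw1)).exists
    calc dist (G z) (G w) ≤ dist (G z) (p i) + dist (G w) (p i) := dist_triangle_right _ _ _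
      _ < ε := by linarith
  obtain ⟨L, hL⟩ := CompleteSpace.complete hcau
  refine ⟨L, hL, ?_⟩
  rw [Metric.tendsto_nhds]
  intro ε hε
  obtain ⟨δ, hδ, h⟩ := hc (ε / 3) (by positivity)
  have e1 : ∀ᶠ z in 𝓝[D] x, dist (G z) L < ε / 3 := Metric.tendsto_nhds.1 hL _ (by positivity)
  have e2 : ∀ᶠ z in 𝓝[D] x, z ∈ D := self_mem_nhdsWithin
  have e3 : ∀ᶠ z in 𝓝[D] x, dist z x < δ := mem_nhdsWithin_of_mem_nhds (ball_mem_nhds x hδ)
  obtain ⟨z, hz1, hz2, hz3⟩ := (e1.and (e2.and e3)).exists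
  filter_upwards [h z hz2 hz3] with i hi
  calc dist (p i) L ≤ dist (G z) (p i) + dist (G z) L := dist_triangle_left _ _ _
    _ < ε := by linarith

end

/-- **conformal covariance** of the boundary value problem (limit sense) -/
theorem LSol.comp {D D' : Set ℂ} {A A' : ℕ → Set ℂ} {G : ℂ → ℂ} (h : LSol D' A' G) {φ : ℂ → ℂ}
    (h1 : ContinuousOn φ (closure D)) (h2 : DifferentiableOn ℂ φ D)
    (h4 : MapsTo φ D D') (h5 : ∀ j, MapsTo φ (A j) (A' j)) (h6 : ∀ j, A j ⊆ closure D) :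
    LSol D A (G ∘ φ) where
  diff := h.diff.comp h2 h4
  bdry j ζ hζ := by
    have h7 : Tendsto φ (𝓝[D] ζ) (𝓝[D'] (φ ζ)) := by
      refine tendsto_nhdsWithin_iff.2 ⟨?_, ?_⟩
      · exact (h1 ζ (h6 j hζ)).mono_left (nhdsWithin_mono ζ subset_closure)
      · filter_upwards [self_mem_nhdsWithin] with z hz
        exact h4 hz
    exact (h.bdry j (φ ζ) (h5 j hζ)).comp h7

end Full
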