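import Pool.Agent.Full.End.Bd

/-!
# FULL, end game: orientation of tame maps

The winding number of a tame map does not change under conformal maps, changes sign under the reflection
`u ↦ conj u` of the parameter square, and is the same for all rectangles.
-/

set_option autoImplicit false

namespace Full

open Set Filter Topology Complex ComplexConjugate

lemma cl_neg (x : ℝ) : -cl x = cl (-x) := by
  rcases le_total x (-1) with h | h
  · rw [cl_of_le h, cl_of_ge (by linarith)]; norm_num
  rcases le_total x 1 with h' | h'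
  · rw [cl_of_mem h h', cl_of_mem (by linarith) (by linarith)]
  · rw [cl_of_ge h', cl_of_le (by linarith)]

lemma conj_sb (t : ℝ) : conj (sqb t) = sqb (4 - t) := by
  rcases le_total t (1 / 2) with h | h
  · rw [sb_left h, sb_left' (by linarith)]
    apply Complex.ext
    · simp
    · simp only [conj_im]
      rw [cl_neg]
      congr 1
      ring
  rcases le_total t (3 / 2) with h' | h'
  · rw [sb_bot h h', sb_top (by linarith) (by linarith)]
    apply Complex.ext <;> simp <;> ring
  rcases le_total t (5 / 2) with h'' | h''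
  · rw [sb_right h' h'', sb_right (by linarith) (by linarith)]
    apply Complex.ext <;> simp <;> ring
  rcases le_total t (7 / 2) with h3 | h3
  · rw [sb_top h'' h3, sb_bot (by linarith) (by linarith)]
    apply Complex.ext <;> simp <;> ring
  · rw [sb_left' h3, sb_left (by linarith)]
    apply Complex.ext
    · simp
    · simp only [conj_im]
      rw [cl_neg]
      congr 1
      ring

/-- the reflection of the parameter square inverts the orientation -/
theorem POri.reverse {Q : ℂ → ℂ} {m : ℤ} (h : POri Q m) : POri (fun z => Q (conj z)) (-m) := by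
  intro u hu
  have hu' : conj u ∈ os := by
    simpa [os] using hu
  obtain ⟨σ, hσ, hσ2, h4⟩ := h (conj u) hu'
  refine ⟨fun t => σ (4 - t), by fun_prop, fun t => ?_, ?_⟩
  · rw [hσ2]
    show Q (sqb (4 - t)) - Q (conj u) = Q (conj (sqb t)) - Q (conj u)
    rw [conj_sb]
  · simp only [sub_self, sub_zero]
    rw [h4]
    push_cast
    ring

/-- conformal maps preserve the orientation -/
theorem POri.conf {Q f : ℂ → ℂ} (hQ : Continuous Q) (hi : Function.Injective Q) (ho : IsOpenMap Q)
    (hf : InjOn f (range Q)) (hd : DifferentiableOn ℂ f (range Q)) {m : ℤ} (h : POri Q m) :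
    POri (f ∘ Q) m := by
  have hro : IsOpen (range Q) := ho.isOpen_range
  have hfQc : Continuous (f ∘ Q) := by
    rw [continuous_iff_continuousAt]
    intro x
    exact ((hd.differentiableAt (hro.mem_nhds (mem_range_self x))).continuousAt).comp hQ.continuousAt
  have hfQi : Function.Injective (f ∘ Q) := fun x y hxy =>
    hi (hf (mem_range_self x) (mem_range_self y) hxy)
  -- a point with non vanishing derivative
  obtain ⟨u, hu, hdu⟩ : ∃ u ∈ os, deriv f (Q u) ≠ 0 := by
    by_contra hcon
    push Not at hcon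
    have hos : IsOpen os := by
      have : os = (fun z : ℂ => |z.re|) ⁻¹' (Iio 1) ∩ (fun z : ℂ => |z.im|) ⁻¹' (Iio 1) := rfl
      rw [this]
      exact (isOpen_Iio.preimage (continuous_re.abs)).inter (isOpen_Iio.preimage (continuous_im.abs))
    have hpre : IsPreconnected os := by
      have hconv : Convex ℝ os := by
        intro z hz w hw a b ha hb hab
        have h1 := hz.1
        have h2 := hw.1
        have h3 := hz.2
        have h4 := hw.2
        rw [abs_lt] at h1 h2 h3 h4
        have e1 : (a • z + b • w).re = a * z.re + b * w.re := by simp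
        have e2 : (a • z + b • w).im = a * z.im + b * w.im := by simp
        refine ⟨?_, ?_⟩
        · rw [e1, abs_lt]
          rcases eq_or_lt_of_le ha with h0 | h0
          · have hb1 : b = 1 := by linarith
            rw [← h0, hb1]; constructor <;> linarith
          · constructor <;> nlinarith
        · rw [e2, abs_lt]
          rcases eq_or_lt_of_le ha with h0 | h0
          · have hb1 : b = 1 := by linarith
            rw [← h0, hb1]; constructor <;> linarith
          · constructor <;> nlinarith
      exact hconv.isPreconnected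
    have hd0 : EqOn (deriv f) 0 (Q '' os) := by
      rintro _ ⟨v, hv, rfl⟩
      exact hcon v hv
    have hh : ((1 : ℂ) / 2) ∈ os := by
      have e1 : ((1 : ℂ) / 2).re = 1 / 2 := by norm_num
      have e2 : ((1 : ℂ) / 2).im = 0 := by norm_num
      unfold os
      refine ⟨?_, ?_⟩
      · rw [e1]; norm_num
      · rw [e2]; norm_num
    have h1 : f (Q 0) = f (Q (1 / 2)) := (ho _ hos).is_const_of_deriv_eq_zero
      (hpre.image Q hQ.continuousOn) (hd.mono (image_subset_range _ _)) hd0
      (mem_image_of_mem Q zero_mem_os) (mem_image_of_mem Q hh)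
    have h2 := hi (hf (mem_range_self _) (mem_range_self _) h1)
    norm_num at h2
  have hKc : Continuous fun x => dslope f (Q u) (Q x) := by
    have h1 : ContinuousOn (dslope f (Q u)) (range Q) :=
      (continuousOn_dslope (hro.mem_nhds (mem_range_self u))).2
        ⟨hd.continuousOn, hd.differentiableAt (hro.mem_nhds (mem_range_self u))⟩
    exact h1.comp_continuous hQ fun x => mem_range_self x
  have hK0 : ∀ x, dslope f (Q u) (Q x) ≠ 0 := by
    intro x
    by_cases hx : Q x = Q u
    · rw [hx, dslope_same]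
      exact hdu
    · intro h0
      have h1 := sub_smul_dslope f (Q u) (Q x)
      rw [h0, smul_zero] at h1
      exact hx (hf (mem_range_self x) (mem_range_self u) (sub_eq_zero.1 h1.symm))
  obtain ⟨κ, hκ, hκ2⟩ := exists_log hKc hK0
  have key : Wn (fun t => (f ∘ Q) (sqb t) - (f ∘ Q) u) m := by
    obtain ⟨σ, hσ, hσ2, h4⟩ := h u hu
    refine ⟨fun t => σ t + κ (sqb t), hσ.add (hκ.comp continuous_sb), fun t => ?_, ?_⟩
    · rw [exp_add, hσ2, hκ2, ← smul_eq_mul, sub_smul_dslope]
      rfl
    · simp only [← sb_zero_four]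
      rw [h4]; ring
  intro v hv
  exact (wn_move hfQc hfQi hv).2 ((wn_move hfQc hfQi hu).1 key)

/-- the affine map of `[-1, 1]²` onto the rectangle with centre `o` and half sides `hx`, `hy` -/
noncomputable def rect (o : ℂ) (hx hy : ℝ) (z : ℂ) : ℂ := ⟨o.re + hx * z.re, o.im + hy * z.im⟩

lemma continuous_rect (o : ℂ) (hx hy : ℝ) : Continuous (rect o hx hy) := by
  have : rect o hx hy = fun z => ((o.re + hx * z.re : ℝ) : ℂ) + ((o.im + hy * z.im : ℝ) : ℂ) * I := by
    funext z
    apply Complex.ext <;> simp [rect]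
  rw [this]
  fun_prop

lemma rect_injective (o : ℂ) {hx hy : ℝ} (h1 : 0 < hx) (h2 : 0 < hy) :
    Function.Injective (rect o hx hy) := by
  intro z w h
  have e1 := congrArg Complex.re h
  have e2 := congrArg Complex.im h
  simp only [rect] at e1 e2
  exact Complex.ext (mul_left_cancel₀ h1.ne' (add_left_cancel e1)) (mul_left_cancel₀ h2.ne' (add_left_cancel e2))

/-- the inverse affine map -/
lemma rect_inv (o : ℂ) {hx hy : ℝ} (h1 : 0 < hx) (h2 : 0 < hy) (z : ℂ) :
    rect o hx hy (rect ⟨-o.re / hx, -o.im / hy⟩ (1 / hx) (1 / hy) z) = z := by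
  apply Complex.ext
  · simp only [rect]; field_simp; ring
  · simp only [rect]; field_simp; ring

lemma isOpenMap_rect (o : ℂ) {hx hy : ℝ} (h1 : 0 < hx) (h2 : 0 < hy) : IsOpenMap (rect o hx hy) := by
  intro U hU
  have : rect o hx hy '' U = rect ⟨-o.re / hx, -o.im / hy⟩ (1 / hx) (1 / hy) ⁻¹' U := by
    ext z
    constructor
    · rintro ⟨w, hw, rfl⟩
      have h3 : rect ⟨-o.re / hx, -o.im / hy⟩ (1 / hx) (1 / hy) (rect o hx hy w) = w := by
        apply rect_injective o h1 h2
        rw [rect_inv o h1 h2]
      rw [mem_preimage, h3]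
      exact hw
    · intro hz
      exact ⟨_, hz, rect_inv o h1 h2 z⟩
  rw [this]
  exact hU.preimage (continuous_rect _ _ _)

lemma IsTame.rect {q : ℂ → ℂ} (hq : IsTame q) (o : ℂ) {hx hy : ℝ} (h1 : 0 < hx) (h2 : 0 < hy) :
    IsTame (q ∘ rect o hx hy) :=
  ⟨hq.cont.comp (continuous_rect o hx hy), hq.inj.comp (rect_injective o h1 h2),
    hq.isOpenMap.comp (isOpenMap_rect o h1 h2)⟩

/-- the orientation does not depend on the rectangle -/
theorem POri.rect {q : ℂ → ℂ} (hq : Continuous q) (hi : Function.Injective q) {o o' : ℂ}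
    {hx hy hx' hy' : ℝ} (h1 : 0 < hx) (h2 : 0 < hy) (h1' : 0 < hx') (h2' : 0 < hy') {m : ℤ}
    (h : POri (q ∘ rect o hx hy) m) : POri (q ∘ rect o' hx' hy') m := by
  -- interpolation
  let R : ℝ → ℂ → ℂ := fun s => Full.rect ((1 - c01 s : ℝ) * o + (c01 s : ℝ) * o')
    ((1 - c01 s) * hx + c01 s * hx') ((1 - c01 s) * hy + c01 s * hy')
  have hpos : ∀ s : ℝ, 0 < (1 - c01 s) * hx + c01 s * hx' ∧ 0 < (1 - c01 s) * hy + c01 s * hy' := by
    intro s
    obtain ⟨h3, h4⟩ := c01_mem s
    rcases eq_or_lt_of_le h3 with h5 | h5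
    · rw [← h5]
      constructor <;> linarith
    · constructor <;> nlinarith
  have hRc : Continuous fun x : ℝ × ℂ => R x.1 x.2 := by
    have : (fun x : ℝ × ℂ => R x.1 x.2) = fun x : ℝ × ℂ =>
        ((((1 - c01 x.1 : ℝ) * o + (c01 x.1 : ℝ) * o').re + ((1 - c01 x.1) * hx + c01 x.1 * hx') * x.2.re : ℝ) : ℂ) +
        ((((1 - c01 x.1 : ℝ) * o + (c01 x.1 : ℝ) * o').im + ((1 - c01 x.1) * hy + c01 x.1 * hy') * x.2.im : ℝ) : ℂ)
          * I := by
      funext x
      apply Complex.ext <;> simp [R, Full.rect]
    rw [this]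
    have := continuous_c01
    fun_prop
  have hH : Continuous fun x : ℝ × ℝ => q (R x.2 (sqb x.1)) - q (R x.2 0) := by
    refine (hq.comp (hRc.comp (continuous_snd.prodMk (continuous_sb.comp continuous_fst)))).sub
      (hq.comp (hRc.comp (continuous_snd.prodMk continuous_const)))
  have h0 : ∀ x : ℝ × ℝ, q (R x.2 (sqb x.1)) - q (R x.2 0) ≠ 0 := fun x hx0 => (sb_mem x.1).2 (by
    have e1 := hi (sub_eq_zero.1 hx0)
    have e2 := rect_injective _ (hpos x.2).1 (hpos x.2).2 e1
    rw [e2]
    exact zero_mem_os)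
  have hcl : ∀ s : ℝ, q (R ((4 : ℝ), s).2 (sqb ((4 : ℝ), s).1)) - q (R ((4 : ℝ), s).2 0) =
      q (R ((0 : ℝ), s).2 (sqb ((0 : ℝ), s).1)) - q (R ((0 : ℝ), s).2 0) := fun s => by
    rw [sb_zero_four]
  have hR0 : R 0 = Full.rect o hx hy := by simp [R, c01_zero]
  have hR1 : R 1 = Full.rect o' hx' hy' := by simp [R, c01_one]
  have hst := h 0 zero_mem_os
  have hres := Wn.homotopy (s := 0) (s' := 1) hH h0 hcl (m := m) (by
    simp only [hR0]
    exact hst)
  simp only [hR1] at hres
  intro u hu
  refine (wn_move (hq.comp (continuous_rect _ _ _)) (hi.comp (rect_injective _ h1' h2')) hu).2 ?_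
  exact hres

end Full
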