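import Pool.Agent.Full.Tame

/-!
# FULL, end game: crossings of tile domains

The tile lattice is `ℤ × ℤ`; tile `p` is the unit square with lower left corner `p`.  At mesh `ε` the point
`w` of the tile lattice is the point `pt ε w` of the plane: a vertex of `ε ℤ²` if `w.1 + w.2` is even, a
vertex of the dual lattice otherwise.  Every tile has two even corners `cA p`, `cB p`; they are the end points
of the edge `bond p` of `ℤ²`.
-/

set_option autoImplicit false

open Set Filter Topology H47Perc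

namespace Full

/-- the point of the plane of the tile lattice point `w`, at mesh `ε` -/
noncomputable def pt (ε : ℝ) (w : ℤ × ℤ) : ℂ := ⟨ε * (w.1 + w.2) / 2, ε * (w.2 - w.1) / 2⟩

/-- the vertex of `ℤ²` of an even point of the tile lattice -/
def pv (w : ℤ × ℤ) : ℤ × ℤ := ((w.1 + w.2) / 2, (w.2 - w.1) / 2)

/-- the first even corner of a tile -/
def cA (p : ℤ × ℤ) : ℤ × ℤ := if Even (p.1 + p.2) then p else (p.1 + 1, p.2)

/-- the second even corner of a tile -/
def cB (p : ℤ × ℤ) : ℤ × ℤ := if Even (p.1 + p.2) then (p.1 + 1, p.2 + 1) else (p.1, p.2 + 1)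

/-- the edge of `ℤ²` of a tile -/
def bond (p : ℤ × ℤ) : Sym2 (ℤ × ℤ) := s(pv (cA p), pv (cB p))

/-- the open diagonal of a tile, as a segment of the plane -/
noncomputable def diag (ε : ℝ) (p : ℤ × ℤ) : Set ℂ := segment ℝ (pt ε (cA p)) (pt ε (cB p))

/-- a step of an open path of tiles of `T` -/
def TStep (T : Set (ℤ × ℤ)) (ω : Finset (Sym2 (ℤ × ℤ))) (w w' : ℤ × ℤ) : Prop :=
  ∃ p ∈ T, bond p ∈ ω ∧ ((w = cA p ∧ w' = cB p) ∨ (w = cB p ∧ w' = cA p))

/-- the tile domain `T` is crossed from `VL` to `VR` by an open path of tiles of `T` -/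
def CrossT (T VL VR : Set (ℤ × ℤ)) (ω : Finset (Sym2 (ℤ × ℤ))) : Prop :=
  ∃ w ∈ VL, ∃ w' ∈ VR, Relation.ReflTransGen (TStep T ω) w w'

/-- a crossing of a tile domain with left and right walls outside `q '' sq` and lower and upper walls
inside gives a crossing of `q` -/
def SandMinus : Prop :=
  ∀ (q : ℂ → ℂ) (ε : ℝ) (T VL VR : Set (ℤ × ℤ)) (ω : Finset (Sym2 (ℤ × ℤ))), IsTame q → 0 < ε →
    (∀ p ∈ T, diag ε p ⊆ q '' {u | 0 ≤ u.im ∧ u.im ≤ 1}) →
    (∀ w ∈ VL, pt ε w ∈ q '' {u | u.re ≤ 0}) → (∀ w ∈ VR, pt ε w ∈ q '' {u | 1 ≤ u.re}) →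
    CrossT T VL VR ω → Crossed ε q ω

/-- a crossing of `q` gives a crossing of a tile domain with left and right walls inside `q '' sq` and lower
and upper walls outside -/
def SandPlus : Prop :=
  ∀ (q : ℂ → ℂ) (ε : ℝ) (T VL VR : Set (ℤ × ℤ)) (ω : Finset (Sym2 (ℤ × ℤ))), IsTame q → 0 < ε →
    -- tiles which are not in the domain are to the left or to the right
    (∀ p, p ∉ T → (diag ε p ∩ q '' sq).Nonempty →
      diag ε p ⊆ q '' {u | u.re < 1 / 2} ∨ diag ε p ⊆ q '' {u | 1 / 2 < u.re}) →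
    -- tiles of the domain do not meet the left and the right side of `q`
    (∀ p ∈ T, Disjoint (diag ε p) (q '' sqL) ∧ Disjoint (diag ε p) (q '' sqR)) →
    -- a common corner of a tile of the domain and of a tile outside is in `VL` or `VR`
    (∀ p ∈ T, ∀ p', p' ∉ T → ∀ w, (w = cA p ∨ w = cB p) → (w = cA p' ∨ w = cB p') → pt ε w ∈ q '' sq →
      (pt ε w ∈ q '' {u | u.re < 1 / 2} → w ∈ VL) ∧ (pt ε w ∈ q '' {u | 1 / 2 < u.re} → w ∈ VR)) →
    Crossed ε q ω → (∀ e ∈ ω, ∃ p, e = bond p) → CrossT T VL VR ω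

end Full
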