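import Pool.Agent.Full.End.BvpGeo

/-!
# FULL, end game: the boundary value problem

`gbvp : GAcc → GBvp`: the observables of the lattice part (`Lat`) on coarse polygons which approximate the boundary curve of
a tame quadrilateral solve the asymptotic boundary value problem.  `GAcc`: a point of the domain close to a corner is joined
to the mark by cells of the region which are close to the corner.
-/

set_option autoImplicit false

open Set Filter Topology H47Perc Complex Metric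

namespace Full

/-- joinedness near the marks -/
def GAcc : Prop :=
  ∀ q : ℂ → ℂ, IsTame q → Pos q → ∀ (j : Fin 4) (ρ : ℝ), 0 < ρ → ∃ d > 0, ∀ z ∈ trot '' (q '' sqo),
    dist z (gam q (1 / 2) (1 / 2) ((j : ℕ) + 1 / 2)) < d → ∃ τ₀ > 0, ∀ (a τ : ℝ) (B : Coarse) (t : ℕ → ℝ), τ ≤ τ₀ →
      CApprox (gam q (1 / 2) (1 / 2)) a τ B t → B.Acc j (z / a) (ρ / a)

namespace Bvp

variable {q : ℂ → ℂ}

/-! ### distances -/

lemma exists_R (hq : IsTame q) {K : Set ℂ} {L : Set ℝ} (hK : IsCompact K) (hL : IsCompact L)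
    (h : ∀ z ∈ K, ∀ s ∈ L, z ≠ ga q s) : ∃ R > 0, ∀ z ∈ K, ∀ s ∈ L, R ≤ ‖z - ga q s‖ := by
  rcases (K ×ˢ L).eq_empty_or_nonempty with he | hne
  · exact ⟨1, one_pos, fun z hz s hs => absurd (show (z, s) ∈ K ×ˢ L from ⟨hz, hs⟩) (by rw [he]; exact notMem_empty _)⟩
  · have hc : ContinuousOn (fun x : ℂ × ℝ => ‖x.1 - ga q x.2‖) (K ×ˢ L) :=
      (continuous_fst.sub ((continuous_ga hq).comp continuous_snd)).norm.continuousOn
    obtain ⟨x, hx, hmin⟩ := (hK.prod hL).exists_isMinOn hne hc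
    refine ⟨‖x.1 - ga q x.2‖, norm_pos_iff.2 (sub_ne_zero.2 (h _ hx.1 _ hx.2)), fun z hz s hs => ?_⟩
    exact hmin (show (z, s) ∈ K ×ˢ L from ⟨hz, hs⟩)

lemma ga_notMem (hq : IsTame q) {z : ℂ} (hz : z ∈ Dt q) (s : ℝ) : z ≠ ga q s := by
  rintro rfl
  rw [← image_os, ga_eq] at hz
  obtain ⟨u, hu, hu'⟩ := hz
  have := (tame_QQ hq).inj hu'
  rw [this] at hu
  exact (sb_mem s).2 hu

lemma ga_inj (hq : IsTame q) {s s' : ℝ} (hs : s ∈ Icc (0 : ℝ) 4) (hs' : s' ∈ Icc (0 : ℝ) 4) (h : ga q s = ga q s') :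
    s = s' ∨ (s = 0 ∧ s' = 4) ∨ (s = 4 ∧ s' = 0) := by
  have h1 : sqb s = sqb s' := (tame_QQ hq).inj h
  rcases lt_trichotomy s s' with h2 | h2 | h2
  · exact Or.inr (Or.inl (sb_inj s hs s' hs' h2 h1))
  · exact Or.inl h2
  · have := sb_inj s' hs' s hs h2 h1.symm
    exact Or.inr (Or.inr ⟨this.2, this.1⟩)

lemma exists_R_dom (hq : IsTame q) {K : Set ℂ} (hK : IsCompact K) (hKD : K ⊆ Dt q) :
    ∃ R > 0, ∀ z ∈ K, ∀ s ∈ Icc (0 : ℝ) 4, R ≤ ‖z - ga q s‖ :=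
  exists_R hq hK isCompact_Icc fun _ hz s _ => ga_notMem hq (hKD hz) s

lemma far_mono {B : Coarse} {s s' : ℕ → Prop} {z : ℂ} {R R' : ℝ} (h : B.Far s z R) (hR : R' ≤ R)
    (hs : ∀ i, s' i → s i) : B.Far s' z R' := fun i hi h1 => hR.trans (h i hi (hs i h1))

lemma deep_mono {B : Coarse} {z : ℂ} {R R' : ℝ} (h : B.Deep z R) (hR : R' ≤ R) : B.Deep z R' :=
  ⟨h.1, far_mono h.2 hR fun _ h => h⟩

/-- deep points of the domain are deep in the region of the polygon -/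
lemma deep_of (hq : IsTame q) (hp : Pos q) {κ a τ : ℝ} {B : Coarse} {t : ℕ → ℝ} (h : Cl q κ a τ B t) {z : ℂ}
    (hz : z ∈ Dt q) {R : ℝ} (hκ : κ ≤ R / 20) (hz2 : ∀ s ∈ Icc (0 : ℝ) 4, R ≤ ‖z - ga q s‖) :
    B.Deep (z / a) (R / 2 / a) ∧ 10 ≤ R / 2 / a := by
  have ha := h.ap.pos
  have haκ : a ≤ κ := h.ap.le.trans h.tau
  constructor
  · refine deep_mono (h.deep hq hp hz (R := R) (by linarith) hz2) ?_
    exact div_le_div_of_nonneg_right (by linarith) ha.le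
  · rw [le_div_iff₀ ha]
    linarith

/-! ### the labels of the sides -/

/-- the labels of the sides of the observable -/
def sl : ℕ → Set ℝ
  | 0 => lab 1
  | 1 => lab 2 ∪ lab 3
  | 2 => lab 0
  | _ => ∅

lemma sl_subset (j : ℕ) : sl j ⊆ Icc 0 4 := by
  match j with
  | 0 => exact lab_subset 1
  | 1 => exact union_subset (lab_subset 2) (lab_subset 3)
  | 2 => exact lab_subset 0
  | _ + 3 => exact empty_subset _

lemma sl_compact (j : ℕ) : IsCompact (sl j) := by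
  match j with
  | 0 => exact lab_compact 1
  | 1 => exact (lab_compact 2).union (lab_compact 3)
  | 2 => exact lab_compact 0
  | _ + 3 => exact isCompact_empty

lemma rect_eq (x y : ℝ) : rect (1 / 2 + I / 2) (1 / 2) (1 / 2) ⟨x, y⟩ = ⟨(1 + x) / 2, (1 + y) / 2⟩ := by
  apply Complex.ext
  · simp only [rect, ctr_re]; ring
  · simp only [rect, ctr_im]; ring

/-- the arcs are the images of the label sets -/
lemma arcs_subset_ga (q : ℂ → ℂ) (j : ℕ) : trot '' arcs q j ⊆ ga q '' sl j := by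
  have key : ∀ (s : ℝ) (w : ℂ), rect (1 / 2 + I / 2) (1 / 2) (1 / 2) (sqb s) = w → ga q s = trot (q w) := by
    intro s w h
    rw [ga_eq, QQ, h]; rfl
  match j with
  | 0 =>
    rintro _ ⟨_, ⟨w, ⟨⟨h1, h2, h3, h4⟩, h5⟩, rfl⟩, rfl⟩
    refine ⟨w.im + 3 / 2, ⟨by linarith, by linarith⟩, key _ _ ?_⟩
    rw [sb_right (by linarith) (by linarith), rect_eq]
    apply Complex.ext
    · simp only; rw [h5]; norm_num
    · simp only; ring
  | 1 =>
    rintro _ ⟨_, ⟨w, hw, rfl⟩, rfl⟩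
    rcases hw with ⟨⟨h1, h2, h3, h4⟩, h5⟩ | ⟨⟨h1, h2, h3, h4⟩, h5⟩
    · refine ⟨7 / 2 - w.re, Or.inl ⟨by linarith, by linarith⟩, key _ _ ?_⟩
      rw [sb_top (by linarith) (by linarith), rect_eq]
      apply Complex.ext
      · simp only; ring
      · simp only; rw [h5]; norm_num
    · by_cases hw : w.im ≤ 1 / 2
      · refine ⟨1 / 2 - w.im, Or.inr (Or.inl ⟨by linarith, by linarith⟩), key _ _ ?_⟩
        rw [sb_left (by linarith), rect_eq, cl_of_mem (by linarith) (by linarith)]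
        apply Complex.ext
        · simp only; rw [h5]; norm_num
        · simp only; ring
      · push Not at hw
        refine ⟨9 / 2 - w.im, Or.inr (Or.inr ⟨by linarith, by linarith⟩), key _ _ ?_⟩
        rw [sb_left' (by linarith), rect_eq, cl_of_mem (by linarith) (by linarith)]
        apply Complex.ext
        · simp only; rw [h5]; norm_num
        · simp only; ring
  | 2 =>
    rintro _ ⟨_, ⟨w, ⟨⟨h1, h2, h3, h4⟩, h5⟩, rfl⟩, rfl⟩
    refine ⟨w.re + 1 / 2, ⟨by linarith, by linarith⟩, key _ _ ?_⟩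
    rw [sb_bot (by linarith) (by linarith), rect_eq]
    apply Complex.ext
    · simp only; ring
    · simp only; rw [h5]; norm_num
  | n + 3 =>
    rintro _ ⟨_, h, rfl⟩
    exact absurd h (notMem_empty _)

/-- two sides meet in the corners only -/
lemma sl_inter {j j' : ℕ} (hj : j < 3) (hj' : j' < 3) (hne : j' ≠ j) (hq : IsTame q) {s s' : ℝ} (hs : s ∈ sl j)
    (hs' : s' ∈ sl j') (h : ga q s = ga q s') :
    ∃ i : Fin 3, s = (i : ℕ) + 1 / 2 ∧ vert i ∈ side j := by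
  have h4 := ga_inj hq (sl_subset j hs) (sl_subset j' hs') h
  have v0 : vert 0 = vert 3 := (vert_add_three 0).symm
  have v1 : vert 1 = vert 4 := (vert_add_three 1).symm
  have i0 : (0 : Fin 3).val = 0 := rfl
  have i1 : (1 : Fin 3).val = 1 := rfl
  have i2 : (2 : Fin 3).val = 2 := rfl
  have m0 : vert 1 ∈ side 0 := left_mem_segment ℝ _ _
  have m0' : vert 2 ∈ side 0 := right_mem_segment ℝ _ _
  have m1 : vert 2 ∈ side 1 := left_mem_segment ℝ _ _
  have m1' : vert 0 ∈ side 1 := by rw [v0]; exact right_mem_segment ℝ _ _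
  have m2 : vert 0 ∈ side 2 := by rw [v0]; exact left_mem_segment ℝ _ _
  have m2' : vert 1 ∈ side 2 := by rw [v1]; exact right_mem_segment ℝ _ _
  have L0 : ∀ x : ℝ, x ∈ sl 0 ↔ (3 / 2 ≤ x ∧ x ≤ 5 / 2) := fun x => Iff.rfl
  have L1 : ∀ x : ℝ, x ∈ sl 1 ↔ ((5 / 2 ≤ x ∧ x ≤ 7 / 2) ∨ (0 ≤ x ∧ x ≤ 1 / 2) ∨ (7 / 2 ≤ x ∧ x ≤ 4)) := fun x => Iff.rfl
  have L2 : ∀ x : ℝ, x ∈ sl 2 ↔ (1 / 2 ≤ x ∧ x ≤ 3 / 2) := fun x => Iff.rfl
  have K : ∀ x : ℝ, x ∈ Icc (0 : ℝ) 4 ↔ (0 ≤ x ∧ x ≤ 4) := fun x => Iff.rfl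
  interval_cases j <;> interval_cases j'
  · exact absurd rfl hne
  · rw [L0] at hs; rw [L1] at hs'
    refine ⟨2, ?_, m0'⟩
    rw [i2]; push_cast
    rcases h4 with h5 | ⟨h5, h6⟩ | ⟨h5, h6⟩
    · rcases hs' with h7 | h7 | h7 <;> linarith
    · linarith
    · linarith
  · rw [L0] at hs; rw [L2] at hs'
    refine ⟨1, ?_, m0⟩
    rw [i1]; push_cast
    rcases h4 with h5 | ⟨h5, h6⟩ | ⟨h5, h6⟩ <;> linarith
  · rw [L1] at hs; rw [L0] at hs'
    refine ⟨2, ?_, m1⟩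
    rw [i2]; push_cast
    rcases h4 with h5 | ⟨h5, h6⟩ | ⟨h5, h6⟩
    · rcases hs with h7 | h7 | h7 <;> linarith
    · linarith
    · linarith
  · exact absurd rfl hne
  · rw [L1] at hs; rw [L2] at hs'
    refine ⟨0, ?_, m1'⟩
    rw [i0]; push_cast
    rcases h4 with h5 | ⟨h5, h6⟩ | ⟨h5, h6⟩
    · rcases hs with h7 | h7 | h7 <;> linarith
    · linarith
    · linarith
  · rw [L2] at hs; rw [L0] at hs'
    refine ⟨1, ?_, m2'⟩
    rw [i1]; push_cast
    rcases h4 with h5 | ⟨h5, h6⟩ | ⟨h5, h6⟩ <;> linarith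
  · rw [L2] at hs; rw [L1] at hs'
    refine ⟨0, ?_, m2⟩
    rw [i0]; push_cast
    rcases h4 with h5 | ⟨h5, h6⟩ | ⟨h5, h6⟩
    · rcases hs' with h7 | h7 | h7 <;> linarith
    · linarith
    · linarith
  · exact absurd rfl hne

section
variable {κ a τ : ℝ} {B : Coarse} {t : ℕ → ℝ}

lemma Cl.near_side (h : Cl q κ a τ B t) {j : ℕ} {s : ℝ} (hs : s ∈ sl j) {z : ℂ} {d : ℝ} (hz : ‖z - ga q s‖ ≤ d) :
    ∃ i, B.Side j i ∧ ‖z / a - cp (B.v i)‖ ≤ (d + 2 * κ) / a := by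
  match j with
  | 0 => exact h.near hs hz
  | 1 =>
    rcases hs with hs | hs
    · obtain ⟨i, hi, hi'⟩ := h.near hs hz
      exact ⟨i, Or.inl hi, hi'⟩
    · obtain ⟨i, hi, hi'⟩ := h.near hs hz
      exact ⟨i, Or.inr hi, hi'⟩
  | 2 => exact h.near hs hz
  | _ + 3 => exact absurd hs (notMem_empty _)

lemma Cl.far_side (h : Cl q κ a τ B t) {j : ℕ} {z : ℂ} {R : ℝ} (hz : ∀ s ∈ sl j, R ≤ ‖z - ga q s‖) :
    B.Far (B.Side j) (z / a) ((R - 2 * κ) / a) := by
  intro i hi hs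
  match j with
  | 0 => exact h.far hz i hi hs
  | 1 =>
    rcases hs with hs | hs
    · exact h.far (fun s hs => hz s (Or.inl hs)) i hi hs
    · exact h.far (fun s hs => hz s (Or.inr hs)) i hi hs
  | 2 => exact h.far hz i hi hs
  | _ + 3 => exact absurd hs id

end

/-! ### scaling of the contour sums -/

lemma dcont_scale {s t : ℝ} (hs : 0 < s) (f : ℂ → ℂ) (a b c d : ℝ) :
    dcont (s * t) (fun z => f (z / s)) a b c d = s * dcont t f (a / s) (b / s) (c / s) (d / s) := by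
  have h0 : (s : ℂ) ≠ 0 := by exact_mod_cast hs.ne'
  have e1 : (b - a) / (s * t) = (b / s - a / s) / t := by
    rw [← sub_div, div_div]
  have e2 : (d - c) / (s * t) = (d / s - c / s) / t := by
    rw [← sub_div, div_div]
  unfold dcont
  rw [e1, e2]
  set M := ⌊(b / s - a / s) / t⌋₊
  set M' := ⌊(d / s - c / s) / t⌋₊
  have g : ∀ x x' y y' : ℝ, x = s * x' → y = s * y' → ((x : ℂ) + (y : ℂ) * I) / s = (x' : ℂ) + (y' : ℂ) * I := by
    intro x x' y y' hx hy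
    rw [hx, hy]
    push_cast
    field_simp
  have f1 : ∀ j : ℕ, f ((((a + j * (s * t) : ℝ) : ℂ) + (c : ℂ) * I) / s) =
      f (((a / s + j * t : ℝ) : ℂ) + ((c / s : ℝ) : ℂ) * I) := fun j => by
    rw [g _ (a / s + j * t) _ (c / s) (by field_simp) (by field_simp)]
  have f2 : ∀ j : ℕ, f ((((a + j * (s * t) : ℝ) : ℂ) + ((c + M' * (s * t) : ℝ) : ℂ) * I) / s) =
      f (((a / s + j * t : ℝ) : ℂ) + ((c / s + M' * t : ℝ) : ℂ) * I) := fun j => by
    rw [g _ (a / s + j * t) _ (c / s + M' * t) (by field_simp) (by field_simp)]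
  have f3 : ∀ j : ℕ, f ((((a + M * (s * t) : ℝ) : ℂ) + ((c + j * (s * t) : ℝ) : ℂ) * I) / s) =
      f (((a / s + M * t : ℝ) : ℂ) + ((c / s + j * t : ℝ) : ℂ) * I) := fun j => by
    rw [g _ (a / s + M * t) _ (c / s + j * t) (by field_simp) (by field_simp)]
  have f4 : ∀ j : ℕ, f (((a : ℂ) + ((c + j * (s * t) : ℝ) : ℂ) * I) / s) =
      f (((a / s : ℝ) : ℂ) + ((c / s + j * t : ℝ) : ℂ) * I) := fun j => by
    rw [g _ (a / s) _ (c / s + j * t) (by field_simp) (by field_simp)]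
  simp only [f1, f2, f3, f4]
  push_cast
  ring

end Bvp

end Full
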