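import Pool.Agent.Full.End.Gam
import Pool.Agent.Full.End.Bvp

/-!
# FULL, end game: access to the marks

`gacc : GAcc`: a point of the domain close to a corner is joined to the mark by cells of the region which are close to the
corner.  A walk of cells along the image of a segment from the point to a point outside beyond the corner leaves the region
at an edge of the polygon, whose label is close to the label of the corner; then follow the left cells of the edges.
-/

set_option autoImplicit false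

open Set Filter Topology H47Perc Complex Metric

namespace Full.End

/-- the corners -/
noncomputable def crn4 : Fin 4 → ℂ := ![0, 1, 1 + I, I]

lemma norm_one_I : ‖(1 + I : ℂ)‖ = Real.sqrt 2 := by
  rw [Complex.norm_def]
  congr 1
  simp [normSq_apply]
  norm_num

lemma one_I_le : ‖(1 + I : ℂ)‖ ≤ 3 / 2 := by
  rw [norm_one_I, Real.sqrt_le_left (by norm_num)]
  norm_num

lemma le_one_I : 5 / 4 ≤ ‖(1 + I : ℂ)‖ := by
  rw [norm_one_I]
  apply Real.le_sqrt_of_sq_le
  norm_num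

lemma one_I_ne : (1 + I : ℂ) ≠ 0 := by
  intro h
  have := le_one_I
  rw [h, norm_zero] at this
  norm_num at this

lemma norm_cp {a : ℝ} (ha : 0 < a) (u v : ℤ × ℤ) : ‖cp u - cp v‖ = ‖gp a u - gp a v‖ / a := by
  have h1 : gp a u = a * cp u := by
    apply Complex.ext <;> simp [gp, cp]
  have h2 : (a : ℂ) ≠ 0 := by exact_mod_cast ha.ne'
  have h4 := Bvp.norm_div_sub ha (gp a u) v
  rw [← h4, h1, mul_div_cancel_left₀ _ h2]

/-- the point of the boundary of the unit square with the label `s` -/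
noncomputable def par (s : ℝ) : ℂ := rect (1 / 2 + I / 2) (1 / 2) (1 / 2) (sqb s)

lemma gam_par (q : ℂ → ℂ) (s : ℝ) : gam q (1 / 2) (1 / 2) s = (1 + I) * q (par s) := rfl

lemma par_eq (s : ℝ) : par s = ⟨1 / 2 + 1 / 2 * (sqb s).re, 1 / 2 + 1 / 2 * (sqb s).im⟩ := by
  unfold par rect
  simp

lemma par_bot {s : ℝ} (h1 : 1 / 2 ≤ s) (h2 : s ≤ 3 / 2) : par s = ⟨s - 1 / 2, 0⟩ := by
  rw [par_eq, sb_bot h1 h2]
  apply Complex.ext
  · simp only; ring
  · simp only; ring

lemma par_right {s : ℝ} (h1 : 3 / 2 ≤ s) (h2 : s ≤ 5 / 2) : par s = ⟨1, s - 3 / 2⟩ := by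
  rw [par_eq, sb_right h1 h2]
  apply Complex.ext
  · simp only; ring
  · simp only; ring

lemma par_top {s : ℝ} (h1 : 5 / 2 ≤ s) (h2 : s ≤ 7 / 2) : par s = ⟨7 / 2 - s, 1⟩ := by
  rw [par_eq, sb_top h1 h2]
  apply Complex.ext
  · simp only; ring
  · simp only; ring

lemma par_corner (j : Fin 4) : par ((j : ℕ) + 1 / 2) = crn4 j := by
  fin_cases j
  · show par (((0 : ℕ) : ℝ) + 1 / 2) = 0
    rw [par_bot (by norm_num) (by norm_num)]
    apply Complex.ext
    · show ((0 : ℕ) : ℝ) + 1 / 2 - 1 / 2 = 0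
      norm_num
    · rfl
  · show par (((1 : ℕ) : ℝ) + 1 / 2) = 1
    rw [par_right (by norm_num) (by norm_num)]
    apply Complex.ext
    · rfl
    · show ((1 : ℕ) : ℝ) + 1 / 2 - 3 / 2 = 0
      norm_num
  · show par (((2 : ℕ) : ℝ) + 1 / 2) = 1 + I
    rw [par_right (by norm_num) (by norm_num)]
    apply Complex.ext
    · simp
    · show ((2 : ℕ) : ℝ) + 1 / 2 - 3 / 2 = (1 + I : ℂ).im
      norm_num
  · show par (((3 : ℕ) : ℝ) + 1 / 2) = I
    rw [par_top (by norm_num) (by norm_num)]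
    apply Complex.ext
    · show 7 / 2 - (((3 : ℕ) : ℝ) + 1 / 2) = I.re
      norm_num
    · simp

/-- modulus of continuity -/
lemma exists_mod {γ : ℝ → ℂ} (hγ : Continuous γ) {ε : ℝ} (hε : 0 < ε) : ∃ θ > 0, ∀ s ∈ Icc (0 : ℝ) 4,
    ∀ s' ∈ Icc (0 : ℝ) 4, |s - s'| ≤ θ → ‖γ s - γ s'‖ ≤ ε := by
  have huc : UniformContinuousOn γ (Icc (0 : ℝ) 4) :=
    isCompact_Icc.uniformContinuousOn_of_continuous hγ.continuousOn
  rw [Metric.uniformContinuousOn_iff] at huc
  obtain ⟨δ, hδ, hδ'⟩ := huc ε hε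
  refine ⟨δ / 2, by positivity, fun s hs s' hs' hss => ?_⟩
  have := hδ' s hs s' hs' (by rw [Real.dist_eq]; linarith)
  rw [dist_eq_norm] at this
  exact this.le

/-- the centre of the cell of a point -/
lemma norm_tctr {a : ℝ} (ha : 0 < a) (w : ℂ) : ‖w - tctr a (cell (w / a))‖ ≤ a := by
  refine (norm_le_abs_add _).trans ?_
  have key : ∀ x : ℝ, |x - a * (⌊x / a⌋ + 1 / 2)| ≤ a / 2 := by
    intro x
    have h1 := Int.floor_le (x / a)
    have h2 := Int.lt_floor_add_one (x / a)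
    rw [le_div_iff₀ ha] at h1
    rw [div_lt_iff₀ ha] at h2
    rw [abs_le]
    constructor <;> nlinarith
  have e1 : (w / a).re = w.re / a := by simp
  have e2 : (w / a).im = w.im / a := by simp
  have k1 := key w.re
  have k2 := key w.im
  unfold tctr cell
  rw [e1, e2]
  simp only [sub_re, sub_im]
  linarith

/-- moving the base point of a winding number along a segment -/
lemma wn_segment {γ : ℝ → ℂ} (hγ : Continuous γ) (h04 : γ 0 = γ 4) {w w' : ℂ} {D : ℝ}
    (hD : ∀ s, D ≤ ‖γ s - w‖) (hw : ‖w - w'‖ < D) {m : ℤ} (h : Wn (fun s => γ s - w) m) :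
    Wn (fun s => γ s - w') m := by
  have hH : Continuous fun x : ℝ × ℝ => γ x.1 - (w + (c01 x.2 : ℂ) * (w' - w)) := by
    refine (hγ.comp continuous_fst).sub (continuous_const.add ?_)
    exact (continuous_ofReal.comp (continuous_c01.comp continuous_snd)).mul continuous_const
  have h0 : ∀ x : ℝ × ℝ, γ x.1 - (w + (c01 x.2 : ℂ) * (w' - w)) ≠ 0 := by
    intro x hx
    have h1 : γ x.1 - w = (c01 x.2 : ℂ) * (w' - w) := by linear_combination hx
    have h2 := hD x.1
    rw [h1, norm_mul, Complex.norm_real, Real.norm_of_nonneg (c01_mem _).1, norm_sub_rev w' w] at h2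
    have h3 := (c01_mem x.2).2
    have h4 := norm_nonneg (w - w')
    nlinarith
  have h1 := Wn.homotopy (s := 0) (s' := 1) hH h0 (fun s => by simp only [h04]) (m := m) (by
    simpa only [c01_zero, ofReal_zero, zero_mul, add_zero] using h)
  have e : (fun t : ℝ => γ t - (w + ((1 : ℝ) : ℂ) * (w' - w))) = fun t => γ t - w' := by
    funext t
    push_cast
    ring
  simpa only [c01_one, e] using h1

/-! ### the curve (wrappers) -/

section curve
variable {q : ℂ → ℂ} (hq : IsTame q)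
include hq

lemma gcont : Continuous (gam q (1 / 2) (1 / 2)) := continuous_gam hq

omit hq in
lemma gper : gam q (1 / 2) (1 / 2) 0 = gam q (1 / 2) (1 / 2) 4 := gam_zero_four

lemma ginj : ∀ s ∈ Icc (0 : ℝ) 4, ∀ t ∈ Icc (0 : ℝ) 4, s < t →
    gam q (1 / 2) (1 / 2) s = gam q (1 / 2) (1 / 2) t → s = 0 ∧ t = 4 :=
  gam_inj hq (by norm_num) (by norm_num)

lemma gin (hp : Pos q) : ∃ m : ℤ, 0 < m ∧ ∀ u : ℂ, |u.re - 1 / 2| < 1 / 2 → |u.im - 1 / 2| < 1 / 2 →
    Wn (fun s => gam q (1 / 2) (1 / 2) s - (1 + I) * q u) m :=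
  wn_gam_in hq hp (by norm_num) (by norm_num)

lemma gout {w : ℂ} (hw : ∀ u : ℂ, |u.re - 1 / 2| ≤ 1 / 2 → |u.im - 1 / 2| ≤ 1 / 2 → w ≠ (1 + I) * q u) :
    Wn (fun s => gam q (1 / 2) (1 / 2) s - w) 0 :=
  wn_gam_out hq (by norm_num) (by norm_num) hw

omit hq in
lemma par_mem (s : ℝ) : par s ∈ sq ∧ par s ∉ sqo := by
  obtain ⟨⟨h1, h2⟩, h3⟩ := sb_mem s
  rw [abs_le] at h1 h2
  rw [par_eq]
  refine ⟨⟨?_, ?_, ?_, ?_⟩, fun h4 => h3 ?_⟩
  · simp only; linarith
  · simp only; linarith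
  · simp only; linarith
  · simp only; linarith
  · obtain ⟨h5, h6, h7, h8⟩ := h4
    simp only at h5 h6 h7 h8
    refine ⟨?_, ?_⟩
    · rw [abs_lt]; constructor <;> linarith
    · rw [abs_lt]; constructor <;> linarith

end curve

/-- the winding number of the polygon around the cells of the points of a compact set which does not meet the curve -/
theorem cell_far {q : ℂ → ℂ} (hq : IsTame q) {K : Set ℂ} (hK : IsCompact K) (hKd : Disjoint K (q '' (sq \ sqo))) :
    ∃ D > 0, ∀ (a τ : ℝ) (B : Coarse) (t : ℕ → ℝ), τ ≤ D → CApprox (gam q (1 / 2) (1 / 2)) a τ B t → ∀ z ∈ K,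
      ∀ k : ℤ, Wn (fun s => gam q (1 / 2) (1 / 2) s - (1 + I) * z) k → sc B.n B.v (cell ((1 + I) * z / a)) = k := by
  have hcl : IsClosed (q '' (sq \ sqo)) := by
    refine (IsCompact.image ?_ hq.cont).isClosed
    exact isCompact_sq.diff isOpen_sqo
  obtain ⟨D, hD, hdis⟩ := hKd.exists_thickenings hK hcl
  have hdist : ∀ z ∈ K, ∀ s, D ≤ ‖gam q (1 / 2) (1 / 2) s - (1 + I) * z‖ := by
    intro z hz s
    have h1 : D ≤ dist z (q (par s)) := by
      by_contra hlt
      push Not at hlt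
      have h2 : z ∈ thickening D (q '' (sq \ sqo)) :=
        mem_thickening_iff.2 ⟨q (par s), mem_image_of_mem q (par_mem s), hlt⟩
      have h3 : z ∈ thickening D K := self_subset_thickening hD K hz
      exact Set.disjoint_left.1 hdis h3 h2
    have e : gam q (1 / 2) (1 / 2) s - (1 + I) * z = (1 + I) * (q (par s) - z) := by
      rw [gam_par]; ring
    rw [e, norm_mul]
    rw [dist_comm, dist_eq_norm] at h1
    have h2 := le_one_I
    have h3 := norm_nonneg (q (par s) - z)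
    nlinarith
  refine ⟨D / 4, by positivity, ?_⟩
  intro a τ B t hm h z hz k hk
  have ha := h.pos
  have haτ := h.le
  have h1 := norm_tctr ha ((1 + I) * z)
  refine h.wn _ (fun s _ => ?_) k (wn_segment (gcont hq) gper (hdist z hz) (by linarith) hk)
  have h2 := hdist z hz s
  have e : gam q (1 / 2) (1 / 2) s - (1 + I) * z =
      (gam q (1 / 2) (1 / 2) s - tctr a (cell ((1 + I) * z / a))) -
      ((1 + I) * z - tctr a (cell ((1 + I) * z / a))) := by ring
  have h3 := norm_sub_le (gam q (1 / 2) (1 / 2) s - tctr a (cell ((1 + I) * z / a)))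
    ((1 + I) * z - tctr a (cell ((1 + I) * z / a)))
  rw [← e] at h3
  linarith

theorem cell_in {q : ℂ → ℂ} (hq : IsTame q) (hp : Pos q) {u : ℂ} (hu : u ∈ sqo) :
    ∃ D > 0, ∀ (a τ : ℝ) (B : Coarse) (t : ℕ → ℝ), τ ≤ D → CApprox (gam q (1 / 2) (1 / 2)) a τ B t →
      B.In (cell ((1 + I) * q u / a)) := by
  obtain ⟨D, hD, hev⟩ := cell_far hq (K := {q u}) isCompact_singleton (by
    rw [Set.disjoint_singleton_left]
    rintro ⟨w, hw, h1⟩
    rw [hq.inj h1] at hw
    exact hw.2 hu)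
  obtain ⟨k, hk, hk2⟩ := gin hq hp
  refine ⟨D, hD, fun a τ B t hm h => ?_⟩
  obtain ⟨w1, w2, w3, w4⟩ := hu
  have h3 := hev a τ B t hm h (q u) rfl k
    (hk2 u (by rw [abs_lt]; constructor <;> linarith) (by rw [abs_lt]; constructor <;> linarith))
  show sc _ _ _ = 1
  rcases B.ccw (cell ((1 + I) * q u / a)) with h4 | h4
  · omega
  · exact h4

/-- points outside -/
theorem cell_out {q : ℂ → ℂ} (hq : IsTame q) {u : ℂ} (hu : u ∉ sq) :
    ∃ D > 0, ∀ (a τ : ℝ) (B : Coarse) (t : ℕ → ℝ), τ ≤ D → CApprox (gam q (1 / 2) (1 / 2)) a τ B t →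
      ¬ B.In (cell ((1 + I) * q u / a)) := by
  obtain ⟨D, hD, hev⟩ := cell_far hq (K := {q u}) isCompact_singleton (by
    rw [Set.disjoint_singleton_left]
    rintro ⟨w, hw, h1⟩
    rw [hq.inj h1] at hw
    exact hu hw.1)
  refine ⟨D, hD, fun a τ B t hm h hin => ?_⟩
  have h1 := hev a τ B t hm h (q u) rfl 0 (gout hq (fun w w1 w2 h1 => hu (by
    have h2 : u = w := hq.inj (mul_left_cancel₀ one_I_ne h1)
    rw [h2]
    rw [abs_le] at w1 w2
    exact ⟨by linarith, by linarith, by linarith, by linarith⟩)))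
  unfold Coarse.In at hin
  omega

lemma adj_of_near {u v : ℤ × ℤ} (h : Near u v) (hne : u ≠ v) : Adj u v := by
  unfold Near at h
  unfold Adj
  have h4 : ¬ (u.1 = v.1 ∧ u.2 = v.2) := fun h => hne (Prod.ext h.1 h.2)
  have h5 : 0 ≤ |u.1 - v.1| := abs_nonneg _
  have h6 : 0 ≤ |u.2 - v.2| := abs_nonneg _
  have h7 : ¬ (|u.1 - v.1| = 0 ∧ |u.2 - v.2| = 0) := by
    rintro ⟨e1, e2⟩
    rw [abs_eq_zero, sub_eq_zero] at e1 e2
    exact h4 ⟨e1, e2⟩
  omega

lemma gp_quad {a : ℝ} (ha : 0 ≤ a) (w : ℤ × ℤ) (k : Fin 4) : ‖gp a (quad w k) - gp a w‖ ≤ 2 * a := by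
  refine (norm_le_abs_add _).trans ?_
  simp only [gp, sub_re, sub_im]
  rw [← mul_sub, ← mul_sub, abs_mul, abs_mul, abs_of_nonneg ha]
  have key : |((quad w k).1 : ℝ) - w.1| ≤ 1 ∧ |((quad w k).2 : ℝ) - w.2| ≤ 1 := by
    fin_cases k
    · show |((w.1 : ℤ) : ℝ) - w.1| ≤ 1 ∧ |((w.2 : ℤ) : ℝ) - w.2| ≤ 1
      simp
    · show |((w.1 - 1 : ℤ) : ℝ) - w.1| ≤ 1 ∧ |((w.2 : ℤ) : ℝ) - w.2| ≤ 1
      simp
    · show |((w.1 - 1 : ℤ) : ℝ) - w.1| ≤ 1 ∧ |((w.2 - 1 : ℤ) : ℝ) - w.2| ≤ 1
      simp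
    · show |((w.1 : ℤ) : ℝ) - w.1| ≤ 1 ∧ |((w.2 - 1 : ℤ) : ℝ) - w.2| ≤ 1
      simp
  nlinarith [key.1, key.2]

/-- the left cells of the edges between `i` and `i'` are joined -/
lemma left_jn {B : Coarse} {d : ℕ → Fin 4} (hd : Dirs B.n B.v d) {S : Set (ℤ × ℤ)} {i i' : ℕ} (hii : i ≤ i') :
    i' < B.n → (∀ k, i ≤ k → k ≤ i' → ∀ x : Fin 4, B.In (quad (B.v k) x) → quad (B.v k) x ∈ S) →
      Jn S (quad (B.v i) (d i)) (quad (B.v i') (d i')) := by
  induction hii with
  | refl => exact fun _ _ => Relation.ReflTransGen.refl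
  | @step k hk ih =>
    intro hi' hS
    have hk' : i ≤ k := hk
    have h1 := ih (by omega) fun l h1 h2 => hS l h1 (by omega)
    have h2 := B.left_step hd (i := k) hi'
    have h3 : quad (B.v k) (d k) ∈ S := hS k hk' (by omega) _ (B.left_in hd (by omega))
    have key : ∀ r, Relation.ReflTransGen (fun p p' => Adj p p' ∧ B.In p' ∧ ∃ x, p' = quad (B.v (k + 1)) x)
        (quad (B.v k) (d k)) r → Jn S (quad (B.v k) (d k)) r ∧ r ∈ S := by
      intro r hr
      induction hr with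
      | refl => exact ⟨Relation.ReflTransGen.refl, h3⟩
      | tail _ h4 ih2 =>
        obtain ⟨h5, h6, x, rfl⟩ := h4
        have h7 := hS (k + 1) (by omega) le_rfl x h6
        exact ⟨ih2.1.trans (Jn.of_adj h5 ih2.2 h7), h7⟩
    exact h1.trans (key _ h2).1

/-- cells of a walk before it leaves the region -/
lemma walk_jn {S : Set (ℤ × ℤ)} {v : ℕ → ℤ × ℤ} {k : ℕ} (hn : ∀ i < k, Near (v i) (v (i + 1)))
    (hS : ∀ i ≤ k, v i ∈ S) : Jn S (v 0) (v k) := by
  induction k with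
  | zero => exact Relation.ReflTransGen.refl
  | succ k ih =>
    have h1 := ih (fun i hi => hn i (by omega)) (fun i hi => hS i (by omega))
    by_cases h2 : v k = v (k + 1)
    · rw [← h2]; exact h1
    · refine h1.trans (Jn.of_adj ?_ (hS k (by omega)) (hS (k + 1) le_rfl))
      have h3 := hn k (by omega)
      exact adj_of_near h3 h2

end Full.End

namespace Full

open End in
/-- **access to the marks** -/
theorem gacc : GAcc := by
  intro q hq hpos j ρ hρ
  classical
  set γ := gam q (1 / 2) (1 / 2) with hγ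
  set c : ℝ := (j : ℕ) + 1 / 2 with hc
  have hc1 : 1 / 2 ≤ c := by
    have : (0 : ℝ) ≤ ((j : ℕ) : ℝ) := Nat.cast_nonneg _
    linarith
  have hc2 : c ≤ 7 / 2 := by
    have h1 : (j : ℕ) ≤ 3 := by have := j.2; omega
    have : ((j : ℕ) : ℝ) ≤ 3 := by exact_mod_cast h1
    linarith
  have hc4 : c ∈ Icc (0 : ℝ) 4 := ⟨by linarith, by linarith⟩
  have hγc : γ c = (1 + I) * q (crn4 j) := by rw [hγ, gam_par, par_corner]
  obtain ⟨θ0, hθ0, hmod0⟩ := exists_mod (gcont hq) (ε := ρ / 8) (by positivity)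
  set θ := min θ0 (1 / 4) with hθ
  have hθp : 0 < θ := lt_min hθ0 (by norm_num)
  obtain ⟨r, hr, hmod⟩ := exists_modulus (gcont hq) (ginj hq) hθp
  set ε1 := min (ρ / 8) (r / 4) with hε1
  have hε1p : 0 < ε1 := lt_min (by positivity) (by positivity)
  obtain ⟨κ, hκ, hcontκ⟩ := Metric.continuous_iff.1 hq.cont (crn4 j) (ε1 / 2) (by positivity)
  -- the outside point
  set u1 : ℂ := crn4 j + ((κ / 2 : ℝ) : ℂ) * (crn4 j - (1 / 2 + I / 2)) with hu1
  have hcre : (crn4 j).re = 0 ∨ (crn4 j).re = 1 := by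
    fin_cases j
    · left; rfl
    · right; rfl
    · right; show (1 + I : ℂ).re = 1; simp
    · left; show I.re = 0; simp
  have hcim : (crn4 j).im = 0 ∨ (crn4 j).im = 1 := by
    fin_cases j
    · left; rfl
    · left; rfl
    · right; show (1 + I : ℂ).im = 1; simp
    · right; show I.im = 1; simp
  have hu1sq : u1 ∉ sq := by
    rintro ⟨h1, h2, -, -⟩
    have e : u1.re = (crn4 j).re + κ / 2 * ((crn4 j).re - 1 / 2) := by
      rw [hu1]; simp
    rw [e] at h1 h2
    rcases hcre with h3 | h3 <;> rw [h3] at h1 h2 <;> nlinarith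
  have hu1b : u1 ∈ ball (crn4 j) κ := by
    rw [mem_ball, dist_eq_norm, hu1, add_sub_cancel_left, norm_mul, Complex.norm_real,
      Real.norm_of_nonneg (by positivity)]
    have h1 : ‖crn4 j - (1 / 2 + I / 2)‖ ≤ 1 := by
      refine (norm_le_abs_add _).trans ?_
      have e1 : (crn4 j - (1 / 2 + I / 2)).re = (crn4 j).re - 1 / 2 := by simp
      have e2 : (crn4 j - (1 / 2 + I / 2)).im = (crn4 j).im - 1 / 2 := by simp
      rw [e1, e2]
      rcases hcre with h3 | h3 <;> rcases hcim with h4 | h4 <;> rw [h3, h4] <;> norm_num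
    nlinarith
  -- `δ`
  obtain ⟨δ, hδ, hδ2⟩ := Metric.isOpen_iff.1 (hq.isOpenMap _ (isOpen_ball (x := crn4 j) (ε := κ)))
    (q (crn4 j)) (mem_image_of_mem q (mem_ball_self hκ))
  refine ⟨δ, hδ, ?_⟩
  rintro _ ⟨_, ⟨u, hu, rfl⟩, rfl⟩ hz0
  have hz : dist (q u) (q (crn4 j)) < δ := by
    change dist ((1 + I) * q u) (γ c) < δ at hz0
    rw [hγc, dist_eq_norm, ← mul_sub, norm_mul] at hz0
    rw [dist_eq_norm]
    have h1 := le_one_I
    have h2 := norm_nonneg (q u - q (crn4 j))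
    nlinarith
  have hub : u ∈ ball (crn4 j) κ := by
    obtain ⟨u', hu', h1⟩ := hδ2 (mem_ball.2 hz)
    rw [hq.inj h1] at hu'
    exact hu'
  -- the path
  set P : ℝ → ℂ := fun s => (1 + I) * q (u + (s / 4) • (u1 - u)) with hP
  have hPc : Continuous P := by
    have := hq.cont
    rw [hP]
    fun_prop
  have hPb : ∀ s ∈ Icc (0 : ℝ) 4, ‖P s - γ c‖ ≤ ε1 := by
    intro s hs
    have h1 : u + (s / 4) • (u1 - u) ∈ ball (crn4 j) κ :=
      (convex_ball (crn4 j) κ).add_smul_sub_mem hub hu1b ⟨by linarith [hs.1], by linarith [hs.2]⟩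
    have h2 := hcontκ _ (mem_ball.1 h1)
    rw [hγc]
    have e : P s - (1 + I) * q (crn4 j) = (1 + I) * (q (u + (s / 4) • (u1 - u)) - q (crn4 j)) := by
      rw [hP]; ring
    rw [e, norm_mul]
    rw [dist_eq_norm] at h2
    have h3 := one_I_le
    have h4 : ‖(1 + I : ℂ)‖ * ‖q (u + (s / 4) • (u1 - u)) - q (crn4 j)‖ ≤ 3 / 2 * (ε1 / 2) :=
      mul_le_mul h3 h2.le (norm_nonneg _) (by norm_num)
    linarith
  have hP0 : P 0 = (1 + I) * q u := by simp [hP]
  have hP4 : P 4 = (1 + I) * q u1 := by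
    simp only [hP]
    norm_num
  obtain ⟨D1, hD1, hdeep⟩ := cell_in hq hpos hu
  obtain ⟨D2, hD2, hout⟩ := cell_out hq hu1sq
  refine ⟨min (min D1 D2) (min θ (min (ρ / 16) (r / 12))), lt_min (lt_min hD1 hD2)
    (lt_min hθp (lt_min (by positivity) (by positivity))), ?_⟩
  intro a τ B t hmm h
  have hin0 : B.In (cell ((1 + I) * q u / a)) := hdeep a τ B t ((hmm.trans (min_le_left _ _)).trans (min_le_left _ _)) h
  have hm2 : ¬ B.In (cell ((1 + I) * q u1 / a)) := hout a τ B t ((hmm.trans (min_le_left _ _)).trans (min_le_right _ _)) h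
  have hm3 : τ ≤ min θ (min (ρ / 16) (r / 12)) := hmm.trans (min_le_right _ _)
  have ha := h.pos
  have haτ := h.le
  have hτθ : τ ≤ θ := hm3.trans (min_le_left _ _)
  have hτρ : τ ≤ ρ / 16 := (hm3.trans (min_le_right _ _)).trans (min_le_left _ _)
  have hτr : τ ≤ r / 12 := (hm3.trans (min_le_right _ _)).trans (min_le_right _ _)
  have hτ0 : 0 < τ := ha.trans_le haτ
  obtain ⟨d, hd⟩ := B.poly.toCWalk.exists_dirs
  -- the mark
  have hMn : B.M j < B.n := Bvp.M_lt B j
  have hMt : |t (B.M j) - c| ≤ τ := h.mark j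
  have hdM : d (B.M j) = 0 := by
    apply dir_inj
    have h1 := hd _ hMn
    rw [B.east j] at h1
    exact (add_left_cancel h1).symm
  have hvl : ∀ k ≤ B.n, |t k - c| ≤ θ → ‖gp a (B.v k) - γ c‖ ≤ τ + ρ / 8 := by
    intro k hk hkc
    have h1 := h.close k hk
    have h2 := hmod0 (t k) (h.mem k hk) c hc4 (hkc.trans (min_le_left _ _))
    have e : gp a (B.v k) - γ c = (gp a (B.v k) - γ (t k)) + (γ (t k) - γ c) := by ring
    rw [e]
    exact (norm_add_le _ _).trans (add_le_add h1 h2)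
  have hvM := hvl _ hMn.le (hMt.trans hτθ)
  -- the set
  set S : Set (ℤ × ℤ) := {p | B.In p ∧ ‖gp a p - gp a (B.v (B.M j))‖ ≤ ρ} with hS
  have hSq : ∀ k ≤ B.n, |t k - c| ≤ θ → ∀ x : Fin 4, B.In (quad (B.v k) x) →
      quad (B.v k) x ∈ S := by
    intro k hk hkc x hx
    refine ⟨hx, ?_⟩
    have h1 := hvl k hk hkc
    have h2 := gp_quad ha.le (B.v k) x
    have e : gp a (quad (B.v k) x) - gp a (B.v (B.M j)) =
        (gp a (quad (B.v k) x) - gp a (B.v k)) + (gp a (B.v k) - γ c) -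
        (gp a (B.v (B.M j)) - γ c) := by ring
    rw [e]
    refine (norm_sub_le _ _).trans ?_
    have h3 := norm_add_le (gp a (quad (B.v k) x) - gp a (B.v k)) (gp a (B.v k) - γ c)
    linarith
  -- the walk
  obtain ⟨n', v', t', hw, ht0, ht4, hv0, hv4, -⟩ := exists_walk hPc ha one_pos
  have hvin : v' 0 = cell ((1 + I) * q u / a) := by
    rw [hv0, hP0]
    unfold cell
    rw [div_ofReal_re, div_ofReal_im]
  have hvout : v' n' = cell ((1 + I) * q u1 / a) := by
    rw [hv4, hP4]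
    unfold cell
    rw [div_ofReal_re, div_ofReal_im]
  have hex : ∃ k, k ≤ n' ∧ ¬ B.In (v' k) := ⟨n', le_rfl, by rw [hvout]; exact hm2⟩
  obtain ⟨hk1, hk2⟩ := Nat.find_spec hex
  have hk3 : ∀ l < Nat.find hex, B.In (v' l) := by
    intro l hl
    by_contra h1
    exact Nat.find_min hex hl ⟨by omega, h1⟩
  have hk4 : Nat.find hex ≠ 0 := by
    intro h1
    rw [h1, hvin] at hk2
    exact hk2 hin0
  obtain ⟨k, hk⟩ := Nat.exists_eq_succ_of_ne_zero hk4
  rw [hk] at hk1 hk2 hk3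
  have hwc : ∀ l ≤ k, ‖gp a (v' l) - γ c‖ ≤ 3 * a + ε1 := by
    intro l hl
    have h1 := hw.close l (by omega)
    have h2 := hPb (t' l) (hw.mem l (by omega))
    have e : gp a (v' l) - γ c = (gp a (v' l) - P (t' l)) + (P (t' l) - γ c) := by ring
    rw [e]
    exact (norm_add_le _ _).trans (add_le_add h1 h2)
  have hwS : ∀ l ≤ k, v' l ∈ S := by
    intro l hl
    refine ⟨hk3 l (by omega), ?_⟩
    have h1 := hwc l hl
    have e : gp a (v' l) - gp a (B.v (B.M j)) =
        (gp a (v' l) - γ c) - (gp a (B.v (B.M j)) - γ c) := by ring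
    rw [e]
    refine (norm_sub_le _ _).trans ?_
    have h2 : ε1 ≤ ρ / 8 := min_le_left _ _
    linarith
  have hj1 : Jn S (v' 0) (v' k) := walk_jn (fun i hi => hw.near i (by omega)) hwS
  -- the edge
  have hadj : Adj (v' k) (v' (k + 1)) := adj_of_near (hw.near k (by omega)) fun h1 => hk2 (by
    rw [← h1]; exact hk3 k (by omega))
  obtain ⟨i, hi, hi1, -⟩ := B.exists_edge hd hadj (hk3 k (by omega)) hk2
  have hti : |t i - c| ≤ θ := by
    have h1 := h.close i hi.le
    have h2 := gp_quad ha.le (B.v i) (d i)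
    rw [← hi1] at h2
    have h3 := hwc k le_rfl
    have hdist : ‖γ (t i) - γ c‖ ≤ r := by
      have e : γ (t i) - γ c = (gp a (v' k) - γ c) - (gp a (v' k) - gp a (B.v i)) -
          (gp a (B.v i) - γ (t i)) := by ring
      rw [e]
      refine (norm_sub_le _ _).trans ?_
      have h4 := norm_sub_le (gp a (v' k) - γ c) (gp a (v' k) - gp a (B.v i))
      have h5 : ε1 ≤ r / 4 := min_le_right _ _
      linarith
    have hm4 := h.mem i hi.le
    have hθ4 : θ ≤ 1 / 4 := min_le_right _ _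
    rcases le_total (t i) c with h4 | h4
    · rcases hmod _ hm4 _ hc4 h4 hdist with h5 | h5
      · rw [abs_le]; constructor <;> linarith
      · exfalso; linarith [hm4.1]
    · rw [norm_sub_rev] at hdist
      rcases hmod _ hc4 _ hm4 h4 hdist with h5 | h5
      · rw [abs_le]; constructor <;> linarith
      · exfalso; linarith [hm4.2]
  -- from the edge to the mark
  have hj2 : Jn S (quad (B.v i) (d i)) (quad (B.v (B.M j)) (d (B.M j))) := by
    have hti' := abs_le.1 hti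
    have hMt' := abs_le.1 hMt
    rcases le_total i (B.M j) with h1 | h1
    · refine left_jn hd h1 hMn fun l h2 h3 x hx => hSq l (by omega) ?_ x hx
      have h4 := mono_of_step h.mono _ _ h2 (by omega)
      have h5 := mono_of_step h.mono _ _ h3 hMn.le
      rw [abs_le]; constructor <;> linarith
    · refine (left_jn hd h1 hi fun l h2 h3 x hx => hSq l (by omega) ?_ x hx).symm
      have h4 := mono_of_step h.mono _ _ h2 (by omega)
      have h5 := mono_of_step h.mono _ _ h3 hi.le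
      rw [abs_le]; constructor <;> linarith
  have hM0 : quad (B.v (B.M j)) (d (B.M j)) = B.v (B.M j) := by
    rw [hdM]; rfl
  rw [hM0] at hj2
  have hj3 : Jn S (B.v (B.M j)) (cell ((1 + I) * q u / a)) := by
    rw [← hvin]
    rw [hi1] at hj1
    exact (hj1.trans hj2).symm
  unfold Jn at hj3
  show B.Acc j ((1 + I) * q u / a) (ρ / a)
  unfold Coarse.Acc
  have key : ∀ p, Relation.ReflTransGen (fun x y => Adj x y ∧ x ∈ S ∧ y ∈ S) (B.v (B.M j)) p →
      Relation.ReflTransGen (fun p p' => Adj p p' ∧ B.In p' ∧ ‖cp p' - cp (B.v (B.M j))‖ ≤ ρ / a)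
        (B.v (B.M j)) p := by
    intro p hp
    induction hp with
    | refl => exact Relation.ReflTransGen.refl
    | tail _ h1 ih =>
      obtain ⟨h2, -, h3⟩ := h1
      refine ih.tail ⟨h2, h3.1, ?_⟩
      rw [norm_cp ha]
      exact div_le_div_of_nonneg_right h3.2 ha.le
  exact key _ hj3

end Full
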