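import Pool.Agent.Full.Tame

/-!
# FULL, end game: twist maps

A homeomorphism of the plane which rotates small discs about four points: with it the real part of an
embedding becomes smaller at a point of a given ray than at the centre.
-/

set_option autoImplicit false

open Set Filter Topology H47Perc Complex Metric

namespace Full.End

/-- the rotation by the angle `φ j r` at distance `r` from `c j`, for every `j` -/
noncomputable def tw (c : Fin 4 → ℂ) (φ : Fin 4 → ℝ → ℝ) (z : ℂ) : ℂ :=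
  z + ∑ j, (z - c j) * (exp (φ j ‖z - c j‖ * I) - 1)

lemma tw_far {c : Fin 4 → ℂ} {φ : Fin 4 → ℝ → ℝ} {z : ℂ} (h : ∀ j, φ j ‖z - c j‖ = 0) : tw c φ z = z := by
  unfold tw
  simp [h]

lemma tw_near {c : Fin 4 → ℂ} {φ : Fin 4 → ℝ → ℝ} {z : ℂ} (j : Fin 4) (h : ∀ i, i ≠ j → φ i ‖z - c i‖ = 0) :
    tw c φ z = c j + (z - c j) * exp (φ j ‖z - c j‖ * I) := by
  unfold tw
  rw [Finset.sum_eq_single j]
  · ring
  · intro i _ hi
    simp [h i hi]
  · intro hj
    exact absurd (Finset.mem_univ j) hj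

lemma continuous_tw {c : Fin 4 → ℂ} {φ : Fin 4 → ℝ → ℝ} (h : ∀ j, Continuous (φ j)) : Continuous (tw c φ) := by
  unfold tw
  refine continuous_id.add (continuous_finsetSum _ fun j _ => ?_)
  have h1 : Continuous fun z : ℂ => ((φ j ‖z - c j‖ : ℝ) : ℂ) :=
    continuous_ofReal.comp ((h j).comp (by fun_prop))
  fun_prop

/-- the twist with angles `φ` in disjoint discs is inverse to the twist with angles `-φ` -/
lemma tw_tw {c : Fin 4 → ℂ} {φ ψ : Fin 4 → ℝ → ℝ} {ρ : ℝ} (hc : ∀ i j, i ≠ j → 2 * ρ < dist (c i) (c j))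
    (hφ : ∀ j r, ρ ≤ r → φ j r = 0) (hψ : ∀ j r, ρ ≤ r → ψ j r = 0) (hs : ∀ j r, φ j r + ψ j r = 0) (z : ℂ) :
    tw c ψ (tw c φ z) = z := by
  by_cases hz : ∀ j, ρ ≤ ‖z - c j‖
  · rw [tw_far fun j => hφ j _ (hz j), tw_far fun j => hψ j _ (hz j)]
  · push Not at hz
    obtain ⟨j, hj⟩ := hz
    have key : ∀ w : ℂ, ‖w - c j‖ < ρ → ∀ i, i ≠ j → ρ ≤ ‖w - c i‖ := by
      intro w hw i hi
      have h1 := hc i j hi
      have h2 : dist (c i) (c j) ≤ ‖w - c i‖ + ‖w - c j‖ := by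
        rw [dist_eq_norm]
        calc ‖c i - c j‖ = ‖(w - c j) - (w - c i)‖ := by congr 1; ring
          _ ≤ ‖w - c j‖ + ‖w - c i‖ := norm_sub_le _ _
          _ = _ := add_comm _ _
      linarith
    have h1 : tw c φ z = c j + (z - c j) * exp (φ j ‖z - c j‖ * I) :=
      tw_near j fun i hi => hφ i _ (key z hj i hi)
    have h2 : ‖tw c φ z - c j‖ = ‖z - c j‖ := by
      rw [h1, add_sub_cancel_left, norm_mul, norm_exp_ofReal_mul_I, mul_one]
    have h3 : tw c ψ (tw c φ z) = c j + (tw c φ z - c j) * exp (ψ j ‖tw c φ z - c j‖ * I) :=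
      tw_near j fun i hi => hψ i _ (key _ (h2 ▸ hj) i hi)
    rw [h3, h2, h1, add_sub_cancel_left, mul_assoc, ← exp_add]
    have h4 : ((φ j ‖z - c j‖ : ℝ) : ℂ) * I + ((ψ j ‖z - c j‖ : ℝ) : ℂ) * I = 0 := by
      rw [← add_mul, ← ofReal_add, hs, ofReal_zero, zero_mul]
    rw [h4, exp_zero, mul_one]
    ring

end Full.End

namespace Full

open End

/-- an embedding can be changed near four points such that its real part is smaller at a point of the ray `c j + s e j`
than at `c j` -/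
theorem exists_twist {Q : ℂ → ℂ} (hQ : IsTame Q) {ρ : ℝ} (hρ : 0 < ρ) (c e : Fin 4 → ℂ)
    (hc : ∀ i j, i ≠ j → 2 * ρ < dist (c i) (c j)) (he : ∀ j, ‖e j‖ = 1) :
    ∃ h : ℂ → ℂ, IsTame h ∧ (∀ z, (∀ j, ρ ≤ dist z (c j)) → h z = z) ∧ (∀ z j, dist z (c j) ≤ ρ → dist (h z) (c j) ≤ ρ) ∧
      ∀ j, h (c j) = c j ∧ ∃ s : ℝ, 0 < s ∧ s < ρ ∧ (Q (h (c j + s * e j))).re < (Q (h (c j))).re := by
  -- a point near `c j` with smaller real part
  have h1 : ∀ j, ∃ w : ℂ, ‖w - c j‖ < ρ / 2 ∧ (Q w).re < (Q (c j)).re := by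
    intro j
    have hU : IsOpen (Q '' ball (c j) (ρ / 2)) := hQ.isOpenMap _ isOpen_ball
    have hm : Q (c j) ∈ Q '' ball (c j) (ρ / 2) := mem_image_of_mem Q (mem_ball_self (by positivity))
    obtain ⟨ε, hε, hb⟩ := Metric.isOpen_iff.1 hU _ hm
    have h2 : Q (c j) - ((ε / 2 : ℝ) : ℂ) ∈ ball (Q (c j)) ε := by
      rw [mem_ball, dist_eq_norm]
      have : Q (c j) - ((ε / 2 : ℝ) : ℂ) - Q (c j) = -((ε / 2 : ℝ) : ℂ) := by ring
      rw [this, norm_neg, Complex.norm_real, Real.norm_eq_abs, abs_of_pos (by positivity)]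
      linarith
    obtain ⟨w, hw, hwq⟩ := hb h2
    refine ⟨w, ?_, ?_⟩
    · rw [mem_ball, dist_eq_norm] at hw
      exact hw
    · rw [hwq, sub_re, ofReal_re]
      linarith
  choose w hw hwre using h1
  have hne : ∀ j, w j - c j ≠ 0 := by
    intro j h0
    rw [sub_eq_zero] at h0
    have := hwre j
    rw [h0] at this
    exact lt_irrefl _ this
  have hpos : ∀ j, 0 < ‖w j - c j‖ := fun j => norm_pos_iff.2 (hne j)
  have he0 : ∀ j, e j ≠ 0 := by
    intro j h0
    have := he j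
    rw [h0, norm_zero] at this
    exact zero_ne_one this
  -- the angles
  let α : Fin 4 → ℝ := fun j => arg ((w j - c j) / e j)
  have hα : ∀ j, (‖w j - c j‖ : ℂ) * e j * exp (α j * I) = w j - c j := by
    intro j
    have h2 := norm_mul_exp_arg_mul_I ((w j - c j) / e j)
    have h3 : ‖(w j - c j) / e j‖ = ‖w j - c j‖ := by rw [norm_div, he, div_one]
    rw [h3] at h2
    have h4 : (w j - c j) / e j * e j = w j - c j := div_mul_cancel₀ _ (he0 j)
    calc (‖w j - c j‖ : ℂ) * e j * exp (α j * I) = ((‖w j - c j‖ : ℂ) * exp (α j * I)) * e j := by ring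
      _ = _ := by rw [h2, h4]
  let φ : Fin 4 → ℝ → ℝ := fun j r => α j * max 0 (min 1 (2 - 2 * r / ρ))
  let ψ : Fin 4 → ℝ → ℝ := fun j r => -α j * max 0 (min 1 (2 - 2 * r / ρ))
  have hcut0 : ∀ r : ℝ, ρ ≤ r → max 0 (min 1 (2 - 2 * r / ρ)) = 0 := by
    intro r hr
    have : 1 ≤ r / ρ := (one_le_div hρ).2 hr
    have h2 : 2 * r / ρ = 2 * (r / ρ) := by ring
    exact max_eq_left ((min_le_right _ _).trans (by rw [h2]; linarith))
  have hcut1 : ∀ r : ℝ, r ≤ ρ / 2 → max 0 (min 1 (2 - 2 * r / ρ)) = 1 := by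
    intro r hr
    have : r / ρ ≤ 1 / 2 := by
      rw [div_le_iff₀ hρ]; linarith
    have h2 : 2 * r / ρ = 2 * (r / ρ) := by ring
    rw [min_eq_left (by rw [h2]; linarith), max_eq_right zero_le_one]
  have hφ0 : ∀ j r, ρ ≤ r → φ j r = 0 := fun j r hr => by
    show α j * _ = 0
    rw [hcut0 r hr, mul_zero]
  have hψ0 : ∀ j r, ρ ≤ r → ψ j r = 0 := fun j r hr => by
    show -α j * _ = 0
    rw [hcut0 r hr, mul_zero]
  have hs : ∀ j r, φ j r + ψ j r = 0 := fun j r => by
    show α j * _ + -α j * _ = 0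
    ring
  have hφc : ∀ j, Continuous (φ j) := fun j => by
    show Continuous fun r => α j * max 0 (min 1 (2 - 2 * r / ρ))
    fun_prop
  have hψc : ∀ j, Continuous (ψ j) := fun j => by
    show Continuous fun r => -α j * max 0 (min 1 (2 - 2 * r / ρ))
    fun_prop
  have hl : ∀ z, tw c ψ (tw c φ z) = z := tw_tw hc hφ0 hψ0 hs
  have hr : ∀ z, tw c φ (tw c ψ z) = z := tw_tw hc hψ0 hφ0 fun j r => by rw [add_comm]; exact hs j r
  let H : ℂ ≃ₜ ℂ :=
    { toFun := tw c φ
      invFun := tw c ψ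
      left_inv := hl
      right_inv := hr
      continuous_toFun := continuous_tw hφc
      continuous_invFun := continuous_tw hψc }
  have key : ∀ (j : Fin 4) (z : ℂ), ‖z - c j‖ ≤ ρ → tw c φ z = c j + (z - c j) * exp (φ j ‖z - c j‖ * I) := by
    intro j z hz
    refine tw_near j fun i hi => hφ0 i _ ?_
    have h1 := hc i j hi
    have h2 : dist (c i) (c j) ≤ ‖z - c i‖ + ‖z - c j‖ := by
      rw [dist_eq_norm]
      calc ‖c i - c j‖ = ‖(z - c j) - (z - c i)‖ := by congr 1; ring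
        _ ≤ ‖z - c j‖ + ‖z - c i‖ := norm_sub_le _ _
        _ = _ := add_comm _ _
    linarith
  refine ⟨tw c φ, ⟨H.continuous, H.injective, H.isOpenMap⟩, ?_, ?_, ?_⟩
  · intro z hz
    refine tw_far fun j => hφ0 j _ ?_
    rw [← dist_eq_norm]
    exact hz j
  · intro z j hz
    rw [dist_eq_norm] at hz ⊢
    rw [key j z hz, add_sub_cancel_left, norm_mul, norm_exp_ofReal_mul_I, mul_one]
    exact hz
  · intro j
    have hcj : tw c φ (c j) = c j := by
      rw [key j (c j) (by rw [sub_self, norm_zero]; exact hρ.le), sub_self, zero_mul, add_zero]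
    refine ⟨hcj, ‖w j - c j‖, hpos j, ?_, ?_⟩
    · have := hw j
      linarith
    · have hn : ‖c j + (‖w j - c j‖ : ℂ) * e j - c j‖ = ‖w j - c j‖ := by
        rw [add_sub_cancel_left, norm_mul, he, mul_one, Complex.norm_real, norm_norm]
      have hz : tw c φ (c j + (‖w j - c j‖ : ℂ) * e j) = w j := by
        rw [key j _ (by rw [hn]; have := hw j; linarith), hn, add_sub_cancel_left]
        have h5 : φ j ‖w j - c j‖ = α j := by
          show α j * _ = α j
          rw [hcut1 _ (hw j).le, mul_one]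
        rw [h5, hα]
        ring
      rw [hz, hcj]
      exact hwre j

end Full
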