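import Pool.Agent.Full.End.Label
import Pool.Agent.Full.End.Twist

/-!
# FULL, end game: polygons with marks exist (`GPoly`)
-/

set_option autoImplicit false

open Set Filter Topology H47Perc Complex Metric

namespace Full

/-- the directions in which the boundary of the square arrives at the corners -/
noncomputable def inDir : Fin 4 → ℂ := ![I, -1, -I, 1]

lemma norm_inDir (j : Fin 4) : ‖inDir j‖ = 1 := by
  fin_cases j <;> simp [inDir]

/-- the corners of the square -/
noncomputable def corner : Fin 4 → ℂ := ![⟨-1, -1⟩, ⟨1, -1⟩, ⟨1, 1⟩, ⟨-1, 1⟩]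

lemma fin4_or (j : Fin 4) : j = 0 ∨ j = 1 ∨ j = 2 ∨ j = 3 := by revert j; decide

lemma sqb_corner (j : Fin 4) {s : ℝ} (h0 : 0 ≤ s) (h1 : s ≤ 1) :
    sqb ((j : ℕ) + 1 / 2 - s / 2) = corner j + s * inDir j := by
  rcases fin4_or j with rfl | rfl | rfl | rfl
  · rw [show (((0 : Fin 4) : ℕ) : ℝ) + 1 / 2 - s / 2 = 1 / 2 - s / 2 by simp, sb_left (by linarith),
      cl_of_mem (by linarith) (by linarith)]
    apply Complex.ext
    · simp [corner, inDir]
    · simp [corner, inDir]; ring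
  · rw [show (((1 : Fin 4) : ℕ) : ℝ) + 1 / 2 - s / 2 = 3 / 2 - s / 2 by
      simp only [Fin.val_one, Nat.cast_one]; ring, sb_bot (by linarith) (by linarith)]
    apply Complex.ext
    · simp [corner, inDir]; ring
    · simp [corner, inDir]
  · rw [show (((2 : Fin 4) : ℕ) : ℝ) + 1 / 2 - s / 2 = 5 / 2 - s / 2 by
      simp only [Fin.val_two, Nat.cast_ofNat]; ring, sb_right (by linarith) (by linarith)]
    apply Complex.ext
    · simp [corner, inDir]
    · simp [corner, inDir]; ring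
  · rw [show (((3 : Fin 4) : ℕ) : ℝ) + 1 / 2 - s / 2 = 7 / 2 - s / 2 by
      rw [show ((3 : Fin 4) : ℕ) = 3 from rfl]; push_cast; ring, sb_top (by linarith) (by linarith)]
    apply Complex.ext
    · simp [corner, inDir]; ring
    · simp [corner, inDir]

lemma corner0 : corner 0 = ⟨-1, -1⟩ := rfl
lemma corner1 : corner 1 = ⟨1, -1⟩ := rfl
lemma corner2 : corner 2 = ⟨1, 1⟩ := rfl
lemma corner3 : corner 3 = ⟨-1, 1⟩ := rfl

lemma corner_dist {i j : Fin 4} (h : i ≠ j) : 2 ≤ dist (corner i) (corner j) := by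
  rw [dist_eq_norm]
  have key : 2 ≤ |(corner i - corner j).re| ∨ 2 ≤ |(corner i - corner j).im| := by
    rcases fin4_or i with rfl | rfl | rfl | rfl <;> rcases fin4_or j with rfl | rfl | rfl | rfl <;>
    first
    | (exact absurd rfl h)
    | (simp only [corner0, corner1, corner2, corner3, sub_re, sub_im]; norm_num)
  rcases key with h1 | h1
  · exact h1.trans (Complex.abs_re_le_norm _)
  · exact h1.trans (Complex.abs_im_le_norm _)

lemma CApprox.mono_tol {γ : ℝ → ℂ} {a τ τ' : ℝ} {B : Coarse} {t : ℕ → ℝ} (h : CApprox γ a τ B t) (hτ : τ ≤ τ') :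
    CApprox γ a τ' B t where
  pos := h.pos
  le := h.le.trans hτ
  close i hi := (h.close i hi).trans hτ
  mono := h.mono
  jump i hi := (h.jump i hi).trans (by linarith)
  mem := h.mem
  start := h.start.trans hτ
  fin := by linarith [h.fin]
  mark j := (h.mark j).trans hτ
  wn p hp := h.wn p fun s hs => hτ.trans (hp s hs)

/-- the cell of a point: distance to its centre -/
lemma norm_tctr_cell {a : ℝ} (ha : 0 < a) (w : ℂ) : ‖tctr a (cell (w / a)) - w‖ ≤ a := by
  have h1 : (w / a).re = w.re / a := by simp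
  have h2 : (w / a).im = w.im / a := by simp
  have b1 := Int.floor_le (w.re / a)
  have b2 := Int.lt_floor_add_one (w.re / a)
  have b3 := Int.floor_le (w.im / a)
  have b4 := Int.lt_floor_add_one (w.im / a)
  have e1 : a * (w.re / a) = w.re := by field_simp
  have e2 : a * (w.im / a) = w.im := by field_simp
  have f1 := mul_le_mul_of_nonneg_left b1 ha.le
  have f2 := mul_le_mul_of_nonneg_left b2.le ha.le
  have f3 := mul_le_mul_of_nonneg_left b3 ha.le
  have f4 := mul_le_mul_of_nonneg_left b4.le ha.le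
  rw [e1] at f1 f2
  rw [e2] at f3 f4
  refine (Complex.norm_le_abs_re_add_abs_im _).trans ?_
  have g1 : |(tctr a (cell (w / a)) - w).re| ≤ a / 2 := by
    simp only [tctr, cell, sub_re, h1]
    rw [abs_le]
    constructor <;> nlinarith
  have g2 : |(tctr a (cell (w / a)) - w).im| ≤ a / 2 := by
    simp only [tctr, cell, sub_im, h2]
    rw [abs_le]
    constructor <;> nlinarith
  linarith

/-- polygons with marks exist -/
theorem gpoly : GPoly := by
  intro q hq hp hx hy hx0 hy0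
  set γ : ℝ → ℂ := gam q hx hy with hγdef
  have hγ : Continuous γ := continuous_gam hq
  have h04 : γ 0 = γ 4 := gam_zero_four
  -- the centre is far from the curve
  set w0 : ℂ := (1 + I) * q (1 / 2 + I / 2) with hw0
  obtain ⟨κ, hκ, hκfar⟩ : ∃ κ > 0, ∀ s ∈ Icc (0 : ℝ) 4, κ ≤ ‖γ s - w0‖ := by
    have hco : ContinuousOn (fun s => ‖γ s - w0‖) (Icc (0 : ℝ) 4) := by fun_prop
    obtain ⟨s1, hs1, hmin⟩ := isCompact_Icc.exists_isMinOn ⟨0, by norm_num, by norm_num⟩ hco
    refine ⟨‖γ s1 - w0‖, norm_pos_iff.2 (sub_ne_zero.2 fun hcon => ?_), fun s hs => hmin hs⟩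
    have h1 := hq.inj (mul_left_cancel₀ one_add_I_ne hcon)
    have h2 : rect (1 / 2 + I / 2) hx hy 0 = 1 / 2 + I / 2 := by
      apply Complex.ext <;> simp [rect]
    have h3 := rect_injective _ hx0 hy0 (h1.trans h2.symm)
    exact (sb_mem s1).2 (h3 ▸ zero_mem_os)
  -- it is enough to treat small `τ`
  suffices key : ∀ τ : ℝ, 0 < τ → τ ≤ 1 / 16 → 4 * τ ≤ κ → ∃ (a : ℝ) (B : Coarse) (t : ℕ → ℝ), CApprox γ a τ B t by
    intro τ hτ
    obtain ⟨a, B, t, h⟩ := key (min τ (min (1 / 16) (κ / 4))) (by positivity)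
      ((min_le_right _ _).trans (min_le_left _ _)) (by
        have := (min_le_right τ (min (1 / 16) (κ / 4))).trans (min_le_right _ _)
        linarith)
    exact ⟨a, B, t, h.mono_tol (min_le_left _ _)⟩
  intro τ hτ hτ16 hτκ
  -- the parameter map
  set Q : ℂ → ℂ := fun z => (1 + I) * q (rect (1 / 2 + I / 2) hx hy z) with hQdef
  have hQ : IsTame Q := by
    have h1 := hq.rect (1 / 2 + I / 2) hx0 hy0
    refine ⟨continuous_const.mul h1.cont, fun z w hzw => h1.inj (mul_left_cancel₀ one_add_I_ne hzw), ?_⟩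
    have h2 : IsOpenMap fun z : ℂ => (1 + I) * z := (Homeomorph.mulLeft₀ (1 + I) one_add_I_ne).isOpenMap
    exact h2.comp h1.isOpenMap
  have hγQ : ∀ s, γ s = Q (sqb s) := fun s => rfl
  -- the twist
  obtain ⟨ρ, hρ, hρ1, hclose⟩ := uniform_close hQ.cont (τ := τ / 8) (by positivity)
  set ρ' : ℝ := min (ρ / 2) (τ / 4) with hρ'
  have hρ'0 : 0 < ρ' := by positivity
  have hρ'1 : ρ' ≤ ρ / 2 := min_le_left _ _
  have hρ'2 : ρ' ≤ τ / 4 := min_le_right _ _
  obtain ⟨h, hh, hid, hball, hcor⟩ := exists_twist hQ hρ'0 corner inDir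
    (fun i j hij => lt_of_lt_of_le (by linarith) (corner_dist hij)) norm_inDir
  have hhd : ∀ z, dist z (h z) ≤ ρ := by
    intro z
    by_cases hz : ∀ j, ρ' ≤ dist z (corner j)
    · rw [hid z hz, dist_self]
      exact hρ.le
    · push Not at hz
      obtain ⟨j, hj⟩ := hz
      have h1 := hball z j hj.le
      have h2 := dist_triangle_right z (h z) (corner j)
      linarith
  set γ' : ℝ → ℂ := fun s => Q (h (sqb s)) with hγ'def
  have hγ' : Continuous γ' := hQ.cont.comp (hh.cont.comp continuous_sb)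
  have hγγ : ∀ s, ‖γ' s - γ s‖ ≤ τ / 8 := fun s => hclose (sqb s) (sb_mem s).1 (h (sqb s)) (hhd _)
  have h04' : γ' 0 = γ' 4 := by
    simp only [hγ'def]
    rw [sb_zero_four]
  have hinj' : ∀ s ∈ Icc (0 : ℝ) 4, ∀ t ∈ Icc (0 : ℝ) 4, s < t → γ' s = γ' t → s = 0 ∧ t = 4 :=
    fun s hs t ht hst heq => sb_inj s hs t ht hst (hh.inj (hQ.inj heq))
  -- the east gaps
  have hgap : ∀ j : Fin 4, ∃ s : ℝ, 0 < s ∧ s < ρ' ∧
      (γ' ((j : ℕ) + 1 / 2 - s / 2)).re < (γ' ((j : ℕ) + 1 / 2)).re := by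
    intro j
    obtain ⟨h1, s, hs0, hs1, h2⟩ := hcor j
    refine ⟨s, hs0, hs1, ?_⟩
    have h3 := sqb_corner j hs0.le (by linarith)
    have h4 := sqb_corner j le_rfl zero_le_one
    simp only [zero_div, sub_zero, ofReal_zero, zero_mul, add_zero] at h4
    simp only [hγ'def]
    rw [h3, h4]
    exact h2
  choose σ hσ0 hσ1 hσ2 using hgap
  obtain ⟨g, hg0, hg⟩ : ∃ g > 0, ∀ j : Fin 4, g ≤ (γ' ((j : ℕ) + 1 / 2)).re - (γ' ((j : ℕ) + 1 / 2 - σ j / 2)).re := by
    obtain ⟨j0, -, hj0⟩ := Finset.exists_min_image Finset.univ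
      (fun j : Fin 4 => (γ' ((j : ℕ) + 1 / 2)).re - (γ' ((j : ℕ) + 1 / 2 - σ j / 2)).re) ⟨0, Finset.mem_univ 0⟩
    exact ⟨_, sub_pos.2 (hσ2 j0), fun j => hj0 j (Finset.mem_univ j)⟩
  -- the modulus of continuity of `γ'`
  set D : ℝ := τ / 2 with hD
  have huc : UniformContinuousOn γ' (Icc (0 : ℝ) 4) :=
    isCompact_Icc.uniformContinuousOn_of_continuous hγ'.continuousOn
  rw [Metric.uniformContinuousOn_iff] at huc
  obtain ⟨δ, hδ, hδ'⟩ := huc (min (D / 8) (g / 8)) (by positivity)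
  obtain ⟨s0, hs00, hs0⟩ : ∃ s0 > 0, ∀ j : Fin 4, s0 ≤ σ j := by
    obtain ⟨j0, -, hj0⟩ := Finset.exists_min_image Finset.univ σ ⟨0, Finset.mem_univ 0⟩
    exact ⟨_, hσ0 j0, fun j => hj0 j (Finset.mem_univ j)⟩
  set θ : ℝ := min (min (δ / 2) (s0 / 8)) (τ / 4) with hθ
  have hθ0 : 0 < θ := by positivity
  have hθδ : θ ≤ δ / 2 := (min_le_left _ _).trans (min_le_left _ _)
  have hθs : θ ≤ s0 / 8 := (min_le_left _ _).trans (min_le_right _ _)
  have hθτ : θ ≤ τ / 4 := min_le_right _ _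
  have hmod : ∀ s ∈ Icc (0 : ℝ) 4, ∀ s' ∈ Icc (0 : ℝ) 4, |s - s'| ≤ θ →
      ‖γ' s - γ' s'‖ ≤ D / 8 ∧ ‖γ' s - γ' s'‖ ≤ g / 8 := by
    intro s hs s' hs' hss
    have h1 := hδ' s hs s' hs' (by rw [Real.dist_eq]; linarith)
    rw [dist_eq_norm] at h1
    exact ⟨(h1.trans_le (min_le_left _ _)).le, (h1.trans_le (min_le_right _ _)).le⟩
  obtain ⟨a0, ha0, hpoly⟩ := exists_lpoly hγ' h04' hinj' hθ0 (by linarith)
  -- the mesh
  set a : ℝ := min (a0 / 2) (min (g / 64) (τ / 80)) with ha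
  have hapos : 0 < a := by positivity
  have haa0 : a < a0 := by
    have := min_le_left (a0 / 2) (min (g / 64) (τ / 80))
    linarith
  have hag : a ≤ g / 64 := (min_le_right _ _).trans (min_le_left _ _)
  have haτ : a ≤ τ / 80 := (min_le_right _ _).trans (min_le_right _ _)
  obtain ⟨n, v, t, hn3, hP⟩ := hpoly a hapos haa0
  have hmono := mono_of_step hP.mono
  -- winding numbers
  have hwn : ∀ p, (∀ s ∈ Icc (0 : ℝ) 4, τ ≤ ‖γ s - tctr a p‖) → ∀ m, Wn (fun s => γ s - tctr a p) m →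
      sc n v p = m := by
    intro p hfar m hm
    have hfar' := gam_far hfar
    refine hP.sc_eq hapos (D := D) (fun s hs => ?_) (by rw [hD]; linarith) (fun s hs s' hs' hss => (hmod s hs s' hs' hss).1) ?_
    · have h1 := hfar s hs
      have h2 := hγγ s
      have h3 : γ s - tctr a p = (γ' s - tctr a p) - (γ' s - γ s) := by ring
      have h4 := norm_sub_le (γ' s - tctr a p) (γ' s - γ s)
      rw [← h3] at h4
      rw [hD]
      linarith
    · refine wn_close (f := fun s => γ s - tctr a p) (g := fun s => γ' s - tctr a p) (hγ.sub continuous_const) (hγ'.sub continuous_const)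
        (by simp only [h04]) (by simp only [h04']) (fun s => ?_) hm
      have h1 := hfar' s
      have h2 := hγγ s
      have e : γ' s - tctr a p - (γ s - tctr a p) = γ' s - γ s := by ring
      rw [e]
      exact lt_of_le_of_lt h2 (lt_of_lt_of_le (by linarith) h1)
  -- the polygon
  have hS : SPoly n v := ⟨⟨hP.adj, hP.closed⟩, hn3, hP.inj⟩
  obtain ⟨m, hm, hin⟩ := wn_gam_in hq hp hx0 hy0
  have hccw : ∀ p, sc n v p = 0 ∨ sc n v p = 1 := by
    obtain ⟨d, hd⟩ := hS.toCWalk.exists_dirs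
    obtain ⟨A, hA⟩ := hS.sides hd
    have h1 : sc n v (cell (w0 / a)) = m := by
      have h2 := norm_tctr_cell hapos w0
      have h3 : ∀ s ∈ Icc (0 : ℝ) 4, 3 * τ ≤ ‖γ s - tctr a (cell (w0 / a))‖ := by
        intro s hs
        have h4 := hκfar s hs
        have h5 : γ s - w0 = (γ s - tctr a (cell (w0 / a))) + (tctr a (cell (w0 / a)) - w0) := by ring
        have h6 := norm_add_le (γ s - tctr a (cell (w0 / a))) (tctr a (cell (w0 / a)) - w0)
        rw [← h5] at h6
        linarith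
      refine hwn _ (fun s hs => (by linarith [h3 s hs])) m ?_
      have h7 := hin (1 / 2 + I / 2) (by rw [half_re]; simpa using hx0) (by rw [half_im]; simpa using hy0)
      refine wn_close (f := fun s => γ s - w0) (g := fun s => γ s - tctr a (cell (w0 / a))) (hγ.sub continuous_const) (hγ.sub continuous_const)
        (by simp only [h04]) (by simp only [h04]) (fun s => ?_) h7
      have h8 : κ ≤ ‖γ s - w0‖ := gam_far hκfar s
      have e : γ s - tctr a (cell (w0 / a)) - (γ s - w0) = -(tctr a (cell (w0 / a)) - w0) := by ring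
      rw [e, norm_neg]
      linarith
    intro p
    rcases hS.orient hd hA with hA1 | hA0
    · have := hS.values hd hA p
      rw [hA1] at this
      simpa using this
    · exfalso
      have := hS.values hd hA (cell (w0 / a))
      rw [hA0, h1] at this
      omega
  -- the marks
  have hmark : ∀ j : Fin 4, ∃ i, i < n ∧ v (i + 1) = v i + (1, 0) ∧ |t i - ((j : ℕ) + 1 / 2)| ≤ τ / 2 := by
    intro j
    have hj0 : (0 : ℝ) ≤ ((j : ℕ) : ℝ) := Nat.cast_nonneg _
    have hj3 : ((j : ℕ) : ℝ) ≤ 3 := by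
      have : (j : ℕ) ≤ 3 := by omega
      exact_mod_cast this
    have h1 := hσ0 j
    have h2 := hσ1 j
    have h3 := hs0 j
    have m1 : ((j : ℕ) : ℝ) + 1 / 2 - σ j / 2 ∈ Icc (0 : ℝ) 4 := ⟨by linarith, by linarith⟩
    have m2 : ((j : ℕ) : ℝ) + 1 / 2 ∈ Icc (0 : ℝ) 4 := ⟨by linarith, by linarith⟩
    obtain ⟨i1, hi1, hl1⟩ := exists_label hP.jump hP.start hP.fin m1.1 m1.2
    obtain ⟨i2, hi2, hl2⟩ := exists_label hP.jump hP.start hP.fin m2.1 m2.2
    rw [abs_le] at hl1 hl2
    have hi12 : i1 ≤ i2 := by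
      by_contra hcon
      have := hmono i2 i1 (by omega) hi1
      linarith
    have c1 := hP.close i1 hi1
    have c2 := hP.close i2 hi2
    have d1 := (hmod _ (hP.mem i1 hi1) _ m1 (abs_le.2 hl1)).2
    have d2 := (hmod _ (hP.mem i2 hi2) _ m2 (abs_le.2 hl2)).2
    have x1 := (Complex.abs_re_le_norm _).trans c1
    have x2 := (Complex.abs_re_le_norm _).trans c2
    have y1 := (Complex.abs_re_le_norm _).trans d1
    have y2 := (Complex.abs_re_le_norm _).trans d2
    rw [sub_re, abs_le] at x1 x2 y1 y2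
    have hgj := hg j
    have hlt : (gp a (v i1)).re < (gp a (v i2)).re := by linarith
    simp only [gp] at hlt
    have hlt2 : (v i1).1 < (v i2).1 := by
      have := (mul_lt_mul_iff_right₀ hapos).1 hlt
      exact_mod_cast this
    obtain ⟨k, hk1, hk2, hk3⟩ := exists_east hP.adj hi12 hi2 hlt2
    refine ⟨k, by omega, hk3, ?_⟩
    have e1 := hmono i1 k hk1 (by omega)
    have e2 := hmono k i2 hk2.le hi2
    rw [abs_le]
    constructor <;> linarith
  choose M hMn hMe hMt using hmark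
  have hlt : ∀ i j : Fin 4, (i : ℕ) < (j : ℕ) → M i < M j := by
    intro i j hij
    by_contra hcon
    have h1 := hmono (M j) (M i) (by omega) (hMn i).le
    have h2 := hMt i
    have h3 := hMt j
    rw [abs_le] at h2 h3
    have h4 : ((i : ℕ) : ℝ) + 1 ≤ ((j : ℕ) : ℝ) := by exact_mod_cast hij
    linarith
  refine ⟨a, ⟨n, v, M, hS, hccw, hlt 0 1 (by decide), hlt 1 2 (by decide), hlt 2 3 (by decide), hMn 3, hMe⟩, t, ?_⟩
  refine ⟨hapos, by linarith, fun i hi => ?_, hP.mono, fun i hi => (hP.jump i hi).trans (by linarith), hP.mem,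
    hP.start.trans (by linarith), by linarith [hP.fin], fun j => (hMt j).trans (by linarith), hwn⟩
  have h1 := hP.close i hi
  have h2 := hγγ (t i)
  have e : gp a (v i) - γ (t i) = (gp a (v i) - γ' (t i)) + (γ' (t i) - γ (t i)) := by ring
  have h3 := norm_add_le (gp a (v i) - γ' (t i)) (γ' (t i) - γ (t i))
  rw [← e] at h3
  linarith

end Full
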