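import Pool.Agent.Full.End.BvpSol
import Pool.Agent.Full.Rough.Final
import Pool.Agent.Helper47.Perc.Aspect

/-!
# FULL, end game: from the lattice part to approximations

`hasAppr_of_lat : Lat → GPoly → GMinus → GPlus → GBvp → ∀ q, IsTame q → Pos q → HasAppr q`.
-/

set_option autoImplicit false

open Set Filter Topology H47Perc Complex Metric

namespace Full

namespace Bvp

/-! ### the probability does not depend on the set of vertices -/

lemma crossed_inter {q : ℂ → ℂ} (hq : IsTame q) {ε : ℝ} (hε : 0 < ε) {S : Finset (ℤ × ℤ)} (hS : Near1 q ε S)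
    {ω : Finset (Sym2 (ℤ × ℤ))} (hω : ∀ e ∈ ω, IsEdge e) : Crossed ε q ω ↔ Crossed ε q (ω ∩ edgesIn S) := by
  rw [crossed_iff hq.isQuad, crossed_iff hq.isQuad]
  exact CrossR.inter hε hω hS le_rfl le_rfl le_rfl le_rfl

lemma perc_crossed {q : ℂ → ℂ} (hq : IsTame q) {ε : ℝ} (hε : 0 < ε) {S S' : Finset (ℤ × ℤ)} (hS : Near1 q ε S)
    (hSS : S ⊆ S') : perc half S' (Crossed ε q) = perc half S (Crossed ε q) := by
  rw [← perc_restrict hSS]
  rw [Pool.Agent.Helper69.RSW.perc_half_eq, Pool.Agent.Helper69.RSW.perc_half_eq]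
  apply Pool.Agent.Helper69.RSW.P_congr
  intro ω hω
  exact crossed_inter hq hε hS fun e he => edgesIn_cases (hω he)

/-! ### finite regions -/

lemma exists_bound (n : ℕ) (v : ℕ → ℤ × ℤ) : ∃ X : ℤ, ∀ i ≤ n, |(v i).1| < X ∧ |(v i).2| < X := by
  induction n with
  | zero =>
    refine ⟨|(v 0).1| + |(v 0).2| + 1, fun i hi => ?_⟩
    obtain rfl : i = 0 := by omega
    have h1 := abs_nonneg (v 0).1
    have h2 := abs_nonneg (v 0).2
    omega
  | succ n ih =>
    obtain ⟨X, hX⟩ := ih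
    refine ⟨max X (|(v (n + 1)).1| + |(v (n + 1)).2| + 1), fun i hi => ?_⟩
    rcases Nat.lt_or_ge i (n + 1) with h | h
    · obtain ⟨h1, h2⟩ := hX i (by omega)
      exact ⟨h1.trans_le (le_max_left _ _), h2.trans_le (le_max_left _ _)⟩
    · obtain rfl : i = n + 1 := by omega
      have h1 := abs_nonneg (v (n + 1)).1
      have h2 := abs_nonneg (v (n + 1)).2
      have h3 := le_max_right X (|(v (n + 1)).1| + |(v (n + 1)).2| + 1)
      omega

lemma sc_eq_zero {n : ℕ} {v : ℕ → ℤ × ℤ} (h : CWalk n v) {X : ℤ} (hX : ∀ i ≤ n, |(v i).1| < X ∧ |(v i).2| < X)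
    {p : ℤ × ℤ} (hp : X < |p.1| ∨ X < |p.2|) : sc n v p = 0 := by
  -- far above and far below
  have hfar : ∀ p : ℤ × ℤ, X < |p.2| → sc n v p = 0 := by
    intro p hp
    unfold sc
    refine Finset.sum_eq_zero fun i hi => ?_
    rw [Finset.mem_range] at hi
    have h1 := (hX i hi.le).2
    unfold sphi
    rw [if_neg, if_neg]
    · norm_num
    · rintro ⟨-, -, h2, h3⟩
      rw [h2] at h1
      omega
    · rintro ⟨-, -, h2, h3⟩
      have h4 := (hX (i + 1) hi).2
      rw [h3] at h4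
      omega
  rcases hp with hp | hp
  · rcases le_or_gt 0 p.1 with h0 | h0
    · -- to the right: go up
      have hp1 : X < p.1 := by rwa [abs_of_nonneg h0] at hp
      have hstep : ∀ y : ℤ, sc n v (p.1, y) = sc n v (p.1, y - 1) := by
        intro y
        have h1 := h.east (p.1, y)
        have h2 : flow n v (p.1, y) (p.1 + 1, y) = 0 := flow_eq_zero fun i hi => by
          have h3 := (hX i hi.le).1
          constructor
          · rintro ⟨h4, -⟩
            rw [h4] at h3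
            simp only at h3
            rw [abs_of_nonneg h0] at h3
            omega
          · rintro ⟨h4, -⟩
            rw [h4] at h3
            simp only at h3
            rw [abs_of_nonneg (by omega)] at h3
            omega
        simp only at h1
        rw [h2] at h1
        linarith
      have hup : ∀ k : ℕ, sc n v (p.1, p.2) = sc n v (p.1, p.2 + k) := by
        intro k
        induction k with
        | zero => simp
        | succ k ih =>
          have h1 := hstep (p.2 + (k + 1 : ℕ))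
          have e : p.2 + ((k + 1 : ℕ) : ℤ) - 1 = p.2 + k := by push_cast; ring
          rw [e] at h1
          rw [ih, h1]
      have h1 := hup (|p.2| + |X| + 1).toNat
      have h2 : sc n v p = sc n v (p.1, p.2) := rfl
      rw [h2, h1]
      refine hfar _ ?_
      have h3 : ((|p.2| + |X| + 1).toNat : ℤ) = |p.2| + |X| + 1 :=
        Int.toNat_of_nonneg (by have := abs_nonneg p.2; have := abs_nonneg X; omega)
      simp only
      rw [h3]
      have h4 := neg_abs_le p.2
      have h5 := le_abs_self X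
      have h6 : 0 ≤ p.2 + (|p.2| + |X| + 1) := by have := abs_nonneg X; omega
      rw [abs_of_nonneg h6]
      omega
    · refine sc_far fun i hi => ?_
      have h1 := (hX i hi.le).1
      have h2 := neg_abs_le (v i).1
      rw [abs_of_neg h0] at hp
      omega
  · exact hfar p hp

/-- all vertices near the region -/
lemma exists_big (B : Coarse) {k : ℕ} (hk : 0 < k) (S : Finset (ℤ × ℤ)) : ∃ S', S ⊆ S' ∧ B.Big k S' := by
  obtain ⟨X, hX⟩ := exists_bound B.n B.v
  have hX0 : 0 < X := (abs_nonneg _).trans_lt (hX 0 (Nat.zero_le _)).1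
  set Y : ℤ := k * (X + 3) with hY
  have hk' : (0 : ℤ) < k := by exact_mod_cast hk
  have hfin : {f : ℤ × ℤ | B.Nb (cc k f)} ⊆ ((Finset.Icc (-Y) Y ×ˢ Finset.Icc (-Y) Y : Finset (ℤ × ℤ)) : Set (ℤ × ℤ)) := by
    rintro f ⟨p', hp', h1, h2⟩
    have h3 : |p'.1| ≤ X ∧ |p'.2| ≤ X := by
      by_contra hcon
      rw [not_and_or, not_le, not_le] at hcon
      have := sc_eq_zero B.poly.toCWalk hX hcon
      rw [Coarse.In, this] at hp'
      exact absurd hp' (by norm_num)
    obtain ⟨h4, h5⟩ := h3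
    rw [abs_le] at h1 h2 h4 h5
    simp only [cc] at h1 h2
    have g1 : -(X + 1) ≤ f.1 / k := by omega
    have g2 : f.1 / k ≤ X + 1 := by omega
    have g3 : -(X + 1) ≤ f.2 / k := by omega
    have g4 : f.2 / k ≤ X + 1 := by omega
    have k1 : k * (f.1 / k) + f.1 % k = f.1 := Int.mul_ediv_add_emod _ _
    have k2 : k * (f.2 / k) + f.2 % k = f.2 := Int.mul_ediv_add_emod _ _
    have k3 := Int.emod_nonneg f.1 hk'.ne'
    have k4 := Int.emod_lt_of_pos f.1 hk'
    have k5 := Int.emod_nonneg f.2 hk'.ne'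
    have k6 := Int.emod_lt_of_pos f.2 hk'
    simp only [Finset.coe_product, Finset.coe_Icc, mem_prod, mem_Icc]
    refine ⟨⟨?_, ?_⟩, ?_, ?_⟩ <;> nlinarith
  classical
  refine ⟨S ∪ (Finset.Icc (-Y) Y ×ˢ Finset.Icc (-Y) Y).image (fun f => pv (cA f)) ∪
    (Finset.Icc (-Y) Y ×ˢ Finset.Icc (-Y) Y).image (fun f => pv (cB f)), ?_, fun f hf => ⟨?_, ?_⟩⟩
  · exact Finset.subset_union_left.trans Finset.subset_union_left
  · exact Finset.mem_union_left _ (Finset.mem_union_right _ (Finset.mem_image_of_mem _ (hfin hf)))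
  · exact Finset.mem_union_right _ (Finset.mem_image_of_mem _ (hfin hf))

/-! ### change of the curve -/

variable {q : ℂ → ℂ}

lemma exists_sqb' (s : ℝ) : ∃ s' ∈ Icc (0 : ℝ) 4, sqb s' = sqb s := exists_sqb (sb_mem s).1 (sb_mem s).2

lemma gam_cont (hq : IsTame q) (hx hy : ℝ) : Continuous (gam q hx hy) := by
  unfold gam
  exact continuous_const.mul (hq.cont.comp ((continuous_rect _ _ _).comp continuous_sb))

lemma capprox_mono {γ : ℝ → ℂ} {a τ τ' : ℝ} {B : Coarse} {t : ℕ → ℝ} (h : CApprox γ a τ B t) (hτ : τ ≤ τ') :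
    CApprox γ a τ' B t where
  pos := h.pos
  le := h.le.trans hτ
  close i hi := (h.close i hi).trans hτ
  mono := h.mono
  jump i hi := (h.jump i hi).trans (by linarith)
  mem := h.mem
  start := h.start.trans hτ
  fin := le_trans (by linarith) h.fin
  mark j := (h.mark j).trans hτ
  wn p hp m hm := h.wn p (fun s hs => hτ.trans (hp s hs)) m hm

lemma capprox_transfer (hq : IsTame q) {hx hy hx' hy' a τ o : ℝ} {B : Coarse} {t : ℕ → ℝ}
    (h : CApprox (gam q hx hy) a τ B t) (ho : ∀ s, ‖gam q hx hy s - gam q hx' hy' s‖ ≤ o) :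
    CApprox (gam q hx' hy') a (τ + o) B t := by
  have ho0 : 0 ≤ o := (norm_nonneg _).trans (ho 0)
  have hτ0 : 0 < τ := h.pos.trans_le h.le
  refine ⟨h.pos, h.le.trans (by linarith), fun i hi => ?_, h.mono, fun i hi => (h.jump i hi).trans (by linarith), h.mem,
    h.start.trans (by linarith), le_trans (by linarith) h.fin, fun j => (h.mark j).trans (by linarith), fun p hp m hm => ?_⟩
  · have e : gp a (B.v i) - gam q hx' hy' (t i) = (gp a (B.v i) - gam q hx hy (t i)) +
        (gam q hx hy (t i) - gam q hx' hy' (t i)) := by ring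
    rw [e]
    exact (norm_add_le _ _).trans (add_le_add (h.close i hi) (ho _))
  · -- all labels
    have hp' : ∀ s, τ + o ≤ ‖gam q hx' hy' s - tctr a p‖ := by
      intro s
      obtain ⟨s', hs', hss⟩ := exists_sqb' s
      have := hp s' hs'
      unfold gam at this ⊢
      rwa [hss] at this
    have hH : Continuous fun x : ℝ × ℝ => (gam q hx' hy' x.1 - tctr a p) +
        (c01 x.2 : ℂ) * (gam q hx hy x.1 - gam q hx' hy' x.1) := by
      have h1 := gam_cont hq hx hy
      have h2 := gam_cont hq hx' hy'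
      have h3 := continuous_c01
      fun_prop
    have h0 : ∀ x : ℝ × ℝ, (gam q hx' hy' x.1 - tctr a p) +
        (c01 x.2 : ℂ) * (gam q hx hy x.1 - gam q hx' hy' x.1) ≠ 0 := by
      intro x hx0
      have h1 := hp' x.1
      have h2 := ho x.1
      have h3 : gam q hx' hy' x.1 - tctr a p = -((c01 x.2 : ℂ) * (gam q hx hy x.1 - gam q hx' hy' x.1)) := by
        linear_combination hx0
      rw [h3, norm_neg, norm_mul, Complex.norm_real, Real.norm_of_nonneg (c01_mem _).1] at h1
      have h4 := (c01_mem x.2).2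
      have h5 := (c01_mem x.2).1
      nlinarith [norm_nonneg (gam q hx hy x.1 - gam q hx' hy' x.1)]
    have hcl : ∀ s : ℝ, (gam q hx' hy' ((4 : ℝ), s).1 - tctr a p) +
        (c01 ((4 : ℝ), s).2 : ℂ) * (gam q hx hy ((4 : ℝ), s).1 - gam q hx' hy' ((4 : ℝ), s).1) =
        (gam q hx' hy' ((0 : ℝ), s).1 - tctr a p) +
        (c01 ((0 : ℝ), s).2 : ℂ) * (gam q hx hy ((0 : ℝ), s).1 - gam q hx' hy' ((0 : ℝ), s).1) := by
      intro s
      simp only [gam]
      rw [sb_zero_four]
    have h1 := Wn.homotopy (s := 0) (s' := 1) hH h0 hcl (m := m) (by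
      simp only [c01_zero, ofReal_zero, zero_mul, add_zero]
      exact hm)
    simp only [c01_one, ofReal_one, one_mul] at h1
    have e : (fun t => gam q hx' hy' t - tctr a p + (gam q hx hy t - gam q hx' hy' t)) =
        fun t => gam q hx hy t - tctr a p := by
      funext t; ring
    rw [e] at h1
    refine h.wn p (fun s hs => ?_) m h1
    have h2 := hp' s
    have h3 := ho s
    have h4 : ‖gam q hx' hy' s - tctr a p‖ ≤ ‖gam q hx hy s - tctr a p‖ + ‖gam q hx hy s - gam q hx' hy' s‖ := by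
      have e : gam q hx' hy' s - tctr a p = (gam q hx hy s - tctr a p) - (gam q hx hy s - gam q hx' hy' s) := by ring
      rw [e]
      exact norm_sub_le _ _
    linarith

lemma exists_osc (hq : IsTame q) {hx hy : ℕ → ℝ} (h1 : Tendsto hx atTop (𝓝 (1 / 2))) (h2 : Tendsto hy atTop (𝓝 (1 / 2))) :
    ∃ o : ℕ → ℝ, Tendsto o atTop (𝓝 0) ∧ ∀ m s, ‖gam q (hx m) (hy m) s - gam q (1 / 2) (1 / 2) s‖ ≤ o m := by
  set f : ℕ → ℝ → ℝ := fun m s => ‖gam q (hx m) (hy m) s - gam q (1 / 2) (1 / 2) s‖ with hf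
  have hfc : ∀ m, Continuous (f m) := fun m => ((gam_cont hq _ _).sub (gam_cont hq _ _)).norm
  have hbdd : ∀ m, BddAbove (f m '' Icc 0 4) := fun m => (isCompact_Icc.image (hfc m)).bddAbove
  refine ⟨fun m => sSup (f m '' Icc 0 4), ?_, fun m s => ?_⟩
  · rw [Metric.tendsto_nhds]
    intro δ hδ
    have huc : UniformContinuousOn q (closedBall (0 : ℂ) 5) :=
      (isCompact_closedBall (0 : ℂ) 5).uniformContinuousOn_of_continuous hq.cont.continuousOn
    rw [Metric.uniformContinuousOn_iff] at huc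
    obtain ⟨r, hr, hr2⟩ := huc (δ / 4) (by positivity)
    have e1 := Metric.tendsto_nhds.1 h1 (min (1 / 2) (r / 2)) (by positivity)
    have e2 := Metric.tendsto_nhds.1 h2 (min (1 / 2) (r / 2)) (by positivity)
    filter_upwards [e1, e2] with m g1 g2
    rw [Real.dist_eq] at g1 g2
    have g3 := g1.trans_le (min_le_left _ _)
    have g4 := g1.trans_le (min_le_right _ _)
    have g5 := g2.trans_le (min_le_left _ _)
    have g6 := g2.trans_le (min_le_right _ _)
    have key : ∀ s ∈ Icc (0 : ℝ) 4, f m s ≤ δ / 2 := by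
      intro s _
      obtain ⟨hz1, hz2⟩ := (sb_mem s).1
      have hin : ∀ x y : ℝ, |x - 1 / 2| < 1 / 2 → |y - 1 / 2| < 1 / 2 →
          rect (1 / 2 + I / 2) x y (sqb s) ∈ closedBall (0 : ℂ) 5 := by
        intro x y hx hy
        rw [mem_closedBall, dist_zero_right]
        refine (norm_le_abs_add _).trans ?_
        simp only [rect, ctr_re, ctr_im]
        rw [abs_lt] at hx hy
        have b1 : |x * (sqb s).re| ≤ 1 := by
          rw [abs_mul]
          have : |x| ≤ 1 := abs_le.2 ⟨by linarith, by linarith⟩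
          nlinarith [abs_nonneg x, abs_nonneg (sqb s).re]
        have b2 : |y * (sqb s).im| ≤ 1 := by
          rw [abs_mul]
          have : |y| ≤ 1 := abs_le.2 ⟨by linarith, by linarith⟩
          nlinarith [abs_nonneg y, abs_nonneg (sqb s).im]
        have b3 := abs_add_le (1 / 2 : ℝ) (x * (sqb s).re)
        have b4 := abs_add_le (1 / 2 : ℝ) (y * (sqb s).im)
        rw [abs_of_pos (by norm_num : (0 : ℝ) < 1 / 2)] at b3 b4
        linarith
      have hd : dist (rect (1 / 2 + I / 2) (hx m) (hy m) (sqb s)) (rect (1 / 2 + I / 2) (1 / 2) (1 / 2) (sqb s)) < r := by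
        rw [dist_eq_norm]
        refine (norm_le_abs_add _).trans_lt ?_
        have r1 : (rect (1 / 2 + I / 2) (hx m) (hy m) (sqb s) - rect (1 / 2 + I / 2) (1 / 2) (1 / 2) (sqb s)).re =
            (hx m - 1 / 2) * (sqb s).re := by
          simp only [rect, sub_re]; ring
        have r2 : (rect (1 / 2 + I / 2) (hx m) (hy m) (sqb s) - rect (1 / 2 + I / 2) (1 / 2) (1 / 2) (sqb s)).im =
            (hy m - 1 / 2) * (sqb s).im := by
          simp only [rect, sub_im]; ring
        rw [r1, r2, abs_mul, abs_mul]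
        nlinarith [abs_nonneg (hx m - 1 / 2), abs_nonneg (hy m - 1 / 2), abs_nonneg (sqb s).re, abs_nonneg (sqb s).im]
      have h3 := hr2 _ (hin _ _ g3 g5) _ (hin (1 / 2) (1 / 2) (by norm_num) (by norm_num)) hd
      rw [dist_eq_norm] at h3
      have h4 : gam q (hx m) (hy m) s - gam q (1 / 2) (1 / 2) s = (1 + I) *
          (q (rect (1 / 2 + I / 2) (hx m) (hy m) (sqb s)) - q (rect (1 / 2 + I / 2) (1 / 2) (1 / 2) (sqb s))) := by
        simp only [gam]; ring
      simp only [hf]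
      rw [h4, norm_mul]
      have h5 : ‖(1 + I : ℂ)‖ ≤ 2 := by
        refine (norm_add_le _ _).trans ?_
        rw [norm_one, norm_I]; norm_num
      nlinarith [norm_nonneg (q (rect (1 / 2 + I / 2) (hx m) (hy m) (sqb s)) - q (rect (1 / 2 + I / 2) (1 / 2) (1 / 2) (sqb s)))]
    have h0 : 0 ≤ sSup (f m '' Icc 0 4) := by
      refine Real.sSup_nonneg ?_
      rintro _ ⟨s, -, rfl⟩
      exact norm_nonneg _
    rw [Real.dist_eq, sub_zero, abs_of_nonneg h0]
    have hne : (f m '' Icc 0 4).Nonempty := ⟨f m 0, mem_image_of_mem _ (show (0 : ℝ) ∈ Icc (0 : ℝ) 4 from ⟨le_rfl, by norm_num⟩)⟩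
    refine (csSup_le hne ?_).trans_lt (half_lt_self hδ)
    rintro _ ⟨s, hs, rfl⟩
    exact key s hs
  · obtain ⟨s', hs', hss⟩ := exists_sqb' s
    have h3 : ‖gam q (hx m) (hy m) s - gam q (1 / 2) (1 / 2) s‖ = f m s' := by
      simp only [hf, gam, hss]
    rw [h3]
    exact le_csSup (hbdd m) (mem_image_of_mem _ hs')

/-- a family of polygons which is as good as one likes -/
lemma exists_family (hG : GPoly) (hq : IsTame q) (hp : Pos q) {hx hy : ℕ → ℝ} (h1 : Tendsto hx atTop (𝓝 (1 / 2)))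
    (h2 : Tendsto hy atTop (𝓝 (1 / 2))) (hx0 : ∀ m, 0 < hx m) (hy0 : ∀ m, 0 < hy m) {τ₀ : ℕ → ℝ} (hτ₀ : ∀ m, 0 < τ₀ m) :
    ∃ (a τ : ℕ → ℝ) (B : ℕ → Coarse) (t : ℕ → ℕ → ℝ), Tendsto τ atTop (𝓝 0) ∧
      (∀ m, CApprox (gam q (1 / 2) (1 / 2)) (a m) (τ m) (B m) (t m)) ∧
      ∀ m, CApprox (gam q (hx m) (hy m)) (a m) (τ₀ m) (B m) (t m) := by
  obtain ⟨o, ho, ho2⟩ := exists_osc hq h1 h2
  have hpos : ∀ m : ℕ, 0 < min (τ₀ m) (1 / ((m : ℝ) + 1)) := fun m => lt_min (hτ₀ m) (by positivity)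
  choose a B t h3 using fun m => hG q hq hp (hx m) (hy m) (hx0 m) (hy0 m) _ (hpos m)
  refine ⟨a, fun m => min (τ₀ m) (1 / ((m : ℝ) + 1)) + o m, B, t, ?_, fun m => capprox_transfer hq (h3 m) (ho2 m),
    fun m => capprox_mono (h3 m) (min_le_left _ _)⟩
  have h4 : Tendsto (fun m : ℕ => min (τ₀ m) (1 / ((m : ℝ) + 1))) atTop (𝓝 0) :=
    tendsto_of_tendsto_of_tendsto_of_le_of_le tendsto_const_nhds tendsto_one_div_add_atTop_nhds_zero_nat
      (fun m => (hpos m).le) (fun m => min_le_right _ _)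
  have h5 := h4.add ho
  rwa [add_zero] at h5

lemma a_tendsto {a τ : ℕ → ℝ} {B : ℕ → Coarse} {t : ℕ → ℕ → ℝ} (hτ : Tendsto τ atTop (𝓝 0))
    (h : ∀ m, CApprox (gam q (1 / 2) (1 / 2)) (a m) (τ m) (B m) (t m)) : Tendsto a atTop (𝓝 0) :=
  tendsto_of_tendsto_of_tendsto_of_le_of_le tendsto_const_nhds hτ (fun m => (h m).pos.le) (fun m => (h m).le)

/-- the number `η m = 1 / (m + 5)` -/
lemma eta_pos (m : ℕ) : (0 : ℝ) < 1 / ((m : ℝ) + 5) := by positivity

lemma eta_lt (m : ℕ) : 1 / ((m : ℝ) + 5) < 1 / 4 := by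
  rw [div_lt_div_iff₀ (by positivity) (by norm_num)]
  have : (0 : ℝ) ≤ m := Nat.cast_nonneg m
  linarith

lemma eta_tendsto : Tendsto (fun m : ℕ => 1 / ((m : ℝ) + 5)) atTop (𝓝 0) := by
  have h : Tendsto (fun m : ℕ => (m : ℝ) + 5) atTop atTop :=
    tendsto_atTop_add_const_right _ _ tendsto_natCast_atTop_atTop
  have h2 := h.inv_tendsto_atTop
  refine h2.congr fun m => ?_
  rw [one_div]; rfl

end Bvp

open Bvp in
/-- **approximations exist** -/
theorem hasAppr_of_lat (hLat : Lat) (hG : GPoly) (hM : GMinus) (hP : GPlus) (hB : GBvp) (q : ℂ → ℂ) (hq : IsTame q)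
    (hp : Pos q) : HasAppr q := by
  have hsum : Tendsto (fun m : ℕ => 1 / 2 + 1 / ((m : ℝ) + 5)) atTop (𝓝 (1 / 2)) := by
    have h := eta_tendsto.const_add (1 / 2 : ℝ)
    rwa [add_zero] at h
  have hdif : Tendsto (fun m : ℕ => 1 / 2 - 1 / ((m : ℝ) + 5)) atTop (𝓝 (1 / 2)) := by
    have h := eta_tendsto.const_sub (1 / 2 : ℝ)
    rwa [sub_zero] at h
  have hsum0 : ∀ m : ℕ, 0 < 1 / 2 + 1 / ((m : ℝ) + 5) := fun m => by have := eta_pos m; linarith
  have hdif0 : ∀ m : ℕ, 0 < 1 / 2 - 1 / ((m : ℝ) + 5) := fun m => by have := eta_lt m; linarith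
  constructor
  · choose τ₀ hτ₀ h1 using fun m : ℕ => hM q hq _ (eta_pos m) (eta_lt m)
    obtain ⟨a, τ, B, t, hτ, hap, hap'⟩ := exists_family hG hq hp hsum hdif hsum0 hdif0 hτ₀
    obtain ⟨F, p, k, hA, hk, hPc⟩ := hB hLat q hq hp a τ B t hτ hap
    refine ⟨ℕ, atTop, F, p, inferInstance, hA, ?_⟩
    intro η hη
    have ha0 := a_tendsto hτ hap
    rw [eventually_iter]
    filter_upwards [ha0.eventually (gt_mem_nhds hη)] with m hm
    obtain ⟨ρ, hρ, h2⟩ := h1 m (a m) (B m) (t m) (hap' m)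
    have e1 : ∀ᶠ ε in mesh, 0 < ε := self_mem_nhdsWithin
    have e2 : ∀ᶠ ε in mesh, ε < ρ := mem_nhdsWithin_of_mem_nhds (Iio_mem_nhds hρ)
    have e3 := Metric.tendsto_nhds.1 (hk m) (min ρ (a m)) (lt_min hρ (hap m).pos)
    filter_upwards [e1, e2, e3, hPc m] with ε g1 g2 g3 g4 S hS
    rw [Real.dist_eq] at g3
    have hk0 : 0 < k (m, ε) := by
      by_contra hcon
      have : k (m, ε) = 0 := by omega
      rw [this] at g3
      simp only [Nat.cast_zero, zero_mul, zero_sub, abs_neg, abs_of_pos (hap m).pos] at g3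
      exact absurd (g3.trans_le (min_le_right _ _)) (lt_irrefl _)
    obtain ⟨S', hSS, hbig⟩ := exists_big (B m) hk0 S
    have h3 := g4.lo (Crossed ε q) (fun T VL VR hadm ω _ hc =>
      h2 ε (k (m, ε)) g1 g2 (g3.trans_le (min_le_left _ _)) T VL VR hadm ω hc) S' hbig
    rw [perc_crossed hq g1 hS hSS] at h3
    linarith
  · choose τ₀ hτ₀ h1 using fun m : ℕ => hP q hq _ (eta_pos m) (eta_lt m)
    obtain ⟨a, τ, B, t, hτ, hap, hap'⟩ := exists_family hG hq hp hdif hsum hdif0 hsum0 hτ₀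
    obtain ⟨F, p, k, hA, hk, hPc⟩ := hB hLat q hq hp a τ B t hτ hap
    refine ⟨ℕ, atTop, F, p, inferInstance, hA, ?_⟩
    intro η hη
    have ha0 := a_tendsto hτ hap
    rw [eventually_iter]
    filter_upwards [ha0.eventually (gt_mem_nhds hη)] with m hm
    obtain ⟨ρ, hρ, h2⟩ := h1 m (a m) (B m) (t m) (hap' m)
    have e1 : ∀ᶠ ε in mesh, 0 < ε := self_mem_nhdsWithin
    have e2 : ∀ᶠ ε in mesh, ε < ρ := mem_nhdsWithin_of_mem_nhds (Iio_mem_nhds hρ)
    have e3 := Metric.tendsto_nhds.1 (hk m) (min ρ (a m)) (lt_min hρ (hap m).pos)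
    filter_upwards [e1, e2, e3, hPc m] with ε g1 g2 g3 g4 S hS
    rw [Real.dist_eq] at g3
    have hk0 : 0 < k (m, ε) := by
      by_contra hcon
      have : k (m, ε) = 0 := by omega
      rw [this] at g3
      simp only [Nat.cast_zero, zero_mul, zero_sub, abs_neg, abs_of_pos (hap m).pos] at g3
      exact absurd (g3.trans_le (min_le_right _ _)) (lt_irrefl _)
    obtain ⟨S', hSS, hbig⟩ := exists_big (B m) hk0 S
    have h3 := g4.hi (Crossed ε q) (fun T VL VR hadm ω hω hc =>
      h2 ε (k (m, ε)) g1 g2 (g3.trans_le (min_le_left _ _)) T VL VR hadm ω hω hc) S' hbig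
    rw [perc_crossed hq g1 hS hSS] at h3
    linarith

end Full
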