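import Pool.Agent.Full.End.Reg

/-!
# FULL, end game: the sandwich, lower side (`GMinus`)

The polygon approximates the boundary of the rectangle `[-η, 1 + η] × [η, 1 - η]` under `q`: an open path of the region
from the left to the right wall contains a crossing of `q`.
-/

set_option autoImplicit false

open Set Filter Topology H47Perc Complex Metric

namespace Full

lemma mem_thickening_image {q : ℂ → ℂ} {K : Set ℂ} {δ : ℝ} {z : ℂ} (h : ∃ u ∈ K, ‖Full.qr q u - z‖ < δ) :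
    z ∈ thickening δ (Full.qr q '' K) := by
  obtain ⟨u, hu, h⟩ := h
  rw [mem_thickening_iff]
  exact ⟨_, mem_image_of_mem _ hu, by rw [dist_comm, dist_eq_norm]; exact h⟩

theorem gMinus : GMinus := by
  intro q hq η hη hη4
  have h1 : (0 : ℝ) < 1 / 2 + η := by linarith
  have h2 : (0 : ℝ) < 1 / 2 - η := by linarith
  have c1 : cR (1 / 2 + η) (1 / 2 - η) ⊆ {u : ℂ | 0 < u.im ∧ u.im < 1} := by
    intro u hu
    have := abs_le.1 hu.2
    exact ⟨by linarith, by linarith⟩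
  have c2 : sR (1 / 2 + η) (1 / 2 - η) 3 ⊆ {u : ℂ | u.re < 0} := by
    rintro u ⟨-, hu⟩
    have hu' : u.re = 1 / 2 - (1 / 2 + η) := hu
    show u.re < 0
    linarith
  have c3 : sR (1 / 2 + η) (1 / 2 - η) 1 ⊆ {u : ℂ | 1 < u.re} := by
    rintro u ⟨-, hu⟩
    have hu' : u.re = 1 / 2 + (1 / 2 + η) := hu
    show 1 < u.re
    linarith
  have o1 : IsOpen {u : ℂ | 0 < u.im ∧ u.im < 1} :=
    (isOpen_lt continuous_const continuous_im).inter (isOpen_lt continuous_im continuous_const)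
  have o2 : IsOpen {u : ℂ | u.re < 0} := isOpen_lt continuous_re continuous_const
  have o3 : IsOpen {u : ℂ | 1 < u.re} := isOpen_lt continuous_const continuous_re
  have hQ := hq.qr
  obtain ⟨δ₁, hδ₁, s1⟩ := ((isCompact_cR (1 / 2 + η) (1 / 2 - η)).image hQ.cont).exists_thickening_subset_open
    (hQ.isOpenMap _ o1) (image_mono c1)
  obtain ⟨δ₂, hδ₂, s2⟩ := ((isCompact_sR (1 / 2 + η) (1 / 2 - η) 3).image hQ.cont).exists_thickening_subset_open
    (hQ.isOpenMap _ o2) (image_mono c2)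
  obtain ⟨δ₃, hδ₃, s3⟩ := ((isCompact_sR (1 / 2 + η) (1 / 2 - η) 1).image hQ.cont).exists_thickening_subset_open
    (hQ.isOpenMap _ o3) (image_mono c3)
  obtain ⟨δ, hδ, e1, e2, e3⟩ : ∃ δ > 0, δ ≤ δ₁ ∧ δ ≤ δ₂ ∧ δ ≤ δ₃ :=
    ⟨min δ₁ (min δ₂ δ₃), lt_min hδ₁ (lt_min hδ₂ hδ₃), min_le_left _ _,
      (min_le_right _ _).trans (min_le_left _ _), (min_le_right _ _).trans (min_le_right _ _)⟩
  obtain ⟨R, hR⟩ := ((isCompact_cR (1 / 2 + η) (1 / 2 - η)).image hQ.cont).isBounded.exists_norm_le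
  have hR0 : 0 ≤ R := (norm_nonneg _).trans (hR _ (mem_image_of_mem _ (rect_mem_cR h1.le h2.le (sb_mem 0).1)))
  obtain ⟨d, hd, harc⟩ := CApprox.on_arc hq h1 h2 (show 0 < δ / 4 by positivity)
  refine ⟨min d (δ / 16), by positivity, fun a B t hC => ?_⟩
  have hτd : min d (δ / 16) ≤ d := min_le_left _ _
  have hτδ : min d (δ / 16) ≤ δ / 16 := min_le_right _ _
  have ha := hC.pos
  have haδ : a ≤ δ / 16 := hC.le.trans hτδ
  refine ⟨min (a / 2) (δ / 8 / (4 + (R + δ) / a)), by positivity, fun ε k hε hερ hk T VL VR hA ω hcross => ?_⟩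
  have hk1 : |k * ε - a| < a / 2 := hk.trans_le (min_le_left _ _)
  have hk2 : |k * ε - a| ≤ δ / 8 / (4 + (R + δ) / a) := hk.le.trans (min_le_right _ _)
  have hkpos : 0 < k := by
    rcases Nat.eq_zero_or_pos k with h0 | h0
    · exfalso
      rw [h0] at hk1
      have := (abs_lt.1 hk1).1
      push_cast at this
      linarith
    · exact h0
  have hsmall : ∀ X : ℝ, 0 ≤ X → X ≤ 4 + (R + δ) / a → |k * ε - a| * X ≤ δ / 8 := by
    intro X hX0 hX
    calc |k * ε - a| * X ≤ δ / 8 / (4 + (R + δ) / a) * (4 + (R + δ) / a) := by gcongr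
      _ = δ / 8 := by field_simp
  refine sandMinus q ε T VL VR ω hq hε ?_ ?_ ?_ hcross
  · intro p hp x hx
    obtain ⟨u, hu, hu2⟩ := hC.near_nb hq h1 h2 (hA.sub p hp)
    have hn : ‖tctr a (cc k p)‖ ≤ R + δ := by
      have h3 := hR _ (mem_image_of_mem _ hu)
      calc ‖tctr a (cc k p)‖ = ‖Full.qr q u - (Full.qr q u - tctr a (cc k p))‖ := by congr 1; ring
        _ ≤ R + 3 * min d (δ / 16) := (norm_sub_le _ _).trans (add_le_add h3 hu2)
        _ ≤ R + δ := by linarith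
    have h4 := fine_diag (ε := ε) hkpos ha hx
    have h5 := hsmall (1 + ‖tctr a (cc k p)‖ / a) (by positivity) (by
      have : ‖tctr a (cc k p)‖ / a ≤ (R + δ) / a := by gcongr
      linarith)
    have h6 : (1 + I) * x ∈ Full.qr q '' {u : ℂ | 0 < u.im ∧ u.im < 1} := by
      refine s1 (thickening_mono e1 _ (mem_thickening_image ⟨u, hu, ?_⟩))
      calc ‖Full.qr q u - (1 + I) * x‖
          = ‖(Full.qr q u - tctr a (cc k p)) - ((1 + I) * x - tctr a (cc k p))‖ := by congr 1; ring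
        _ ≤ 3 * min d (δ / 16) + (a + δ / 8) := (norm_sub_le _ _).trans (add_le_add hu2 (by linarith))
        _ < δ := by linarith
    rw [mem_qr_iff]
    obtain ⟨v, hv, hv2⟩ := h6
    exact ⟨v, ⟨hv.1.le, hv.2.le⟩, hv2⟩
  · intro w hw
    obtain ⟨i, hi, hi2⟩ := hA.left w hw
    obtain ⟨u, hu, hu2⟩ := harc a _ B t hτd hC 3 i hi
    have hn : ‖gp a (B.v i)‖ ≤ R + δ := by
      have h3 := hR _ (mem_image_of_mem _ hu.1)
      calc ‖gp a (B.v i)‖ = ‖Full.qr q u - (Full.qr q u - gp a (B.v i))‖ := by congr 1; ring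
        _ ≤ R + δ / 4 := (norm_sub_le _ _).trans (add_le_add h3 hu2)
        _ ≤ R + δ := by linarith
    have h4 := fine_pt (ε := ε) hkpos ha w (B.v i)
    have h5 := hsmall (‖fp k w - cp (B.v i)‖ + ‖gp a (B.v i)‖ / a) (by positivity) (by
      have : ‖gp a (B.v i)‖ / a ≤ (R + δ) / a := by gcongr
      linarith)
    have h6 : a * ‖fp k w - cp (B.v i)‖ ≤ a * 3 := mul_le_mul_of_nonneg_left hi2 ha.le
    have h7 : (1 + I) * pt ε w ∈ Full.qr q '' {u : ℂ | u.re < 0} := by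
      refine s2 (thickening_mono e2 _ (mem_thickening_image ⟨u, hu, ?_⟩))
      calc ‖Full.qr q u - (1 + I) * pt ε w‖
          = ‖(Full.qr q u - gp a (B.v i)) - ((1 + I) * pt ε w - gp a (B.v i))‖ := by congr 1; ring
        _ ≤ δ / 4 + (a * 3 + δ / 8) := (norm_sub_le _ _).trans (add_le_add hu2 (by linarith))
        _ < δ := by linarith
    rw [mem_qr_iff]
    obtain ⟨v, hv, hv2⟩ := h7
    have hv' : v.re < 0 := hv
    have hv3 : v ∈ {u : ℂ | u.re ≤ 0} := mem_setOf_eq ▸ hv'.le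
    exact ⟨v, hv3, hv2⟩
  · intro w hw
    obtain ⟨i, hi, hi2⟩ := hA.right w hw
    obtain ⟨u, hu, hu2⟩ := harc a _ B t hτd hC 1 i hi
    have hn : ‖gp a (B.v i)‖ ≤ R + δ := by
      have h3 := hR _ (mem_image_of_mem _ hu.1)
      calc ‖gp a (B.v i)‖ = ‖Full.qr q u - (Full.qr q u - gp a (B.v i))‖ := by congr 1; ring
        _ ≤ R + δ / 4 := (norm_sub_le _ _).trans (add_le_add h3 hu2)
        _ ≤ R + δ := by linarith
    have h4 := fine_pt (ε := ε) hkpos ha w (B.v i)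
    have h5 := hsmall (‖fp k w - cp (B.v i)‖ + ‖gp a (B.v i)‖ / a) (by positivity) (by
      have : ‖gp a (B.v i)‖ / a ≤ (R + δ) / a := by gcongr
      linarith)
    have h6 : a * ‖fp k w - cp (B.v i)‖ ≤ a * 3 := mul_le_mul_of_nonneg_left hi2 ha.le
    have h7 : (1 + I) * pt ε w ∈ Full.qr q '' {u : ℂ | 1 < u.re} := by
      refine s3 (thickening_mono e3 _ (mem_thickening_image ⟨u, hu, ?_⟩))
      calc ‖Full.qr q u - (1 + I) * pt ε w‖
          = ‖(Full.qr q u - gp a (B.v i)) - ((1 + I) * pt ε w - gp a (B.v i))‖ := by congr 1; ring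
        _ ≤ δ / 4 + (a * 3 + δ / 8) := (norm_sub_le _ _).trans (add_le_add hu2 (by linarith))
        _ < δ := by linarith
    rw [mem_qr_iff]
    obtain ⟨v, hv, hv2⟩ := h7
    have hv' : 1 < v.re := hv
    have hv3 : v ∈ {u : ℂ | 1 ≤ u.re} := mem_setOf_eq ▸ hv'.le
    exact ⟨v, hv3, hv2⟩

end Full
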