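import Pool.Agent.Full.End.Reg

/-!
# FULL, end game: the upper side of the sandwich
-/

set_option autoImplicit false

open Set Filter Topology H47Perc Complex Metric

namespace Full
namespace End

/-! ### compactness -/

/-- disjoint compact sets have a positive distance -/
lemma exists_gap {K L : Set ℂ} (hK : IsCompact K) (hL : IsCompact L) (h : Disjoint K L) :
    ∃ δ > 0, ∀ x ∈ K, ∀ y ∈ L, δ ≤ ‖x - y‖ := by
  obtain ⟨δ, hδ, h1⟩ := h.exists_cthickenings hK hL.isClosed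
  refine ⟨δ, hδ, fun x hx y hy => ?_⟩
  by_contra hlt
  push Not at hlt
  have h2 : y ∈ thickening δ K := by
    rw [mem_thickening_iff]
    refine ⟨x, hx, ?_⟩
    rw [dist_comm, dist_eq_norm]
    exact hlt
  exact Set.disjoint_left.1 h1 (thickening_subset_cthickening _ _ h2) (self_subset_cthickening _ hy)

/-- points near the image of the square are images of near points -/
lemma exists_modP {q : ℂ → ℂ} (hq : IsTame q) {ω : ℝ} (hω : 0 < ω) : ∃ δ > 0, ∀ u ∈ sq, ∀ y, ‖q u - y‖ < δ →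
    ∃ u', q u' = y ∧ ‖u' - u‖ < ω := by
  have hK : IsCompact (q '' sq) := isCompact_sq.image hq.cont
  obtain ⟨δ, hδ, h1⟩ := lebesgue_number_lemma_of_metric (s := q '' sq) (ι := ℂ)
    (c := fun u => q '' ball u (ω / 2)) hK (fun u => hq.isOpenMap _ isOpen_ball) (by
      rintro _ ⟨u, -, rfl⟩
      exact mem_iUnion.2 ⟨u, u, mem_ball_self (by linarith), rfl⟩)
  refine ⟨δ, hδ, fun u hu y hy => ?_⟩
  obtain ⟨v, hv⟩ := h1 (q u) ⟨u, hu, rfl⟩
  obtain ⟨u1, hu1, h2⟩ := hv (mem_ball_self hδ)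
  obtain ⟨u2, hu2, h3⟩ := hv (show y ∈ ball (q u) δ by rw [mem_ball, dist_comm, dist_eq_norm]; exact hy)
  have h4 : u1 = u := hq.inj h2
  subst h4
  refine ⟨u2, h3, ?_⟩
  rw [← dist_eq_norm]
  calc dist u2 u1 ≤ dist u2 v + dist v u1 := dist_triangle _ _ _
    _ < ω / 2 + ω / 2 := add_lt_add (mem_ball.1 hu2) (by rw [dist_comm]; exact mem_ball.1 hu1)
    _ = ω := by ring

/-! ### hat coordinates -/

lemma hat_pt (ε : ℝ) (w : ℤ × ℤ) : (1 + I) * pt ε w = ((ε : ℂ) * ⟨w.1, w.2⟩) := by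
  apply Complex.ext
  · simp [pt]; ring
  · simp [pt]; ring

lemma hat_fp {ε : ℝ} {k : ℕ} (hk : 0 < k) (w : ℤ × ℤ) : (1 + I) * pt ε w = ((k * ε : ℝ) : ℂ) * fp k w := by
  have hk' : (k : ℝ) ≠ 0 := by positivity
  rw [hat_pt]
  apply Complex.ext
  · simp [fp]; field_simp
  · simp [fp]; field_simp

/-- the tile coordinates of a point of the diagonal -/
lemma diag_box {ε : ℝ} (hε : 0 < ε) {p : ℤ × ℤ} {x : ℂ} (hx : x ∈ diag ε p) :
    ((p.1 : ℝ) ≤ tc1 ε x ∧ tc1 ε x ≤ p.1 + 1) ∧ (p.2 : ℝ) ≤ tc2 ε x ∧ tc2 ε x ≤ p.2 + 1 := by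
  obtain ⟨t, t0, t1, h2, h1, -, -⟩ := diag_param hε hx
  have hA := cA_fst p
  have hAB := cAB_fst p
  constructor
  · rw [h1]
    rcases hA with h | h
    · have hB : (cB p).1 = p.1 + 1 := by omega
      rw [h, hB]
      push_cast
      constructor <;> nlinarith
    · have hB : (cB p).1 = p.1 := by omega
      rw [h, hB]
      push_cast
      constructor <;> nlinarith
  · rw [h2]
    constructor <;> linarith

lemma hat_tc {ε : ℝ} (hε : 0 < ε) (x : ℂ) : (1 + I) * x = (ε : ℂ) * ⟨tc1 ε x, tc2 ε x⟩ := by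
  apply Complex.ext
  · simp [tc1]; field_simp
  · simp [tc2]; field_simp; ring

lemma norm_le_hat (x : ℂ) : ‖x‖ ≤ ‖(1 + I) * x‖ := by
  rw [norm_mul]
  have h : (1 : ℝ) ≤ ‖(1 + I : ℂ)‖ := by
    have := Complex.abs_re_le_norm (1 + I : ℂ)
    simpa using this
  nlinarith [norm_nonneg x]

lemma norm_le_two {a b : ℝ} (ha : |a| ≤ 1) (hb : |b| ≤ 1) : ‖(⟨a, b⟩ : ℂ)‖ ≤ 2 :=
  (Complex.norm_le_abs_re_add_abs_im _).trans (by
    show |a| + |b| ≤ 2
    linarith)

/-- diameter of the diagonal -/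
lemma diag_dist {ε : ℝ} (hε : 0 < ε) {p : ℤ × ℤ} {x y : ℂ} (hx : x ∈ diag ε p) (hy : y ∈ diag ε p) :
    ‖x - y‖ ≤ 2 * ε := by
  obtain ⟨⟨a1, a2⟩, a3, a4⟩ := diag_box hε hx
  obtain ⟨⟨b1, b2⟩, b3, b4⟩ := diag_box hε hy
  refine (norm_le_hat _).trans ?_
  have e : (1 + I) * (x - y) = (ε : ℂ) * ⟨tc1 ε x - tc1 ε y, tc2 ε x - tc2 ε y⟩ := by
    rw [mul_sub, hat_tc hε x, hat_tc hε y, ← mul_sub]
    congr 1
  rw [e, norm_mul, Complex.norm_real, Real.norm_of_nonneg hε.le, mul_comm]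
  exact mul_le_mul_of_nonneg_right (norm_le_two (abs_le.2 ⟨by linarith, by linarith⟩)
    (abs_le.2 ⟨by linarith, by linarith⟩)) hε.le

/-- a point of the diagonal of a fine tile is near its coarse cell -/
lemma hat_cc {ε : ℝ} (hε : 0 < ε) {k : ℕ} (hk : 0 < k) {p : ℤ × ℤ} {x : ℂ} (hx : x ∈ diag ε p) :
    ‖(1 + I) * x - ((k * ε : ℝ) : ℂ) * cp (cc k p)‖ ≤ 2 * (k * ε) := by
  obtain ⟨a1, a2⟩ := diag_box hε hx
  have hk0 : (0 : ℝ) < k := by exact_mod_cast hk
  have hk1 : (0 : ℤ) < k := by exact_mod_cast hk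
  have key : ∀ (m : ℤ) (s : ℝ), (m : ℝ) ≤ s → s ≤ m + 1 → |s - k * ((m / k : ℤ) : ℝ)| ≤ k := by
    intro m s h3 h4
    have e1 : (k : ℤ) * (m / k) ≤ m := Int.mul_ediv_self_le (by omega)
    have e2 : m < k * (m / k) + k := Int.lt_mul_ediv_self_add hk1
    have e3 : m + 1 ≤ k * (m / k) + k := e2
    have e1' : (k : ℝ) * ((m / k : ℤ) : ℝ) ≤ m := by exact_mod_cast e1
    have e3' : (m : ℝ) + 1 ≤ k * ((m / k : ℤ) : ℝ) + k := by exact_mod_cast e3
    rw [abs_le]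
    constructor <;> linarith
  have b1 := key p.1 _ a1.1 a1.2
  have b2 := key p.2 _ a2.1 a2.2
  have e : (1 + I) * x - ((k * ε : ℝ) : ℂ) * cp (cc k p) =
      (ε : ℂ) * ⟨tc1 ε x - k * ((p.1 / k : ℤ) : ℝ), tc2 ε x - k * ((p.2 / k : ℤ) : ℝ)⟩ := by
    apply Complex.ext
    · simp [tc1, cp, cc]; field_simp
    · simp [tc2, cp, cc]; field_simp; ring
  rw [e, norm_mul, Complex.norm_real, Real.norm_of_nonneg hε.le]
  have h3 : ‖(⟨tc1 ε x - k * ((p.1 / k : ℤ) : ℝ), tc2 ε x - k * ((p.2 / k : ℤ) : ℝ)⟩ : ℂ)‖ ≤ k + k :=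
    (Complex.norm_le_abs_re_add_abs_im _).trans (add_le_add b1 b2)
  nlinarith

/-! ### the statements about the polygon which are used -/

/-- cells near the region are near the rectangle -/
def RegNb : Prop := ∀ q : ℂ → ℂ, IsTame q → ∀ hx hy : ℝ, 0 < hx → 0 < hy → ∀ ρ > 0, ∃ τ > 0,
  ∀ (a : ℝ) (B : Coarse) (t : ℕ → ℝ), CApprox (gam q hx hy) a τ B t → ∀ p, B.Nb p →
    ∃ u : ℂ, |u.re - 1 / 2| ≤ hx ∧ |u.im - 1 / 2| ≤ hy ∧ ‖(a : ℂ) * cp p - (1 + I) * q u‖ ≤ ρ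

/-- cells which are not deep in the region are not near points deep in the rectangle -/
def RegInt : Prop := ∀ q : ℂ → ℂ, IsTame q → ∀ hx hy : ℝ, 0 < hx → 0 < hy → ∀ ρ > 0, ∃ ρ' > 0, ∃ τ > 0,
  ∀ (a : ℝ) (B : Coarse) (t : ℕ → ℝ), CApprox (gam q hx hy) a τ B t → ∀ p, ¬ B.Int9 p →
    ∀ u : ℂ, |u.re - 1 / 2| ≤ hx - ρ → |u.im - 1 / 2| ≤ hy - ρ → ρ' < ‖(a : ℂ) * cp p - (1 + I) * q u‖

/-- the sides of the rectangle -/
def rside (hx hy : ℝ) (j : Fin 4) (u : ℂ) : Prop :=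
  (|u.re - 1 / 2| ≤ hx ∧ |u.im - 1 / 2| ≤ hy) ∧
    if j = 0 then u.im = 1 / 2 - hy else if j = 1 then u.re = 1 / 2 + hx else if j = 2 then u.im = 1 / 2 + hy
      else u.re = 1 / 2 - hx

/-- the arcs of the polygon are near the sides of the rectangle -/
def RegOn : Prop := ∀ q : ℂ → ℂ, IsTame q → ∀ hx hy : ℝ, 0 < hx → 0 < hy → ∀ ρ > 0, ∃ τ > 0,
  ∀ (a : ℝ) (B : Coarse) (t : ℕ → ℝ), CApprox (gam q hx hy) a τ B t → ∀ j i, B.On j i →
    ∃ u : ℂ, rside hx hy j u ∧ ‖(a : ℂ) * cp (B.v i) - (1 + I) * q u‖ ≤ ρ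

/-! ### the proof -/

lemma CApprox.mono_tau {γ : ℝ → ℂ} {a τ τ' : ℝ} {B : Coarse} {t : ℕ → ℝ} (h : CApprox γ a τ B t)
    (hτ : τ ≤ τ') (hm : ∀ p, (∀ s ∈ Icc (0 : ℝ) 4, τ' ≤ ‖γ s - tctr a p‖) → (∀ s ∈ Icc (0 : ℝ) 4, τ ≤ ‖γ s - tctr a p‖)) :
    CApprox γ a τ' B t where
  pos := h.pos
  le := h.le.trans hτ
  close i hi := (h.close i hi).trans hτ
  mono := h.mono
  jump i hi := (h.jump i hi).trans (by linarith)
  mem := h.mem
  start := h.start.trans hτ
  fin := (by linarith : 4 - τ' ≤ 4 - τ).trans h.fin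
  mark j := (h.mark j).trans hτ
  wn p hp m hw := h.wn p (hm p hp) m hw

lemma CApprox.le_tau {γ : ℝ → ℂ} {a τ τ' : ℝ} {B : Coarse} {t : ℕ → ℝ} (h : CApprox γ a τ B t)
    (hτ : τ ≤ τ') : CApprox γ a τ' B t := CApprox.mono_tau h hτ fun _ hp s hs => hτ.trans (hp s hs)

/-- the rectangle -/
def crect (hx hy : ℝ) : Set ℂ := {u | |u.re - 1 / 2| ≤ hx ∧ |u.im - 1 / 2| ≤ hy}

lemma isCompact_crect (hx hy : ℝ) : IsCompact (crect hx hy) := by
  have h : crect hx hy = Icc (1 / 2 - hx) (1 / 2 + hx) ×ℂ Icc (1 / 2 - hy) (1 / 2 + hy) := by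
    ext u
    simp only [crect, mem_setOf_eq, mem_reProdIm, mem_Icc, abs_le]
    constructor
    · rintro ⟨⟨h1, h2⟩, h3, h4⟩
      refine ⟨⟨?_, ?_⟩, ?_, ?_⟩ <;> linarith
    · rintro ⟨⟨h1, h2⟩, h3, h4⟩
      refine ⟨⟨?_, ?_⟩, ?_, ?_⟩ <;> linarith
  rw [h]
  exact isCompact_Icc.reProdIm isCompact_Icc

lemma isCompact_rside (hx hy : ℝ) (j : Fin 4) : IsCompact {u | rside hx hy j u} := by
  have h : {u | rside hx hy j u} = crect hx hy ∩ {u : ℂ | if j = 0 then u.im = 1 / 2 - hy else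
      if j = 1 then u.re = 1 / 2 + hx else if j = 2 then u.im = 1 / 2 + hy else u.re = 1 / 2 - hx} := by
    ext u; rfl
  rw [h]
  refine (isCompact_crect hx hy).inter_right ?_
  split_ifs
  · exact isClosed_eq Complex.continuous_im continuous_const
  · exact isClosed_eq Complex.continuous_re continuous_const
  · exact isClosed_eq Complex.continuous_im continuous_const
  · exact isClosed_eq Complex.continuous_re continuous_const

/-- the hat map -/
lemma continuous_hat {q : ℂ → ℂ} (hq : IsTame q) : Continuous fun u => (1 + I) * q u :=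
  continuous_const.mul hq.cont

lemma hat_inj {q : ℂ → ℂ} (hq : IsTame q) {u v : ℂ} (h : (1 + I) * q u = (1 + I) * q v) : u = v :=
  hq.inj (mul_left_cancel₀ one_add_I_ne h)

/-- a positive distance between the images of disjoint compact sets of parameters -/
lemma exists_hat_gap {q : ℂ → ℂ} (hq : IsTame q) {K L : Set ℂ} (hK : IsCompact K) (hL : IsCompact L)
    (h : Disjoint K L) : ∃ δ > 0, ∀ u ∈ K, ∀ v ∈ L, δ ≤ ‖(1 + I) * q u - (1 + I) * q v‖ := by
  obtain ⟨δ, hδ, h1⟩ := exists_gap (hK.image (continuous_hat hq)) (hL.image (continuous_hat hq)) (by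
    rw [Set.disjoint_left]
    rintro _ ⟨u, hu, rfl⟩ ⟨v, hv, h2⟩
    have := hat_inj hq h2
    subst this
    exact Set.disjoint_left.1 h hu hv)
  exact ⟨δ, hδ, fun u hu v hv => h1 _ ⟨u, hu, rfl⟩ _ ⟨v, hv, rfl⟩⟩

/-- in the scale of the polygon: the position of a point of the diagonal of a fine tile, and of a corner -/
lemma scale_bounds {a M : ℝ} (ha : 0 < a) (hM : 0 ≤ M) : ∃ ρ > 0, ∀ (ε : ℝ) (k : ℕ), 0 < ε → ε < ρ →
    |k * ε - a| < ρ → 0 < k ∧ ε < a ∧
      (∀ (p : ℤ × ℤ) (x : ℂ), x ∈ diag ε p → ‖(1 + I) * x‖ ≤ M → ‖(a : ℂ) * cp (cc k p) - (1 + I) * x‖ ≤ 6 * a) ∧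
      ∀ w : ℤ × ℤ, ‖(1 + I) * pt ε w‖ ≤ M → ‖(a : ℂ) * fp k w - (1 + I) * pt ε w‖ ≤ a := by
  refine ⟨min (a / 2) (a / (2 * M / a + 6)), by positivity, fun ε k hε h1 h2 => ?_⟩
  have ha2 : |k * ε - a| < a / 2 := h2.trans_le (min_le_left _ _)
  have ha3 : |k * ε - a| * (2 * M / a + 6) ≤ a := by
    have h3 : |k * ε - a| ≤ a / (2 * M / a + 6) := (h2.trans_le (min_le_right _ _)).le
    have h4 : (0 : ℝ) < 2 * M / a + 6 := by positivity
    calc |k * ε - a| * (2 * M / a + 6) ≤ a / (2 * M / a + 6) * (2 * M / a + 6) :=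
          mul_le_mul_of_nonneg_right h3 h4.le
      _ = a := by field_simp
  set κ : ℝ := k * ε with hκ
  have hκ1 : a / 2 < κ := by rw [abs_lt] at ha2; linarith
  have hκ2 : κ < 3 / 2 * a := by rw [abs_lt] at ha2; linarith
  have hκ0 : 0 < κ := by linarith
  have hk : 0 < k := by
    rcases Nat.eq_zero_or_pos k with h | h
    · rw [h] at hκ
      simp at hκ
      linarith
    · exact h
  have hr : ∀ z x : ℂ, ‖x‖ ≤ M → ‖(κ : ℂ) * z - x‖ ≤ 2 * κ → ‖(a : ℂ) * z - (κ : ℂ) * z‖ ≤ a := by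
    intro z x hx hz
    have e : (a : ℂ) * z - (κ : ℂ) * z = ((a - κ : ℝ) : ℂ) * z := by push_cast; ring
    rw [e, norm_mul, Complex.norm_real, Real.norm_eq_abs, abs_sub_comm]
    have h5 : κ * ‖z‖ ≤ M + 2 * κ := by
      have : ‖(κ : ℂ) * z‖ ≤ M + 2 * κ := by
        calc ‖(κ : ℂ) * z‖ = ‖x + ((κ : ℂ) * z - x)‖ := by ring_nf
          _ ≤ ‖x‖ + ‖(κ : ℂ) * z - x‖ := norm_add_le _ _
          _ ≤ M + 2 * κ := add_le_add hx hz
      rwa [norm_mul, Complex.norm_real, Real.norm_of_nonneg hκ0.le] at this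
    have h6 : ‖z‖ ≤ 2 * M / a + 6 := by
      have h7 : a / 2 * ‖z‖ ≤ κ * ‖z‖ := mul_le_mul_of_nonneg_right hκ1.le (norm_nonneg _)
      have h8 : a / 2 * ‖z‖ ≤ M + 3 * a := by linarith
      have h9 : 2 * M / a + 6 = (M + 3 * a) / (a / 2) := by field_simp; ring
      rw [h9, le_div_iff₀ (by linarith), mul_comm]
      exact h8
    calc |κ - a| * ‖z‖ ≤ |κ - a| * (2 * M / a + 6) := mul_le_mul_of_nonneg_left h6 (abs_nonneg _)
      _ ≤ a := ha3
  refine ⟨hk, ?_, fun p x hx hxM => ?_, fun w hw => ?_⟩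
  · have := h1.trans_le (min_le_left _ _)
    linarith
  · have h5 := hat_cc hε hk hx
    rw [norm_sub_rev] at h5
    have h6 := hr _ _ hxM h5
    calc ‖(a : ℂ) * cp (cc k p) - (1 + I) * x‖
        = ‖((a : ℂ) * cp (cc k p) - (κ : ℂ) * cp (cc k p)) + ((κ : ℂ) * cp (cc k p) - (1 + I) * x)‖ := by ring_nf
      _ ≤ a + 2 * κ := (norm_add_le _ _).trans (add_le_add h6 h5)
      _ ≤ 6 * a := by linarith
  · have h5 := hat_fp (ε := ε) hk w
    have h6 := hr (fp k w) _ hw (by rw [h5, sub_self, norm_zero]; positivity)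
    rw [h5]
    exact h6

lemma isCompact_sqL : IsCompact sqL := by
  have h : sqL = sq ∩ {w : ℂ | w.re = 0} := by ext w; rfl
  rw [h]
  exact isCompact_sq.inter_right (isClosed_eq Complex.continuous_re continuous_const)

lemma isCompact_sqR : IsCompact sqR := by
  have h : sqR = sq ∩ {w : ℂ | w.re = 1} := by ext w; rfl
  rw [h]
  exact isCompact_sq.inter_right (isClosed_eq Complex.continuous_re continuous_const)

lemma norm_tctr_sub_cp {a : ℝ} (ha : 0 ≤ a) (p : ℤ × ℤ) : ‖tctr a p - (a : ℂ) * cp p‖ ≤ a := by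
  refine (Complex.norm_le_abs_re_add_abs_im _).trans ?_
  have e1 : (tctr a p - (a : ℂ) * cp p).re = a * (1 / 2) := by
    simp [tctr, cp]; ring
  have e2 : (tctr a p - (a : ℂ) * cp p).im = a * (1 / 2) := by
    simp [tctr, cp]; ring
  rw [e1, e2, abs_of_nonneg (by positivity)]
  linarith

theorem regNb : RegNb := by
  intro q hq hx hy h1 h2 ρ hρ
  refine ⟨ρ / 4, by positivity, fun a B t hC p hp => ?_⟩
  obtain ⟨u, hu, hu2⟩ := hC.near_nb hq h1 h2 hp
  refine ⟨u, hu.1, hu.2, ?_⟩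
  have h3 := norm_tctr_sub_cp hC.pos.le p
  have h4 := hC.le
  calc ‖(a : ℂ) * cp p - (1 + I) * q u‖
      = ‖-((tctr a p - (a : ℂ) * cp p) + (Full.qr q u - tctr a p))‖ := by
        congr 1; unfold Full.qr; ring
    _ ≤ a + 3 * (ρ / 4) := by
        rw [norm_neg]
        exact (norm_add_le _ _).trans (add_le_add h3 hu2)
    _ ≤ ρ := by linarith

theorem regInt : RegInt := by
  intro q hq hx hy h1 h2 ρ hρ
  obtain ⟨δ, hδ, h3⟩ := Full.CApprox.int9 hq h1 h2 (isCompact_crect (hx - ρ) (hy - ρ)) (by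
    rintro u ⟨hu1, hu2⟩
    exact ⟨by linarith, by linarith⟩)
  refine ⟨δ / 2, by positivity, δ / 2, by positivity, fun a B t hC p hp u hu1 hu2 => ?_⟩
  by_contra hlt
  push Not at hlt
  refine hp (h3 a (δ / 2) B t (by linarith) hC p ⟨u, ⟨hu1, hu2⟩, ?_⟩)
  have h4 := norm_tctr_sub_cp hC.pos.le p
  have h5 := hC.le
  calc ‖Full.qr q u - tctr a p‖
      = ‖-((tctr a p - (a : ℂ) * cp p) + ((a : ℂ) * cp p - (1 + I) * q u))‖ := by
        congr 1; unfold Full.qr; ring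
    _ ≤ a + δ / 2 := by
        rw [norm_neg]
        exact (norm_add_le _ _).trans (add_le_add h4 hlt)
    _ ≤ δ := by linarith

theorem regOn : RegOn := by
  intro q hq hx hy h1 h2 ρ hρ
  obtain ⟨δ, hδ, h3⟩ := Full.CApprox.on_arc hq h1 h2 hρ
  refine ⟨δ, hδ, fun a B t hC j i hi => ?_⟩
  obtain ⟨u, hu, hu2⟩ := h3 a δ B t le_rfl hC j i hi
  refine ⟨u, ⟨hu.1, ?_⟩, ?_⟩
  · have h4 := hu.2
    fin_cases j
    · exact h4
    · exact h4
    · exact h4
    · exact h4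
  · rw [← gp_eq, norm_sub_rev]
    exact hu2

theorem gplus_of (hN : RegNb) (hI : RegInt) (hO : RegOn) : GPlus := by
  intro q hq η hη hη4
  have hx0 : 0 < 1 / 2 - η := by linarith
  have hy0 : 0 < 1 / 2 + η := by linarith
  -- the sides of the square and the rectangle
  obtain ⟨δ1, hδ1, g1⟩ := exists_hat_gap hq (isCompact_sqL.union isCompact_sqR)
    (isCompact_crect (1 / 2 - η) (1 / 2 + η)) (by
      rw [Set.disjoint_left]
      rintro u (hu | hu) ⟨h1, -⟩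
      · have h2 : u.re = 0 := hu.2
        rw [h2, abs_le] at h1
        linarith [h1.1]
      · have h2 : u.re = 1 := hu.2
        rw [h2, abs_le] at h1
        linarith [h1.2])
  -- the left half of the square and the lower, right and upper sides
  have side_ne : ∀ u : ℂ, u ∈ sq → ∀ j, rside (1 / 2 - η) (1 / 2 + η) j u →
      (u.re = 1 - η ∧ j = 1) ∨ (u.re = η ∧ j = 3) := by
    rintro u ⟨s1, s2, s3, s4⟩ j ⟨-, h⟩
    fin_cases j
    · have h : u.im = 1 / 2 - (1 / 2 + η) := h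
      linarith
    · have h : u.re = 1 / 2 + (1 / 2 - η) := h
      exact Or.inl ⟨by linarith, rfl⟩
    · have h : u.im = 1 / 2 + (1 / 2 + η) := h
      linarith
    · have h : u.re = 1 / 2 - (1 / 2 - η) := h
      exact Or.inr ⟨by linarith, rfl⟩
  obtain ⟨δL, hδL, gL⟩ := exists_hat_gap hq
    (isCompact_sq.inter_right (isClosed_le Complex.continuous_re (continuous_const (y := (1 / 2 : ℝ)))))
    (((isCompact_rside (1 / 2 - η) (1 / 2 + η) 0).union (isCompact_rside (1 / 2 - η) (1 / 2 + η) 1)).union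
      (isCompact_rside (1 / 2 - η) (1 / 2 + η) 2)) (by
      rw [Set.disjoint_left]
      rintro u ⟨h1, h2⟩ h3
      have h2 : u.re ≤ 1 / 2 := h2
      have h4 : ∃ j, j ≠ 3 ∧ rside (1 / 2 - η) (1 / 2 + η) j u := by
        rcases h3 with (h3 | h3) | h3
        · exact ⟨0, by decide, h3⟩
        · exact ⟨1, by decide, h3⟩
        · exact ⟨2, by decide, h3⟩
      obtain ⟨j, hj, h5⟩ := h4
      rcases side_ne u h1 j h5 with ⟨h6, -⟩ | ⟨-, h6⟩
      · linarith
      · exact hj h6)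
  obtain ⟨δR, hδR, gR⟩ := exists_hat_gap hq
    (isCompact_sq.inter_right (isClosed_le (continuous_const (y := (1 / 2 : ℝ))) Complex.continuous_re))
    (((isCompact_rside (1 / 2 - η) (1 / 2 + η) 0).union (isCompact_rside (1 / 2 - η) (1 / 2 + η) 2)).union
      (isCompact_rside (1 / 2 - η) (1 / 2 + η) 3)) (by
      rw [Set.disjoint_left]
      rintro u ⟨h1, h2⟩ h3
      have h2 : 1 / 2 ≤ u.re := h2
      have h4 : ∃ j, j ≠ 1 ∧ rside (1 / 2 - η) (1 / 2 + η) j u := by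
        rcases h3 with (h3 | h3) | h3
        · exact ⟨0, by decide, h3⟩
        · exact ⟨2, by decide, h3⟩
        · exact ⟨3, by decide, h3⟩
      obtain ⟨j, hj, h5⟩ := h4
      rcases side_ne u h1 j h5 with ⟨-, h6⟩ | ⟨h6, -⟩
      · exact hj h6
      · linarith)
  obtain ⟨δ3, hδ3, g3⟩ := exists_modP hq (show (0 : ℝ) < 1 / 8 by norm_num)
  obtain ⟨M, hM⟩ := (isCompact_sq.image (continuous_hat hq)).isBounded.exists_norm_le
  have hM' : ∀ u ∈ sq, ‖(1 + I) * q u‖ ≤ max M 0 := fun u hu => (hM _ ⟨u, hu, rfl⟩).trans (le_max_left _ _)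
  set δ2 : ℝ := min δL δR with hδ2
  have hδ20 : 0 < δ2 := lt_min hδL hδR
  obtain ⟨τ1, hτ1, r1⟩ := hN q hq _ _ hx0 hy0 (δ1 / 2) (by linarith)
  obtain ⟨ρ', hρ', τ2, hτ2, r2⟩ := hI q hq _ _ hx0 hy0 (min η (1 / 8)) (lt_min hη (by norm_num))
  obtain ⟨τ3, hτ3, r3⟩ := hO q hq _ _ hx0 hy0 (δ2 / 4) (by linarith)
  set τ : ℝ := min (min τ1 (min τ2 τ3)) (min (δ1 / 24) (min (ρ' / 12) (δ2 / 40))) with hτ
  have hτ0 : 0 < τ := by
    rw [hτ]
    refine lt_min (lt_min hτ1 (lt_min hτ2 hτ3)) (lt_min (by linarith) (lt_min (by linarith) (by linarith)))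
  have t1 : τ ≤ τ1 := (min_le_left _ _).trans (min_le_left _ _)
  have t2 : τ ≤ τ2 := (min_le_left _ _).trans ((min_le_right _ _).trans (min_le_left _ _))
  have t3 : τ ≤ τ3 := (min_le_left _ _).trans ((min_le_right _ _).trans (min_le_right _ _))
  have t4 : τ ≤ δ1 / 24 := (min_le_right _ _).trans (min_le_left _ _)
  have t5 : τ ≤ ρ' / 12 := (min_le_right _ _).trans ((min_le_right _ _).trans (min_le_left _ _))
  have t6 : τ ≤ δ2 / 40 := (min_le_right _ _).trans ((min_le_right _ _).trans (min_le_right _ _))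
  refine ⟨τ, hτ0, fun a B t hC => ?_⟩
  have ha := hC.pos
  have haτ := hC.le
  have k1 := r1 a B t (CApprox.le_tau hC t1)
  have k2 := r2 a B t (CApprox.le_tau hC t2)
  have k3 := r3 a B t (CApprox.le_tau hC t3)
  obtain ⟨ρ0, hρ0, s1⟩ := scale_bounds ha (le_max_right M 0)
  refine ⟨min ρ0 (δ3 / 2), lt_min hρ0 (by linarith), fun ε k hε hε1 hkε T VL VR hA ω hω hcr => ?_⟩
  obtain ⟨hk0, -, s2, s3⟩ := s1 ε k hε (hε1.trans_le (min_le_left _ _)) (hkε.trans_le (min_le_left _ _))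
  have hε3 : 2 * ε < δ3 := by
    have := hε1.trans_le (min_le_right _ _)
    linarith
  -- a tile outside the domain which meets the quadrilateral is on the left or on the right
  have hout : ∀ p, p ∉ T → ∀ u ∈ sq, q u ∈ diag ε p → 1 / 8 < |u.re - 1 / 2| := by
    intro p hp u hu hd
    by_contra hcon
    push Not at hcon
    have h1 : ¬ B.Int9 (cc k p) := fun h => hp (hA.int p h)
    have h2 := k2 _ h1 u (by
      have : min η (1 / 8) ≤ 1 / 8 := min_le_right _ _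
      linarith) (by
      have : min η (1 / 8) ≤ η := min_le_left _ _
      obtain ⟨-, -, h3, h4⟩ := hu
      rw [abs_le]
      constructor <;> linarith)
    have h3 := s2 p (q u) hd (hM' u hu)
    linarith
  refine sandPlus q ε T VL VR ω hq hε ?_ ?_ ?_ hcr hω
  · rintro p hp ⟨x, hx, u, hu, rfl⟩
    have h1 := hout p hp u hu hx
    have h2 : ∀ y ∈ diag ε p, ∃ u', q u' = y ∧ |u'.re - u.re| < 1 / 8 := by
      intro y hy
      obtain ⟨u', h3, h4⟩ := g3 u hu y ((diag_dist hε hx hy).trans_lt hε3)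
      exact ⟨u', h3, (Complex.abs_re_le_norm (u' - u)).trans_lt h4⟩
    rcases lt_abs.1 h1 with h3 | h3
    · right
      intro y hy
      obtain ⟨u', rfl, h5⟩ := h2 y hy
      rw [abs_lt] at h5
      exact ⟨u', show 1 / 2 < u'.re by linarith [h5.1], rfl⟩
    · left
      intro y hy
      obtain ⟨u', rfl, h5⟩ := h2 y hy
      rw [abs_lt] at h5
      exact ⟨u', show u'.re < 1 / 2 by linarith [h5.2], rfl⟩
  · intro p hp
    obtain ⟨v, hv1, hv2, hv3⟩ := k1 _ (hA.sub p hp)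
    have key : ∀ u ∈ sqL ∪ sqR, q u ∉ diag ε p := by
      intro u hu hd
      have h1 := g1 u hu v ⟨hv1, hv2⟩
      have hsq : u ∈ sq := by
        rcases hu with hu | hu
        · exact hu.1
        · exact hu.1
      have h2 := s2 p (q u) hd (hM' u hsq)
      have h3 : ‖(1 + I) * q u - (1 + I) * q v‖ ≤ ‖(a : ℂ) * cp (cc k p) - (1 + I) * q v‖ +
          ‖(a : ℂ) * cp (cc k p) - (1 + I) * q u‖ := by
        have := norm_sub_le ((a : ℂ) * cp (cc k p) - (1 + I) * q v) ((a : ℂ) * cp (cc k p) - (1 + I) * q u)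
        rwa [sub_sub_sub_cancel_left] at this
      linarith
    constructor
    · rw [Set.disjoint_left]
      rintro x hx ⟨u, hu, rfl⟩
      exact key u (Or.inl hu) hx
    · rw [Set.disjoint_left]
      rintro x hx ⟨u, hu, rfl⟩
      exact key u (Or.inr hu) hx
  · rintro p hp p' hp' w hw hw' ⟨u, hu, huw⟩
    have hd' : q u ∈ diag ε p' := by
      rw [huw]
      rcases hw' with rfl | rfl
      · exact left_mem_segment ℝ _ _
      · exact right_mem_segment ℝ _ _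
    have h1 := s3 w (by rw [← huw]; exact hM' u hu)
    rw [← huw] at h1
    -- distance from an arc
    have far : ∀ (j : Fin 4) (i : ℕ), B.On j i →
        (∀ v, rside (1 / 2 - η) (1 / 2 + η) j v → δ2 ≤ ‖(1 + I) * q u - (1 + I) * q v‖) →
        10 ≤ ‖fp k w - cp (B.v i)‖ := by
      intro j i hi hfar
      obtain ⟨v, hv, hv'⟩ := k3 j i hi
      have h2 := hfar v hv
      have h3 : ‖(1 + I) * q u - (1 + I) * q v‖ ≤ ‖(a : ℂ) * fp k w - (1 + I) * q u‖ +
          ‖(a : ℂ) * fp k w - (a : ℂ) * cp (B.v i)‖ + ‖(a : ℂ) * cp (B.v i) - (1 + I) * q v‖ := by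
        have e : (1 + I) * q u - (1 + I) * q v = -((a : ℂ) * fp k w - (1 + I) * q u) +
            ((a : ℂ) * fp k w - (a : ℂ) * cp (B.v i)) + ((a : ℂ) * cp (B.v i) - (1 + I) * q v) := by ring
        rw [e]
        refine (norm_add_le _ _).trans (add_le_add ((norm_add_le _ _).trans (add_le_add ?_ le_rfl)) le_rfl)
        rw [norm_neg]
      have e3 : ‖(a : ℂ) * fp k w - (a : ℂ) * cp (B.v i)‖ = a * ‖fp k w - cp (B.v i)‖ := by
        rw [← mul_sub, norm_mul, Complex.norm_real, Real.norm_of_nonneg ha.le]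
      rw [e3] at h3
      by_contra hlt
      push Not at hlt
      have h4 : a * ‖fp k w - cp (B.v i)‖ ≤ a * 10 := mul_le_mul_of_nonneg_left hlt.le ha.le
      linarith
    constructor
    · rintro ⟨u', hu', hu''⟩
      have h2 : u' = u := hq.inj (hu''.trans huw.symm)
      subst h2
      have h3 : u'.re < 1 / 2 := hu'
      refine hA.left' p hp p' hp' w hw hw' ?_
      have h4 : ∀ v, (rside (1 / 2 - η) (1 / 2 + η) 0 v ∨ rside (1 / 2 - η) (1 / 2 + η) 1 v) ∨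
          rside (1 / 2 - η) (1 / 2 + η) 2 v → δ2 ≤ ‖(1 + I) * q u' - (1 + I) * q v‖ := fun v hv =>
        (min_le_left _ _).trans (gL u' ⟨hu, h3.le⟩ v hv)
      rintro i hi (h5 | h5 | h5)
      · exact far 0 i h5 fun v hv => h4 v (Or.inl (Or.inl hv))
      · exact far 1 i h5 fun v hv => h4 v (Or.inl (Or.inr hv))
      · exact far 2 i h5 fun v hv => h4 v (Or.inr hv)
    · rintro ⟨u', hu', hu''⟩
      have h2 : u' = u := hq.inj (hu''.trans huw.symm)
      subst h2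
      have h3 : 1 / 2 < u'.re := hu'
      refine hA.right' p hp p' hp' w hw hw' ?_
      have h4 : ∀ v, (rside (1 / 2 - η) (1 / 2 + η) 0 v ∨ rside (1 / 2 - η) (1 / 2 + η) 2 v) ∨
          rside (1 / 2 - η) (1 / 2 + η) 3 v → δ2 ≤ ‖(1 + I) * q u' - (1 + I) * q v‖ := fun v hv =>
        (min_le_right _ _).trans (gR u' ⟨hu, h3.le⟩ v hv)
      rintro i hi (h5 | h5 | h5)
      · exact far 0 i h5 fun v hv => h4 v (Or.inl (Or.inl hv))
      · exact far 2 i h5 fun v hv => h4 v (Or.inl (Or.inr hv))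
      · exact far 3 i h5 fun v hv => h4 v (Or.inr hv)

end End

/-- the upper side of the sandwich -/
theorem gPlus : GPlus := End.gplus_of End.regNb End.regInt End.regOn

end Full
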