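import Pool.Agent.Full.End.Poly

/-!
# FULL, end game: interior of a simple closed lattice polygon

The tile to the left of every edge has winding number `a`, the tile to the right `a - 1`, with `a = 1`
(counterclockwise) or `a = 0` (clockwise); the winding number takes the values `0` and `2 a - 1` only; the
tiles with winding number `a` (`a - 1`) along the polygon are connected through edges.
-/

set_option autoImplicit false

namespace Full

open Finset

variable {n : ℕ} {v : ℕ → ℤ × ℤ} {d : ℕ → Fin 4}

/-- `d i` is the direction of the edge `i` -/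
def Dirs (n : ℕ) (v : ℕ → ℤ × ℤ) (d : ℕ → Fin 4) : Prop := ∀ i < n, v (i + 1) = v i + dir (d i)

lemma CWalk.exists_dirs (h : CWalk n v) : ∃ d, Dirs n v d := by
  have : ∀ i, ∃ k : Fin 4, i < n → v (i + 1) = v i + dir k := by
    intro i
    by_cases hi : i < n
    · obtain ⟨k, hk⟩ := (h.adj i hi).exists_dir
      exact ⟨k, fun _ => hk⟩
    · exact ⟨0, fun h => absurd h hi⟩
  choose d hd using this
  exact ⟨d, hd⟩

/-- joined through edges inside `S` -/
def Jn (S : Set (ℤ × ℤ)) (p q : ℤ × ℤ) : Prop :=
  Relation.ReflTransGen (fun x y => Adj x y ∧ x ∈ S ∧ y ∈ S) p q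

lemma Adj.symm {p q : ℤ × ℤ} (h : Adj p q) : Adj q p := by
  unfold Adj at h ⊢
  rw [abs_sub_comm q.1, abs_sub_comm q.2]
  exact h

lemma Jn.symm {S : Set (ℤ × ℤ)} {p q : ℤ × ℤ} (h : Jn S p q) : Jn S q p := by
  induction h with
  | refl => exact Relation.ReflTransGen.refl
  | tail _ hbc ih => exact Relation.ReflTransGen.head ⟨hbc.1.symm, hbc.2.2, hbc.2.1⟩ ih

lemma Jn.trans {S : Set (ℤ × ℤ)} {p q r : ℤ × ℤ} (h : Jn S p q) (h' : Jn S q r) : Jn S p r :=
  Relation.ReflTransGen.trans h h'

lemma Jn.of_adj {S : Set (ℤ × ℤ)} {p q : ℤ × ℤ} (h : Adj p q) (hp : p ∈ S) (hq : q ∈ S) : Jn S p q :=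
  Relation.ReflTransGen.single ⟨h, hp, hq⟩

lemma adj_quad (w : ℤ × ℤ) (k : Fin 4) : Adj (quad w k) (quad w (k - 1)) := by
  unfold Adj
  fin_cases k
  · show |w.1 - w.1| + |w.2 - (w.2 - 1)| = 1
    simp
  · show |w.1 - 1 - w.1| + |w.2 - w.2| = 1
    simp
  · show |w.1 - 1 - (w.1 - 1)| + |w.2 - 1 - w.2| = 1
    simp
  · show |w.1 - (w.1 - 1)| + |w.2 - 1 - (w.2 - 1)| = 1
    simp

/-- the direction after the edge `i` is not the opposite direction -/
lemma SPoly.dir_ne (h : SPoly n v) (hd : Dirs n v d) {i : ℕ} (hi : i < n) : d (nxe n i) ≠ d i + 2 := by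
  intro h1
  apply h.no_back hi
  rw [hd _ (nx_lt hi), h1, dir_opp, h.v_nx hi, hd i hi]
  abel

lemma SPoly.sc_eq (h : SPoly n v) (hd : Dirs n v d) {i : ℕ} (hi : i < n) {k : Fin 4} (h1 : k ≠ d i + 2)
    (h2 : k ≠ d (nxe n i)) : sc n v (quad (v (i + 1)) k) = sc n v (quad (v (i + 1)) (k - 1)) := by
  have h3 := h.toCWalk.step (v (i + 1)) k
  rw [h.flow_zero hi] at h3
  · linarith
  · intro h4
    apply h1
    apply dir_inj
    have h5 : v (i + 1) + dir k = v (i + 1) + dir (d i + 2) := by
      rw [h4, dir_opp, hd i hi]; abel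
    exact add_left_cancel h5
  · intro h4
    apply h2
    apply dir_inj
    rw [hd _ (nx_lt hi), h.v_nx hi] at h4
    exact add_left_cancel h4

lemma fin4_cases : ∀ a b : Fin 4, b ≠ a + 2 → b = a + 1 ∨ b = a ∨ b = a + 3 := by decide

/-- turning at a vertex on the left side -/
lemma SPoly.turn (h : SPoly n v) (hd : Dirs n v d) {i : ℕ} (hi : i < n) :
    sc n v (quad (v (i + 1)) (d i + 1)) = sc n v (quad (v (i + 1)) (d (nxe n i))) ∧
    Jn {p | sc n v p = sc n v (quad (v (i + 1)) (d i + 1))} (quad (v (i + 1)) (d i + 1))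
      (quad (v (i + 1)) (d (nxe n i))) := by
  rcases fin4_cases (d i) (d (nxe n i)) (h.dir_ne hd hi) with h1 | h1 | h1
  · rw [h1]
    exact ⟨rfl, Relation.ReflTransGen.refl⟩
  · have h2 := h.sc_eq hd hi (k := d i + 1) (by generalize d i = a; revert a; decide)
      (by rw [h1]; generalize d i = a; revert a; decide)
    rw [add_sub_cancel_right] at h2
    rw [h1]
    refine ⟨h2, Jn.of_adj ?_ rfl h2.symm⟩
    have := adj_quad (v (i + 1)) (d i + 1)
    rwa [add_sub_cancel_right] at this
  · have h2 := h.sc_eq hd hi (k := d i + 1) (by generalize d i = a; revert a; decide)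
      (by rw [h1]; generalize d i = a; revert a; decide)
    have h3 := h.sc_eq hd hi (k := d i) (by generalize d i = a; revert a; decide)
      (by rw [h1]; generalize d i = a; revert a; decide)
    rw [add_sub_cancel_right] at h2
    have e : d i + 3 = d i - 1 := by generalize d i = a; revert a; decide
    rw [h1, e]
    refine ⟨h2.trans h3, Jn.trans (Jn.of_adj ?_ rfl h2.symm) (Jn.of_adj (adj_quad _ _) h2.symm
      (h2.trans h3).symm)⟩
    have := adj_quad (v (i + 1)) (d i + 1)
    rwa [add_sub_cancel_right] at this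

/-- turning at a vertex on the right side -/
lemma SPoly.turn' (h : SPoly n v) (hd : Dirs n v d) {i : ℕ} (hi : i < n) :
    sc n v (quad (v (i + 1)) (d i + 2)) = sc n v (quad (v (i + 1)) (d (nxe n i) - 1)) ∧
    Jn {p | sc n v p = sc n v (quad (v (i + 1)) (d i + 2))} (quad (v (i + 1)) (d i + 2))
      (quad (v (i + 1)) (d (nxe n i) - 1)) := by
  rcases fin4_cases (d i) (d (nxe n i)) (h.dir_ne hd hi) with h1 | h1 | h1
  · -- left turn: `d i + 2, d i + 3, d i`
    have h2 := h.sc_eq hd hi (k := d i + 3) (by generalize d i = a; revert a; decide)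
      (by rw [h1]; generalize d i = a; revert a; decide)
    have h3 := h.sc_eq hd hi (k := d i) (by generalize d i = a; revert a; decide)
      (by rw [h1]; generalize d i = a; revert a; decide)
    have e1 : d i + 3 - 1 = d i + 2 := by generalize d i = a; revert a; decide
    have e2 : d i - 1 = d i + 3 := by generalize d i = a; revert a; decide
    rw [e1] at h2
    rw [e2] at h3
    rw [h1, add_sub_cancel_right]
    refine ⟨(h3.trans h2).symm, Jn.trans (Jn.of_adj (q := quad (v (i + 1)) (d i + 3)) ?_ rfl h2)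
      (Jn.of_adj ?_ h2 (h3.trans h2))⟩
    · have := adj_quad (v (i + 1)) (d i + 3)
      rw [e1] at this
      exact this.symm
    · have := adj_quad (v (i + 1)) (d i)
      rw [e2] at this
      exact this.symm
  · have h2 := h.sc_eq hd hi (k := d i + 3) (by generalize d i = a; revert a; decide)
      (by rw [h1]; generalize d i = a; revert a; decide)
    have e1 : d i + 3 - 1 = d i + 2 := by generalize d i = a; revert a; decide
    have e2 : d i - 1 = d i + 3 := by generalize d i = a; revert a; decide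
    rw [e1] at h2
    rw [h1, e2]
    refine ⟨h2.symm, Jn.of_adj ?_ rfl h2⟩
    have := adj_quad (v (i + 1)) (d i + 3)
    rw [e1] at this
    exact this.symm
  · have e : d i + 3 - 1 = d i + 2 := by generalize d i = a; revert a; decide
    rw [h1, e]
    exact ⟨rfl, Relation.ReflTransGen.refl⟩

/-- the winding numbers along the two sides of the polygon are constant -/
theorem SPoly.sides (h : SPoly n v) (hd : Dirs n v d) : ∃ a : ℤ, ∀ i < n,
    sc n v (quad (v i) (d i)) = a ∧ sc n v (quad (v i) (d i - 1)) = a - 1 := by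
  refine ⟨sc n v (quad (v 0) (d 0)), fun i hi => ?_⟩
  have h1 : sc n v (quad (v i) (d i)) = sc n v (quad (v 0) (d 0)) := by
    induction i with
    | zero => rfl
    | succ m ih =>
      have hm : m < n := by omega
      have h2 := (h.turn hd hm).1
      have h3 : nxe n m = m + 1 := by
        unfold nxe; rw [if_neg (by omega)]
      rw [h3] at h2
      rw [← h2, ← ih hm, hd m hm, quad_shift]
  refine ⟨h1, ?_⟩
  have h2 := h.toCWalk.step (v i) (d i)
  rw [← hd i hi, h.flow_one hi, h1] at h2
  linarith

/-- all tiles to the left of the polygon are joined -/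
theorem SPoly.left_joined (h : SPoly n v) (hd : Dirs n v d) {a : ℤ}
    (ha : ∀ i < n, sc n v (quad (v i) (d i)) = a ∧ sc n v (quad (v i) (d i - 1)) = a - 1) {i j : ℕ}
    (hi : i < n) (hj : j < n) : Jn {p | sc n v p = a} (quad (v i) (d i)) (quad (v j) (d j)) := by
  have key : ∀ i < n, Jn {p | sc n v p = a} (quad (v 0) (d 0)) (quad (v i) (d i)) := by
    intro i hi
    induction i with
    | zero => exact Relation.ReflTransGen.refl
    | succ m ih =>
      have hm : m < n := by omega
      have h2 := (h.turn hd hm).2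
      have h3 : nxe n m = m + 1 := by
        unfold nxe; rw [if_neg (by omega)]
      have h4 : quad (v (m + 1)) (d m + 1) = quad (v m) (d m) := by rw [hd m hm, quad_shift]
      rw [h3, h4, (ha m hm).1] at h2
      exact (ih hm).trans h2
  exact (key i hi).symm.trans (key j hj)

/-- all tiles to the right of the polygon are joined -/
theorem SPoly.right_joined (h : SPoly n v) (hd : Dirs n v d) {a : ℤ}
    (ha : ∀ i < n, sc n v (quad (v i) (d i)) = a ∧ sc n v (quad (v i) (d i - 1)) = a - 1) {i j : ℕ}
    (hi : i < n) (hj : j < n) :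
    Jn {p | sc n v p = a - 1} (quad (v i) (d i - 1)) (quad (v j) (d j - 1)) := by
  have key : ∀ i < n, Jn {p | sc n v p = a - 1} (quad (v 0) (d 0 - 1)) (quad (v i) (d i - 1)) := by
    intro i hi
    induction i with
    | zero => exact Relation.ReflTransGen.refl
    | succ m ih =>
      have hm : m < n := by omega
      have h2 := (h.turn' hd hm).2
      have h3 : nxe n m = m + 1 := by
        unfold nxe; rw [if_neg (by omega)]
      have h4 : quad (v (m + 1)) (d m + 2) = quad (v m) (d m - 1) := by rw [hd m hm, quad_shift']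
      rw [h3, h4, (ha m hm).2] at h2
      exact (ih hm).trans h2
  exact (key i hi).symm.trans (key j hj)

/-- the western neighbour has the same winding number, or they are separated by a vertical edge -/
lemma SPoly.west_cases (h : SPoly n v) (hd : Dirs n v d) (p : ℤ × ℤ) :
    sc n v (p.1 - 1, p.2) = sc n v p ∨
    (∃ i < n, d i = 3 ∧ p = quad (v i) (d i) ∧ (p.1 - 1, p.2) = quad (v i) (d i - 1)) ∨
    (∃ i < n, d i = 1 ∧ p = quad (v i) (d i - 1) ∧ (p.1 - 1, p.2) = quad (v i) (d i)) := by
  by_cases hex : ∃ i < n, (v i = p ∧ v (i + 1) = (p.1, p.2 + 1)) ∨ (v i = (p.1, p.2 + 1) ∧ v (i + 1) = p)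
  · right
    obtain ⟨i, hi, h1 | h1⟩ := hex
    · right
      have h2 : d i = 1 := by
        apply dir_inj
        have h3 := hd i hi
        rw [h1.1, h1.2] at h3
        have h4 : p + dir 1 = p + dir (d i) := by
          rw [← h3]
          exact Prod.ext (by simp [dir]) (by simp [dir])
        exact (add_left_cancel h4).symm
      refine ⟨i, hi, h2, ?_, ?_⟩
      · rw [h2, h1.1]; rfl
      · rw [h2, h1.1]; rfl
    · left
      have h2 : d i = 3 := by
        apply dir_inj
        have h3 := hd i hi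
        rw [h1.1, h1.2] at h3
        have h4 : (p.1, p.2 + 1) + dir 3 = (p.1, p.2 + 1) + dir (d i) := by
          rw [← h3]
          exact Prod.ext (by simp [dir]) (by simp [dir])
        exact (add_left_cancel h4).symm
      refine ⟨i, hi, h2, ?_, ?_⟩
      · rw [h2, h1.1]
        show p = (p.1, p.2 + 1 - 1)
        simp
      · rw [h2, h1.1]
        show (p.1 - 1, p.2) = (p.1 - 1, p.2 + 1 - 1)
        simp
  · left
    have h1 := h.toCWalk.north p
    rw [flow_eq_zero] at h1
    · have h2 : sc n v (p.1, p.2) = sc n v p := rfl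
      linarith
    · intro i hi
      exact ⟨fun h2 => hex ⟨i, hi, Or.inl h2⟩, fun h2 => hex ⟨i, hi, Or.inr h2⟩⟩

/-- tiles to the left of the polygon have winding number zero -/
lemma sc_far {p : ℤ × ℤ} (hp : ∀ i < n, p.1 < (v i).1) : sc n v p = 0 := by
  unfold sc
  refine sum_eq_zero fun i hi => ?_
  have h1 := hp i (mem_range.1 hi)
  unfold sphi
  rw [if_neg (by omega), if_neg (by omega), sub_zero]

lemma exists_left_bound (n : ℕ) (v : ℕ → ℤ × ℤ) : ∃ X : ℤ, ∀ i < n, X < (v i).1 := by
  induction n with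
  | zero => exact ⟨0, fun i hi => absurd hi (Nat.not_lt_zero i)⟩
  | succ m ih =>
    obtain ⟨X, hX⟩ := ih
    refine ⟨min X ((v m).1 - 1), fun i hi => ?_⟩
    rcases Nat.lt_succ_iff_lt_or_eq.1 hi with h1 | h1
    · exact (min_le_left _ _).trans_lt (hX i h1)
    · rw [h1]
      have := min_le_right X ((v m).1 - 1)
      omega

/-- descent to the west inside a level set: every tile is joined to a tile along the polygon or to the
far left, inside the tiles with the same winding number -/
lemma SPoly.descend (h : SPoly n v) (hd : Dirs n v d) {a : ℤ}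
    (ha : ∀ i < n, sc n v (quad (v i) (d i)) = a ∧ sc n v (quad (v i) (d i - 1)) = a - 1) (X : ℤ)
    (p : ℤ × ℤ) :
    (∃ i < n, sc n v p = a ∧ Jn {q | sc n v q = a} p (quad (v i) (d i))) ∨
    (∃ i < n, sc n v p = a - 1 ∧ Jn {q | sc n v q = a - 1} p (quad (v i) (d i - 1))) ∨
    (∃ q, q.1 ≤ X ∧ q.2 = p.2 ∧ sc n v q = sc n v p ∧ Jn {r | sc n v r = sc n v p} p q) := by
  have key : ∀ (k : ℕ) (p : ℤ × ℤ), p.1 ≤ X + k →
      (∃ i < n, sc n v p = a ∧ Jn {q | sc n v q = a} p (quad (v i) (d i))) ∨
      (∃ i < n, sc n v p = a - 1 ∧ Jn {q | sc n v q = a - 1} p (quad (v i) (d i - 1))) ∨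
      (∃ q, q.1 ≤ X ∧ q.2 = p.2 ∧ sc n v q = sc n v p ∧ Jn {r | sc n v r = sc n v p} p q) := by
    intro k
    induction k with
    | zero =>
      intro p hp
      right; right
      exact ⟨p, by simpa using hp, rfl, rfl, Relation.ReflTransGen.refl⟩
    | succ m ih =>
      intro p hp
      rcases h.west_cases hd p with h1 | ⟨i, hi, -, h2, -⟩ | ⟨i, hi, -, h2, -⟩
      · have hadj : Adj p (p.1 - 1, p.2) := by
          unfold Adj
          simp
        have hp' : ((p.1 - 1, p.2) : ℤ × ℤ).1 ≤ X + m := by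
          push_cast at hp
          show p.1 - 1 ≤ X + m
          omega
        rcases ih (p.1 - 1, p.2) hp' with ⟨i, hi, h3, h4⟩ | ⟨i, hi, h3, h4⟩ | ⟨q, hq, hq2, h3, h4⟩
        · left
          have h5 : sc n v p = a := by rw [← h1]; exact h3
          exact ⟨i, hi, h5, (Jn.of_adj (S := {q | sc n v q = a}) hadj h5 h3).trans h4⟩
        · right; left
          have h5 : sc n v p = a - 1 := by rw [← h1]; exact h3
          exact ⟨i, hi, h5, (Jn.of_adj (S := {q | sc n v q = a - 1}) hadj h5 h3).trans h4⟩
        · right; right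
          refine ⟨q, hq, hq2, h3.trans h1, ?_⟩
          rw [h1] at h4
          exact (Jn.of_adj (S := {r | sc n v r = sc n v p}) hadj (show sc n v p = sc n v p from rfl) h1).trans h4
      · left
        exact ⟨i, hi, by rw [h2]; exact (ha i hi).1, by rw [← h2]; exact Relation.ReflTransGen.refl⟩
      · right; left
        exact ⟨i, hi, by rw [h2]; exact (ha i hi).2, by rw [← h2]; exact Relation.ReflTransGen.refl⟩
  have h0 : p.1 ≤ X + ((p.1 - X).toNat : ℤ) := by
    have := Int.self_le_toNat (p.1 - X)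
    omega
  exact key _ p h0

/-- there is a vertical edge on the leftmost column -/
lemma SPoly.exists_extreme (h : SPoly n v) (hd : Dirs n v d) :
    ∃ i < n, (∀ j < n, (v i).1 ≤ (v j).1) ∧ (d i = 1 ∨ d i = 3) := by
  have h3 := h.three
  obtain ⟨j, hj, hmin⟩ := Finset.exists_min_image (range n) (fun i => (v i).1) ⟨0, mem_range.2 (by omega)⟩
  have hj := mem_range.1 hj
  have hmin' : ∀ i < n, (v j).1 ≤ (v i).1 := fun i hi => hmin i (mem_range.2 hi)
  have hmin'' : ∀ i ≤ n, (v j).1 ≤ (v i).1 := by
    intro i hi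
    rcases Nat.lt_or_ge i n with h1 | h1
    · exact hmin' i h1
    · have : i = n := by omega
      rw [this, h.closed]
      exact hmin' 0 (by omega)
  by_cases h1 : d j = 1 ∨ d j = 3
  · exact ⟨j, hj, hmin', h1⟩
  · -- `d j = 0`; look at the previous edge
    have h2 : d j ≠ 2 := by
      intro h4
      have h5 := hd j hj
      rw [h4] at h5
      have h6 := hmin'' (j + 1) hj
      rw [h5] at h6
      simp [dir] at h6
    have h4 : d j = 0 := by
      push Not at h1
      have : ∀ x : Fin 4, x ≠ 1 → x ≠ 3 → x ≠ 2 → x = 0 := by decide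
      exact this _ h1.1 h1.2 h2
    -- previous index
    obtain ⟨i, hi, hij⟩ : ∃ i < n, nxe n i = j := by
      rcases Nat.eq_zero_or_pos j with h5 | h5
      · exact ⟨n - 1, by omega, by unfold nxe; rw [if_pos (by omega), h5]⟩
      · exact ⟨j - 1, by omega, by unfold nxe; rw [if_neg (by omega)]; omega⟩
    have hv : v (i + 1) = v j := by rw [← h.v_nx hi, hij]
    have hvi := hd i hi
    rw [hv] at hvi
    have h6 : d i ≠ 0 := by
      intro h7
      have h8 := hmin' i hi
      rw [hvi, h7] at h8
      simp [dir] at h8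
    have h7 : d i ≠ 2 := by
      intro h8
      have h9 := h.dir_ne hd hi
      rw [hij, h4, h8] at h9
      exact h9 (by decide)
    have h8 : d i = 1 ∨ d i = 3 := by
      have : ∀ x : Fin 4, x ≠ 0 → x ≠ 2 → x = 1 ∨ x = 3 := by decide
      exact this _ h6 h7
    refine ⟨i, hi, fun k hk => ?_, h8⟩
    have h9 : (v i).1 = (v j).1 := by
      rw [hvi]
      rcases h8 with h10 | h10 <;> rw [h10] <;> simp [dir]
    rw [h9]
    exact hmin' k hk

/-- `a = 1` or `a = 0`, and the tile west of the extreme edge has winding number zero -/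
theorem SPoly.orient (h : SPoly n v) (hd : Dirs n v d) {a : ℤ}
    (ha : ∀ i < n, sc n v (quad (v i) (d i)) = a ∧ sc n v (quad (v i) (d i - 1)) = a - 1) :
    a = 1 ∨ a = 0 := by
  obtain ⟨i, hi, hmin, h1 | h1⟩ := h.exists_extreme hd
  · right
    have h2 := (ha i hi).1
    rw [h1] at h2
    rw [← h2]
    refine sc_far fun j hj => ?_
    show (v i).1 - 1 < (v j).1
    have := hmin j hj
    omega
  · left
    have h2 := (ha i hi).2
    rw [h1] at h2
    have h3 : sc n v (quad (v i) (3 - 1)) = 0 := by
      refine sc_far fun j hj => ?_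
      show (v i).1 - 1 < (v j).1
      have := hmin j hj
      omega
    linarith

/-- the values of the winding number -/
theorem SPoly.values (h : SPoly n v) (hd : Dirs n v d) {a : ℤ}
    (ha : ∀ i < n, sc n v (quad (v i) (d i)) = a ∧ sc n v (quad (v i) (d i - 1)) = a - 1) (p : ℤ × ℤ) :
    sc n v p = 0 ∨ sc n v p = 2 * a - 1 := by
  have h0 := h.orient hd ha
  obtain ⟨X, hX⟩ := exists_left_bound n v
  rcases h.descend hd ha X p with ⟨i, hi, h1, -⟩ | ⟨i, hi, h1, -⟩ | ⟨q, hq, hq2, h1, -⟩
  · omega
  · omega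
  · left
    rw [← h1]
    exact sc_far fun i hi => lt_of_le_of_lt hq (hX i hi)

end Full
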