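import Mathlib

/-!
# FULL, end game: uniqueness of the limit of the observable

`D` is a bounded connected open set, its frontier is covered by three arcs `A 0, A 1, A 2`; `F` is continuous
on the closure, holomorphic inside and maps `A j` into the side `[w (j+1), w (j+2)]` of an equilateral
triangle.  If the three arcs meet pairwise in at least one point (a mark) such an `F` is unique.
-/

set_option autoImplicit false

namespace Full

open Complex Set Filter Topology Metric

/-- the vertices `τ ^ j` of the triangle, `τ = e^{2 π i / 3}` -/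
noncomputable def tau : ℂ := -1 / 2 + (Real.sqrt 3 / 2 : ℝ) * I

lemma sqrt3_sq : ((Real.sqrt 3 : ℝ) : ℂ) ^ 2 = 3 := by
  rw [← ofReal_pow, Real.sq_sqrt (by norm_num)]; norm_num

lemma tau_sq_add : tau ^ 2 + tau + 1 = 0 := by
  have h := sqrt3_sq
  have hI : I ^ 2 = -1 := I_sq
  unfold tau
  push_cast
  linear_combination (1 / 4 : ℂ) * I ^ 2 * h + (3 / 4 : ℂ) * hI

lemma tau_cube : tau ^ 3 = 1 := by
  linear_combination (tau - 1) * tau_sq_add

/-- the direction of the side `0` is imaginary -/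
lemma tau_sub : tau - tau ^ 2 = (Real.sqrt 3 : ℝ) * I := by
  have h : tau ^ 2 = -tau - 1 := by linear_combination tau_sq_add
  rw [h]
  unfold tau
  push_cast
  ring

/-- vertices, indexed by `ℕ` (period three) -/
noncomputable def vert (j : ℕ) : ℂ := tau ^ j

/-- the side opposite to the vertex `j` -/
def side (j : ℕ) : Set ℂ := segment ℝ (vert (j + 1)) (vert (j + 2))

/-- the difference of two points of a side is a real multiple of `τ ^ j √3 i` -/
lemma side_sub {j : ℕ} {x y : ℂ} (hx : x ∈ side j) (hy : y ∈ side j) :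
    ∃ r : ℝ, x - y = r * (vert j * ((Real.sqrt 3 : ℝ) * I)) := by
  obtain ⟨a, b, -, -, hab, rfl⟩ := hx
  obtain ⟨a', b', -, -, hab', rfl⟩ := hy
  refine ⟨a - a', ?_⟩
  have hb : b = 1 - a := by linarith
  have hb' : b' = 1 - a' := by linarith
  subst hb hb'
  rw [← tau_sub]
  simp only [vert, real_smul, pow_add, pow_one]
  push_cast
  ring

lemma cube_re {j : ℕ} {x y : ℂ} (hx : x ∈ side j) (hy : y ∈ side j) : ((x - y) ^ 3).re = 0 := by
  obtain ⟨r, hr⟩ := side_sub hx hy
  rw [hr]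
  have e : ((r : ℂ) * (vert j * ((Real.sqrt 3 : ℝ) * I))) ^ 3 =
      (((-(r ^ 3 * Real.sqrt 3 ^ 3) : ℝ)) : ℂ) * I := by
    have h1 : vert j ^ 3 = 1 := by
      rw [vert, ← pow_mul, mul_comm, pow_mul, tau_cube, one_pow]
    have hI : I ^ 3 = -I := by rw [pow_succ, I_sq]; ring
    push_cast
    calc ((r : ℂ) * (vert j * ((Real.sqrt 3 : ℝ) * I))) ^ 3 =
        r ^ 3 * vert j ^ 3 * ((Real.sqrt 3 : ℝ) : ℂ) ^ 3 * I ^ 3 := by ring
      _ = _ := by rw [h1, hI]; ring
  rw [e, re_ofReal_mul, I_re, mul_zero]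

/-- **uniqueness** for a difference: `Re h ^ 3 = 0` on the frontier -/
theorem cube_const {D : Set ℂ} (hD : IsOpen D) (hc : IsPreconnected D) (hb : Bornology.IsBounded D)
    {h : ℂ → ℂ} (h1 : ContinuousOn h (closure D)) (h2 : DifferentiableOn ℂ h D)
    (h3 : ∀ z ∈ frontier D, (h z ^ 3).re = 0) : ∃ k : ℂ, ∀ z ∈ closure D, h z ^ 3 = k := by
  rcases D.eq_empty_or_nonempty with rfl | ⟨c, hcD⟩
  · exact ⟨0, by simp⟩
  have hdc : DiffContOnCl ℂ h D := ⟨h2, h1⟩
  have hd3 : DiffContOnCl ℂ (fun z => h z ^ 3) D := ⟨h2.pow 3, h1.pow 3⟩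
  have key : ∀ s : ℂ, (s = 1 ∨ s = -1) → ∀ z ∈ closure D, ‖Complex.exp (s * h z ^ 3)‖ ≤ 1 := by
    intro s hs z hz
    have hde : DiffContOnCl ℂ (fun z => Complex.exp (s * h z ^ 3)) D :=
      ⟨((h2.pow 3).const_mul s).cexp, (continuous_exp.comp_continuousOn ((h1.pow 3).const_smul s))⟩
    refine Complex.norm_le_of_forall_mem_frontier_norm_le hb hde (fun w hw => ?_) hz
    rw [Complex.norm_exp]
    have := h3 w hw
    rcases hs with rfl | rfl
    · rw [one_mul, this, Real.exp_zero]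
    · rw [neg_one_mul, neg_re, this, neg_zero, Real.exp_zero]
  have hre : ∀ z ∈ closure D, (h z ^ 3).re = 0 := by
    intro z hz
    have a1 := key 1 (Or.inl rfl) z hz
    have a2 := key (-1) (Or.inr rfl) z hz
    rw [Complex.norm_exp, Real.exp_le_one_iff] at a1 a2
    rw [one_mul] at a1
    rw [neg_one_mul, neg_re] at a2
    linarith
  have hn1 : ∀ z ∈ closure D, ‖Complex.exp (h z ^ 3)‖ = 1 := by
    intro z hz
    rw [Complex.norm_exp, hre z hz, Real.exp_zero]
  have hconst := Complex.eqOn_of_isPreconnected_of_isMaxOn_norm hc hD ((h2.pow 3).cexp) hcD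
    (fun z hz => by
      show ‖Complex.exp (h z ^ 3)‖ ≤ ‖Complex.exp (h c ^ 3)‖
      rw [hn1 z (subset_closure hz), hn1 c (subset_closure hcD)])
  have hder : ∀ z ∈ D, deriv (fun w => h w ^ 3) z = 0 := by
    intro z hz
    have hd : DifferentiableAt ℂ (fun w => h w ^ 3) z :=
      ((h2.pow 3).differentiableAt (hD.mem_nhds hz))
    have e1 := hd.hasDerivAt.cexp
    have e2 : (fun w => Complex.exp (h w ^ 3)) =ᶠ[𝓝 z] fun _ => Complex.exp (h c ^ 3) := by
      filter_upwards [hD.mem_nhds hz] with w hw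
      exact hconst hw
    have e3 := (hasDerivAt_const z (Complex.exp (h c ^ 3))).congr_of_eventuallyEq e2
    have e4 := e1.unique e3
    exact (mul_eq_zero.1 e4).resolve_left (Complex.exp_ne_zero _)
  have hD1 : ∀ z ∈ D, h z ^ 3 = h c ^ 3 := fun z hz =>
    hD.is_const_of_deriv_eq_zero hc (h2.pow 3) (fun w hw => hder w hw) hz hcD
  refine ⟨h c ^ 3, fun z hz => ?_⟩
  have hcl : closure D ⊆ closure {z | z ∈ closure D ∧ h z ^ 3 = h c ^ 3} :=
    closure_mono fun z hz => ⟨subset_closure hz, hD1 z hz⟩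
  have hsub : IsClosed {z | z ∈ closure D ∧ h z ^ 3 = h c ^ 3} := by
    have h5 := (h1.pow 3).preimage_isClosed_of_isClosed isClosed_closure (isClosed_singleton (x := h c ^ 3))
    exact h5
  have := hcl hz
  rw [hsub.closure_eq] at this
  exact this.2

/-- the boundary value problem -/
structure Sol (D : Set ℂ) (A : ℕ → Set ℂ) (F : ℂ → ℂ) : Prop where
  cont : ContinuousOn F (closure D)
  diff : DifferentiableOn ℂ F D
  bdry : ∀ j, ∀ z ∈ A j, F z ∈ side j

theorem Sol.unique {D : Set ℂ} {A : ℕ → Set ℂ} {F G : ℂ → ℂ} (hD : IsOpen D) (hc : IsPreconnected D)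
    (hb : Bornology.IsBounded D) (hA : frontier D ⊆ ⋃ j, A j) (hF : Sol D A F) (hG : Sol D A G)
    {z0 : ℂ} (hz0 : z0 ∈ closure D) (h0 : F z0 = G z0) : EqOn F G (closure D) := by
  obtain ⟨k, hk⟩ := cube_const hD hc hb (h := fun z => F z - G z) (hF.cont.sub hG.cont)
    (hF.diff.sub hG.diff) (fun z hz => by
      obtain ⟨j, hj⟩ := mem_iUnion.1 (hA hz)
      exact cube_re (hF.bdry j z hj) (hG.bdry j z hj))
  have hk0 : k = 0 := by
    have h1 := hk z0 hz0
    simp only [h0, sub_self] at h1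
    rw [← h1]
    norm_num
  intro z hz
  have h1 := hk z hz
  rw [hk0] at h1
  exact sub_eq_zero.1 (pow_eq_zero_iff (three_ne_zero) |>.1 h1)

end Full
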