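import Pool.Agent.Full.End.Wind
import Pool.Agent.Full.Tame

/-!
# FULL, end game: the boundary of the square `[-1, 1]²`, inside and outside, orientation

`sqb : ℝ → ℂ` parametrises the boundary of `[-1, 1]²` by `[0, 4]`, counterclockwise, corners at the integers.
For a tame `Q` the closed curve `Q ∘ sqb` has odd winding number around the points `Q u`, `u` in the open
square, and winding number `0` around all points outside `Q '' [-1, 1]²`.
-/

set_option autoImplicit false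

namespace Full

open Set Filter Topology Complex ComplexConjugate

noncomputable def cl (x : ℝ) : ℝ := max (-1) (min 1 x)

/-- the boundary of the square `[-1, 1]²`, starting in the middle of the left side, counterclockwise,
corners at the parameters `1/2, 3/2, 5/2, 7/2` -/
noncomputable def sqb (t : ℝ) : ℂ := ⟨cl (2 - 2 * |t - 2|), cl (min (2 * |t - 1| - 2) (8 - 2 * t))⟩

lemma cl_of_le {x : ℝ} (h : x ≤ -1) : cl x = -1 := by
  unfold cl
  rw [min_eq_right (by linarith), max_eq_left h]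

lemma cl_of_ge {x : ℝ} (h : 1 ≤ x) : cl x = 1 := by
  unfold cl
  rw [min_eq_left h, max_eq_right (by norm_num)]

lemma cl_of_mem {x : ℝ} (h1 : -1 ≤ x) (h2 : x ≤ 1) : cl x = x := by
  unfold cl
  rw [min_eq_right h2, max_eq_right h1]

lemma cl_mem (x : ℝ) : -1 ≤ cl x ∧ cl x ≤ 1 := by
  unfold cl
  exact ⟨le_max_left _ _, max_le (by norm_num) (min_le_left _ _)⟩

/-- the left side -/
lemma sb_left {t : ℝ} (h : t ≤ 1 / 2) : sqb t = ⟨-1, cl (-2 * t)⟩ := by
  unfold sqb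
  rw [abs_of_nonpos (by linarith : t - 2 ≤ 0), abs_of_nonpos (by linarith : t - 1 ≤ 0),
    cl_of_le (by linarith), min_eq_left (by linarith)]
  congr 2
  ring

lemma sb_bot {t : ℝ} (h1 : 1 / 2 ≤ t) (h2 : t ≤ 3 / 2) : sqb t = ⟨2 * t - 2, -1⟩ := by
  unfold sqb
  rw [abs_of_nonpos (by linarith : t - 2 ≤ 0), cl_of_mem (x := 2 - 2 * -(t - 2)) (by linarith) (by linarith)]
  have h3 : 2 * |t - 1| - 2 ≤ -1 := by
    have : |t - 1| ≤ 1 / 2 := by rw [abs_le]; constructor <;> linarith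
    linarith
  rw [cl_of_le (le_trans (min_le_left _ _) h3)]
  congr 1
  ring

lemma sb_right {t : ℝ} (h1 : 3 / 2 ≤ t) (h2 : t ≤ 5 / 2) : sqb t = ⟨1, 2 * t - 4⟩ := by
  unfold sqb
  have h3 : 1 ≤ 2 - 2 * |t - 2| := by
    have : |t - 2| ≤ 1 / 2 := by rw [abs_le]; constructor <;> linarith
    linarith
  rw [cl_of_ge h3, abs_of_nonneg (by linarith : 0 ≤ t - 1), min_eq_left (by linarith),
    cl_of_mem (by linarith) (by linarith)]
  congr 1
  ring

lemma sb_top {t : ℝ} (h1 : 5 / 2 ≤ t) (h2 : t ≤ 7 / 2) : sqb t = ⟨6 - 2 * t, 1⟩ := by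
  unfold sqb
  rw [abs_of_nonneg (by linarith : 0 ≤ t - 2), cl_of_mem (x := 2 - 2 * (t - 2)) (by linarith) (by linarith),
    abs_of_nonneg (by linarith : 0 ≤ t - 1), cl_of_ge (le_min (by linarith) (by linarith))]
  congr 1
  ring

lemma sb_left' {t : ℝ} (h1 : 7 / 2 ≤ t) : sqb t = ⟨-1, cl (8 - 2 * t)⟩ := by
  unfold sqb
  rw [abs_of_nonneg (by linarith : 0 ≤ t - 2), cl_of_le (by linarith),
    abs_of_nonneg (by linarith : 0 ≤ t - 1), min_eq_right (by linarith)]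

lemma continuous_sb : Continuous sqb := by
  have h3 : sqb = fun t => (cl (2 - 2 * |t - 2|) : ℂ) + (cl (min (2 * |t - 1| - 2) (8 - 2 * t)) : ℂ) * I := by
    funext t
    apply Complex.ext <;> simp [sqb]
  rw [h3]
  unfold cl
  fun_prop

lemma sb_zero_four : sqb 0 = sqb 4 := by
  rw [sb_left (by norm_num), sb_left' (by norm_num)]
  norm_num

/-- the pieces of `[0, 4]` -/
lemma pieces {t : ℝ} (h : t ∈ Icc (0 : ℝ) 4) :
    (0 ≤ t ∧ t ≤ 1 / 2 ∧ sqb t = ⟨-1, -2 * t⟩) ∨ (1 / 2 ≤ t ∧ t ≤ 3 / 2 ∧ sqb t = ⟨2 * t - 2, -1⟩) ∨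
    (3 / 2 ≤ t ∧ t ≤ 5 / 2 ∧ sqb t = ⟨1, 2 * t - 4⟩) ∨ (5 / 2 ≤ t ∧ t ≤ 7 / 2 ∧ sqb t = ⟨6 - 2 * t, 1⟩) ∨
    (7 / 2 ≤ t ∧ t ≤ 4 ∧ sqb t = ⟨-1, 8 - 2 * t⟩) := by
  rcases le_total t (1 / 2) with h1 | h1
  · refine Or.inl ⟨h.1, h1, ?_⟩
    rw [sb_left h1, cl_of_mem (by linarith) (by linarith [h.1])]
  rcases le_total t (3 / 2) with h2 | h2
  · exact Or.inr (Or.inl ⟨h1, h2, sb_bot h1 h2⟩)
  rcases le_total t (5 / 2) with h3 | h3
  · exact Or.inr (Or.inr (Or.inl ⟨h2, h3, sb_right h2 h3⟩))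
  rcases le_total t (7 / 2) with h4 | h4
  · exact Or.inr (Or.inr (Or.inr (Or.inl ⟨h3, h4, sb_top h3 h4⟩)))
  · refine Or.inr (Or.inr (Or.inr (Or.inr ⟨h4, h.2, ?_⟩)))
    rw [sb_left' h4, cl_of_mem (by linarith [h.2]) (by linarith)]

lemma sb_inj : ∀ s ∈ Icc (0 : ℝ) 4, ∀ t ∈ Icc (0 : ℝ) 4, s < t → sqb s = sqb t → s = 0 ∧ t = 4 := by
  intro s hs t ht hst h
  have h1 := congrArg Complex.re h
  have h2 := congrArg Complex.im h
  rcases pieces hs with ⟨a1, a2, a3⟩ | ⟨a1, a2, a3⟩ | ⟨a1, a2, a3⟩ | ⟨a1, a2, a3⟩ | ⟨a1, a2, a3⟩ <;>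
  rcases pieces ht with ⟨b1, b2, b3⟩ | ⟨b1, b2, b3⟩ | ⟨b1, b2, b3⟩ | ⟨b1, b2, b3⟩ | ⟨b1, b2, b3⟩ <;>
  rw [a3, b3] at h1 h2 <;> simp only at h1 h2 <;>
  first
  | (exfalso; linarith)
  | (exact ⟨by linarith, by linarith⟩)

/-- the closed square -/
def cs : Set ℂ := {z | |z.re| ≤ 1 ∧ |z.im| ≤ 1}

/-- the open square -/
def os : Set ℂ := {z | |z.re| < 1 ∧ |z.im| < 1}

lemma sb_mem (t : ℝ) : sqb t ∈ cs ∧ sqb t ∉ os := by
  have hcs : sqb t ∈ cs := by
    refine ⟨?_, ?_⟩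
    · exact abs_le.2 (cl_mem _)
    · exact abs_le.2 (cl_mem _)
  refine ⟨hcs, fun hos => ?_⟩
  have h1 := abs_lt.1 hos.1
  have h2 := abs_lt.1 hos.2
  rcases le_total t (1 / 2) with h | h
  · rw [sb_left h] at h1
    exact lt_irrefl _ h1.1
  rcases le_total t (3 / 2) with h' | h'
  · rw [sb_bot h h'] at h2
    exact lt_irrefl _ h2.1
  rcases le_total t (5 / 2) with h'' | h''
  · rw [sb_right h' h''] at h1
    exact lt_irrefl _ h1.2
  rcases le_total t (7 / 2) with h3 | h3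
  · rw [sb_top h'' h3] at h2
    exact lt_irrefl _ h2.2
  · rw [sb_left' h3] at h1
    exact lt_irrefl _ h1.1

lemma sb_antipodal {t : ℝ} (h : t ∈ Icc (0 : ℝ) 2) : sqb (t + 2) = -sqb t := by
  obtain ⟨h0, h2⟩ := h
  rcases le_total t (1 / 2) with h1 | h1
  · rw [sb_left h1, sb_right (by linarith) (by linarith), cl_of_mem (by linarith) (by linarith)]
    apply Complex.ext <;> simp <;> ring
  rcases le_total t (3 / 2) with h3 | h3
  · rw [sb_bot h1 h3, sb_top (by linarith) (by linarith)]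
    apply Complex.ext <;> simp <;> ring
  · rw [sb_right h3 (by linarith), sb_left' (by linarith), cl_of_mem (by linarith) (by linarith)]
    apply Complex.ext <;> simp <;> ring

lemma smul_cs {s : ℝ} (h0 : 0 ≤ s) (h1 : s ≤ 1) {z : ℂ} (hz : z ∈ cs) : (s : ℂ) * z ∈ cs := by
  refine ⟨?_, ?_⟩
  · rw [re_ofReal_mul, abs_mul, abs_of_nonneg h0]
    have := hz.1
    nlinarith [abs_nonneg z.re]
  · rw [im_ofReal_mul, abs_mul, abs_of_nonneg h0]
    have := hz.2
    nlinarith [abs_nonneg z.im]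

lemma smul_os {s : ℝ} (h0 : 0 ≤ s) (h1 : s ≤ 1) {z : ℂ} (hz : z ∈ os) : (s : ℂ) * z ∈ os := by
  refine ⟨?_, ?_⟩
  · rw [re_ofReal_mul, abs_mul, abs_of_nonneg h0]
    have := hz.1
    nlinarith [abs_nonneg z.re]
  · rw [im_ofReal_mul, abs_mul, abs_of_nonneg h0]
    have := hz.2
    nlinarith [abs_nonneg z.im]

noncomputable def c01 (s : ℝ) : ℝ := max 0 (min 1 s)

lemma c01_mem (s : ℝ) : 0 ≤ c01 s ∧ c01 s ≤ 1 := ⟨le_max_left _ _, max_le (by norm_num) (min_le_left _ _)⟩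

lemma continuous_c01 : Continuous c01 := by unfold c01; fun_prop

lemma c01_zero : c01 0 = 0 := by simp [c01]

lemma c01_one : c01 1 = 1 := by simp [c01]

/-- the winding number around outside points vanishes -/
theorem wn_outside {Q : ℂ → ℂ} (hQ : Continuous Q) {w : ℂ} (hw : w ∉ Q '' cs) :
    Wn (fun t => Q (sqb t) - w) 0 := by
  have hH : Continuous fun x : ℝ × ℝ => Q ((c01 x.2 : ℂ) * sqb x.1) - w := by
    refine (hQ.comp ?_).sub continuous_const
    exact (continuous_ofReal.comp (continuous_c01.comp continuous_snd)).mul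
      (continuous_sb.comp continuous_fst)
  have h0 : ∀ x : ℝ × ℝ, Q ((c01 x.2 : ℂ) * sqb x.1) - w ≠ 0 := fun x hx =>
    hw ⟨_, smul_cs (c01_mem _).1 (c01_mem _).2 (sb_mem x.1).1, sub_eq_zero.1 hx⟩
  have h1 := Wn.homotopy (s := 0) (s' := 1) hH h0 (fun s => by rw [sb_zero_four]) (m := 0) (by
    have h2 := h0 (0, 0)
    simp only [c01_zero, ofReal_zero, zero_mul] at h2 ⊢
    exact wn_const h2)
  simpa only [c01_one, ofReal_one, one_mul] using h1

/-- `Q` has orientation `m`: the winding number around all inside points is `m` -/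
def POri (Q : ℂ → ℂ) (m : ℤ) : Prop := ∀ u ∈ os, Wn (fun t => Q (sqb t) - Q u) m

lemma sub_ne {Q : ℂ → ℂ} (hQ : Function.Injective Q) {u : ℂ} (hu : u ∈ os) (t : ℝ) :
    Q (sqb t) - Q u ≠ 0 := fun h => (sb_mem t).2 (by
      have := hQ (sub_eq_zero.1 h)
      rwa [this])

lemma zero_mem_os : (0 : ℂ) ∈ os := by simp [os]

lemma wn_move {Q : ℂ → ℂ} (hQ : Continuous Q) (hi : Function.Injective Q) {m : ℤ} {u : ℂ} (hu : u ∈ os) :
    Wn (fun t => Q (sqb t) - Q u) m ↔ Wn (fun t => Q (sqb t) - Q 0) m := by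
  have hH : Continuous fun x : ℝ × ℝ => Q (sqb x.1) - Q ((c01 x.2 : ℂ) * u) := by
    refine (hQ.comp (continuous_sb.comp continuous_fst)).sub (hQ.comp ?_)
    exact (continuous_ofReal.comp (continuous_c01.comp continuous_snd)).mul continuous_const
  have h0 : ∀ x : ℝ × ℝ, Q (sqb x.1) - Q ((c01 x.2 : ℂ) * u) ≠ 0 := fun x =>
    sub_ne hi (smul_os (c01_mem _).1 (c01_mem _).2 hu) x.1
  have hcl : ∀ s : ℝ, Q (sqb ((4 : ℝ), s).1) - Q ((c01 ((4 : ℝ), s).2 : ℂ) * u) =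
      Q (sqb ((0 : ℝ), s).1) - Q ((c01 ((0 : ℝ), s).2 : ℂ) * u) := fun s => by rw [sb_zero_four]
  constructor
  · intro h
    have h1 := Wn.homotopy (s := 1) (s' := 0) hH h0 hcl (m := m) (by
      simpa only [c01_one, ofReal_one, one_mul] using h)
    simpa only [c01_zero, ofReal_zero, zero_mul] using h1
  · intro h
    have h1 := Wn.homotopy (s := 0) (s' := 1) hH h0 hcl (m := m) (by
      simpa only [c01_zero, ofReal_zero, zero_mul] using h)
    simpa only [c01_one, ofReal_one, one_mul] using h1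

/-- the winding number around inside points is odd and constant -/
theorem exists_ori {Q : ℂ → ℂ} (hQ : Continuous Q) (hi : Function.Injective Q) :
    ∃ m : ℤ, Odd m ∧ POri Q m := by
  have hH : Continuous fun x : ℝ × ℝ => Q (sqb x.1) - Q (-(c01 x.2 : ℂ) * sqb x.1) := by
    refine (hQ.comp (continuous_sb.comp continuous_fst)).sub (hQ.comp ?_)
    exact ((continuous_ofReal.comp (continuous_c01.comp continuous_snd)).neg).mul
      (continuous_sb.comp continuous_fst)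
  have h0 : ∀ x : ℝ × ℝ, Q (sqb x.1) - Q (-(c01 x.2 : ℂ) * sqb x.1) ≠ 0 := by
    intro x hx
    have h1 := hi (sub_eq_zero.1 hx)
    have h2 : (1 + (c01 x.2 : ℂ)) * sqb x.1 = 0 := by linear_combination h1
    rcases mul_eq_zero.1 h2 with h3 | h3
    · have h4 := congrArg Complex.re h3
      rw [add_re, one_re, ofReal_re, zero_re] at h4
      linarith [(c01_mem x.2).1]
    · exact (sb_mem x.1).2 (h3 ▸ zero_mem_os)
  have hcl : ∀ s : ℝ, Q (sqb ((4 : ℝ), s).1) - Q (-(c01 ((4 : ℝ), s).2 : ℂ) * sqb ((4 : ℝ), s).1) =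
      Q (sqb ((0 : ℝ), s).1) - Q (-(c01 ((0 : ℝ), s).2 : ℂ) * sqb ((0 : ℝ), s).1) :=
    fun s => by rw [sb_zero_four]
  obtain ⟨m, hm, hm2⟩ := wn_of_antipodal (g := fun t => Q (sqb t) - Q (-sqb t))
    ((hQ.comp continuous_sb).sub (hQ.comp continuous_sb.neg))
    (fun t => by
      have := h0 (t, 1)
      simpa only [c01_one, ofReal_one, neg_mul, one_mul] using this)
    (fun t ht => by rw [sb_antipodal ht, neg_neg]; ring)
  refine ⟨m, hm2, fun u hu => (wn_move hQ hi hu).2 ?_⟩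
  have h1 := Wn.homotopy (s := 1) (s' := 0) hH h0 hcl (m := m) (by
    simpa only [c01_one, ofReal_one, neg_mul, one_mul] using hm)
  simpa only [c01_zero, ofReal_zero, neg_zero, zero_mul] using h1

end Full
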