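import Pool.Agent.Full.End.Iface
import Pool.Agent.Full.Asm.Rot

/-!
# FULL, end game: a coarse polygon close to the boundary curve

Distances from the polygon, membership in the region, in terms of the boundary curve `gam q (1/2) (1/2)` (labels).
-/

set_option autoImplicit false

open Set Filter Topology H47Perc Complex Metric

namespace Full

/-- similarities preserve tame maps -/
lemma IsTame.mul {q : ℂ → ℂ} (hq : IsTame q) {c : ℂ} (hc : c ≠ 0) : IsTame (fun z => c * q z) := by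
  refine ⟨continuous_const.mul hq.cont, fun z w h => hq.inj (mul_left_cancel₀ hc h), ?_⟩
  exact (Homeomorph.mulLeft₀ c hc).isOpenMap.comp hq.isOpenMap

namespace Bvp

/-- multiplication by a constant does not change the winding number -/
lemma wn_mul {g : ℝ → ℂ} {m : ℤ} (h : Wn g m) {c : ℂ} (hc : c ≠ 0) : Wn (fun t => c * g t) m := by
  obtain ⟨l, h1, h2, h3⟩ := h
  refine ⟨fun t => log c + l t, by fun_prop, fun t => ?_, ?_⟩
  · rw [exp_add, exp_log hc, h2]
  · simp only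
    rw [h3]; ring

/-- the closed domain in tile coordinates, parametrised by `[-1, 1]²` -/
noncomputable def QQ (q : ℂ → ℂ) (z : ℂ) : ℂ := (1 + I) * q (rect (1 / 2 + I / 2) (1 / 2) (1 / 2) z)

/-- the boundary curve -/
noncomputable def ga (q : ℂ → ℂ) : ℝ → ℂ := gam q (1 / 2) (1 / 2)

lemma ga_eq (q : ℂ → ℂ) (s : ℝ) : ga q s = QQ q (sqb s) := rfl

variable {q : ℂ → ℂ}

lemma tame_QQ (hq : IsTame q) : IsTame (QQ q) :=
  (hq.rect (1 / 2 + I / 2) (by norm_num : (0 : ℝ) < 1 / 2) (by norm_num : (0 : ℝ) < 1 / 2)).mul trot_ne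

lemma continuous_ga (hq : IsTame q) : Continuous (ga q) := (tame_QQ hq).cont.comp continuous_sb

lemma ctr_re : (1 / 2 + I / 2 : ℂ).re = 1 / 2 := by simp

lemma ctr_im : (1 / 2 + I / 2 : ℂ).im = 1 / 2 := by simp

lemma rect_os : rect (1 / 2 + I / 2) (1 / 2) (1 / 2) '' os = sqo := by
  ext w
  constructor
  · rintro ⟨z, ⟨h1, h2⟩, rfl⟩
    rw [abs_lt] at h1 h2
    simp only [rect, sqo, mem_setOf_eq, ctr_re, ctr_im]
    refine ⟨?_, ?_, ?_, ?_⟩ <;> linarith
  · rintro ⟨h1, h2, h3, h4⟩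
    refine ⟨⟨2 * w.re - 1, 2 * w.im - 1⟩, ⟨?_, ?_⟩, ?_⟩
    · rw [abs_lt]; constructor <;> simp only <;> linarith
    · rw [abs_lt]; constructor <;> simp only <;> linarith
    · apply Complex.ext
      · simp only [rect, ctr_re]; ring
      · simp only [rect, ctr_im]; ring

lemma rect_cs : rect (1 / 2 + I / 2) (1 / 2) (1 / 2) '' cs = sq := by
  ext w
  constructor
  · rintro ⟨z, ⟨h1, h2⟩, rfl⟩
    rw [abs_le] at h1 h2
    simp only [rect, sq, mem_setOf_eq, ctr_re, ctr_im]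
    refine ⟨?_, ?_, ?_, ?_⟩ <;> linarith
  · rintro ⟨h1, h2, h3, h4⟩
    refine ⟨⟨2 * w.re - 1, 2 * w.im - 1⟩, ⟨?_, ?_⟩, ?_⟩
    · rw [abs_le]; constructor <;> simp only <;> linarith
    · rw [abs_le]; constructor <;> simp only <;> linarith
    · apply Complex.ext
      · simp only [rect, ctr_re]; ring
      · simp only [rect, ctr_im]; ring

/-- the domain in tile coordinates -/
def Dt (q : ℂ → ℂ) : Set ℂ := trot '' (q '' sqo)

lemma image_os (q : ℂ → ℂ) : QQ q '' os = Dt q := by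
  rw [Dt, ← rect_os, ← image_comp, ← image_comp]
  rfl

lemma image_cs (q : ℂ → ℂ) : QQ q '' cs = trot '' (q '' sq) := by
  rw [← rect_cs, ← image_comp, ← image_comp]
  rfl

lemma isOpen_Dt (hq : IsTame q) : IsOpen (Dt q) := by
  have h : Dt q = (fun z => (1 + I) * q z) '' sqo := by
    rw [Dt, ← image_comp]; rfl
  rw [h]
  exact (hq.mul trot_ne).isOpenMap _ isOpen_sqo

/-- the boundary of the square `[-1, 1]²` is the curve `sqb` -/
lemma exists_sqb {z : ℂ} (h1 : z ∈ cs) (h2 : z ∉ os) : ∃ s ∈ Icc (0 : ℝ) 4, sqb s = z := by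
  obtain ⟨x, y⟩ := z
  have h1' : |x| ≤ 1 ∧ |y| ≤ 1 := h1
  have h2' : ¬ (|x| < 1 ∧ |y| < 1) := h2
  rw [abs_le, abs_le] at h1'
  obtain ⟨⟨a1, a2⟩, a3, a4⟩ := h1'
  have h3 : x = -1 ∨ x = 1 ∨ y = -1 ∨ y = 1 := by
    by_contra hcon
    push Not at hcon
    obtain ⟨b1, b2, b3, b4⟩ := hcon
    refine h2' ⟨abs_lt.2 ⟨lt_of_le_of_ne a1 (Ne.symm b1), lt_of_le_of_ne a2 b2⟩,
      abs_lt.2 ⟨lt_of_le_of_ne a3 (Ne.symm b3), lt_of_le_of_ne a4 b4⟩⟩
  rcases h3 with rfl | rfl | rfl | rfl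
  · by_cases hy : y ≤ 0
    · refine ⟨-y / 2, ⟨by linarith, by linarith⟩, ?_⟩
      rw [sb_left (by linarith), cl_of_mem (by linarith) (by linarith)]
      apply Complex.ext
      · rfl
      · simp only; ring
    · push Not at hy
      refine ⟨4 - y / 2, ⟨by linarith, by linarith⟩, ?_⟩
      rw [sb_left' (by linarith), cl_of_mem (by linarith) (by linarith)]
      apply Complex.ext
      · rfl
      · simp only; ring
  · refine ⟨2 + y / 2, ⟨by linarith, by linarith⟩, ?_⟩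
    rw [sb_right (by linarith) (by linarith)]
    apply Complex.ext
    · rfl
    · simp only; ring
  · refine ⟨1 + x / 2, ⟨by linarith, by linarith⟩, ?_⟩
    rw [sb_bot (by linarith) (by linarith)]
    apply Complex.ext
    · simp only; ring
    · rfl
  · refine ⟨3 - x / 2, ⟨by linarith, by linarith⟩, ?_⟩
    rw [sb_top (by linarith) (by linarith)]
    apply Complex.ext
    · simp only; ring
    · rfl

/-- a ball around a point of the domain which does not meet the boundary curve is in the domain -/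
lemma ball_subset (hq : IsTame q) {z : ℂ} (hz : z ∈ Dt q) {r : ℝ} (hr : 0 < r)
    (h : ∀ s ∈ Icc (0 : ℝ) 4, r ≤ ‖z - ga q s‖) : ball z r ⊆ Dt q := by
  have hop := isOpen_Dt hq
  have hcl : IsCompact (QQ q '' cs) := by
    rw [image_cs]
    exact (isCompact_sq.image hq.cont).image (by unfold trot; fun_prop)
  have hfr : ball z r ∩ frontier (Dt q) = ∅ := by
    rw [eq_empty_iff_forall_notMem]
    rintro w ⟨hw1, hw2⟩
    rw [hop.frontier_eq] at hw2
    have hw3 : w ∈ QQ q '' cs := by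
      refine closure_minimal ?_ hcl.isClosed hw2.1
      rw [← image_os]
      exact image_mono fun u hu => ⟨hu.1.le, hu.2.le⟩
    obtain ⟨u, hu, rfl⟩ := hw3
    have hu2 : u ∉ os := fun h => hw2.2 (by rw [← image_os]; exact mem_image_of_mem _ h)
    obtain ⟨s, hs, rfl⟩ := exists_sqb hu hu2
    have h1 := h s hs
    rw [mem_ball, dist_comm, dist_eq_norm] at hw1
    rw [ga_eq] at h1
    linarith
  have hconn : IsPreconnected (ball z r) := (convex_ball z r).isPreconnected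
  have hne : (ball z r ∩ Dt q).Nonempty := ⟨z, mem_ball_self hr, hz⟩
  by_contra hcon
  rw [not_subset] at hcon
  obtain ⟨w, hw, hw'⟩ := hcon
  have hcov : ∀ x ∈ ball z r, x ∈ Dt q ∨ x ∈ (closure (Dt q))ᶜ := by
    intro x hx
    by_cases h1 : x ∈ Dt q
    · exact Or.inl h1
    · refine Or.inr fun h2 => eq_empty_iff_forall_notMem.1 hfr x ⟨hx, ?_⟩
      rw [hop.frontier_eq]
      exact ⟨h2, h1⟩
  obtain ⟨x, -, hx1, hx2⟩ := hconn (Dt q) (closure (Dt q))ᶜ hop isClosed_closure.isOpen_compl hcov hne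
    ⟨w, hw, (hcov w hw).resolve_left hw'⟩
  exact hx2 (subset_closure hx1)

/-- the winding number of the boundary curve -/
lemma exists_wn_ga (hq : IsTame q) (hp : Pos q) : ∃ m : ℤ, 0 < m ∧ ∀ w ∈ Dt q, Wn (fun s => ga q s - w) m := by
  obtain ⟨m, hm, ho⟩ := hp
  have h1 : POri (q ∘ rect 0 1 1) m := by
    have : q ∘ rect 0 1 1 = q := by
      funext z
      have : rect 0 1 1 z = z := by
        apply Complex.ext <;> simp [rect]
      rw [Function.comp, this]
    rw [this]; exact ho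
  have h2 := h1.rect hq.cont hq.inj one_pos one_pos (by norm_num : (0 : ℝ) < 1 / 2) (by norm_num : (0 : ℝ) < 1 / 2)
    (o' := 1 / 2 + I / 2)
  refine ⟨m, hm, fun w hw => ?_⟩
  rw [← image_os] at hw
  obtain ⟨u, hu, rfl⟩ := hw
  have h3 := wn_mul (h2 u hu) trot_ne
  have h4 : (fun s => ga q s - QQ q u) = fun t => (1 + I) * ((q ∘ rect (1 / 2 + I / 2) (1 / 2) (1 / 2)) (sqb t) -
      (q ∘ rect (1 / 2 + I / 2) (1 / 2) (1 / 2)) u) := by
    funext s
    rw [ga_eq]
    simp only [QQ, Function.comp]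
    ring
  rw [h4]
  exact h3

/-! ### labels -/

/-- the labels of the four arcs -/
def lab : Fin 4 → Set ℝ := ![Icc (1 / 2) (3 / 2), Icc (3 / 2) (5 / 2), Icc (5 / 2) (7 / 2), Icc 0 (1 / 2) ∪ Icc (7 / 2) 4]

lemma lab_subset (j : Fin 4) : lab j ⊆ Icc 0 4 := by
  fin_cases j
  · exact Icc_subset_Icc (by norm_num) (by norm_num)
  · exact Icc_subset_Icc (by norm_num) (by norm_num)
  · exact Icc_subset_Icc (by norm_num) (by norm_num)
  · exact union_subset (Icc_subset_Icc (by norm_num) (by norm_num)) (Icc_subset_Icc (by norm_num) (by norm_num))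

lemma lab_compact (j : Fin 4) : IsCompact (lab j) := by
  fin_cases j
  · exact isCompact_Icc
  · exact isCompact_Icc
  · exact isCompact_Icc
  · exact isCompact_Icc.union isCompact_Icc

/-- a coarse polygon close to the boundary curve: everything up to `κ` -/
structure Cl (q : ℂ → ℂ) (κ a τ : ℝ) (B : Coarse) (t : ℕ → ℝ) : Prop where
  ap : CApprox (gam q (1 / 2) (1 / 2)) a τ B t
  tau : τ ≤ κ
  osc : ∀ s ∈ Icc (0 : ℝ) 4, ∀ s' ∈ Icc (0 : ℝ) 4, |s - s'| ≤ 2 * τ → ‖ga q s - ga q s'‖ ≤ κ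

lemma gp_eq (a : ℝ) (v : ℤ × ℤ) : gp a v = a * cp v := by
  apply Complex.ext <;> simp [gp, cp]

section
variable {κ a τ : ℝ} {B : Coarse} {t : ℕ → ℝ}

lemma mono_le (h : CApprox (gam q (1 / 2) (1 / 2)) a τ B t) {i j : ℕ} (hij : i ≤ j) (hj : j ≤ B.n) : t i ≤ t j := by
  induction j, hij using Nat.le_induction with
  | base => exact le_rfl
  | succ j _ ih => exact (ih (by omega)).trans (h.mono j (by omega))

/-- discrete intermediate values -/
lemma exists_lab (h : CApprox (gam q (1 / 2) (1 / 2)) a τ B t) {i₁ i₂ : ℕ} (h12 : i₁ ≤ i₂) (h2 : i₂ ≤ B.n) {s e : ℝ}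
    (he : τ ≤ e) (hs1 : t i₁ ≤ s + e) (hs2 : s - e ≤ t i₂) : ∃ i, i₁ ≤ i ∧ i ≤ i₂ ∧ |t i - s| ≤ e := by
  induction i₂, h12 using Nat.le_induction with
  | base => exact ⟨i₁, le_rfl, le_rfl, abs_le.2 ⟨by linarith, by linarith⟩⟩
  | succ j hj ih =>
    by_cases hc : s - e ≤ t j
    · obtain ⟨i, h3, h4, h5⟩ := ih (by omega) hc
      exact ⟨i, h3, by omega, h5⟩
    · push Not at hc
      have h6 := h.jump j (by omega)
      exact ⟨j + 1, by omega, le_rfl, abs_le.2 ⟨by linarith, by linarith⟩⟩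

lemma M_lt (B : Coarse) (j : Fin 4) : B.M j < B.n := by
  have h1 := B.m01
  have h2 := B.m12
  have h3 := B.m23
  have h4 := B.m3
  fin_cases j <;> simp only [Fin.zero_eta, Fin.mk_one, Fin.reduceFinMk] <;> omega

/-- points of the arcs have labels in `lab`, up to `τ` -/
lemma lab_of_on (h : CApprox (gam q (1 / 2) (1 / 2)) a τ B t) {j : Fin 4} {i : ℕ} (hi : B.On j i) :
    ∃ s ∈ lab j, |t i - s| ≤ τ := by
  have hτ : 0 ≤ τ := h.pos.le.trans h.le
  obtain ⟨hn, hi⟩ := hi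
  have hm := h.mem i hn.le
  have key : ∀ x y : ℝ, x ≤ y → x - τ ≤ t i → t i ≤ y + τ → ∃ s ∈ Icc x y, |t i - s| ≤ τ := by
    intro x y hxy h1 h2
    refine ⟨max x (min y (t i)), ⟨le_max_left _ _, max_le hxy (min_le_left _ _)⟩, ?_⟩
    rcases le_total x (t i) with h3 | h3
    · rcases le_total y (t i) with h4 | h4
      · rw [min_eq_left h4, max_eq_right hxy, abs_le]; constructor <;> linarith
      · rw [min_eq_right h4, max_eq_right h3, sub_self, abs_zero]; exact hτ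
    · rw [max_eq_left (min_le_of_right_le h3), abs_le]; constructor <;> linarith
  have m0 := abs_le.1 (h.mark 0)
  have m1 := abs_le.1 (h.mark 1)
  have m2 := abs_le.1 (h.mark 2)
  have m3 := abs_le.1 (h.mark 3)
  simp only [Fin.isValue, Fin.val_zero, Fin.val_one, Fin.val_two, Nat.cast_zero, Nat.cast_one, Nat.cast_ofNat] at m0 m1 m2 m3
  have e3 : ((3 : Fin 4) : ℕ) = 3 := rfl
  rw [e3] at m3
  push_cast at m3
  fin_cases j
  · obtain ⟨h1, h2⟩ : B.M 0 ≤ i ∧ i ≤ B.M 1 := by simpa using hi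
    have g1 := mono_le h h1 hn.le
    have g2 := mono_le h h2 (M_lt B 1).le
    exact key (1 / 2) (3 / 2) (by norm_num) (by linarith) (by linarith)
  · obtain ⟨h1, h2⟩ : B.M 1 ≤ i ∧ i ≤ B.M 2 := by simpa using hi
    have g1 := mono_le h h1 hn.le
    have g2 := mono_le h h2 (M_lt B 2).le
    exact key (3 / 2) (5 / 2) (by norm_num) (by linarith) (by linarith)
  · obtain ⟨h1, h2⟩ : B.M 2 ≤ i ∧ i ≤ B.M 3 := by simpa using hi
    have g1 := mono_le h h1 hn.le
    have g2 := mono_le h h2 (M_lt B 3).le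
    exact key (5 / 2) (7 / 2) (by norm_num) (by linarith) (by linarith)
  · have hi' : i ≤ B.M 0 ∨ B.M 3 ≤ i := by simpa using hi
    rcases hi' with h1 | h1
    · have g1 := mono_le h h1 (M_lt B 0).le
      obtain ⟨s, hs, hs'⟩ := key 0 (1 / 2) (by norm_num) (by linarith [hm.1]) (by linarith)
      exact ⟨s, Or.inl hs, hs'⟩
    · have g1 := mono_le h h1 hn.le
      obtain ⟨s, hs, hs'⟩ := key (7 / 2) 4 (by norm_num) (by linarith) (by linarith [hm.2])
      exact ⟨s, Or.inr hs, hs'⟩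

/-- every label of `lab j` is attained on the arc, up to `2 τ` -/
lemma on_of_lab (h : CApprox (gam q (1 / 2) (1 / 2)) a τ B t) {j : Fin 4} {s : ℝ} (hs : s ∈ lab j) :
    ∃ i, B.On j i ∧ |t i - s| ≤ 2 * τ := by
  have hτ : 0 ≤ τ := h.pos.le.trans h.le
  have m0 := abs_le.1 (h.mark 0)
  have m1 := abs_le.1 (h.mark 1)
  have m2 := abs_le.1 (h.mark 2)
  have m3 := abs_le.1 (h.mark 3)
  simp only [Fin.isValue, Fin.val_zero, Fin.val_one, Fin.val_two, Nat.cast_zero, Nat.cast_one, Nat.cast_ofNat] at m0 m1 m2 m3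
  have e3 : ((3 : Fin 4) : ℕ) = 3 := rfl
  rw [e3] at m3
  push_cast at m3
  have l0 := M_lt B 0
  have l1 := M_lt B 1
  have l2 := M_lt B 2
  have l3 := M_lt B 3
  have o1 := B.m01
  have o2 := B.m12
  have o3 := B.m23
  fin_cases j
  · obtain ⟨h1, h2⟩ : s ∈ Icc (1 / 2 : ℝ) (3 / 2) := hs
    obtain ⟨i, g1, g2, g3⟩ := exists_lab h o1.le l1.le (s := s) (e := 2 * τ) (by linarith) (by linarith) (by linarith)
    exact ⟨i, ⟨by omega, by simpa using ⟨g1, g2⟩⟩, g3⟩
  · obtain ⟨h1, h2⟩ : s ∈ Icc (3 / 2 : ℝ) (5 / 2) := hs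
    obtain ⟨i, g1, g2, g3⟩ := exists_lab h o2.le l2.le (s := s) (e := 2 * τ) (by linarith) (by linarith) (by linarith)
    exact ⟨i, ⟨by omega, by simpa using ⟨g1, g2⟩⟩, g3⟩
  · obtain ⟨h1, h2⟩ : s ∈ Icc (5 / 2 : ℝ) (7 / 2) := hs
    obtain ⟨i, g1, g2, g3⟩ := exists_lab h o3.le l3.le (s := s) (e := 2 * τ) (by linarith) (by linarith) (by linarith)
    exact ⟨i, ⟨by omega, by simpa using ⟨g1, g2⟩⟩, g3⟩
  · have hs' : s ∈ Icc (0 : ℝ) (1 / 2) ∪ Icc (7 / 2 : ℝ) 4 := hs
    rcases hs' with ⟨h1, h2⟩ | ⟨h1, h2⟩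
    · have hst := h.start
      obtain ⟨i, g1, g2, g3⟩ := exists_lab h (Nat.zero_le (B.M 0)) l0.le (s := s) (e := 2 * τ) (by linarith) (by linarith)
        (by linarith)
      exact ⟨i, ⟨by omega, by simpa using Or.inl g2⟩, g3⟩
    · have hfin := h.fin
      have hj := h.jump (B.n - 1) (by omega)
      rw [Nat.sub_add_cancel (by omega)] at hj
      obtain ⟨i, g1, g2, g3⟩ := exists_lab h (show B.M 3 ≤ B.n - 1 by omega) (by omega) (s := s) (e := 2 * τ) (by linarith)
        (by linarith) (by linarith)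
      exact ⟨i, ⟨by omega, by simpa using Or.inr g1⟩, g3⟩

lemma norm_div_sub (ha : 0 < a) (z : ℂ) (v : ℤ × ℤ) : ‖z / a - cp v‖ = ‖z - gp a v‖ / a := by
  have h0 : (a : ℂ) ≠ 0 := by exact_mod_cast ha.ne'
  have : z / a - cp v = (z - gp a v) / a := by
    rw [gp_eq]; field_simp
  rw [this, norm_div, Complex.norm_real, Real.norm_of_nonneg ha.le]

/-- far from the labels of an arc: far from the arc -/
lemma Cl.far (h : Cl q κ a τ B t) {j : Fin 4} {z : ℂ} {R : ℝ} (hz : ∀ s ∈ lab j, R ≤ ‖z - ga q s‖) :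
    B.Far (B.On j) (z / a) ((R - 2 * κ) / a) := by
  intro i hi hon
  obtain ⟨s, hs, hs'⟩ := lab_of_on h.ap hon
  have hτ : 0 ≤ τ := h.ap.pos.le.trans h.ap.le
  have h1 := h.osc s (lab_subset j hs) (t i) (h.ap.mem i hi.le) (by rw [abs_sub_comm]; linarith)
  have h2 := h.ap.close i hi.le
  have h3 := hz s hs
  rw [norm_div_sub h.ap.pos]
  refine div_le_div_of_nonneg_right ?_ h.ap.pos.le
  have h4 : ‖z - ga q s‖ ≤ ‖z - gp a (B.v i)‖ + ‖gp a (B.v i) - ga q (t i)‖ + ‖ga q s - ga q (t i)‖ := by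
    have e : z - ga q s = (z - gp a (B.v i)) + (gp a (B.v i) - ga q (t i)) - (ga q s - ga q (t i)) := by ring
    rw [e]
    exact (norm_sub_le _ _).trans (by gcongr; exact norm_add_le _ _)
  have h5 : ‖gp a (B.v i) - ga q (t i)‖ ≤ κ := h2.trans h.tau
  linarith

/-- far from the boundary curve: far from the polygon -/
lemma Cl.far_all (h : Cl q κ a τ B t) {z : ℂ} {R : ℝ} (hz : ∀ s ∈ Icc (0 : ℝ) 4, R ≤ ‖z - ga q s‖) :
    B.Far (fun _ => True) (z / a) ((R - κ) / a) := by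
  intro i hi _
  have h2 := h.ap.close i hi.le
  have h3 := hz _ (h.ap.mem i hi.le)
  rw [norm_div_sub h.ap.pos]
  refine div_le_div_of_nonneg_right ?_ h.ap.pos.le
  have h4 : ‖z - ga q (t i)‖ ≤ ‖z - gp a (B.v i)‖ + ‖gp a (B.v i) - ga q (t i)‖ := by
    have e : z - ga q (t i) = (z - gp a (B.v i)) + (gp a (B.v i) - ga q (t i)) := by ring
    rw [e]
    exact norm_add_le _ _
  have h5 : ‖gp a (B.v i) - ga q (t i)‖ ≤ κ := h2.trans h.tau
  linarith

/-- the arc is close to all points of the boundary curve with labels in `lab j` -/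
lemma Cl.near (h : Cl q κ a τ B t) {j : Fin 4} {s : ℝ} (hs : s ∈ lab j) {z : ℂ} {d : ℝ} (hz : ‖z - ga q s‖ ≤ d) :
    ∃ i, B.On j i ∧ ‖z / a - cp (B.v i)‖ ≤ (d + 2 * κ) / a := by
  obtain ⟨i, hi, hi'⟩ := on_of_lab h.ap hs
  have h1 := h.osc s (lab_subset j hs) (t i) (h.ap.mem i hi.1.le) (by rw [abs_sub_comm]; exact hi')
  have h2 := h.ap.close i hi.1.le
  refine ⟨i, hi, ?_⟩
  rw [norm_div_sub h.ap.pos]
  refine div_le_div_of_nonneg_right ?_ h.ap.pos.le
  have h4 : ‖z - gp a (B.v i)‖ ≤ ‖z - ga q s‖ + ‖ga q s - ga q (t i)‖ + ‖gp a (B.v i) - ga q (t i)‖ := by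
    have e : z - gp a (B.v i) = (z - ga q s) + (ga q s - ga q (t i)) - (gp a (B.v i) - ga q (t i)) := by ring
    rw [e]
    exact (norm_sub_le _ _).trans (by gcongr; exact norm_add_le _ _)
  have h5 : ‖gp a (B.v i) - ga q (t i)‖ ≤ κ := h2.trans h.tau
  linarith

lemma norm_sub_tctr (ha : 0 < a) (z : ℂ) : ‖z - tctr a (cell (z / a))‖ ≤ a := by
  have e1 : (z / a).re = z.re / a := by simp
  have e2 : (z / a).im = z.im / a := by simp
  have h1 : |z.re - a * (⌊z.re / a⌋ + 1 / 2)| ≤ a / 2 := by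
    have f1 := Int.floor_le (z.re / a)
    have f2 := (Int.lt_floor_add_one (z.re / a)).le
    have g1 : a * ⌊z.re / a⌋ ≤ z.re := by
      have := mul_le_mul_of_nonneg_left f1 ha.le
      rwa [mul_div_cancel₀ _ ha.ne'] at this
    have g2 : z.re ≤ a * (⌊z.re / a⌋ + 1) := by
      have := mul_le_mul_of_nonneg_left f2 ha.le
      rwa [mul_div_cancel₀ _ ha.ne'] at this
    rw [abs_le]
    constructor <;> nlinarith
  have h2 : |z.im - a * (⌊z.im / a⌋ + 1 / 2)| ≤ a / 2 := by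
    have f1 := Int.floor_le (z.im / a)
    have f2 := (Int.lt_floor_add_one (z.im / a)).le
    have g1 : a * ⌊z.im / a⌋ ≤ z.im := by
      have := mul_le_mul_of_nonneg_left f1 ha.le
      rwa [mul_div_cancel₀ _ ha.ne'] at this
    have g2 : z.im ≤ a * (⌊z.im / a⌋ + 1) := by
      have := mul_le_mul_of_nonneg_left f2 ha.le
      rwa [mul_div_cancel₀ _ ha.ne'] at this
    rw [abs_le]
    constructor <;> nlinarith
  refine (norm_le_abs_add _).trans ?_
  have e3 : (z - tctr a (cell (z / a))).re = z.re - a * (⌊z.re / a⌋ + 1 / 2) := by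
    simp [tctr, cell]
  have e4 : (z - tctr a (cell (z / a))).im = z.im - a * (⌊z.im / a⌋ + 1 / 2) := by
    simp [tctr, cell]
  rw [e3, e4]
  linarith

/-- points of the domain far from the boundary curve are deep in the region of the polygon -/
lemma Cl.deep (hq : IsTame q) (hp : Pos q) (h : Cl q κ a τ B t) {z : ℂ} (hz : z ∈ Dt q) {R : ℝ}
    (hR : 3 * κ ≤ R) (hz2 : ∀ s ∈ Icc (0 : ℝ) 4, R ≤ ‖z - ga q s‖) : B.Deep (z / a) ((R - κ) / a) := by
  refine ⟨?_, h.far_all hz2⟩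
  have ha := h.ap.pos
  have haκ : a ≤ κ := h.ap.le.trans h.tau
  obtain ⟨m, hm, hw⟩ := exists_wn_ga hq hp
  have h1 := norm_sub_tctr ha z
  have h2 : tctr a (cell (z / a)) ∈ Dt q := by
    refine ball_subset hq hz (r := R) (by linarith) hz2 ?_
    rw [mem_ball, dist_comm, dist_eq_norm]
    linarith
  have h3 : sc B.n B.v (cell (z / a)) = m := by
    refine h.ap.wn _ (fun s hs => ?_) m (hw _ h2)
    have h4 := hz2 s hs
    have h5 : ‖z - ga q s‖ ≤ ‖z - tctr a (cell (z / a))‖ + ‖ga q s - tctr a (cell (z / a))‖ := by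
      have e : z - ga q s = (z - tctr a (cell (z / a))) - (ga q s - tctr a (cell (z / a))) := by ring
      rw [e]
      exact norm_sub_le _ _
    have h6 := h.tau
    show τ ≤ ‖ga q s - tctr a (cell (z / a))‖
    linarith
  show sc B.n B.v (cell (z / a)) = 1
  rcases B.ccw (cell (z / a)) with h7 | h7
  · rw [h7] at h3; omega
  · exact h7

end

/-- the approximations are good for large indices -/
lemma eventually_cl (hq : IsTame q) {a τ : ℕ → ℝ} {B : ℕ → Coarse} {t : ℕ → ℕ → ℝ} (hτ : Tendsto τ atTop (𝓝 0))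
    (h : ∀ m, CApprox (gam q (1 / 2) (1 / 2)) (a m) (τ m) (B m) (t m)) {κ : ℝ} (hκ : 0 < κ) :
    ∀ᶠ m in atTop, Cl q κ (a m) (τ m) (B m) (t m) := by
  have huc : UniformContinuousOn (ga q) (Icc (0 : ℝ) 4) :=
    isCompact_Icc.uniformContinuousOn_of_continuous (continuous_ga hq).continuousOn
  rw [Metric.uniformContinuousOn_iff] at huc
  obtain ⟨δ, hδ, h1⟩ := huc κ hκ
  have h2 : ∀ᶠ m in atTop, τ m < min κ (δ / 2) := hτ.eventually (gt_mem_nhds (by positivity))
  filter_upwards [h2] with m hm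
  have h3 : τ m < κ := hm.trans_le (min_le_left _ _)
  have h4 : τ m < δ / 2 := hm.trans_le (min_le_right _ _)
  refine ⟨h m, h3.le, fun s hs s' hs' hss => ?_⟩
  have := h1 s hs s' hs' (by rw [Real.dist_eq]; linarith)
  rw [dist_eq_norm] at this
  exact this.le

end Bvp

end Full
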