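import Pool.Agent.Full.End.Bvp

/-!
# FULL, end game: the observables of the lattice part solve the asymptotic boundary value problem
-/

set_option autoImplicit false

open Set Filter Topology H47Perc Complex Metric

namespace Full

namespace Bvp

/-- the data: coarse polygons along the boundary curve of `q`, observables on them -/
structure Dat (q : ℂ → ℂ) (C c : ℝ) (a τ : ℕ → ℝ) (B : ℕ → Coarse) (t : ℕ → ℕ → ℝ) (U : ℕ → ℕ)
    (Fm : ℕ → ℕ → ℂ → ℂ) (pm : ℕ → ℕ → ℝ) : Prop where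
  tame : IsTame q
  pos : Pos q
  lim : Tendsto τ atTop (𝓝 0)
  ap : ∀ m, CApprox (gam q (1 / 2) (1 / 2)) (a m) (τ m) (B m) (t m)
  C0 : 0 < C
  c0 : 0 < c
  U0 : ∀ m, 0 < U m
  bounds : ∀ m, ∀ ε > 0, ∀ᶠ n in atTop, (B m).Bounds C c ε (Fm m n) (pm m n)
  cont : ∀ m, ∀ x₁ x₂ y₁ y₂ : ℝ, x₁ < x₂ → y₁ < y₂ → (∀ z ∈ Icc x₁ x₂ ×ℂ Icc y₁ y₂, (B m).Deep z 10) →
    ∀ᶠ n : ℕ in atTop, ‖dcont (1 / ((n * U m : ℕ) : ℝ)) (Fm m n) x₁ x₂ y₁ y₂‖ ≤ a m
  acc : ∀ (j : Fin 4) (ρ : ℝ), 0 < ρ → ∃ d > 0, ∀ z ∈ Dt q, dist z (ga q ((j : ℕ) + 1 / 2)) < d →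
    ∀ᶠ m in atTop, (B m).Acc j (z / a m) (ρ / a m)

/-- the refinement for the mesh `ε` -/
noncomputable def Nn (a : ℕ → ℝ) (U : ℕ → ℕ) (i : ℕ × ℝ) : ℕ := ⌊a i.1 / (U i.1 * i.2)⌋₊

/-- the observable in tile coordinates -/
noncomputable def FF (a : ℕ → ℝ) (U : ℕ → ℕ) (Fm : ℕ → ℕ → ℂ → ℂ) (i : ℕ × ℝ) (z : ℂ) : ℂ :=
  Fm i.1 (Nn a U i) (z / a i.1)

/-- the crossing probability -/
noncomputable def PP (a : ℕ → ℝ) (U : ℕ → ℕ) (pm : ℕ → ℕ → ℝ) (i : ℕ × ℝ) : ℝ := pm i.1 (Nn a U i)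

/-- the number of fine cells along a coarse edge -/
noncomputable def KK (a : ℕ → ℝ) (U : ℕ → ℕ) (i : ℕ × ℝ) : ℕ := Nn a U i * U i.1

section scaling
variable {a : ℕ → ℝ} {U : ℕ → ℕ}

lemma tendsto_Nn {m : ℕ} (ha : 0 < a m) (hU : 0 < U m) : Tendsto (fun ε => Nn a U (m, ε)) mesh atTop := by
  have hU' : (0 : ℝ) < U m := by exact_mod_cast hU
  have h1 : Tendsto (fun ε : ℝ => (a m / U m) * ε⁻¹) mesh atTop :=
    tendsto_inv_nhdsGT_zero.const_mul_atTop (by positivity)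
  have h2 : (fun ε : ℝ => (a m / U m) * ε⁻¹) = fun ε => a m / (U m * ε) := by
    funext ε
    rw [div_mul_eq_div_div, div_eq_mul_inv (a m / U m) ε]
  rw [h2] at h1
  exact tendsto_nat_floor_atTop.comp h1

lemma tendsto_KK {m : ℕ} (ha : 0 < a m) (hU : 0 < U m) :
    Tendsto (fun ε => (KK a U (m, ε) : ℝ) * ε) mesh (𝓝 (a m)) := by
  have hU' : (0 : ℝ) < U m := by exact_mod_cast hU
  have hid : Tendsto (fun ε : ℝ => a m - U m * ε) mesh (𝓝 (a m)) := by
    have h1 : Tendsto (fun ε : ℝ => a m - U m * ε) (𝓝 0) (𝓝 (a m - U m * 0)) := by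
      apply Continuous.tendsto; fun_prop
    rw [mul_zero, sub_zero] at h1
    exact h1.mono_left nhdsWithin_le_nhds
  refine tendsto_of_tendsto_of_tendsto_of_le_of_le' hid tendsto_const_nhds ?_ ?_
  · filter_upwards [self_mem_nhdsWithin] with ε hε
    have hε' : 0 < ε := hε
    have h1 := (Nat.lt_floor_add_one (a m / (U m * ε))).le
    rw [div_le_iff₀ (by positivity)] at h1
    simp only [KK, Nn]
    push_cast
    nlinarith
  · filter_upwards [self_mem_nhdsWithin] with ε hε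
    have hε' : 0 < ε := hε
    have h1 := Nat.floor_le (show 0 ≤ a m / (U m * ε) by positivity)
    rw [le_div_iff₀ (by positivity)] at h1
    simp only [KK, Nn]
    push_cast
    nlinarith

end scaling

variable {q : ℂ → ℂ} {C c : ℝ} {a τ : ℕ → ℝ} {B : ℕ → Coarse} {t : ℕ → ℕ → ℝ} {U : ℕ → ℕ}
  {Fm : ℕ → ℕ → ℂ → ℂ} {pm : ℕ → ℕ → ℝ}

lemma Dat.a0 (h : Dat q C c a τ B t U Fm pm) (m : ℕ) : 0 < a m := (h.ap m).pos

lemma Dat.cl (h : Dat q C c a τ B t U Fm pm) {κ : ℝ} (hκ : 0 < κ) :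
    ∀ᶠ m in atTop, Cl q κ (a m) (τ m) (B m) (t m) := eventually_cl h.tame h.lim h.ap hκ

/-- the bounds at the mesh `ε` -/
lemma Dat.bd (h : Dat q C c a τ B t U Fm pm) (m : ℕ) {e : ℝ} (he : 0 < e) :
    ∀ᶠ ε in mesh, (B m).Bounds C c e (Fm m (Nn a U (m, ε))) (pm m (Nn a U (m, ε))) :=
  (tendsto_Nn (h.a0 m) (h.U0 m)).eventually (h.bounds m e he)

/-- choice of a small number -/
lemma exists_small (hC : 0 < C) (hc : 0 < c) {x η : ℝ} (hx : 0 < x) (hη : 0 < η) :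
    ∃ d > 0, C * (d * x) ^ c ≤ η := by
  refine ⟨(η / C) ^ (1 / c) / x, by positivity, ?_⟩
  have e : (η / C) ^ (1 / c) / x * x = (η / C) ^ (1 / c) := by field_simp
  rw [e, ← Real.rpow_mul (by positivity), one_div, inv_mul_cancel₀ hc.ne', Real.rpow_one]
  exact (mul_div_cancel₀ _ hC.ne').le

lemma mono_rpow (hC : 0 < C) (hc : 0 < c) {x y : ℝ} (hx : 0 ≤ x) (hxy : x ≤ y) : C * x ^ c ≤ C * y ^ c := by
  gcongr

/-- **bounded** -/
lemma Dat.bound (h : Dat q C c a τ B t U Fm pm) {K : Set ℂ} (hK : IsCompact K) (hKD : K ⊆ Dt q) :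
    ∀ᶠ i in iter atTop (fun _ => mesh), ∀ z ∈ K, ‖FF a U Fm i z‖ ≤ C := by
  obtain ⟨R, hR, hR2⟩ := exists_R_dom h.tame hK hKD
  rw [eventually_iter]
  filter_upwards [h.cl (κ := R / 20) (by positivity)] with m hm
  filter_upwards [h.bd m one_pos] with ε hε z hz
  obtain ⟨h1, h2⟩ := deep_of h.tame h.pos hm (hKD hz) le_rfl (hR2 z hz)
  exact hε.bound _ (deep_mono h1 h2)

/-- **asymptotically equicontinuous** -/
lemma Dat.aec (h : Dat q C c a τ B t U Fm pm) {K : Set ℂ} (hK : IsCompact K) (hKD : K ⊆ Dt q) :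
    AEC (iter atTop fun _ => mesh) K (FF a U Fm) := by
  obtain ⟨R, hR, hR2⟩ := exists_R_dom h.tame hK hKD
  intro η hη
  obtain ⟨d, hd, hd2⟩ := exists_small h.C0 h.c0 (x := 2 / R) (η := η / 3) (by positivity) (by positivity)
  refine ⟨min d (R / 4), by positivity, ?_⟩
  rw [eventually_iter]
  filter_upwards [h.cl (κ := R / 20) (by positivity)] with m hm
  filter_upwards [h.bd m (e := η / 3) (by positivity)] with ε hε z hz w hw hzw
  have ha := h.a0 m
  obtain ⟨h1, h2⟩ := deep_of h.tame h.pos hm (hKD hz) le_rfl (hR2 z hz)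
  have h3 : ‖z / a m - w / a m‖ = ‖z - w‖ / a m := by
    rw [← sub_div, norm_div, Complex.norm_real, Real.norm_of_nonneg ha.le]
  have h4 : dist z w < d := hzw.trans_le (min_le_left _ _)
  have h5 : dist z w < R / 4 := hzw.trans_le (min_le_right _ _)
  rw [dist_eq_norm] at h4 h5
  have h6 := hε.cont (z / a m) (w / a m) (R / 2 / a m) h2 h1 (by
    rw [h3, div_div, div_div, ← div_div, ← div_div]
    rw [show R / 2 / a m / 2 = R / 4 / a m by ring]
    exact div_le_div_of_nonneg_right h5.le ha.le)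
  have h7 : ‖z / a m - w / a m‖ / (R / 2 / a m) = ‖z - w‖ * (2 / R) := by
    rw [h3]; field_simp
  rw [h7] at h6
  have h8 : C * (‖z - w‖ * (2 / R)) ^ c ≤ C * (d * (2 / R)) ^ c :=
    mono_rpow h.C0 h.c0 (by positivity) (by gcongr)
  rw [dist_eq_norm]
  show ‖Fm m (Nn a U (m, ε)) (z / a m) - Fm m (Nn a U (m, ε)) (w / a m)‖ < η
  linarith

/-- **limits are holomorphic** -/
lemma Dat.hol (h : Dat q C c a τ B t U Fm pm) (V : Ultrafilter (ℕ × ℝ))
    (hV : (V : Filter (ℕ × ℝ)) ≤ iter atTop fun _ => mesh) {G : ℂ → ℂ}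
    (hG : ∀ z ∈ Dt q, Tendsto (fun i => FF a U Fm i z) V (𝓝 (G z))) : DifferentiableOn ℂ G (Dt q) := by
  have hN : ∀ m, ∀ᶠ ε in mesh, 0 < Nn a U (m, ε) := fun m =>
    (tendsto_Nn (h.a0 m) (h.U0 m)).eventually (eventually_gt_atTop 0)
  refine holo_of_dcont (l := (V : Filter (ℕ × ℝ))) (isOpen_Dt h.tame) (F := FF a U Fm)
    (δ := fun i => a i.1 * (1 / (KK a U i : ℝ))) ?_ ?_ (fun K hK hKc => (h.aec hKc hK).mono hV le_rfl) hG ?_
  · refine hV ?_
    rw [mem_iter]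
    filter_upwards with m
    filter_upwards [hN m] with ε hε
    have h1 : 0 < KK a U (m, ε) := Nat.mul_pos hε (h.U0 m)
    have h2 : (0 : ℝ) < KK a U (m, ε) := by exact_mod_cast h1
    have := h.a0 m
    show 0 < a m * (1 / (KK a U (m, ε) : ℝ))
    positivity
  · refine (tendsto_iter (l0 := atTop) (l1 := fun _ => mesh) ?_).mono_left hV
    filter_upwards with m
    have h1 : Tendsto (fun ε => KK a U (m, ε)) mesh atTop :=
      tendsto_atTop_mono (fun ε => Nat.le_mul_of_pos_right _ (h.U0 m)) (tendsto_Nn (h.a0 m) (h.U0 m))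
    have h2 : Tendsto (fun ε => (1 : ℝ) / (KK a U (m, ε) : ℝ)) mesh (𝓝 0) :=
      tendsto_one_div_atTop_nhds_zero_nat.comp h1
    have h3 := h2.const_mul (a m)
    rw [mul_zero] at h3
    exact h3
  · intro A A' D D' hA hD hR η hη
    have hK : IsCompact (Icc A A' ×ℂ Icc D D') := isCompact_Icc.reProdIm isCompact_Icc
    obtain ⟨R, hR0, hR2⟩ := exists_R_dom h.tame hK hR
    have ha0 : Tendsto a atTop (𝓝 0) :=
      tendsto_of_tendsto_of_tendsto_of_le_of_le tendsto_const_nhds h.lim (fun m => (h.a0 m).le) (fun m => (h.ap m).le)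
    have key : ∀ᶠ i in iter atTop (fun _ => mesh), ‖dcont (a i.1 * (1 / (KK a U i : ℝ))) (FF a U Fm i) A A' D D'‖ ≤ η := by
      rw [eventually_iter]
      have h1 : ∀ᶠ m in atTop, a m < min 1 η := ha0.eventually (gt_mem_nhds (by positivity))
      filter_upwards [h.cl (κ := R / 20) (by positivity), h1] with m hm hm1
      have ha := h.a0 m
      have e : ∀ x y : ℝ, x ≤ y → x / a m ≤ y / a m := fun x y hxy => div_le_div_of_nonneg_right hxy ha.le
      have e' : ∀ x y : ℝ, x < y → x / a m < y / a m := fun x y hxy => div_lt_div_of_pos_right hxy ha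
      have h2 := h.cont m (A / a m) (A' / a m) (D / a m) (D' / a m) (e' _ _ hA) (e' _ _ hD) (fun z hz => by
        rw [mem_reProdIm] at hz
        have hzz : a m * z ∈ Icc A A' ×ℂ Icc D D' := by
          rw [mem_reProdIm]
          have r1 : ((a m : ℂ) * z).re = a m * z.re := by simp
          have r2 : ((a m : ℂ) * z).im = a m * z.im := by simp
          rw [r1, r2]
          obtain ⟨⟨g1, g2⟩, g3, g4⟩ := hz
          rw [div_le_iff₀ ha] at g1 g3
          rw [le_div_iff₀ ha] at g2 g4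
          exact ⟨⟨by linarith, by linarith⟩, by linarith, by linarith⟩
        obtain ⟨h3, h4⟩ := deep_of h.tame h.pos hm (hR hzz) le_rfl (hR2 _ hzz)
        have h0 : (a m : ℂ) ≠ 0 := by exact_mod_cast ha.ne'
        rw [mul_div_cancel_left₀ _ h0] at h3
        exact deep_mono h3 h4)
      filter_upwards [(tendsto_Nn (h.a0 m) (h.U0 m)).eventually h2] with ε hε
      have h5 : dcont (a m * (1 / (KK a U (m, ε) : ℝ))) (FF a U Fm (m, ε)) A A' D D' =
          a m * dcont (1 / ((Nn a U (m, ε) * U m : ℕ) : ℝ)) (Fm m (Nn a U (m, ε))) (A / a m) (A' / a m) (D / a m) (D' / a m) :=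
        dcont_scale ha _ _ _ _ _
      show ‖dcont (a m * (1 / (KK a U (m, ε) : ℝ))) (FF a U Fm (m, ε)) A A' D D'‖ ≤ η
      rw [h5, norm_mul, Complex.norm_real, Real.norm_of_nonneg ha.le]
      have h6 : a m < 1 := hm1.trans_le (min_le_left _ _)
      have h7 : a m < η := hm1.trans_le (min_le_right _ _)
      nlinarith [norm_nonneg (dcont (1 / ((Nn a U (m, ε) * U m : ℕ) : ℝ)) (Fm m (Nn a U (m, ε))) (A / a m) (A' / a m)
        (D / a m) (D' / a m))]
    exact (show ∀ᶠ i in (V : Filter (ℕ × ℝ)), _ from hV key).frequently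

/-- **the marks** -/
lemma Dat.near_mark (h : Dat q C c a τ B t U Fm pm) (j : Fin 3) {η : ℝ} (hη : 0 < η) :
    ∃ δ > 0, ∀ z ∈ Dt q, dist z (ga q ((j : ℕ) + 1 / 2)) < δ →
      ∀ᶠ i in iter atTop (fun _ => mesh), ‖FF a U Fm i z - vert j‖ ≤ η := by
  -- the opposite side
  have hopp : ∀ z ∈ ({ga q ((j : ℕ) + 1 / 2)} : Set ℂ), ∀ s ∈ sl j, z ≠ ga q s := by
    intro z hz s hs hzs
    rw [mem_singleton_iff] at hz
    rw [hz] at hzs
    have hj : ((j : ℕ) : ℝ) ≤ 2 := by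
      have : (j : ℕ) ≤ 2 := by omega
      exact_mod_cast this
    have hj0 : (0 : ℝ) ≤ ((j : ℕ) : ℝ) := Nat.cast_nonneg _
    have h1 := ga_inj h.tame (s := (j : ℕ) + 1 / 2) ⟨by linarith, by linarith⟩ (sl_subset j hs) hzs
    fin_cases j
    · have hs' : s ∈ Icc (3 / 2 : ℝ) (5 / 2) := hs
      obtain ⟨g1, g2⟩ := hs'
      simp only [Fin.zero_eta, Fin.val_zero, Nat.cast_zero] at h1
      rcases h1 with h1 | ⟨h1, h2⟩ | ⟨h1, h2⟩ <;> linarith
    · have hs' : s ∈ Icc (5 / 2 : ℝ) (7 / 2) ∪ (Icc 0 (1 / 2) ∪ Icc (7 / 2) 4) := hs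
      simp only [Fin.mk_one, Fin.val_one, Nat.cast_one] at h1
      rcases hs' with ⟨g1, g2⟩ | ⟨g1, g2⟩ | ⟨g1, g2⟩ <;>
      rcases h1 with h1 | ⟨h1, h2⟩ | ⟨h1, h2⟩ <;> linarith
    · have hs' : s ∈ Icc (1 / 2 : ℝ) (3 / 2) := hs
      obtain ⟨g1, g2⟩ := hs'
      simp only [Fin.reduceFinMk, Fin.val_two, Nat.cast_ofNat] at h1
      rcases h1 with h1 | ⟨h1, h2⟩ | ⟨h1, h2⟩ <;> linarith
  obtain ⟨R₀, hR₀, hR⟩ := exists_R h.tame isCompact_singleton (sl_compact j) hopp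
  obtain ⟨x, hx, hx2⟩ := exists_small h.C0 h.c0 (x := 2 / R₀) (η := η / 2) (by positivity) (by positivity)
  set ρ := min x (R₀ / 4) with hρ
  have hρ0 : 0 < ρ := by positivity
  have hρ1 : ρ ≤ x := min_le_left _ _
  have hρ2 : ρ ≤ R₀ / 4 := min_le_right _ _
  obtain ⟨d, hd, hacc⟩ := h.acc j.castSucc ρ hρ0
  refine ⟨min d ρ, by positivity, fun z hz hzd => ?_⟩
  have hz1 : dist z (ga q ((j : ℕ) + 1 / 2)) < d := hzd.trans_le (min_le_left _ _)
  have hz2 : dist z (ga q ((j : ℕ) + 1 / 2)) < ρ := hzd.trans_le (min_le_right _ _)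
  obtain ⟨R, hR0, hR2⟩ := exists_R_dom h.tame (isCompact_singleton (x := z)) (singleton_subset_iff.2 hz)
  set κ := min (R / 20) (ρ / 10) with hκ
  have hκ0 : 0 < κ := by positivity
  have hκ1 : κ ≤ R / 20 := min_le_left _ _
  have hκ2 : κ ≤ ρ / 10 := min_le_right _ _
  rw [eventually_iter]
  filter_upwards [h.cl hκ0, hacc z hz hz1] with m hm hma
  filter_upwards [h.bd m (e := η / 2) (by positivity)] with ε hε
  have ha := h.a0 m
  have haκ : a m ≤ κ := (h.ap m).le.trans hm.tau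
  obtain ⟨h1, h2⟩ := deep_of h.tame h.pos hm hz hκ1 (hR2 z rfl)
  have hfar : (B m).Far ((B m).Side j) (z / a m) ((R₀ - ρ - 2 * κ) / a m) := hm.far_side fun s hs => by
    have g1 := hR _ rfl s hs
    rw [dist_eq_norm] at hz2
    have g2 : ‖ga q ((j : ℕ) + 1 / 2) - ga q s‖ ≤ ‖z - ga q ((j : ℕ) + 1 / 2)‖ + ‖z - ga q s‖ := by
      have e : ga q ((j : ℕ) + 1 / 2) - ga q s = (z - ga q s) - (z - ga q ((j : ℕ) + 1 / 2)) := by ring
      rw [e]
      linarith [norm_sub_le (z - ga q s) (z - ga q ((j : ℕ) + 1 / 2))]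
    linarith
  have h10 : 10 ≤ ρ / a m := by
    rw [le_div_iff₀ ha]; linarith
  have hdR : ρ / a m ≤ R₀ / 2 / a m := div_le_div_of_nonneg_right (by linarith) ha.le
  have h5 := hε.mark j (z / a m) (ρ / a m) (R₀ / 2 / a m) h10 hdR (deep_mono h1 h2) hma
    (far_mono hfar (div_le_div_of_nonneg_right (by linarith) ha.le) fun _ h => h)
  have h6 : ρ / a m / (R₀ / 2 / a m) = ρ * (2 / R₀) := by field_simp
  rw [h6] at h5
  have h7 : C * (ρ * (2 / R₀)) ^ c ≤ C * (x * (2 / R₀)) ^ c := mono_rpow h.C0 h.c0 (by positivity) (by gcongr)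
  show ‖Fm m (Nn a U (m, ε)) (z / a m) - vert j‖ ≤ η
  linarith

/-- **the fourth mark** -/
lemma Dat.near_four (h : Dat q C c a τ B t U Fm pm) {η : ℝ} (hη : 0 < η) :
    ∃ δ > 0, ∀ z ∈ Dt q, dist z (ga q (7 / 2)) < δ →
      ∀ᶠ i in iter atTop (fun _ => mesh), ‖FF a U Fm i z - cv (PP a U pm i)‖ ≤ η := by
  have hopp : ∀ z ∈ ({ga q (7 / 2)} : Set ℂ), ∀ s ∈ lab 0 ∪ lab 1, z ≠ ga q s := by
    intro z hz s hs hzs
    rw [mem_singleton_iff] at hz
    rw [hz] at hzs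
    have h1 := ga_inj h.tame (s := 7 / 2) ⟨by norm_num, by norm_num⟩
      (union_subset (lab_subset 0) (lab_subset 1) hs) hzs
    have hs' : s ∈ Icc (1 / 2 : ℝ) (3 / 2) ∪ Icc (3 / 2) (5 / 2) := hs
    rcases hs' with ⟨g1, g2⟩ | ⟨g1, g2⟩ <;>
    rcases h1 with h1 | ⟨h1, h2⟩ | ⟨h1, h2⟩ <;> linarith
  obtain ⟨R₀, hR₀, hR⟩ := exists_R h.tame isCompact_singleton ((lab_compact 0).union (lab_compact 1)) hopp
  obtain ⟨x, hx, hx2⟩ := exists_small h.C0 h.c0 (x := 2 / R₀) (η := η / 2) (by positivity) (by positivity)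
  set ρ := min x (R₀ / 4) with hρ
  have hρ0 : 0 < ρ := by positivity
  have hρ1 : ρ ≤ x := min_le_left _ _
  have hρ2 : ρ ≤ R₀ / 4 := min_le_right _ _
  obtain ⟨d, hd, hacc⟩ := h.acc 3 ρ hρ0
  have e3 : (((3 : Fin 4) : ℕ) : ℝ) + 1 / 2 = 7 / 2 := by
    have : ((3 : Fin 4) : ℕ) = 3 := rfl
    rw [this]; norm_num
  rw [e3] at hacc
  refine ⟨min d ρ, by positivity, fun z hz hzd => ?_⟩
  have hz1 : dist z (ga q (7 / 2)) < d := hzd.trans_le (min_le_left _ _)
  have hz2 : dist z (ga q (7 / 2)) < ρ := hzd.trans_le (min_le_right _ _)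
  obtain ⟨R, hR0, hR2⟩ := exists_R_dom h.tame (isCompact_singleton (x := z)) (singleton_subset_iff.2 hz)
  set κ := min (R / 20) (ρ / 10) with hκ
  have hκ0 : 0 < κ := by positivity
  have hκ1 : κ ≤ R / 20 := min_le_left _ _
  have hκ2 : κ ≤ ρ / 10 := min_le_right _ _
  rw [eventually_iter]
  filter_upwards [h.cl hκ0, hacc z hz hz1] with m hm hma
  filter_upwards [h.bd m (e := η / 2) (by positivity)] with ε hε
  have ha := h.a0 m
  have haκ : a m ≤ κ := (h.ap m).le.trans hm.tau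
  obtain ⟨h1, h2⟩ := deep_of h.tame h.pos hm hz hκ1 (hR2 z rfl)
  have hz3 : ∀ s ∈ lab 0 ∪ lab 1, R₀ - ρ ≤ ‖z - ga q s‖ := fun s hs => by
    have g1 := hR _ rfl s hs
    rw [dist_eq_norm] at hz2
    have g2 : ‖ga q (7 / 2) - ga q s‖ ≤ ‖z - ga q (7 / 2)‖ + ‖z - ga q s‖ := by
      have e : ga q (7 / 2) - ga q s = (z - ga q s) - (z - ga q (7 / 2)) := by ring
      rw [e]
      linarith [norm_sub_le (z - ga q s) (z - ga q (7 / 2))]
    linarith
  have hfar : (B m).Far (fun i => (B m).On 0 i ∨ (B m).On 1 i) (z / a m) ((R₀ - ρ - 2 * κ) / a m) := by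
    intro i hi hs
    rcases hs with hs | hs
    · exact hm.far (fun s hs => hz3 s (Or.inl hs)) i hi hs
    · exact hm.far (fun s hs => hz3 s (Or.inr hs)) i hi hs
  have h10 : 10 ≤ ρ / a m := by
    rw [le_div_iff₀ ha]; linarith
  have hdR : ρ / a m ≤ R₀ / 2 / a m := div_le_div_of_nonneg_right (by linarith) ha.le
  have h5 := hε.four (z / a m) (ρ / a m) (R₀ / 2 / a m) h10 hdR (deep_mono h1 h2) hma
    (far_mono hfar (div_le_div_of_nonneg_right (by linarith) ha.le) fun _ h => h)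
  have h6 : ρ / a m / (R₀ / 2 / a m) = ρ * (2 / R₀) := by field_simp
  rw [h6] at h5
  have h7 : C * (ρ * (2 / R₀)) ^ c ≤ C * (x * (2 / R₀)) ^ c := mono_rpow h.C0 h.c0 (by positivity) (by gcongr)
  show ‖Fm m (Nn a U (m, ε)) (z / a m) - cv (pm m (Nn a U (m, ε)))‖ ≤ η
  linarith

/-- **the sides** -/
lemma Dat.near_side (h : Dat q C c a τ B t U Fm pm) {j : ℕ} {s₀ : ℝ} (hs₀ : s₀ ∈ sl j) {η : ℝ} (hη : 0 < η) :
    ∃ δ > 0, ∀ z ∈ Dt q, dist z (ga q s₀) < δ →
      ∀ᶠ i in iter atTop (fun _ => mesh), infDist (FF a U Fm i z) (side j) ≤ η := by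
  have hj : j < 3 := by
    by_contra hcon
    obtain ⟨k, rfl⟩ := Nat.exists_eq_add_of_le' (not_lt.1 hcon)
    exact absurd hs₀ (notMem_empty _)
  by_cases hcase : ∃ j' < 3, j' ≠ j ∧ ∃ s' ∈ sl j', ga q s₀ = ga q s'
  · -- a corner
    obtain ⟨j', hj', hne, s', hs', hss⟩ := hcase
    obtain ⟨i, hi1, hi2⟩ := sl_inter hj hj' hne h.tame hs₀ hs' hss
    obtain ⟨δ, hδ, h1⟩ := h.near_mark i hη
    refine ⟨δ, hδ, fun z hz hzd => ?_⟩
    rw [hi1] at hzd
    filter_upwards [h1 z hz hzd] with x hx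
    refine (infDist_le_dist_of_mem hi2).trans ?_
    rw [dist_eq_norm]
    exact hx
  · push Not at hcase
    -- distance from the other sides
    have hR : ∃ R₀ > 0, ∀ j' < 3, j' ≠ j → ∀ s ∈ sl j', R₀ ≤ ‖ga q s₀ - ga q s‖ := by
      have h1 : ∀ j' : ℕ, ∃ r > 0, (j' < 3 → j' ≠ j → ∀ s ∈ sl j', r ≤ ‖ga q s₀ - ga q s‖) := by
        intro j'
        by_cases hj' : j' < 3 ∧ j' ≠ j
        · obtain ⟨r, hr, hr2⟩ := exists_R h.tame (isCompact_singleton (x := ga q s₀)) (sl_compact j') (fun z hz s hs => by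
            rw [mem_singleton_iff] at hz
            rw [hz]
            exact hcase j' hj'.1 hj'.2 s hs)
          exact ⟨r, hr, fun _ _ s hs => hr2 _ rfl s hs⟩
        · exact ⟨1, one_pos, fun g1 g2 => absurd ⟨g1, g2⟩ hj'⟩
      choose r hr hr2 using h1
      refine ⟨min (r 0) (min (r 1) (r 2)), by
        have := hr 0; have := hr 1; have := hr 2; positivity, fun j' hj' hne s hs => ?_⟩
      have h3 := hr2 j' hj' hne s hs
      refine le_trans ?_ h3
      interval_cases j'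
      · exact min_le_left _ _
      · exact (min_le_right _ _).trans (min_le_left _ _)
      · exact (min_le_right _ _).trans (min_le_right _ _)
    obtain ⟨R₀, hR₀, hR⟩ := hR
    obtain ⟨x, hx, hx2⟩ := exists_small h.C0 h.c0 (x := 2 / R₀) (η := η / 2) (by positivity) (by positivity)
    set ρ := min x (R₀ / 4) with hρ
    have hρ0 : 0 < ρ := by positivity
    have hρ1 : ρ ≤ x := min_le_left _ _
    have hρ2 : ρ ≤ R₀ / 4 := min_le_right _ _
    refine ⟨ρ / 2, by positivity, fun z hz hzd => ?_⟩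
    obtain ⟨R, hR0, hR2⟩ := exists_R_dom h.tame (isCompact_singleton (x := z)) (singleton_subset_iff.2 hz)
    set κ := min (R / 20) (ρ / 10) with hκ
    have hκ0 : 0 < κ := by positivity
    have hκ1 : κ ≤ R / 20 := min_le_left _ _
    have hκ2 : κ ≤ ρ / 10 := min_le_right _ _
    rw [eventually_iter]
    filter_upwards [h.cl hκ0] with m hm
    filter_upwards [h.bd m (e := η / 2) (by positivity)] with ε hε
    have ha := h.a0 m
    have haκ : a m ≤ κ := (h.ap m).le.trans hm.tau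
    obtain ⟨h1, h2⟩ := deep_of h.tame h.pos hm hz hκ1 (hR2 z rfl)
    rw [dist_eq_norm] at hzd
    obtain ⟨i, hi1, hi2⟩ := hm.near_side hs₀ hzd.le
    have hfar : (B m).Far (fun i => ∃ j' < 3, j' ≠ j ∧ (B m).Side j' i) (z / a m) ((R₀ - ρ - 2 * κ) / a m) := by
      rintro i hi ⟨j', hj', hne, hs⟩
      refine hm.far_side (j := j') (fun s hs => ?_) i hi hs
      have g1 := hR j' hj' hne s hs
      have g2 : ‖ga q s₀ - ga q s‖ ≤ ‖z - ga q s₀‖ + ‖z - ga q s‖ := by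
        have e : ga q s₀ - ga q s = (z - ga q s) - (z - ga q s₀) := by ring
        rw [e]
        linarith [norm_sub_le (z - ga q s) (z - ga q s₀)]
      linarith
    have h10 : 10 ≤ ρ / a m := by
      rw [le_div_iff₀ ha]; linarith
    have hdR : ρ / a m ≤ R₀ / 2 / a m := div_le_div_of_nonneg_right (by linarith) ha.le
    have h5 := hε.side j hj (z / a m) (ρ / a m) (R₀ / 2 / a m) h10 hdR (deep_mono h1 h2)
      ⟨i, hi1, hi2.trans (div_le_div_of_nonneg_right (by linarith) ha.le)⟩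
      (far_mono hfar (div_le_div_of_nonneg_right (by linarith) ha.le) fun _ h => h)
    have h6 : ρ / a m / (R₀ / 2 / a m) = ρ * (2 / R₀) := by field_simp
    rw [h6] at h5
    have h7 : C * (ρ * (2 / R₀)) ^ c ≤ C * (x * (2 / R₀)) ^ c := mono_rpow h.C0 h.c0 (by positivity) (by gcongr)
    show infDist (Fm m (Nn a U (m, ε)) (z / a m)) (side j) ≤ η
    linarith

theorem Dat.apprR (h : Dat q C c a τ B t U Fm pm) : ApprR q atTop (FF a U Fm) (PP a U pm) where
  sol :=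
    { bound := fun z hz => by
        have h1 := h.bound (isCompact_singleton (x := z)) (singleton_subset_iff.2 hz)
        exact ⟨C, h1.mono fun i hi => hi z rfl⟩
      bdry := fun j ζ hζ η hη => by
        obtain ⟨s, hs, rfl⟩ := arcs_subset_ga q j hζ
        exact h.near_side hs hη
      hol := fun V hV G hG => h.hol V hV hG }
  mark η hη := by
    obtain ⟨δ, hδ, h1⟩ := h.near_four hη
    refine ⟨δ, hδ, fun z hz hzd => ?_⟩
    have e : trot (q I) = ga q (7 / 2) := by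
      rw [ga_eq, QQ, sb_top (by norm_num) (by norm_num), rect_eq]
      have : (⟨(1 + (6 - 2 * (7 / 2))) / 2, (1 + 1) / 2⟩ : ℂ) = I := by
        apply Complex.ext
        · simp only [I_re]; norm_num
        · simp only [I_im]; norm_num
      rw [this]; rfl
    rw [e] at hzd
    filter_upwards [h1 z hz hzd] with i hi
    rw [dist_eq_norm]
    exact hi

end Bvp

/-- **the boundary value problem** -/
theorem gbvp_of_acc (hacc : GAcc) : GBvp := by
  intro hLat q hq hp a τ B t hτ hap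
  obtain ⟨C, c, hC, hc, hL⟩ := hLat
  choose U Fm pm hU hb hP hcont using fun m => hL (B m) (a m) (hap m).pos
  have h : Bvp.Dat q C c a τ B t U Fm pm :=
    { tame := hq
      pos := hp
      lim := hτ
      ap := hap
      C0 := hC
      c0 := hc
      U0 := hU
      bounds := hb
      cont := hcont
      acc := fun j ρ hρ => by
        obtain ⟨d, hd, h1⟩ := hacc q hq hp j ρ hρ
        refine ⟨d, hd, fun z hz hzd => ?_⟩
        obtain ⟨τ₀, hτ₀, h2⟩ := h1 z hz hzd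
        have h3 : ∀ᶠ m in atTop, τ m < τ₀ := hτ.eventually (gt_mem_nhds hτ₀)
        filter_upwards [h3] with m hm
        exact h2 (a m) (τ m) (B m) (t m) hm.le (hap m) }
  refine ⟨_, _, Bvp.KK a U, h.apprR.appr, fun m => Bvp.tendsto_KK (h.a0 m) (hU m), fun m => ?_⟩
  exact (Bvp.tendsto_Nn (h.a0 m) (hU m)).eventually (hP m)

end Full
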