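import Pool.Agent.Full.End.Iface

/-!
# FULL, end game: the boundary curve of a tame quadrilateral; edges and cells of a coarse polygon
-/

set_option autoImplicit false

open Set Filter Topology H47Perc Complex Metric

namespace Full

lemma Wn.const_mul {g : ℝ → ℂ} {m : ℤ} (h : Wn g m) {c : ℂ} (hc : c ≠ 0) : Wn (fun t => c * g t) m := by
  obtain ⟨σ, hσ, hσ2, h4⟩ := h
  refine ⟨fun t => Complex.log c + σ t, by fun_prop, fun t => ?_, ?_⟩
  · rw [Complex.exp_add, Complex.exp_log hc, hσ2]
  · simp only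
    rw [h4]
    ring

lemma one_add_I_ne : (1 + I : ℂ) ≠ 0 := by
  intro h
  have := congrArg Complex.re h
  simp at this

section gam
variable {q : ℂ → ℂ} {hx hy : ℝ}

theorem continuous_gam (hq : IsTame q) : Continuous (gam q hx hy) := by
  unfold gam
  exact continuous_const.mul (hq.cont.comp ((continuous_rect _ _ _).comp continuous_sb))

theorem gam_zero_four : gam q hx hy 0 = gam q hx hy 4 := by
  unfold gam
  rw [sb_zero_four]

theorem gam_inj (hq : IsTame q) (h1 : 0 < hx) (h2 : 0 < hy) : ∀ s ∈ Icc (0 : ℝ) 4, ∀ t ∈ Icc (0 : ℝ) 4, s < t →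
    gam q hx hy s = gam q hx hy t → s = 0 ∧ t = 4 := by
  intro s hs t ht hst h
  refine sb_inj s hs t ht hst ?_
  exact rect_injective _ h1 h2 (hq.inj (mul_left_cancel₀ one_add_I_ne h))

lemma exists_rect {o : ℂ} (h1 : 0 < hx) (h2 : 0 < hy) (u : ℂ) :
    rect o hx hy ⟨(u.re - o.re) / hx, (u.im - o.im) / hy⟩ = u := by
  apply Complex.ext
  · simp only [rect]; field_simp; ring
  · simp only [rect]; field_simp; ring

lemma half_re : (1 / 2 + I / 2 : ℂ).re = 1 / 2 := by simp

lemma half_im : (1 / 2 + I / 2 : ℂ).im = 1 / 2 := by simp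

/-- inside: the winding number is the (positive) orientation number -/
theorem wn_gam_in (hq : IsTame q) (hp : Pos q) (h1 : 0 < hx) (h2 : 0 < hy) : ∃ m : ℤ, 0 < m ∧
    ∀ u : ℂ, |u.re - 1 / 2| < hx → |u.im - 1 / 2| < hy →
      Wn (fun s => gam q hx hy s - (1 + I) * q u) m := by
  obtain ⟨m, hm, ho⟩ := hp
  refine ⟨m, hm, fun u hu1 hu2 => ?_⟩
  have e0 : q = q ∘ rect 0 1 1 := by
    funext z
    show q z = q (rect 0 1 1 z)
    congr 1
    apply Complex.ext <;> simp [rect]
  rw [e0] at ho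
  have h3 : POri (q ∘ rect (1 / 2 + I / 2) hx hy) m := POri.rect hq.cont hq.inj one_pos one_pos h1 h2 ho
  set u' : ℂ := ⟨(u.re - (1 / 2 + I / 2 : ℂ).re) / hx, (u.im - (1 / 2 + I / 2 : ℂ).im) / hy⟩ with hu'
  have e1 : rect (1 / 2 + I / 2) hx hy u' = u := exists_rect h1 h2 u
  have h4 : u' ∈ os := by
    refine ⟨?_, ?_⟩
    · rw [hu']
      simp only [half_re]
      rw [abs_div, abs_of_pos h1, div_lt_one h1]
      exact hu1
    · rw [hu']
      simp only [half_im]
      rw [abs_div, abs_of_pos h2, div_lt_one h2]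
      exact hu2
  have h5 := (h3 u' h4).const_mul one_add_I_ne
  have e2 : (fun s => gam q hx hy s - (1 + I) * q u) = fun t => (1 + I) * ((q ∘ rect (1 / 2 + I / 2) hx hy) (sqb t) -
      (q ∘ rect (1 / 2 + I / 2) hx hy) u') := by
    funext s
    simp only [Function.comp_apply, e1, gam]
    ring
  rw [e2]
  exact h5

/-- outside: the winding number is zero -/
theorem wn_gam_out (hq : IsTame q) (h1 : 0 < hx) (h2 : 0 < hy) {w : ℂ}
    (hw : ∀ u : ℂ, |u.re - 1 / 2| ≤ hx → |u.im - 1 / 2| ≤ hy → w ≠ (1 + I) * q u) :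
    Wn (fun s => gam q hx hy s - w) 0 := by
  have h3 : w / (1 + I) ∉ (q ∘ rect (1 / 2 + I / 2) hx hy) '' cs := by
    rintro ⟨z, ⟨hz1, hz2⟩, hz⟩
    refine hw (rect (1 / 2 + I / 2) hx hy z) ?_ ?_ ?_
    · simp only [rect, half_re]
      rw [add_sub_cancel_left, abs_mul, abs_of_pos h1]
      nlinarith [abs_nonneg z.re]
    · simp only [rect, half_im]
      rw [add_sub_cancel_left, abs_mul, abs_of_pos h2]
      nlinarith [abs_nonneg z.im]
    · rw [Function.comp_apply] at hz
      rw [hz]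
      field_simp [one_add_I_ne]
  have h4 := (wn_outside (hq.cont.comp (continuous_rect _ _ _)) h3).const_mul one_add_I_ne
  have e2 : (fun s => gam q hx hy s - w) = fun t => (1 + I) * ((q ∘ rect (1 / 2 + I / 2) hx hy) (sqb t) -
      w / (1 + I)) := by
    funext s
    simp only [Function.comp_apply, gam]
    rw [mul_sub, mul_div_cancel₀ _ one_add_I_ne]
  rw [e2]
  exact h4

end gam

lemma Adj.exists_quad {p p' : ℤ × ℤ} (h : Adj p p') : ∃ (w : ℤ × ℤ) (k : Fin 4), p = quad w k ∧ p' = quad w (k - 1) := by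
  obtain ⟨k, hk⟩ := h.exists_dir
  obtain ⟨x, y⟩ := p
  subst hk
  fin_cases k
  · refine ⟨(x + 1, y), 1, ?_, ?_⟩
    · show (x, y) = (x + 1 - 1, y)
      simp
    · show (x, y) + dir 0 = (x + 1, y)
      simp [dir]
  · refine ⟨(x + 1, y + 1), 2, ?_, ?_⟩
    · show (x, y) = (x + 1 - 1, y + 1 - 1)
      simp
    · show (x, y) + dir 1 = (x + 1 - 1, y + 1)
      simp [dir]
  · refine ⟨(x, y + 1), 3, ?_, ?_⟩
    · show (x, y) = (x, y + 1 - 1)
      simp
    · show (x, y) + dir 2 = (x - 1, y + 1 - 1)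
      simp [dir, sub_eq_add_neg]
  · refine ⟨(x, y), 0, ?_, ?_⟩
    · rfl
    · show (x, y) + dir 3 = (x, y - 1)
      simp [dir, sub_eq_add_neg]

namespace Coarse
variable (B : Coarse) {d : ℕ → Fin 4}

lemma sc_of_not_in {p : ℤ × ℤ} (h : ¬ B.In p) : sc B.n B.v p = 0 := (B.ccw p).resolve_right h

/-- the constant of `SPoly.sides` is one -/
theorem sides (hd : Dirs B.n B.v d) {i : ℕ} (hi : i < B.n) :
    sc B.n B.v (quad (B.v i) (d i)) = 1 ∧ sc B.n B.v (quad (B.v i) (d i - 1)) = 0 := by
  obtain ⟨a, ha⟩ := B.poly.sides hd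
  obtain ⟨h1, h2⟩ := ha i hi
  have h3 := B.ccw (quad (B.v i) (d i))
  have h4 := B.ccw (quad (B.v i) (d i - 1))
  rw [h1] at h3
  rw [h2] at h4
  have h5 : a = 1 := by omega
  rw [h1, h2, h5]
  exact ⟨rfl, rfl⟩

theorem left_in (hd : Dirs B.n B.v d) {i : ℕ} (hi : i < B.n) : B.In (quad (B.v i) (d i)) := (B.sides hd hi).1

theorem right_out (hd : Dirs B.n B.v d) {i : ℕ} (hi : i < B.n) : ¬ B.In (quad (B.v i) (d i - 1)) := fun h => by
  have h1 := (B.sides hd hi).2
  unfold In at h
  rw [h1] at h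
  exact absurd h (by decide)

/-- neighbouring cells inside and outside are separated by an edge of the polygon -/
theorem exists_edge (hd : Dirs B.n B.v d) {p p' : ℤ × ℤ} (h : Adj p p')
    (hp : B.In p) (hp' : ¬ B.In p') : ∃ i < B.n, p = quad (B.v i) (d i) ∧ p' = quad (B.v i) (d i - 1) := by
  obtain ⟨w, k, rfl, rfl⟩ := h.exists_quad
  have h1 := B.poly.toCWalk.step w k
  have h2 := B.sc_of_not_in hp'
  unfold In at hp
  rw [hp, h2, sub_zero] at h1
  by_contra hcon
  push Not at hcon
  have h3 : ∀ i < B.n, ¬ (B.v i = w ∧ B.v (i + 1) = w + dir k) := by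
    rintro i hi ⟨h4, h5⟩
    have h6 := hd i hi
    rw [h5, h4] at h6
    have h7 : d i = k := dir_inj (add_left_cancel h6.symm)
    refine hcon i hi ?_ ?_
    · rw [h7, h4]
    · rw [h7, h4]
  have h8 : ∃ i < B.n, B.v i = w + dir k ∧ B.v (i + 1) = w := by
    by_contra hc2
    push Not at hc2
    rw [flow_eq_zero (fun i hi => ⟨h3 i hi, fun h9 => hc2 i hi h9.1 h9.2⟩)] at h1
    exact absurd h1 (by decide)
  obtain ⟨i, hi, h4, h5⟩ := h8
  have h9 := B.poly.flow_one hi
  rw [h4, h5, flow_anti, ← h1] at h9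
  exact absurd h9 (by decide)

/-- the left cells of consecutive edges are joined inside the region, by cells which touch the common vertex -/
theorem left_step (hd : Dirs B.n B.v d) {i : ℕ} (hi : i + 1 < B.n) :
    Relation.ReflTransGen (fun p p' => Adj p p' ∧ B.In p' ∧ ∃ k, p' = quad (B.v (i + 1)) k)
      (quad (B.v i) (d i)) (quad (B.v (i + 1)) (d (i + 1))) := by
  have hi' : i < B.n := by omega
  have hnx : nxe B.n i = i + 1 := by unfold nxe; rw [if_neg (by omega)]
  have h0 : quad (B.v (i + 1)) (d i + 1) = quad (B.v i) (d i) := by rw [hd i hi', quad_shift]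
  have h00 := (B.sides hd hi').1
  rw [← h0] at h00 ⊢
  have hne := B.poly.dir_ne hd hi'
  rw [hnx] at hne
  rcases fin4_cases (d i) (d (i + 1)) hne with h1 | h1 | h1
  · rw [h1]
  · have h2 := B.poly.sc_eq hd hi' (k := d i + 1) (by generalize d i = a; revert a; decide)
      (by rw [hnx, h1]; generalize d i = a; revert a; decide)
    rw [add_sub_cancel_right, h00] at h2
    rw [h1]
    refine Relation.ReflTransGen.single ⟨?_, h2.symm, d i, rfl⟩
    have := adj_quad (B.v (i + 1)) (d i + 1)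
    rwa [add_sub_cancel_right] at this
  · have h2 := B.poly.sc_eq hd hi' (k := d i + 1) (by generalize d i = a; revert a; decide)
      (by rw [hnx, h1]; generalize d i = a; revert a; decide)
    have h3 := B.poly.sc_eq hd hi' (k := d i) (by generalize d i = a; revert a; decide)
      (by rw [hnx, h1]; generalize d i = a; revert a; decide)
    rw [add_sub_cancel_right, h00] at h2
    rw [← h2] at h3
    have e : d i + 3 = d i - 1 := by generalize d i = a; revert a; decide
    rw [h1, e]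
    refine Relation.ReflTransGen.tail (b := quad (B.v (i + 1)) (d i))
      (Relation.ReflTransGen.single ⟨?_, h2.symm, d i, rfl⟩) ⟨adj_quad _ _, h3.symm, d i - 1, rfl⟩
    have := adj_quad (B.v (i + 1)) (d i + 1)
    rwa [add_sub_cancel_right] at this

/-- the cell above a mark is in the region -/
theorem mark_in (j : Fin 4) : B.In (B.v (B.M j)) := by
  obtain ⟨d, hd⟩ := B.poly.toCWalk.exists_dirs
  have h1 : B.M j < B.n := by
    have := B.m01; have := B.m12; have := B.m23; have := B.m3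
    fin_cases j
    · show B.M 0 < B.n; omega
    · show B.M 1 < B.n; omega
    · show B.M 2 < B.n; omega
    · show B.M 3 < B.n; omega
  have h2 := B.left_in hd h1
  have h3 : d (B.M j) = 0 := by
    have h4 := hd _ h1
    rw [B.east j] at h4
    exact (dir_inj (add_left_cancel h4.symm) : d (B.M j) = 0)
  rw [h3] at h2
  exact h2

end Coarse

end Full
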