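import Mathlib

/-!
# FULL, end game: labelled simple closed lattice polygons along a Jordan curve

`γ : ℝ → ℂ` restricted to `[0, 4]` is a closed curve, injective except for `γ 0 = γ 4`.  For every small
`a > 0` there is a simple closed polygon on the lattice `a ℤ²` whose vertices `v i` carry monotone labels
`t i ∈ [0, 4]` with `‖a v i - γ (t i)‖ ≤ 3 a`.
-/

set_option autoImplicit false

namespace Full

open Set

/-- position of a lattice point -/
noncomputable def gp (a : ℝ) (v : ℤ × ℤ) : ℂ := ⟨a * v.1, a * v.2⟩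

/-- equal or adjacent -/
def Near (u v : ℤ × ℤ) : Prop := |u.1 - v.1| + |u.2 - v.2| ≤ 1

/-- adjacent -/
def Adj (u v : ℤ × ℤ) : Prop := |u.1 - v.1| + |u.2 - v.2| = 1

/-- a lattice walk with monotone labels along `γ` -/
structure LWalk (γ : ℝ → ℂ) (a C : ℝ) (n : ℕ) (v : ℕ → ℤ × ℤ) (t : ℕ → ℝ) : Prop where
  near : ∀ i < n, Near (v i) (v (i + 1))
  mono : ∀ i < n, t i ≤ t (i + 1)
  mem : ∀ i ≤ n, t i ∈ Icc (0 : ℝ) 4
  close : ∀ i ≤ n, ‖gp a (v i) - γ (t i)‖ ≤ C * a

/-- labelled simple closed lattice polygons along `γ` -/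
structure LPoly (γ : ℝ → ℂ) (a θ : ℝ) (n : ℕ) (v : ℕ → ℤ × ℤ) (t : ℕ → ℝ) : Prop where
  adj : ∀ i < n, Adj (v i) (v (i + 1))
  closed : v n = v 0
  inj : ∀ i < n, ∀ j < n, v i = v j → i = j
  mono : ∀ i < n, t i ≤ t (i + 1)
  jump : ∀ i < n, t (i + 1) ≤ t i + θ
  mem : ∀ i ≤ n, t i ∈ Icc (0 : ℝ) 4
  start : t 0 ≤ θ
  fin : 4 - θ ≤ t n
  close : ∀ i ≤ n, ‖gp a (v i) - γ (t i)‖ ≤ 3 * a

lemma norm_le_abs_add (z : ℂ) : ‖z‖ ≤ |z.re| + |z.im| := Complex.norm_le_abs_re_add_abs_im z

/-- discretisation of a path -/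
lemma exists_walk {γ : ℝ → ℂ} (hγ : Continuous γ) {a : ℝ} (ha : 0 < a) {η : ℝ} (hη : 0 < η) :
    ∃ (n : ℕ) (v : ℕ → ℤ × ℤ) (t : ℕ → ℝ), LWalk γ a 3 n v t ∧ t 0 = 0 ∧ t n = 4 ∧
      v 0 = (⌊(γ 0).re / a⌋, ⌊(γ 0).im / a⌋) ∧ v n = (⌊(γ 4).re / a⌋, ⌊(γ 4).im / a⌋) ∧
      ∀ i < n, t (i + 1) ≤ t i + η := by
  -- uniform continuity on `[0, 4]`
  have huc : UniformContinuousOn γ (Icc (0 : ℝ) 4) :=
    isCompact_Icc.uniformContinuousOn_of_continuous hγ.continuousOn
  rw [Metric.uniformContinuousOn_iff] at huc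
  obtain ⟨δ, hδ, hδ'⟩ := huc a ha
  obtain ⟨N, hN⟩ := exists_nat_gt (4 / min δ η)
  have hm : 0 < min δ η := lt_min hδ hη
  have hNpos : (0 : ℝ) < N := lt_trans (by positivity) hN
  have hstep : (4 : ℝ) / N < min δ η := by
    rw [div_lt_iff₀ hm] at hN
    rw [div_lt_iff₀ hNpos]
    linarith
  -- partition points
  set s : ℕ → ℝ := fun j => 4 * j / N with hs
  set w : ℕ → ℤ × ℤ := fun j => (⌊(γ (s j)).re / a⌋, ⌊(γ (s j)).im / a⌋) with hw
  have hs_mem : ∀ j ≤ N, s j ∈ Icc (0 : ℝ) 4 := by
    intro j hj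
    have hj' : (j : ℝ) ≤ N := by exact_mod_cast hj
    refine ⟨by positivity, ?_⟩
    rw [hs]
    rw [div_le_iff₀ hNpos]
    linarith
  have hs_succ : ∀ j, s (j + 1) = s j + 4 / N := by
    intro j
    simp only [hs]
    push_cast
    ring
  have hγs : ∀ j < N, ‖γ (s j) - γ (s (j + 1))‖ < a := by
    intro j hj
    have h1 := hδ' (s j) (hs_mem j hj.le) (s (j + 1)) (hs_mem (j + 1) hj) (by
      rw [Real.dist_eq, hs_succ, sub_add_cancel_left, abs_neg, abs_of_nonneg (by positivity)]
      exact hstep.trans_le (min_le_left _ _))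
    rwa [dist_eq_norm] at h1
  have hfl : ∀ x : ℝ, |a * ⌊x / a⌋ - x| ≤ a := by
    intro x
    have h1 := Int.floor_le (x / a)
    have h2 := Int.lt_floor_add_one (x / a)
    rw [le_div_iff₀ ha] at h1
    rw [div_lt_iff₀ ha] at h2
    rw [abs_le]
    constructor <;> nlinarith
  have hflnear : ∀ x y : ℝ, |x - y| < a → |⌊x / a⌋ - ⌊y / a⌋| ≤ 1 := by
    intro x y hxy
    have h1 := Int.floor_le (x / a)
    have h2 := Int.lt_floor_add_one (x / a)
    have h3 := Int.floor_le (y / a)
    have h4 := Int.lt_floor_add_one (y / a)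
    have h5 : |x / a - y / a| < 1 := by
      rw [← sub_div, abs_div, abs_of_pos ha, div_lt_one ha]
      exact hxy
    rw [abs_lt] at h5
    have h6 : (⌊x / a⌋ : ℝ) - ⌊y / a⌋ < 2 := by linarith
    have h7 : (-2 : ℝ) < (⌊x / a⌋ : ℝ) - ⌊y / a⌋ := by linarith
    have h8 : ⌊x / a⌋ - ⌊y / a⌋ < 2 := by exact_mod_cast h6
    have h9 : -2 < ⌊x / a⌋ - ⌊y / a⌋ := by exact_mod_cast h7
    rw [abs_le]
    omega
  have hclose : ∀ j, ‖gp a (w j) - γ (s j)‖ ≤ 2 * a := by
    intro j
    refine (norm_le_abs_add _).trans ?_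
    simp only [gp, hw, Complex.sub_re, Complex.sub_im]
    have h1 := hfl (γ (s j)).re
    have h2 := hfl (γ (s j)).im
    linarith
  refine ⟨2 * N, fun i => if i % 2 = 0 then w (i / 2) else ((w (i / 2 + 1)).1, (w (i / 2)).2),
    fun i => s (i / 2), ⟨?_, ?_, ?_, ?_⟩, ?_, ?_, ?_, ?_, ?_⟩
  · intro i hi
    have hj : i / 2 < N := by omega
    have hre : |(γ (s (i / 2))).re - (γ (s (i / 2 + 1))).re| < a := by
      have := hγs (i / 2) hj
      have h2 := Complex.abs_re_le_norm (γ (s (i / 2)) - γ (s (i / 2 + 1)))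
      rw [Complex.sub_re] at h2
      linarith
    have him : |(γ (s (i / 2))).im - (γ (s (i / 2 + 1))).im| < a := by
      have := hγs (i / 2) hj
      have h2 := Complex.abs_im_le_norm (γ (s (i / 2)) - γ (s (i / 2 + 1)))
      rw [Complex.sub_im] at h2
      linarith
    rcases Nat.mod_two_eq_zero_or_one i with h0 | h0
    · have h1 : (i + 1) % 2 = 1 := by omega
      have h2 : (i + 1) / 2 = i / 2 := by omega
      simp only [h0, h1, h2, if_true, if_false, one_ne_zero]
      unfold Near
      simp only [hw, sub_self, abs_zero, add_zero]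
      exact hflnear _ _ hre
    · have h1 : (i + 1) % 2 = 0 := by omega
      have h2 : (i + 1) / 2 = i / 2 + 1 := by omega
      simp only [h0, h1, h2, if_true, if_false, one_ne_zero]
      unfold Near
      simp only [hw, sub_self, abs_zero, zero_add]
      exact hflnear _ _ him
  · intro i hi
    rcases Nat.mod_two_eq_zero_or_one i with h0 | h0
    · have h2 : (i + 1) / 2 = i / 2 := by omega
      simp only [h2]
      exact le_rfl
    · have h2 : (i + 1) / 2 = i / 2 + 1 := by omega
      simp only [h2]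
      rw [hs_succ]
      have : (0 : ℝ) ≤ 4 / N := by positivity
      linarith
  · intro i hi
    exact hs_mem _ (by omega)
  · intro i hi
    by_cases h0 : i % 2 = 0
    · simp only [h0, if_true]
      linarith [hclose (i / 2)]
    · have hj : i / 2 < N := by omega
      simp only [h0, if_false]
      refine (norm_le_abs_add _).trans ?_
      simp only [gp, hw, Complex.sub_re, Complex.sub_im]
      have h1 := hfl (γ (s (i / 2 + 1))).re
      have h2 := hfl (γ (s (i / 2))).im
      have h3 := hγs (i / 2) hj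
      have h4 := Complex.abs_re_le_norm (γ (s (i / 2)) - γ (s (i / 2 + 1)))
      rw [Complex.sub_re] at h4
      have h5 : |a * (⌊(γ (s (i / 2 + 1))).re / a⌋ : ℝ) - (γ (s (i / 2))).re| ≤ 2 * a := by
        have e : a * (⌊(γ (s (i / 2 + 1))).re / a⌋ : ℝ) - (γ (s (i / 2))).re =
            (a * (⌊(γ (s (i / 2 + 1))).re / a⌋ : ℝ) - (γ (s (i / 2 + 1))).re) -
            ((γ (s (i / 2))).re - (γ (s (i / 2 + 1))).re) := by ring
        rw [e]
        refine (abs_sub _ _).trans ?_
        linarith
      linarith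
  · simp [hs]
  · have : 2 * N / 2 = N := by omega
    simp only [this, hs]
    field_simp
  · simp [hw, hs]
  · have h1 : 2 * N / 2 = N := by omega
    have h2 : 2 * N % 2 = 0 := by omega
    have h3 : s N = 4 := by
      simp only [hs]
      field_simp
    simp only [h1, h2, if_true, hw, h3]
  · intro i hi
    rcases Nat.mod_two_eq_zero_or_one i with h0 | h0
    · have h2 : (i + 1) / 2 = i / 2 := by omega
      simp only [h2]
      linarith
    · have h2 : (i + 1) / 2 = i / 2 + 1 := by omega
      simp only [h2]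
      rw [hs_succ]
      have := hstep.le.trans (min_le_right _ _)
      linarith

/-- Euclid-close points of `γ` have cyclically close parameters -/
lemma exists_modulus {γ : ℝ → ℂ} (hγ : Continuous γ)
    (hinj : ∀ s ∈ Icc (0 : ℝ) 4, ∀ t ∈ Icc (0 : ℝ) 4, s < t → γ s = γ t → s = 0 ∧ t = 4)
    {θ : ℝ} (hθ : 0 < θ) : ∃ r > 0, ∀ s ∈ Icc (0 : ℝ) 4, ∀ t ∈ Icc (0 : ℝ) 4, s ≤ t →
      ‖γ s - γ t‖ ≤ r → t - s ≤ θ ∨ 4 - θ ≤ t - s := by
  set K : Set (ℝ × ℝ) := (Icc (0 : ℝ) 4 ×ˢ Icc (0 : ℝ) 4) ∩ {p | θ ≤ p.2 - p.1 ∧ p.2 - p.1 ≤ 4 - θ} with hK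
  have hKc : IsCompact K := by
    refine (isCompact_Icc.prod isCompact_Icc).inter_right ?_
    exact (isClosed_le continuous_const (continuous_snd.sub continuous_fst)).inter
      (isClosed_le (continuous_snd.sub continuous_fst) continuous_const)
  rcases K.eq_empty_or_nonempty with hE | hne
  · refine ⟨1, one_pos, fun s hs t ht hst _ => ?_⟩
    by_contra hcon
    push Not at hcon
    have : (s, t) ∈ K := ⟨⟨hs, ht⟩, hcon.1.le, hcon.2.le⟩
    rw [hE] at this
    exact this
  · obtain ⟨p, hpK, hp⟩ := hKc.exists_isMinOn hne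
      (f := fun p : ℝ × ℝ => ‖γ p.1 - γ p.2‖) (by fun_prop)
    have hpos : 0 < ‖γ p.1 - γ p.2‖ := by
      rw [norm_pos_iff, sub_ne_zero]
      intro h0
      have h1 : p.1 < p.2 := by
        have := hpK.2.1
        linarith
      have h2 := hinj p.1 hpK.1.1 p.2 hpK.1.2 h1 h0
      have h3 := hpK.2.2
      rw [h2.1, h2.2] at h3
      linarith
    refine ⟨‖γ p.1 - γ p.2‖ / 2, by positivity, fun s hs t ht hst hle => ?_⟩
    by_contra hcon
    push Not at hcon
    have hmem : (s, t) ∈ K := ⟨⟨hs, ht⟩, hcon.1.le, hcon.2.le⟩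
    have h4 : ‖γ p.1 - γ p.2‖ ≤ ‖γ s - γ t‖ := hp hmem
    linarith

lemma gp_near {a : ℝ} (ha : 0 ≤ a) {u v : ℤ × ℤ} (h : Near u v) : ‖gp a u - gp a v‖ ≤ a := by
  refine (norm_le_abs_add _).trans ?_
  simp only [gp, Complex.sub_re, Complex.sub_im]
  have h1 : (|(u.1 : ℝ) - v.1| + |(u.2 : ℝ) - v.2| : ℝ) ≤ 1 := by
    have : ((|u.1 - v.1| + |u.2 - v.2| : ℤ) : ℝ) ≤ ((1 : ℤ) : ℝ) := Int.cast_le.2 h
    push_cast at this
    exact this
  rw [← mul_sub, ← mul_sub, abs_mul, abs_mul, abs_of_nonneg ha, ← mul_add]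
  nlinarith

lemma mono_of_step {t : ℕ → ℝ} {n : ℕ} (h : ∀ i < n, t i ≤ t (i + 1)) :
    ∀ i j, i ≤ j → j ≤ n → t i ≤ t j := by
  intro i j hij
  induction hij with
  | refl => exact fun _ => le_rfl
  | @step m hm ih => exact fun hn => (ih (by omega)).trans (h m (by omega))

/-- **labelled lattice polygons exist** -/
theorem exists_lpoly {γ : ℝ → ℂ} (hγ : Continuous γ) (h04 : γ 0 = γ 4)
    (hinj : ∀ s ∈ Icc (0 : ℝ) 4, ∀ t ∈ Icc (0 : ℝ) 4, s < t → γ s = γ t → s = 0 ∧ t = 4)
    {θ : ℝ} (hθ : 0 < θ) (hθ1 : θ ≤ 1 / 2) :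
    ∃ a0 > 0, ∀ a : ℝ, 0 < a → a < a0 → ∃ (n : ℕ) (v : ℕ → ℤ × ℤ) (t : ℕ → ℝ),
      3 ≤ n ∧ LPoly γ a θ n v t := by
  classical
  obtain ⟨r, hr, hmod⟩ := exists_modulus hγ hinj hθ
  refine ⟨r / 7, by positivity, fun a ha har => ?_⟩
  have h7 : 7 * a ≤ r := by linarith
  let Q : ℕ → Prop := fun n => ∃ (v : ℕ → ℤ × ℤ) (t : ℕ → ℝ), LWalk γ a 3 n v t ∧ v n = v 0 ∧
    t 0 ≤ θ ∧ 4 - θ ≤ t n ∧ ∀ i < n, t (i + 1) ≤ t i + 1
  have hex : ∃ n, Q n := by
    obtain ⟨n, v, t, hw, h0, h4, hv0, hvn, hj⟩ := exists_walk hγ ha one_pos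
    exact ⟨n, v, t, hw, by rw [hv0, hvn, h04], by rw [h0]; exact hθ.le, by rw [h4]; linarith, hj⟩
  obtain ⟨v, t, hw, hvn, ht0, htn, hjump⟩ : Q (Nat.find hex) := Nat.find_spec hex
  have hmin : ∀ m < Nat.find hex, ¬ Q m := fun m hm => Nat.find_min hex hm
  set n := Nat.find hex with hn
  have hmono := mono_of_step hw.mono
  -- the jumps are small
  have hj : ∀ i < n, t (i + 1) ≤ t i + θ := by
    intro i hi
    have h1 : ‖γ (t i) - γ (t (i + 1))‖ ≤ r := by
      have e1 := hw.close i hi.le
      have e2 := hw.close (i + 1) hi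
      have e3 := gp_near ha.le (hw.near i hi)
      have e4 : γ (t i) - γ (t (i + 1)) = (gp a (v i) - gp a (v (i + 1))) - (gp a (v i) - γ (t i)) +
          (gp a (v (i + 1)) - γ (t (i + 1))) := by ring
      rw [e4]
      refine (norm_add_le _ _).trans ?_
      have e5 := norm_sub_le (gp a (v i) - gp a (v (i + 1))) (gp a (v i) - γ (t i))
      linarith
    rcases hmod (t i) (hw.mem i hi.le) (t (i + 1)) (hw.mem (i + 1) hi) (hw.mono i hi) h1 with h2 | h2
    · linarith
    · have := hjump i hi
      linarith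
  have hinjv : ∀ i j, i < j → j < n → v i ≠ v j := by
    intro i j hij hjn hv
    have hle : t i ≤ t j := hmono i j hij.le hjn.le
    have h1 : ‖γ (t i) - γ (t j)‖ ≤ r := by
      have e1 := hw.close i (by omega)
      have e2 := hw.close j hjn.le
      have e4 : γ (t i) - γ (t j) = (gp a (v j) - γ (t j)) - (gp a (v i) - γ (t i)) := by
        rw [hv]; ring
      rw [e4]
      have e5 := norm_sub_le (gp a (v j) - γ (t j)) (gp a (v i) - γ (t i))
      linarith
    rcases hmod (t i) (hw.mem i (by omega)) (t j) (hw.mem j hjn.le) hle h1 with h2 | h2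
    · -- cut out the loop
      set d := j - i with hd
      refine hmin (n - d) (by omega) ⟨fun k => if k ≤ i then v k else v (k + d),
        fun k => if k ≤ i then t k else t (k + d), ⟨?_, ?_, ?_, ?_⟩, ?_, ?_, ?_, ?_⟩
      · intro k hk
        by_cases h3 : k + 1 ≤ i
        · simp only [h3, show k ≤ i by omega, if_true]
          exact hw.near k (by omega)
        · by_cases h4 : k ≤ i
          · have h5 : k = i := by omega
            subst h5
            have h6 : k + 1 + d = j + 1 := by omega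
            simp only [h3, le_refl, if_true, if_false, h6, hv]
            exact hw.near j hjn
          · have h6 : k + 1 + d = (k + d) + 1 := by omega
            simp only [h3, h4, if_false, h6]
            exact hw.near (k + d) (by omega)
      · intro k hk
        by_cases h3 : k + 1 ≤ i
        · simp only [h3, show k ≤ i by omega, if_true]
          exact hw.mono k (by omega)
        · by_cases h4 : k ≤ i
          · have h5 : k = i := by omega
            subst h5
            have h6 : k + 1 + d = j + 1 := by omega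
            simp only [h3, le_refl, if_true, if_false, h6]
            exact hle.trans (hw.mono j hjn)
          · have h6 : k + 1 + d = (k + d) + 1 := by omega
            simp only [h3, h4, if_false, h6]
            exact hw.mono (k + d) (by omega)
      · intro k hk
        by_cases h4 : k ≤ i
        · simp only [h4, if_true]
          exact hw.mem k (by omega)
        · simp only [h4, if_false]
          exact hw.mem (k + d) (by omega)
      · intro k hk
        by_cases h4 : k ≤ i
        · simp only [h4, if_true]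
          exact hw.close k (by omega)
        · simp only [h4, if_false]
          exact hw.close (k + d) (by omega)
      · have h3 : ¬ n - d ≤ i := by omega
        have h4 : n - d + d = n := by omega
        simp only [h3, if_false, h4, zero_le, if_true, hvn]
      · simp only [zero_le, if_true]
        exact ht0
      · have h3 : ¬ n - d ≤ i := by omega
        have h4 : n - d + d = n := by omega
        simp only [h3, if_false, h4]
        exact htn
      · intro k hk
        by_cases h3 : k + 1 ≤ i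
        · simp only [h3, show k ≤ i by omega, if_true]
          exact hjump k (by omega)
        · by_cases h4 : k ≤ i
          · have h5 : k = i := by omega
            subst h5
            have h6 : k + 1 + d = j + 1 := by omega
            simp only [h3, le_refl, if_true, if_false, h6]
            have := hj j hjn
            linarith
          · have h6 : k + 1 + d = (k + d) + 1 := by omega
            simp only [h3, h4, if_false, h6]
            exact hjump (k + d) (by omega)
    · -- keep the loop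
      have h0 := (hw.mem i (by omega)).1
      have h4 := (hw.mem j hjn.le).2
      refine hmin (j - i) (by omega) ⟨fun k => v (i + k), fun k => t (i + k), ⟨?_, ?_, ?_, ?_⟩, ?_, ?_, ?_, ?_⟩
      · exact fun k hk => hw.near (i + k) (by omega)
      · exact fun k hk => hw.mono (i + k) (by omega)
      · exact fun k hk => hw.mem (i + k) (by omega)
      · exact fun k hk => hw.close (i + k) (by omega)
      · have : i + (j - i) = j := by omega
        simp only [this, add_zero, hv]
      · simp only [add_zero]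
        linarith
      · have : i + (j - i) = j := by omega
        simp only [this]
        linarith
      · exact fun k hk => hjump (i + k) (by omega)
  -- the length
  have hlen : 3 ≤ n := by
    by_contra hlt
    have h3 : t n ≤ t 0 + n * θ := by
      have : ∀ k ≤ n, t k ≤ t 0 + k * θ := by
        intro k hk
        induction k with
        | zero => simp
        | succ m ih =>
          have h4 := ih (by omega)
          have h5 := hj m (by omega)
          push_cast
          linarith
      exact this n le_rfl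
    have h4 : (n : ℝ) ≤ 2 := by
      have : n ≤ 2 := by omega
      exact_mod_cast this
    nlinarith
  refine ⟨n, v, t, hlen, ⟨?_, hvn, ?_, hw.mono, hj, hw.mem, ht0, htn, hw.close⟩⟩
  · intro i hi
    have hne : v i ≠ v (i + 1) := by
      rcases Nat.lt_or_ge (i + 1) n with h1 | h1
      · exact hinjv i (i + 1) (by omega) h1
      · have h2 : i + 1 = n := by omega
        rw [h2, hvn]
        exact (hinjv 0 i (by omega) hi).symm
    have h3 := hw.near i hi
    unfold Near at h3
    unfold Adj
    have h4 : ¬ ((v i).1 = (v (i + 1)).1 ∧ (v i).2 = (v (i + 1)).2) := fun h => hne (Prod.ext h.1 h.2)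
    have h5 : 0 ≤ |(v i).1 - (v (i + 1)).1| := abs_nonneg _
    have h6 : 0 ≤ |(v i).2 - (v (i + 1)).2| := abs_nonneg _
    have h7 : ¬ (|(v i).1 - (v (i + 1)).1| = 0 ∧ |(v i).2 - (v (i + 1)).2| = 0) := by
      rintro ⟨e1, e2⟩
      rw [abs_eq_zero, sub_eq_zero] at e1 e2
      exact h4 ⟨e1, e2⟩
    omega
  · intro i hi j hj' hv
    rcases lt_trichotomy i j with h1 | h1 | h1
    · exact absurd hv (hinjv i j h1 hj')
    · exact h1
    · exact absurd hv.symm (hinjv j i h1 hi)

end Full
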