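import Pool.Agent.Full.End.Gam

/-!
# FULL, end game: labels, east edges, closeness of winding numbers
-/

set_option autoImplicit false

open Set Filter Topology H47Perc Complex Metric

namespace Full

/-- every parameter is close to a label -/
lemma exists_label {t : ℕ → ℝ} {n : ℕ} {θ : ℝ} (jump : ∀ i < n, t (i + 1) ≤ t i + θ)
    (start : t 0 ≤ θ) (fin : 4 - θ ≤ t n) {x : ℝ} (h0 : 0 ≤ x) (h4 : x ≤ 4) :
    ∃ i ≤ n, |t i - x| ≤ θ := by
  classical
  by_cases hex : ∃ i, i ≤ n ∧ x ≤ t i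
  · obtain ⟨h1, h2⟩ := Nat.find_spec hex
    have hmin : ∀ m < Nat.find hex, ¬ (m ≤ n ∧ x ≤ t m) := fun m hm => Nat.find_min hex hm
    set i := Nat.find hex with hi
    refine ⟨i, h1, ?_⟩
    rw [abs_of_nonneg (by linarith)]
    rcases Nat.eq_zero_or_pos i with hz | hz
    · rw [hz]
      linarith
    · have h3 := hmin (i - 1) (by omega)
      have h4 : t (i - 1) < x := by
        by_contra hcon
        exact h3 ⟨by omega, not_lt.1 hcon⟩
      have h5 := jump (i - 1) (by omega)
      rw [show i - 1 + 1 = i by omega] at h5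
      linarith
  · push Not at hex
    have h1 := hex n le_rfl
    refine ⟨n, le_rfl, ?_⟩
    rw [abs_sub_comm, abs_of_nonneg (by linarith)]
    linarith

/-- a walk which goes to the east has an edge to the east -/
lemma exists_east {n : ℕ} {v : ℕ → ℤ × ℤ} (adj : ∀ i < n, Adj (v i) (v (i + 1))) {i j : ℕ} (hij : i ≤ j)
    (hj : j ≤ n) (h : (v i).1 < (v j).1) : ∃ k, i ≤ k ∧ k < j ∧ v (k + 1) = v k + (1, 0) := by
  by_contra hcon
  push Not at hcon
  have key : ∀ m, i ≤ m → m ≤ j → (v m).1 ≤ (v i).1 := by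
    intro m hm
    induction hm with
    | refl => exact fun _ => le_rfl
    | @step m hm ih =>
      intro hmj
      have h1 := ih (by omega)
      have h2 := hcon m hm (by omega)
      rcases (adj m (by omega)).cases with ⟨h3, h4⟩ | ⟨h3, h4⟩ | ⟨h3, h4⟩ | ⟨h3, h4⟩ <;>
      first
      | (exact absurd (Prod.ext (by simp; omega) (by simp; omega)) h2)
      | (show (v (m + 1)).1 ≤ (v i).1; omega)
  have := key j hij le_rfl
  omega

/-- the range of `sqb` -/
lemma exists_sqb (s : ℝ) : ∃ s' ∈ Icc (0 : ℝ) 4, sqb s = sqb s' := by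
  by_cases h0 : 0 ≤ s
  · by_cases h4 : s ≤ 4
    · exact ⟨s, ⟨h0, h4⟩, rfl⟩
    · push Not at h4
      by_cases h5 : s ≤ 9 / 2
      · refine ⟨s - 4, ⟨by linarith, by linarith⟩, ?_⟩
        rw [sb_left' (by linarith), sb_left (by linarith)]
        congr 2
        ring
      · refine ⟨1 / 2, ⟨by norm_num, by norm_num⟩, ?_⟩
        push Not at h5
        rw [sb_left' (by linarith), sb_left (by norm_num), cl_of_le (by linarith), cl_of_le (by norm_num)]
  · push Not at h0
    by_cases h5 : -1 / 2 ≤ s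
    · refine ⟨s + 4, ⟨by linarith, by linarith⟩, ?_⟩
      rw [sb_left (by linarith), sb_left' (by linarith)]
      congr 2
      ring
    · refine ⟨7 / 2, ⟨by norm_num, by norm_num⟩, ?_⟩
      push Not at h5
      rw [sb_left (by linarith), sb_left' (by norm_num), cl_of_ge (by linarith), cl_of_ge (by norm_num)]

/-- close functions have the same winding number -/
lemma wn_close {f g : ℝ → ℂ} (hf : Continuous f) (hg : Continuous g) (h4 : f 4 = f 0) (h4' : g 4 = g 0)
    (h : ∀ s, ‖g s - f s‖ < ‖f s‖) {m : ℤ} (hm : Wn f m) : Wn g m := by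
  have hH : Continuous fun x : ℝ × ℝ => f x.1 + (c01 x.2 : ℂ) * (g x.1 - f x.1) := by
    have := continuous_c01
    fun_prop
  have h0 : ∀ x : ℝ × ℝ, f x.1 + (c01 x.2 : ℂ) * (g x.1 - f x.1) ≠ 0 := by
    intro x hx
    have h1 : f x.1 = -((c01 x.2 : ℂ) * (g x.1 - f x.1)) := by linear_combination hx
    have h2 : ‖f x.1‖ ≤ ‖g x.1 - f x.1‖ := by
      rw [h1, norm_neg, norm_mul, Complex.norm_real, Real.norm_of_nonneg (c01_mem _).1, ← h1]
      have h3 := (c01_mem x.2).2
      have h4 := norm_nonneg (g x.1 - f x.1)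
      nlinarith
    exact absurd (h x.1) (not_lt.2 h2)
  have h5 := Wn.homotopy (s := 0) (s' := 1) hH h0 (fun s => by simp only [h4, h4']) (m := m) (by
    simpa only [c01_zero, ofReal_zero, zero_mul, add_zero] using hm)
  have e : g = fun s => f s + (c01 1 : ℂ) * (g s - f s) := by
    funext s
    rw [c01_one, ofReal_one]
    ring
  rw [e]
  exact h5

/-- the gap between a curve and a far point, for all parameters -/
lemma gam_far {q : ℂ → ℂ} {hx hy : ℝ} {τ : ℝ} {w : ℂ} (h : ∀ s ∈ Icc (0 : ℝ) 4, τ ≤ ‖gam q hx hy s - w‖) (s : ℝ) :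
    τ ≤ ‖gam q hx hy s - w‖ := by
  obtain ⟨s', hs', h1⟩ := exists_sqb s
  have h2 := h s' hs'
  unfold gam at h2 ⊢
  rw [h1]
  exact h2

/-- two tame curves with parameter `sqb` -/
lemma uniform_close {Q : ℂ → ℂ} (hQ : Continuous Q) {τ : ℝ} (hτ : 0 < τ) : ∃ ρ > 0, ρ ≤ 1 ∧ ∀ z ∈ cs, ∀ w, dist z w ≤ ρ →
    ‖Q w - Q z‖ ≤ τ := by
  have hK : IsCompact (closedBall (0 : ℂ) 4) := isCompact_closedBall 0 4
  have huc := hK.uniformContinuousOn_of_continuous hQ.continuousOn
  rw [Metric.uniformContinuousOn_iff] at huc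
  obtain ⟨δ, hδ, h⟩ := huc τ hτ
  refine ⟨min (δ / 2) 1, by positivity, min_le_right _ _, fun z hz w hw => ?_⟩
  have hz2 : ‖z‖ ≤ 2 := by
    have := Complex.norm_le_abs_re_add_abs_im z
    have := hz.1
    have := hz.2
    linarith
  have hw2 : dist z w ≤ 1 := hw.trans (min_le_right _ _)
  have hw3 : dist z w ≤ δ / 2 := hw.trans (min_le_left _ _)
  have h1 : z ∈ closedBall (0 : ℂ) 4 := by
    rw [mem_closedBall, dist_zero_right]; linarith
  have h2 : w ∈ closedBall (0 : ℂ) 4 := by
    rw [mem_closedBall, dist_zero_right]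
    have e : ‖w‖ ≤ ‖z‖ + dist z w := by
      rw [dist_eq_norm]
      have := norm_sub_le z (z - w)
      rwa [sub_sub_cancel] at this
    linarith
  have h3 := h w h2 z h1 (by rw [dist_comm]; linarith)
  rw [dist_eq_norm] at h3
  exact h3.le

end Full
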