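import Pool.Agent.Full.End.Unique

/-!
# FULL, end game: convergence and conformal covariance

An asymptotically equicontinuous family of functions on the closure of `D`, which asymptotically satisfies
the boundary conditions and whose limits are holomorphic, converges uniformly to the unique solution of the
boundary value problem.
-/

set_option autoImplicit false

namespace Full

open Complex Set Filter Topology Metric

/-- asymptotic equicontinuity of a family along a filter -/
def AEC {ι : Type*} (l : Filter ι) (S : Set ℂ) (F : ι → ℂ → ℂ) : Prop :=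
  ∀ ε > 0, ∃ δ > 0, ∀ᶠ i in l, ∀ z ∈ S, ∀ w ∈ S, dist z w < δ → dist (F i z) (F i w) < ε

lemma side_closed (j : ℕ) : IsClosed (side j) := by
  unfold side
  rw [segment_eq_image]
  exact (isCompact_Icc.image (by fun_prop)).isClosed

lemma side_nonempty (j : ℕ) : (side j).Nonempty := ⟨_, left_mem_segment ℝ _ _⟩

lemma vert_add_three (j : ℕ) : vert (j + 3) = vert j := by
  rw [vert, pow_add, tau_cube, mul_one, vert]

lemma tau_ne_one : tau ≠ 1 := by
  intro h
  have := congrArg Complex.re h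
  unfold tau at this
  norm_num at this

/-- two consecutive sides meet in one vertex -/
lemma side_inter {j : ℕ} {x y : ℂ} (hx : x ∈ side j) (hy : x ∈ side (j + 1)) (hx' : y ∈ side j)
    (hy' : y ∈ side (j + 1)) : x = y := by
  obtain ⟨r, hr⟩ := side_sub hx hx'
  obtain ⟨r', hr'⟩ := side_sub hy hy'
  by_contra hne
  have h1 : (r : ℂ) * (vert j * ((Real.sqrt 3 : ℝ) * I)) = r' * (vert (j + 1) * ((Real.sqrt 3 : ℝ) * I)) := by
    rw [← hr, ← hr']
  have h3 : ((Real.sqrt 3 : ℝ) : ℂ) * I ≠ 0 := by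
    refine mul_ne_zero ?_ I_ne_zero
    exact_mod_cast (Real.sqrt_pos.2 (by norm_num)).ne'
  have hv : vert j ≠ 0 := pow_ne_zero _ (by
    intro h0
    have := tau_cube
    rw [h0] at this
    norm_num at this)
  have h4 : (r : ℂ) = r' * tau := by
    have : (r : ℂ) * (vert j * ((Real.sqrt 3 : ℝ) * I)) = (r' * tau) * (vert j * ((Real.sqrt 3 : ℝ) * I)) := by
      rw [h1, vert, vert, pow_succ]; ring
    exact mul_right_cancel₀ (mul_ne_zero hv h3) this
  have h5 := congrArg Complex.im h4
  rw [ofReal_im, re_ofReal_mul_im] at h5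
  have h6 : r' = 0 := by
    have ht : tau.im ≠ 0 := by
      unfold tau
      simp
    rcases mul_eq_zero.1 h5.symm with h | h
    · exact h
    · exact absurd h ht
  apply hne
  rw [h6, ofReal_zero, zero_mul] at hr'
  exact sub_eq_zero.1 hr'
  where
  re_ofReal_mul_im {r : ℝ} {z : ℂ} : ((r : ℂ) * z).im = r * z.im := by
    rw [im_ofReal_mul]

section

variable {ι : Type*} {l : Filter ι} {D : Set ℂ} {A : ℕ → Set ℂ} {F : ι → ℂ → ℂ}

/-- a limit along an ultrafilter solves the boundary value problem -/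
theorem sol_of_ultra (hAc : ∀ j, A j ⊆ closure D) {U : Ultrafilter ι} (hU : (U : Filter ι) ≤ l)
    (heq : AEC l (closure D) F)
    (hbd : ∀ j, ∀ z ∈ A j, Tendsto (fun i => infDist (F i z) (side j)) l (𝓝 0))
    (hol : ∀ U : Ultrafilter ι, (U : Filter ι) ≤ l → ∀ G : ℂ → ℂ,
      (∀ z ∈ D, Tendsto (fun i => F i z) U (𝓝 (G z))) → DifferentiableOn ℂ G D)
    {G : ℂ → ℂ} (hG : ∀ z ∈ closure D, Tendsto (fun i => F i z) U (𝓝 (G z))) : Sol D A G := by
  refine ⟨?_, hol U hU G fun z hz => hG z (subset_closure hz), fun j z hz => ?_⟩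
  · rw [Metric.continuousOn_iff]
    intro b hb ε hε
    obtain ⟨δ, hδ, h⟩ := heq (ε / 2) (by positivity)
    refine ⟨δ, hδ, fun a ha hab => ?_⟩
    have h1 : dist (G a) (G b) ≤ ε / 2 := by
      refine le_of_tendsto ((hG a ha).dist (hG b hb)) ?_
      filter_upwards [hU h] with i hi
      exact (hi a ha b hb hab).le
    linarith
  · have h1 : Tendsto (fun i => infDist (F i z) (side j)) U (𝓝 (infDist (G z) (side j))) :=
      ((continuous_infDist_pt (side j)).tendsto _).comp (hG z (hAc j hz))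
    have h2 := tendsto_nhds_unique h1 ((hbd j z hz).mono_left hU)
    exact ((side_closed j).mem_iff_infDist_zero (side_nonempty j)).2 h2

/-- **the end game**: convergence of the observable to the unique solution -/
theorem exists_limit [l.NeBot] (hD : IsOpen D) (hc : IsPreconnected D) (hb : Bornology.IsBounded D)
    (hA : frontier D ⊆ ⋃ j, A j) (hAc : ∀ j, A j ⊆ closure D) {z0 : ℂ} {j0 : ℕ} (hz0 : z0 ∈ A j0)
    (hz1 : z0 ∈ A (j0 + 1)) {C : ℝ} (hbound : ∀ i, ∀ z ∈ closure D, ‖F i z‖ ≤ C)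
    (heq : AEC l (closure D) F)
    (hbd : ∀ j, ∀ z ∈ A j, Tendsto (fun i => infDist (F i z) (side j)) l (𝓝 0))
    (hol : ∀ U : Ultrafilter ι, (U : Filter ι) ≤ l → ∀ G : ℂ → ℂ,
      (∀ z ∈ D, Tendsto (fun i => F i z) U (𝓝 (G z))) → DifferentiableOn ℂ G D) :
    ∃ G : ℂ → ℂ, Sol D A G ∧ TendstoUniformlyOn F G l (closure D) := by
  have hlim : ∀ U : Ultrafilter ι, ∀ z : ℂ, ∃ x : ℂ, z ∈ closure D → Tendsto (fun i => F i z) U (𝓝 x) := by
    intro U z
    by_cases hz : z ∈ closure D
    · obtain ⟨x, -, hx⟩ := (isCompact_closedBall (0 : ℂ) C).ultrafilter_le_nhds (U.map fun i => F i z)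
        (le_principal_iff.2 (Filter.mem_map.2 (Eventually.of_forall fun i => by
          simpa using hbound i z hz)))
      exact ⟨x, fun _ => hx⟩
    · exact ⟨0, fun h => absurd h hz⟩
  choose G hG using hlim
  have hS : ∀ U : Ultrafilter ι, (U : Filter ι) ≤ l → Sol D A (G U) := fun U hU =>
    sol_of_ultra hAc hU heq hbd hol fun z hz => hG U z hz
  have hEq : ∀ U V : Ultrafilter ι, (U : Filter ι) ≤ l → (V : Filter ι) ≤ l →
      EqOn (G U) (G V) (closure D) := by
    intro U V hU hV
    have h1 := hS U hU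
    have h2 := hS V hV
    exact Sol.unique hD hc hb hA h1 h2 (hAc j0 hz0)
      (side_inter (h1.bdry _ _ hz0) (h1.bdry _ _ hz1) (h2.bdry _ _ hz0) (h2.bdry _ _ hz1))
  let U0 : Ultrafilter ι := Ultrafilter.of l
  have hU0 : (U0 : Filter ι) ≤ l := Ultrafilter.of_le l
  have hpt : ∀ z ∈ closure D, Tendsto (fun i => F i z) l (𝓝 (G U0 z)) := by
    intro z hz
    rw [tendsto_iff_ultrafilter]
    intro V hV
    have h1 := hG V z hz
    rw [hEq V U0 hV hU0 hz] at h1
    exact h1
  refine ⟨G U0, hS U0 hU0, ?_⟩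
  -- uniformity
  rw [Metric.tendstoUniformlyOn_iff]
  intro ε hε
  obtain ⟨δ, hδ, h⟩ := heq (ε / 4) (by positivity)
  obtain ⟨δ', hδ', h'⟩ : ∃ δ' > 0, ∀ z ∈ closure D, ∀ w ∈ closure D, dist z w < δ' →
      dist (G U0 z) (G U0 w) < ε / 4 := by
    have hK : IsCompact (closure D) := hb.isCompact_closure
    have := hK.uniformContinuousOn_of_continuous (hS U0 hU0).cont
    rw [Metric.uniformContinuousOn_iff] at this
    obtain ⟨δ', hδ', h'⟩ := this (ε / 4) (by positivity)
    exact ⟨δ', hδ', fun z hz w hw hzw => h' z hz w hw hzw⟩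
  have hmin : 0 < min δ δ' := lt_min hδ hδ'
  obtain ⟨t, ht, hcover⟩ := hb.isCompact_closure.elim_finite_subcover_image (b := closure D)
    (c := fun z => ball z (min δ δ')) (fun _ _ => isOpen_ball)
    (fun z hz => mem_biUnion hz (mem_ball_self hmin))
  have hfin : ∀ᶠ i in l, ∀ z ∈ t, dist (F i z) (G U0 z) < ε / 4 := by
    rw [eventually_all_finite hcover.1]
    intro z hz
    exact Metric.tendsto_nhds.1 (hpt z (ht hz)) (ε / 4) (by positivity)
  filter_upwards [h, hfin] with i h1 h2 z hz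
  obtain ⟨w, hw, hzw⟩ := mem_iUnion₂.1 (hcover.2 hz)
  rw [mem_ball] at hzw
  have a1 := h1 z hz w (ht hw) (hzw.trans_le (min_le_left _ _))
  have a2 := h' z hz w (ht hw) (hzw.trans_le (min_le_right _ _))
  have a3 := h2 w hw
  calc dist (G U0 z) (F i z) ≤ dist (G U0 z) (G U0 w) + dist (G U0 w) (F i w) + dist (F i w) (F i z) :=
        dist_triangle4 _ _ _ _
    _ < ε := by
      have b1 := dist_comm (G U0 w) (F i w)
      have b2 := dist_comm (F i w) (F i z)
      linarith

end

/-- **conformal covariance** of the boundary value problem -/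
theorem Sol.comp {D D' : Set ℂ} {A A' : ℕ → Set ℂ} {G : ℂ → ℂ} (h : Sol D' A' G) {φ : ℂ → ℂ}
    (h1 : ContinuousOn φ (closure D)) (h2 : DifferentiableOn ℂ φ D) (h3 : MapsTo φ (closure D) (closure D'))
    (h4 : MapsTo φ D D') (h5 : ∀ j, MapsTo φ (A j) (A' j)) : Sol D A (G ∘ φ) where
  cont := h.cont.comp h1 h3
  diff := h.diff.comp h2 h4
  bdry j z hz := h.bdry j (φ z) (h5 j hz)

end Full
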