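import Pool.Agent.Full.End.Limit

/-!
# FULL, end game: two forms of Morera's theorem

* `holo_of_local`: a continuous function which is within `o(r)` of a holomorphic function on every ball of
  radius `r` is holomorphic.
* `holo_of_discrete`: a limit of functions which satisfy the discrete Cauchy-Riemann equation up to
  `o(mesh)` is holomorphic.
-/

set_option autoImplicit false

namespace Full

open Complex Set Filter Topology Metric MeasureTheory intervalIntegral
open scoped Interval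

/-- the integral of `f` over the boundary of the rectangle `[a, b] × [c, d]` -/
noncomputable def bint (f : ℂ → ℂ) (a b c d : ℝ) : ℂ :=
  ((∫ x in a..b, f (x + c * I)) - ∫ x in a..b, f (x + d * I)) +
    I * ((∫ y in c..d, f (b + y * I)) - ∫ y in c..d, f (a + y * I))

lemma rect_eq (z w : ℂ) : Rectangle z w = [[z.re, w.re]] ×ℂ [[z.im, w.im]] := rfl

lemma mem_rect {a b c d x y : ℝ} (hx : x ∈ [[a, b]]) (hy : y ∈ [[c, d]]) :
    (x : ℂ) + y * I ∈ [[a, b]] ×ℂ [[c, d]] := by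
  rw [mem_reProdIm]
  simp [hx, hy]

lemma bint_of_holo {f : ℂ → ℂ} {a b c d : ℝ} (hf : DifferentiableOn ℂ f ([[a, b]] ×ℂ [[c, d]])) :
    bint f a b c d = 0 := by
  have h := integral_boundary_rect_eq_zero_of_differentiableOn f (a + c * I) (b + d * I) (by
    simpa using hf)
  simp at h
  rw [bint, mul_sub]
  linear_combination h

/-- continuity along horizontal and vertical segments -/
lemma hor_cont {f : ℂ → ℂ} {a b c d y : ℝ} (hf : ContinuousOn f ([[a, b]] ×ℂ [[c, d]]))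
    (hy : y ∈ [[c, d]]) : ContinuousOn (fun x : ℝ => f (x + y * I)) [[a, b]] :=
  hf.comp (by fun_prop) fun _ hx => mem_rect hx hy

lemma ver_cont {f : ℂ → ℂ} {a b c d x : ℝ} (hf : ContinuousOn f ([[a, b]] ×ℂ [[c, d]]))
    (hx : x ∈ [[a, b]]) : ContinuousOn (fun y : ℝ => f (x + y * I)) [[c, d]] :=
  hf.comp (by fun_prop) fun _ hy => mem_rect hx hy

lemma bint_sub {f g : ℂ → ℂ} {a b c d : ℝ} (hf : ContinuousOn f ([[a, b]] ×ℂ [[c, d]]))
    (hg : ContinuousOn g ([[a, b]] ×ℂ [[c, d]])) :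
    bint (fun z => f z - g z) a b c d = bint f a b c d - bint g a b c d := by
  have h1 := fun y hy => (hor_cont (y := y) hf hy).intervalIntegrable (μ := volume)
  have h2 := fun y hy => (hor_cont (y := y) hg hy).intervalIntegrable (μ := volume)
  have h3 := fun x hx => (ver_cont (x := x) hf hx).intervalIntegrable (μ := volume)
  have h4 := fun x hx => (ver_cont (x := x) hg hx).intervalIntegrable (μ := volume)
  rw [bint, bint, bint, integral_sub (h1 _ left_mem_uIcc) (h2 _ left_mem_uIcc),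
    integral_sub (h1 _ right_mem_uIcc) (h2 _ right_mem_uIcc),
    integral_sub (h3 _ left_mem_uIcc) (h4 _ left_mem_uIcc),
    integral_sub (h3 _ right_mem_uIcc) (h4 _ right_mem_uIcc)]
  ring

lemma bint_le {f : ℂ → ℂ} {a b c d κ : ℝ} (hf : ∀ z ∈ [[a, b]] ×ℂ [[c, d]], ‖f z‖ ≤ κ) :
    ‖bint f a b c d‖ ≤ 2 * κ * (|b - a| + |d - c|) := by
  have hh : ∀ y ∈ [[c, d]], ‖∫ x in a..b, f (x + y * I)‖ ≤ κ * |b - a| := fun y hy =>
    norm_integral_le_of_norm_le_const fun x hx => hf _ (mem_rect (uIoc_subset_uIcc hx) hy)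
  have hv : ∀ x ∈ [[a, b]], ‖∫ y in c..d, f (x + y * I)‖ ≤ κ * |d - c| := fun x hx =>
    norm_integral_le_of_norm_le_const fun y hy => hf _ (mem_rect hx (uIoc_subset_uIcc hy))
  have h1 := hh c left_mem_uIcc
  have h2 := hh d right_mem_uIcc
  have h3 := hv a left_mem_uIcc
  have h4 := hv b right_mem_uIcc
  have h5 := norm_sub_le (∫ x in a..b, f (x + c * I)) (∫ x in a..b, f (x + d * I))
  have h6 := norm_sub_le (∫ y in c..d, f (b + y * I)) (∫ y in c..d, f (a + y * I))
  rw [bint]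
  refine (norm_add_le _ _).trans ?_
  rw [norm_mul, norm_I, one_mul]
  linarith

/-- subdivision of a rectangle -/
lemma bint_grid {f : ℂ → ℂ} {a b c d : ℝ} (hf : ContinuousOn f ([[a, b]] ×ℂ [[c, d]])) (n : ℕ)
    (hn : 0 < n) {u v : ℕ → ℝ} (hu : ∀ j, u j = a + j * ((b - a) / n)) (hv : ∀ k, v k = c + k * ((d - c) / n)) :
    bint f a b c d = ∑ j ∈ Finset.range n, ∑ k ∈ Finset.range n, bint f (u j) (u (j + 1)) (v k) (v (k + 1)) := by
  have hn0 : (0 : ℝ) < n := by exact_mod_cast hn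
  have mem : ∀ (p q : ℝ) (j : ℕ), j ≤ n → p + j * ((q - p) / n) ∈ [[p, q]] := by
    intro p q j hj
    have h1 : (j : ℝ) / n ∈ Icc (0 : ℝ) 1 :=
      ⟨by positivity, (div_le_one hn0).2 (by exact_mod_cast hj)⟩
    have h2 : p + j * ((q - p) / n) = p + (j / n) * (q - p) := by ring
    rw [h2, mem_uIcc]
    rcases le_total p q with h | h
    · left; constructor <;> nlinarith [h1.1, h1.2]
    · right; constructor <;> nlinarith [h1.1, h1.2]
  have u0 : u 0 = a := by rw [hu]; simp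
  have un : u n = b := by rw [hu]; field_simp; ring
  have v0 : v 0 = c := by rw [hv]; simp
  have vn : v n = d := by rw [hv]; field_simp; ring
  have um : ∀ j ≤ n, u j ∈ [[a, b]] := fun j hj => by rw [hu]; exact mem a b j hj
  have vm : ∀ k ≤ n, v k ∈ [[c, d]] := fun k hk => by rw [hv]; exact mem c d k hk
  have hor : ∀ y ∈ [[c, d]], ∑ j ∈ Finset.range n, ∫ x in u j..u (j + 1), f (x + y * I) =
      ∫ x in a..b, f (x + y * I) := by
    intro y hy
    have := sum_integral_adjacent_intervals (f := fun x : ℝ => f (x + y * I)) (μ := volume) (a := u) (n := n)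
      (fun j hj => ((hor_cont hf hy).mono
        (uIcc_subset_uIcc (um j hj.le) (um (j + 1) hj))).intervalIntegrable)
    rw [this, u0, un]
  have ver : ∀ x ∈ [[a, b]], ∑ k ∈ Finset.range n, ∫ y in v k..v (k + 1), f (x + y * I) =
      ∫ y in c..d, f (x + y * I) := by
    intro x hx
    have := sum_integral_adjacent_intervals (f := fun y : ℝ => f (x + y * I)) (μ := volume) (a := v) (n := n)
      (fun k hk => ((ver_cont hf hx).mono
        (uIcc_subset_uIcc (vm k hk.le) (vm (k + 1) hk))).intervalIntegrable)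
    rw [this, v0, vn]
  simp only [bint]
  simp only [Finset.sum_add_distrib]
  congr 1
  · rw [← hor c left_mem_uIcc, ← hor d right_mem_uIcc, ← Finset.sum_sub_distrib]
    refine Finset.sum_congr rfl fun j _ => ?_
    rw [Finset.sum_range_sub' (fun k => ∫ x in u j..u (j + 1), f (x + (v k : ℝ) * I)), v0, vn]
  · rw [← ver a left_mem_uIcc, ← ver b right_mem_uIcc, ← Finset.sum_sub_distrib, Finset.mul_sum,
      Finset.sum_comm]
    refine Finset.sum_congr rfl fun k _ => ?_
    rw [← Finset.mul_sum, Finset.sum_range_sub (fun j => ∫ y in v k..v (k + 1), f ((u j : ℝ) + y * I)), u0, un]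

/-- Morera: a continuous function with vanishing integrals over rectangles is holomorphic -/
lemma holo_of_bint {U : Set ℂ} (hU : IsOpen U) {G : ℂ → ℂ} (hG : ContinuousOn G U)
    (h : ∀ a b c d : ℝ, a ≤ b → c ≤ d → [[a, b]] ×ℂ [[c, d]] ⊆ U → bint G a b c d = 0) :
    DifferentiableOn ℂ G U := by
  rw [← isConservativeOn_and_continuousOn_iff_isDifferentiableOn hU]
  refine ⟨?_, hG⟩
  intro z w hzw
  rw [← add_eq_zero_iff_eq_neg, wedgeIntegral_add_wedgeIntegral_eq]
  rw [rect_eq] at hzw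
  have key : bint G z.re w.re z.im w.im = 0 := by
    rcases le_total z.re w.re with h1 | h1 <;> rcases le_total z.im w.im with h2 | h2
    · exact h _ _ _ _ h1 h2 hzw
    · have := h z.re w.re w.im z.im h1 h2 (by rwa [uIcc_comm w.im])
      rw [bint] at this ⊢
      rw [integral_symm w.im z.im, integral_symm w.im z.im]
      linear_combination -this
    · have := h w.re z.re z.im w.im h1 h2 (by rwa [uIcc_comm w.re])
      rw [bint] at this ⊢
      rw [integral_symm w.re z.re, integral_symm w.re z.re]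
      linear_combination -this
    · have := h w.re z.re w.im z.im h1 h2 (by rwa [uIcc_comm w.re, uIcc_comm w.im])
      rw [bint] at this ⊢
      rw [integral_symm w.re z.re, integral_symm w.re z.re, integral_symm w.im z.im, integral_symm w.im z.im]
      linear_combination this
  rw [bint] at key
  simp only [smul_eq_mul]
  linear_combination key

/-- **local approximation** implies holomorphy -/
theorem holo_of_local {U : Set ℂ} (hU : IsOpen U) {G : ℂ → ℂ} (hG : ContinuousOn G U)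
    (h : ∀ K ⊆ U, IsCompact K → ∀ ε > 0, ∃ h0 > 0, ∀ r, 0 < r → r < h0 → ∀ c ∈ K, ∃ H : ℂ → ℂ,
      DifferentiableOn ℂ H (ball c r) ∧ ∀ z ∈ ball c r, ‖G z - H z‖ ≤ ε * r) :
    DifferentiableOn ℂ G U := by
  refine holo_of_bint hU hG fun a b c d hab hcd hR => ?_
  set L := (b - a) + (d - c) with hL
  have hL0 : 0 ≤ L := by linarith
  rcases hL0.eq_or_lt with hL1 | hL1
  · have e1 : b = a := by linarith
    have e2 : d = c := by linarith
    rw [bint, e1, e2]; simp
  have hK : IsCompact ([[a, b]] ×ℂ [[c, d]]) := isCompact_uIcc.reProdIm isCompact_uIcc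
  rw [← norm_eq_zero]
  refine le_antisymm (le_of_forall_pos_le_add fun η hη => ?_) (norm_nonneg _)
  rw [zero_add]
  set ε := η / (4 * L ^ 2) with hε
  have hε0 : 0 < ε := by positivity
  obtain ⟨h0, hh0, hloc⟩ := h _ hR hK ε hε0
  obtain ⟨n, hn⟩ := exists_nat_gt (2 * L / h0 + 1)
  have hn1 : (1 : ℝ) < n := by have : 0 ≤ 2 * L / h0 := by positivity
                               linarith
  have hn0 : 0 < n := by
    have : (0 : ℝ) < n := by linarith
    exact_mod_cast this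
  have hnr : (0 : ℝ) < n := by linarith
  set r := 2 * L / n with hr
  have hr0 : 0 < r := by positivity
  have hrh : r < h0 := by
    rw [hr, div_lt_iff₀ hnr]
    have : 2 * L / h0 < n := by linarith
    rw [div_lt_iff₀ hh0] at this
    linarith
  set u : ℕ → ℝ := fun j => a + j * ((b - a) / n) with hu
  set v : ℕ → ℝ := fun k => c + k * ((d - c) / n) with hv
  have hGR : ContinuousOn G ([[a, b]] ×ℂ [[c, d]]) := hG.mono hR
  rw [bint_grid hGR n hn0 (u := u) (v := v) (fun _ => rfl) (fun _ => rfl)]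
  have umem : ∀ j ≤ n, u j ∈ Icc a b := by
    intro j hj
    have h1 : (j : ℝ) / n ≤ 1 := (div_le_one hnr).2 (by exact_mod_cast hj)
    have h2 : u j = a + (j / n) * (b - a) := by simp only [hu]; ring
    have h3 : 0 ≤ (j : ℝ) / n := by positivity
    rw [h2]
    constructor <;> nlinarith
  have vmem : ∀ k ≤ n, v k ∈ Icc c d := by
    intro j hj
    have h1 : (j : ℝ) / n ≤ 1 := (div_le_one hnr).2 (by exact_mod_cast hj)
    have h2 : v j = c + (j / n) * (d - c) := by simp only [hv]; ring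
    have h3 : 0 ≤ (j : ℝ) / n := by positivity
    rw [h2]
    constructor <;> nlinarith
  have ustep : ∀ j, u (j + 1) - u j = (b - a) / n := by intro j; simp only [hu]; push_cast; ring
  have vstep : ∀ j, v (j + 1) - v j = (d - c) / n := by intro j; simp only [hv]; push_cast; ring
  have hba : 0 ≤ (b - a) / n := div_nonneg (by linarith) hnr.le
  have hdc : 0 ≤ (d - c) / n := div_nonneg (by linarith) hnr.le
  have hcell : ∀ j ∈ Finset.range n, ∀ k ∈ Finset.range n,
      ‖bint G (u j) (u (j + 1)) (v k) (v (k + 1))‖ ≤ η / n ^ 2 := by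
    intro j hj k hk
    rw [Finset.mem_range] at hj hk
    have cellsub : [[u j, u (j + 1)]] ×ℂ [[v k, v (k + 1)]] ⊆ [[a, b]] ×ℂ [[c, d]] := by
      refine reProdIm_subset_iff.2 (prod_mono ?_ ?_)
      · rw [uIcc_of_le hab, uIcc_of_le (by linarith [ustep j])]
        exact Icc_subset_Icc (umem j hj.le).1 (umem (j + 1) hj).2
      · rw [uIcc_of_le hcd, uIcc_of_le (by linarith [vstep k])]
        exact Icc_subset_Icc (vmem k hk.le).1 (vmem (k + 1) hk).2
    obtain ⟨H, hH, hGH⟩ := hloc r hr0 hrh ((u j : ℝ) + (v k : ℝ) * I)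
      (cellsub (mem_rect left_mem_uIcc left_mem_uIcc))
    have hball : [[u j, u (j + 1)]] ×ℂ [[v k, v (k + 1)]] ⊆ ball ((u j : ℝ) + (v k : ℝ) * I) r := by
      intro z hz
      rw [mem_reProdIm, uIcc_of_le (by linarith [ustep j]), uIcc_of_le (by linarith [vstep k])] at hz
      rw [mem_ball, dist_eq_norm]
      refine (norm_le_abs_re_add_abs_im _).trans_lt ?_
      have e1 : (z - ((u j : ℝ) + (v k : ℝ) * I)).re = z.re - u j := by simp
      have e2 : (z - ((u j : ℝ) + (v k : ℝ) * I)).im = z.im - v k := by simp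
      rw [e1, e2, abs_of_nonneg (by linarith [hz.1.1]), abs_of_nonneg (by linarith [hz.2.1])]
      have h1 : z.re - u j ≤ (b - a) / n := by linarith [hz.1.2, ustep j]
      have h2 : z.im - v k ≤ (d - c) / n := by linarith [hz.2.2, vstep k]
      have h3 : (b - a) / n + (d - c) / n = r / 2 := by rw [hr, hL]; ring
      linarith
    have e := bint_sub (hGR.mono cellsub) (hH.continuousOn.mono hball)
    rw [bint_of_holo (hH.mono hball), sub_zero] at e
    rw [← e]
    refine (bint_le (κ := ε * r) fun z hz => hGH z (hball hz)).trans (le_of_eq ?_)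
    rw [ustep, vstep, abs_of_nonneg hba, abs_of_nonneg hdc, hε, hr, ← add_div, ← hL]
    field_simp
    norm_num
  calc ‖∑ j ∈ Finset.range n, ∑ k ∈ Finset.range n, bint G (u j) (u (j + 1)) (v k) (v (k + 1))‖
      ≤ ∑ j ∈ Finset.range n, ∑ k ∈ Finset.range n, η / n ^ 2 :=
        (norm_sum_le _ _).trans (Finset.sum_le_sum fun j hj =>
          (norm_sum_le _ _).trans (Finset.sum_le_sum fun k hk => hcell j hj k hk))
    _ = η := by
        simp only [Finset.sum_const, Finset.card_range, nsmul_eq_mul]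
        field_simp

/-- row sums are close to integrals -/
lemma row_sum {g φ : ℝ → ℂ} {a b δ e ω C : ℝ} {M : ℕ} (hδ : 0 < δ) (he0 : 0 ≤ e) (h1 : a + M * δ ≤ b)
    (h2 : b ≤ a + (M + 1) * δ) (hg : ContinuousOn g (Icc a b)) (hω : ∀ x ∈ Icc a b, ∀ y ∈ Icc a b,
      |x - y| ≤ δ → ‖g x - g y‖ ≤ ω) (hC : ∀ x ∈ Icc a b, ‖g x‖ ≤ C)
    (he : ∀ j < M, ‖φ (a + j * δ) - g (a + j * δ)‖ ≤ e) :
    ‖δ * ∑ j ∈ Finset.range M, φ (a + j * δ) - ∫ x in a..b, g x‖ ≤ (b - a) * (e + ω) + C * δ := by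
  have hM0 : (0 : ℝ) ≤ M := Nat.cast_nonneg M
  have hab : a ≤ b := by nlinarith
  have hin : ∀ j ≤ M, a + j * δ ∈ Icc a b := by
    intro j hj
    have h3 : (j : ℝ) ≤ M := by exact_mod_cast hj
    constructor
    · have : 0 ≤ (j : ℝ) * δ := by positivity
      linarith
    · have : (j : ℝ) * δ ≤ M * δ := by gcongr
      linarith
  have hint : ∀ x ∈ Icc a b, ∀ y ∈ Icc a b, IntervalIntegrable g volume x y := fun x hx y hy =>
    (hg.mono (uIcc_subset_Icc hx hy)).intervalIntegrable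
  have hbm : b ∈ Icc a b := ⟨hab, le_rfl⟩
  have hsplit : ∫ x in a..b, g x =
      ∑ j ∈ Finset.range M, (∫ x in (a + j * δ)..(a + (j + 1 : ℕ) * δ), g x) + ∫ x in (a + M * δ)..b, g x := by
    rw [sum_integral_adjacent_intervals (a := fun j : ℕ => a + j * δ) (fun k hk =>
      hint _ (hin k hk.le) _ (hin (k + 1) hk)), integral_add_adjacent_intervals
      (hint _ (hin 0 (Nat.zero_le _)) _ (hin M le_rfl)) (hint _ (hin M le_rfl) _ hbm)]
    simp
  have e1 : δ * ∑ j ∈ Finset.range M, φ (a + j * δ) - ∫ x in a..b, g x =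
      (∑ j ∈ Finset.range M, (δ * φ (a + j * δ) - ∫ x in (a + j * δ)..(a + (j + 1 : ℕ) * δ), g x)) -
        ∫ x in (a + M * δ)..b, g x := by
    rw [hsplit, Finset.sum_sub_distrib, Finset.mul_sum]
    ring
  rw [e1]
  have hcell : ∀ j ∈ Finset.range M,
      ‖δ * φ (a + j * δ) - ∫ x in (a + j * δ)..(a + (j + 1 : ℕ) * δ), g x‖ ≤ δ * (e + ω) := by
    intro j hj
    rw [Finset.mem_range] at hj
    have hj0 := hin j hj.le
    have hj1 := hin (j + 1) hj
    have hstep : a + ((j + 1 : ℕ) : ℝ) * δ - (a + j * δ) = δ := by push_cast; ring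
    have e2 : δ * φ (a + j * δ) - ∫ x in (a + j * δ)..(a + (j + 1 : ℕ) * δ), g x =
        ∫ x in (a + j * δ)..(a + (j + 1 : ℕ) * δ), (φ (a + j * δ) - g x) := by
      rw [integral_sub intervalIntegrable_const (hint _ hj0 _ hj1), intervalIntegral.integral_const, hstep, real_smul]
    rw [e2]
    refine (intervalIntegral.norm_integral_le_of_norm_le_const (C := e + ω) fun x hx => ?_).trans (le_of_eq ?_)
    · have hle : a + j * δ ≤ a + ((j + 1 : ℕ) : ℝ) * δ := by linarith
      rw [uIoc_of_le hle] at hx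
      have hxI : x ∈ Icc a b := ⟨hj0.1.trans hx.1.le, hx.2.trans hj1.2⟩
      have h3 := he j hj
      have h4 := hω (a + j * δ) hj0 x hxI (by
        rw [abs_sub_comm, abs_of_nonneg (by linarith [hx.1])]
        linarith [hx.2])
      calc ‖φ (a + j * δ) - g x‖ = ‖(φ (a + j * δ) - g (a + j * δ)) + (g (a + j * δ) - g x)‖ := by
            congr 1; ring
        _ ≤ e + ω := (norm_add_le _ _).trans (add_le_add h3 h4)
    · rw [hstep, abs_of_pos hδ, mul_comm]
  have hlast : ‖∫ x in (a + M * δ)..b, g x‖ ≤ C * δ := by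
    have hmM := hin M le_rfl
    have hC0 : 0 ≤ C := (norm_nonneg _).trans (hC b hbm)
    refine (intervalIntegral.norm_integral_le_of_norm_le_const (C := C) fun x hx => ?_).trans ?_
    · rw [uIoc_of_le hmM.2] at hx
      exact hC x ⟨hmM.1.trans hx.1.le, hx.2⟩
    · rw [abs_of_nonneg (by linarith [hmM.2])]
      have : b - (a + M * δ) ≤ δ := by linarith
      gcongr
  have heω : M * (δ * (e + ω)) ≤ (b - a) * (e + ω) := by
    have hω0 : 0 ≤ ω := (norm_nonneg _).trans (hω b hbm b hbm (by simpa using hδ.le))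
    have : M * δ ≤ b - a := by linarith
    calc M * (δ * (e + ω)) = (M * δ) * (e + ω) := by ring
      _ ≤ (b - a) * (e + ω) := by gcongr
  refine (norm_sub_le _ _).trans ?_
  have hsum := (norm_sum_le _ _).trans (Finset.sum_le_sum hcell)
  rw [Finset.sum_const, Finset.card_range, nsmul_eq_mul] at hsum
  linarith

/-- asymptotic equicontinuity and pointwise convergence imply uniform convergence on compact sets -/
lemma unif_of_AEC {ι : Type*} {l : Filter ι} {S : Set ℂ} (hS : IsCompact S) {F : ι → ℂ → ℂ} {G : ℂ → ℂ}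
    (heq : AEC l S F) (hG : ∀ z ∈ S, Tendsto (fun i => F i z) l (𝓝 (G z))) (hGc : ContinuousOn G S) {ε : ℝ}
    (hε : 0 < ε) : ∀ᶠ i in l, ∀ z ∈ S, ‖F i z - G z‖ ≤ ε := by
  obtain ⟨δ, hδ, h⟩ := heq (ε / 4) (by positivity)
  obtain ⟨δ', hδ', h'⟩ : ∃ δ' > 0, ∀ z ∈ S, ∀ w ∈ S, dist z w < δ' → dist (G z) (G w) < ε / 4 := by
    have := hS.uniformContinuousOn_of_continuous hGc
    rw [Metric.uniformContinuousOn_iff] at this
    obtain ⟨δ', hδ', h'⟩ := this (ε / 4) (by positivity)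
    exact ⟨δ', hδ', fun z hz w hw hzw => h' z hz w hw hzw⟩
  have hmin : 0 < min δ δ' := lt_min hδ hδ'
  obtain ⟨t, ht, hcover⟩ := hS.elim_finite_subcover_image (b := S)
    (c := fun z => ball z (min δ δ')) (fun _ _ => isOpen_ball)
    (fun z hz => mem_biUnion hz (mem_ball_self hmin))
  have hfin : ∀ᶠ i in l, ∀ z ∈ t, dist (F i z) (G z) < ε / 4 := by
    rw [eventually_all_finite hcover.1]
    intro z hz
    exact Metric.tendsto_nhds.1 (hG z (ht hz)) (ε / 4) (by positivity)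
  filter_upwards [h, hfin] with i h1 h2 z hz
  obtain ⟨w, hw, hzw⟩ := mem_iUnion₂.1 (hcover.2 hz)
  rw [mem_ball] at hzw
  have a1 := h1 z hz w (ht hw) (hzw.trans_le (min_le_left _ _))
  have a2 := h' z hz w (ht hw) (hzw.trans_le (min_le_right _ _))
  have a3 := h2 w hw
  rw [← dist_eq_norm]
  have a4 := dist_triangle4 (F i z) (F i w) (G w) (G z)
  have a5 := dist_comm (G w) (G z)
  linarith

lemma AEC.mono {ι : Type*} {l l' : Filter ι} {S S' : Set ℂ} {F : ι → ℂ → ℂ} (h : AEC l S F) (hl : l' ≤ l)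
    (hS : S' ⊆ S) : AEC l' S' F := by
  intro ε hε
  obtain ⟨δ, hδ, h1⟩ := h ε hε
  refine ⟨δ, hδ, ?_⟩
  filter_upwards [hl h1] with i hi z hz w hw
  exact hi z (hS hz) w (hS hw)

/-- limits of asymptotically equicontinuous families are continuous -/
lemma cont_of_AEC {ι : Type*} {l : Filter ι} [l.NeBot] {S : Set ℂ} {F : ι → ℂ → ℂ} {G : ℂ → ℂ}
    (heq : AEC l S F) (hG : ∀ z ∈ S, Tendsto (fun i => F i z) l (𝓝 (G z))) : ContinuousOn G S := by
  rw [Metric.continuousOn_iff]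
  intro b hb ε hε
  obtain ⟨δ, hδ, h⟩ := heq (ε / 2) (by positivity)
  refine ⟨δ, hδ, fun a ha hab => ?_⟩
  have h1 : dist (G a) (G b) ≤ ε / 2 := by
    refine le_of_tendsto ((hG a ha).dist (hG b hb)) ?_
    filter_upwards [h] with i hi
    exact (hi a ha b hb hab).le
  linarith

/-- the telescoping identity behind the discrete theorem -/
lemma disc_tele (f : ℂ → ℂ) (a c δ : ℝ) (M M' : ℕ) :
    ∑ j ∈ Finset.range M, ∑ k ∈ Finset.range M',
      (f (((a + j * δ : ℝ) : ℂ) + ((c + (k + 1 : ℕ) * δ : ℝ) : ℂ) * I) -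
        f (((a + j * δ : ℝ) : ℂ) + ((c + k * δ : ℝ) : ℂ) * I) -
        I * (f (((a + (j + 1 : ℕ) * δ : ℝ) : ℂ) + ((c + k * δ : ℝ) : ℂ) * I) -
          f (((a + j * δ : ℝ) : ℂ) + ((c + k * δ : ℝ) : ℂ) * I))) =
    (∑ j ∈ Finset.range M, f (((a + j * δ : ℝ) : ℂ) + ((c + M' * δ : ℝ) : ℂ) * I) -
      ∑ j ∈ Finset.range M, f (((a + j * δ : ℝ) : ℂ) + (c : ℂ) * I)) -
    I * (∑ k ∈ Finset.range M', f (((a + M * δ : ℝ) : ℂ) + ((c + k * δ : ℝ) : ℂ) * I) -
      ∑ k ∈ Finset.range M', f ((a : ℂ) + ((c + k * δ : ℝ) : ℂ) * I)) := by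
  simp only [Finset.sum_sub_distrib, ← Finset.mul_sum]
  rw [← Finset.sum_sub_distrib, ← Finset.sum_sub_distrib (f := fun j : ℕ => ∑ k ∈ Finset.range M',
    f (((a + (j + 1 : ℕ) * δ : ℝ) : ℂ) + ((c + k * δ : ℝ) : ℂ) * I))]
  congr 1
  · rw [← Finset.sum_sub_distrib]
    refine Finset.sum_congr rfl fun j _ => ?_
    rw [← Finset.sum_sub_distrib,
      Finset.sum_range_sub (fun k : ℕ => f (((a + j * δ : ℝ) : ℂ) + ((c + k * δ : ℝ) : ℂ) * I))]
    simp
  · congr 1
    rw [Finset.sum_range_sub (fun j : ℕ => ∑ k ∈ Finset.range M',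
      f (((a + j * δ : ℝ) : ℂ) + ((c + k * δ : ℝ) : ℂ) * I))]
    simp

/-- **discrete Cauchy-Riemann equations** up to `o(mesh)` imply that the limit is holomorphic -/
theorem holo_of_discrete {ι : Type*} {l : Filter ι} [l.NeBot] {U : Set ℂ} (hU : IsOpen U) {F : ι → ℂ → ℂ}
    {δ : ι → ℝ} (hδ0 : ∀ᶠ i in l, 0 < δ i) (hδ : Tendsto δ l (𝓝 0))
    (heq : ∀ K ⊆ U, IsCompact K → AEC l K F)
    (hdisc : ∀ K ⊆ U, IsCompact K → ∀ ε > 0, ∀ᶠ i in l, ∀ p ∈ K,
      ‖F i (p + δ i * I) - F i p - I * (F i (p + δ i) - F i p)‖ ≤ ε * δ i) {G : ℂ → ℂ}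
    (hG : ∀ z ∈ U, Tendsto (fun i => F i z) l (𝓝 (G z))) : DifferentiableOn ℂ G U := by
  have hGc : ContinuousOn G U := by
    intro z hz
    obtain ⟨r, hr, hrU⟩ := Metric.nhds_basis_closedBall.mem_iff.1 (hU.mem_nhds hz)
    have h1 := cont_of_AEC (heq _ hrU (isCompact_closedBall z r)) (fun w hw => hG w (hrU hw))
    exact (h1.continuousAt (closedBall_mem_nhds z hr)).continuousWithinAt
  refine holo_of_bint hU hGc fun a b c d hab hcd hR => ?_
  have hK : IsCompact ([[a, b]] ×ℂ [[c, d]]) := isCompact_uIcc.reProdIm isCompact_uIcc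
  have hGR : ContinuousOn G ([[a, b]] ×ℂ [[c, d]]) := hGc.mono hR
  obtain ⟨C, hC⟩ := hK.exists_bound_of_continuousOn hGR
  set L := (b - a) + (d - c) with hL
  have hL0 : 0 ≤ L := by linarith
  rw [← norm_eq_zero]
  refine le_antisymm (le_of_forall_pos_le_add fun η hη => ?_) (norm_nonneg _)
  rw [zero_add]
  have hC0 : 0 ≤ C := (norm_nonneg _).trans (hC _ (mem_rect left_mem_uIcc left_mem_uIcc))
  -- parameters
  set ε := η / (8 * (L + 1)) with hε
  have hε0 : 0 < ε := by positivity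
  have hunif := unif_of_AEC hK (heq _ hR hK) (fun z hz => hG z (hR hz)) hGR (ε := ε / 2) (by positivity)
  obtain ⟨δ', hδ', h'⟩ : ∃ δ' > 0, ∀ z ∈ [[a, b]] ×ℂ [[c, d]], ∀ w ∈ [[a, b]] ×ℂ [[c, d]], dist z w < δ' →
      dist (G z) (G w) < ε / 2 := by
    have := hK.uniformContinuousOn_of_continuous hGR
    rw [Metric.uniformContinuousOn_iff] at this
    obtain ⟨δ', hδ', h'⟩ := this (ε / 2) (by positivity)
    exact ⟨δ', hδ', fun z hz w hw hzw => h' z hz w hw hzw⟩
  have hsmall : ∀ᶠ i in l, δ i < min δ' (η / (16 * (C + 1))) := by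
    have : 0 < min δ' (η / (16 * (C + 1))) := by positivity
    exact hδ.eventually (gt_mem_nhds this)
  have hdd := hdisc _ hR hK (η / (4 * (L + 1) ^ 2)) (by positivity)
  obtain ⟨i, h1, h2, h3, h4⟩ := (hδ0.and (hunif.and (hsmall.and hdd))).exists
  set t := δ i with ht
  have ht1 : t < δ' := h3.trans_le (min_le_left _ _)
  have ht2 : t < η / (16 * (C + 1)) := h3.trans_le (min_le_right _ _)
  set M := ⌊(b - a) / t⌋₊ with hM
  set M' := ⌊(d - c) / t⌋₊ with hM'
  have hba : 0 ≤ (b - a) / t := div_nonneg (by linarith) h1.le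
  have hdc : 0 ≤ (d - c) / t := div_nonneg (by linarith) h1.le
  have m1 : (M : ℝ) * t ≤ b - a := by
    have := Nat.floor_le hba
    rwa [le_div_iff₀ h1] at this
  have m2 : b - a ≤ ((M : ℝ) + 1) * t := by
    have := (Nat.lt_floor_add_one ((b - a) / t)).le
    rwa [div_le_iff₀ h1] at this
  have m3 : (M' : ℝ) * t ≤ d - c := by
    have := Nat.floor_le hdc
    rwa [le_div_iff₀ h1] at this
  have m4 : d - c ≤ ((M' : ℝ) + 1) * t := by
    have := (Nat.lt_floor_add_one ((d - c) / t)).le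
    rwa [div_le_iff₀ h1] at this
  have inx : ∀ j : ℕ, j ≤ M → a + j * t ∈ [[a, b]] := by
    intro j hj
    have h5 : (j : ℝ) * t ≤ M * t := by
      have : (j : ℝ) ≤ M := by exact_mod_cast hj
      gcongr
    rw [uIcc_of_le hab]
    constructor
    · have : 0 ≤ (j : ℝ) * t := by positivity
      linarith
    · linarith
  have iny : ∀ k : ℕ, k ≤ M' → c + k * t ∈ [[c, d]] := by
    intro j hj
    have h5 : (j : ℝ) * t ≤ M' * t := by
      have : (j : ℝ) ≤ M' := by exact_mod_cast hj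
      gcongr
    rw [uIcc_of_le hcd]
    constructor
    · have : 0 ≤ (j : ℝ) * t := by positivity
      linarith
    · linarith
  -- the double sum is small
  have hsum : ‖t * ((∑ j ∈ Finset.range M, F i (((a + j * t : ℝ) : ℂ) + ((c + M' * t : ℝ) : ℂ) * I) -
      ∑ j ∈ Finset.range M, F i (((a + j * t : ℝ) : ℂ) + (c : ℂ) * I)) -
    I * (∑ k ∈ Finset.range M', F i (((a + M * t : ℝ) : ℂ) + ((c + k * t : ℝ) : ℂ) * I) -
      ∑ k ∈ Finset.range M', F i ((a : ℂ) + ((c + k * t : ℝ) : ℂ) * I)))‖ ≤ η / 4 := by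
    rw [← disc_tele, norm_mul, Complex.norm_real, Real.norm_eq_abs, abs_of_pos h1]
    have h5 : ‖∑ j ∈ Finset.range M, ∑ k ∈ Finset.range M',
      (F i (((a + j * t : ℝ) : ℂ) + ((c + (k + 1 : ℕ) * t : ℝ) : ℂ) * I) -
        F i (((a + j * t : ℝ) : ℂ) + ((c + k * t : ℝ) : ℂ) * I) -
        I * (F i (((a + (j + 1 : ℕ) * t : ℝ) : ℂ) + ((c + k * t : ℝ) : ℂ) * I) -
          F i (((a + j * t : ℝ) : ℂ) + ((c + k * t : ℝ) : ℂ) * I)))‖ ≤
        ∑ j ∈ Finset.range M, ∑ k ∈ Finset.range M', (η / (4 * (L + 1) ^ 2)) * t := by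
      refine (norm_sum_le _ _).trans (Finset.sum_le_sum fun j hj => (norm_sum_le _ _).trans
        (Finset.sum_le_sum fun k hk => ?_))
      rw [Finset.mem_range] at hj hk
      have h6 := h4 _ (mem_rect (inx j hj.le) (iny k hk.le))
      have e1 : ((a + j * t : ℝ) : ℂ) + ((c + (k + 1 : ℕ) * t : ℝ) : ℂ) * I =
          ((a + j * t : ℝ) : ℂ) + ((c + k * t : ℝ) : ℂ) * I + t * I := by push_cast; ring
      have e2 : ((a + (j + 1 : ℕ) * t : ℝ) : ℂ) + ((c + k * t : ℝ) : ℂ) * I =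
          ((a + j * t : ℝ) : ℂ) + ((c + k * t : ℝ) : ℂ) * I + t := by push_cast; ring
      rw [e1, e2]
      exact h6
    have h7 : t * (∑ j ∈ Finset.range M, ∑ k ∈ Finset.range M', (η / (4 * (L + 1) ^ 2)) * t) ≤ η / 4 := by
      simp only [Finset.sum_const, Finset.card_range, nsmul_eq_mul]
      have h8 : t * (M * (M' * (η / (4 * (L + 1) ^ 2) * t))) = (M * t) * (M' * t) * (η / (4 * (L + 1) ^ 2)) := by
        ring
      rw [h8]
      have h9 : (M * t) * (M' * t) ≤ (L + 1) ^ 2 := by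
        have q1 : (M : ℝ) * t ≤ L + 1 := by linarith
        have q2 : (M' : ℝ) * t ≤ L + 1 := by linarith
        rw [sq]
        gcongr
      calc (M * t) * (M' * t) * (η / (4 * (L + 1) ^ 2)) ≤ (L + 1) ^ 2 * (η / (4 * (L + 1) ^ 2)) := by gcongr
        _ = η / 4 := by field_simp
    calc t * _ ≤ t * _ := mul_le_mul_of_nonneg_left h5 h1.le
      _ ≤ η / 4 := h7
  -- the four sides
  have hω : ∀ z ∈ [[a, b]] ×ℂ [[c, d]], ∀ w ∈ [[a, b]] ×ℂ [[c, d]], dist z w ≤ t → ‖G z - G w‖ ≤ ε / 2 := by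
    intro z hz w hw hzw
    rw [← dist_eq_norm]
    exact (h' z hz w hw (hzw.trans_lt ht1)).le
  have bd : ∀ z ∈ [[a, b]] ×ℂ [[c, d]], ∀ w ∈ [[a, b]] ×ℂ [[c, d]], dist z w ≤ t → ‖F i z - G w‖ ≤ ε := by
    intro z hz w hw hzw
    have q1 := h2 z hz
    have q2 := hω z hz w hw hzw
    calc ‖F i z - G w‖ = ‖(F i z - G z) + (G z - G w)‖ := by congr 1; ring
      _ ≤ ε / 2 + ε / 2 := (norm_add_le _ _).trans (add_le_add q1 q2)
      _ = ε := by ring
  have icc1 : Icc a b = [[a, b]] := (uIcc_of_le hab).symm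
  have icc2 : Icc c d = [[c, d]] := (uIcc_of_le hcd).symm
  have dx : ∀ x x' : ℝ, ∀ y : ℝ, dist ((x : ℂ) + y * I) ((x' : ℂ) + y * I) = |x - x'| := by
    intro x x' y
    rw [dist_eq_norm, add_sub_add_right_eq_sub, ← ofReal_sub, Complex.norm_real, Real.norm_eq_abs]
  have dy : ∀ x : ℝ, ∀ y y' : ℝ, dist ((x : ℂ) + y * I) ((x : ℂ) + y' * I) = |y - y'| := by
    intro x y y'
    rw [dist_eq_norm, add_sub_add_left_eq_sub, ← sub_mul, ← ofReal_sub, norm_mul, norm_I, mul_one,
      Complex.norm_real, Real.norm_eq_abs]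
  have hor : ∀ y ∈ [[c, d]], ∀ y' ∈ [[c, d]], |y' - y| ≤ t →
      ‖t * ∑ j ∈ Finset.range M, F i (((a + j * t : ℝ) : ℂ) + (y' : ℂ) * I) - ∫ x in a..b, G (x + y * I)‖ ≤
        (b - a) * (ε + ε / 2) + C * t := by
    intro y hy y' hy' hyy
    refine row_sum (g := fun x => G (x + y * I)) (φ := fun x => F i (x + y' * I)) h1 hε0.le
      (by linarith) (by linarith) ?_ ?_ ?_ ?_
    · rw [icc1]; exact hor_cont hGR hy
    · intro x hx x' hx' hxx
      rw [icc1] at hx hx'
      exact hω _ (mem_rect hx hy) _ (mem_rect hx' hy) (by rw [dx]; exact hxx)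
    · intro x hx
      rw [icc1] at hx
      exact hC _ (mem_rect hx hy)
    · intro j hj
      exact bd _ (mem_rect (inx j hj.le) hy') _ (mem_rect (inx j hj.le) hy) (by rw [dy]; exact hyy)
  have ver : ∀ x ∈ [[a, b]], ∀ x' ∈ [[a, b]], |x' - x| ≤ t →
      ‖t * ∑ k ∈ Finset.range M', F i ((x' : ℂ) + ((c + k * t : ℝ) : ℂ) * I) - ∫ y in c..d, G (x + y * I)‖ ≤
        (d - c) * (ε + ε / 2) + C * t := by
    intro x hx x' hx' hxx
    refine row_sum (g := fun y => G (x + y * I)) (φ := fun y => F i (x' + y * I)) h1 hε0.le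
      (by linarith) (by linarith) ?_ ?_ ?_ ?_
    · rw [icc2]; exact ver_cont hGR hx
    · intro y hy y' hy' hyy
      rw [icc2] at hy hy'
      exact hω _ (mem_rect hx hy) _ (mem_rect hx hy') (by rw [dy]; exact hyy)
    · intro y hy
      rw [icc2] at hy
      exact hC _ (mem_rect hx hy)
    · intro j hj
      exact bd _ (mem_rect hx' (iny j hj.le)) _ (mem_rect hx (iny j hj.le)) (by rw [dx]; exact hxx)
  have q1 := hor c left_mem_uIcc c left_mem_uIcc (by simpa using h1.le)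
  have q2 := hor d right_mem_uIcc (c + M' * t) (iny M' le_rfl) (by
    rw [abs_sub_comm, abs_of_nonneg (by linarith)]; linarith)
  have q3 := ver b right_mem_uIcc (a + M * t) (inx M le_rfl) (by
    rw [abs_sub_comm, abs_of_nonneg (by linarith)]; linarith)
  have q4 := ver a left_mem_uIcc a left_mem_uIcc (by simpa using h1.le)
  set S1 := ∑ j ∈ Finset.range M, F i (((a + j * t : ℝ) : ℂ) + (c : ℂ) * I)
  set S2 := ∑ j ∈ Finset.range M, F i (((a + j * t : ℝ) : ℂ) + ((c + M' * t : ℝ) : ℂ) * I)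
  set S3 := ∑ k ∈ Finset.range M', F i (((a + M * t : ℝ) : ℂ) + ((c + k * t : ℝ) : ℂ) * I)
  set S4 := ∑ k ∈ Finset.range M', F i ((a : ℂ) + ((c + k * t : ℝ) : ℂ) * I)
  have e : bint G a b c d = -(t * ((S2 - S1) - I * (S3 - S4))) - (t * S1 - ∫ x in a..b, G (x + c * I)) +
      (t * S2 - ∫ x in a..b, G (x + d * I)) - I * (t * S3 - ∫ y in c..d, G (b + y * I)) +
      I * (t * S4 - ∫ y in c..d, G (a + y * I)) := by
    rw [bint]; ring
  rw [e]
  have n1 : ∀ x y z u v : ℂ, ‖-x - y + z - I * u + I * v‖ ≤ ‖x‖ + ‖y‖ + ‖z‖ + ‖u‖ + ‖v‖ := by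
    intro x y z u v
    calc ‖-x - y + z - I * u + I * v‖ ≤ ‖-x - y + z - I * u‖ + ‖I * v‖ := norm_add_le _ _
      _ ≤ ‖-x - y + z‖ + ‖I * u‖ + ‖I * v‖ := by gcongr; exact norm_sub_le _ _
      _ ≤ ‖-x - y‖ + ‖z‖ + ‖I * u‖ + ‖I * v‖ := by gcongr; exact norm_add_le _ _
      _ ≤ ‖-x‖ + ‖y‖ + ‖z‖ + ‖I * u‖ + ‖I * v‖ := by gcongr; exact norm_sub_le _ _
      _ = _ := by rw [norm_neg, norm_mul, norm_mul, norm_I, one_mul, one_mul]
  refine (n1 _ _ _ _ _).trans ?_
  have hCt : C * t ≤ η / 16 := by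
    have : (C + 1) * t ≤ η / 16 := by
      rw [lt_div_iff₀ (by positivity)] at ht2
      linarith
    nlinarith
  have hεL : 2 * (L * (ε + ε / 2)) ≤ 3 * η / 8 := by
    rw [hε]
    have : L / (L + 1) ≤ 1 := (div_le_one (by positivity)).2 (by linarith)
    calc 2 * (L * (η / (8 * (L + 1)) + η / (8 * (L + 1)) / 2)) = 3 * η / 8 * (L / (L + 1)) := by
          field_simp; ring
      _ ≤ 3 * η / 8 * 1 := by gcongr
      _ = 3 * η / 8 := by ring
  have hLL : L * (ε + ε / 2) = (b - a) * (ε + ε / 2) + (d - c) * (ε + ε / 2) := by rw [hL]; ring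
  linarith

end Full
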