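import Pool.Agent.Full.End.Morera

/-!
# FULL, end game: Morera's theorem with slabs

The rectangle is cut into horizontal slabs; on the `k`-th slab `G` is within `p k` of a holomorphic function
and the SUM of the `p k` is small.
-/

set_option autoImplicit false

namespace Full

open Complex Set Filter Topology Metric MeasureTheory intervalIntegral
open scoped Interval

lemma bint_of_holo' {f : ℂ → ℂ} {a b c d : ℝ} (hc : ContinuousOn f ([[a, b]] ×ℂ [[c, d]]))
    (hf : DifferentiableOn ℂ f (Ioo (min a b) (max a b) ×ℂ Ioo (min c d) (max c d))) :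
    bint f a b c d = 0 := by
  have h := integral_boundary_rect_eq_zero_of_continuousOn_of_differentiableOn f (a + c * I) (b + d * I)
    (by simpa using hc) (by simpa using hf)
  simp at h
  rw [bint, mul_sub]
  linear_combination h

/-- subdivision into horizontal slabs -/
lemma bint_slabs {f : ℂ → ℂ} {a b c d : ℝ} (hf : ContinuousOn f ([[a, b]] ×ℂ [[c, d]])) (n : ℕ)
    {v : ℕ → ℝ} (v0 : v 0 = c) (vn : v n = d) (vm : ∀ k ≤ n, v k ∈ [[c, d]]) :
    bint f a b c d = ∑ k ∈ Finset.range n, bint f a b (v k) (v (k + 1)) := by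
  have ver : ∀ x ∈ [[a, b]], ∑ k ∈ Finset.range n, ∫ y in v k..v (k + 1), f (x + y * I) =
      ∫ y in c..d, f (x + y * I) := by
    intro x hx
    have := sum_integral_adjacent_intervals (f := fun y : ℝ => f (x + y * I)) (μ := volume) (a := v) (n := n)
      (fun k hk => ((ver_cont hf hx).mono
        (uIcc_subset_uIcc (vm k hk.le) (vm (k + 1) hk))).intervalIntegrable)
    rw [this, v0, vn]
  simp only [bint]
  rw [Finset.sum_add_distrib, ← Finset.mul_sum, Finset.sum_sub_distrib (f := fun k => ∫ y in v k..v (k + 1), f (b + y * I)),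
    ver b right_mem_uIcc, ver a left_mem_uIcc,
    Finset.sum_range_sub' (fun k => ∫ x in a..b, f (x + (v k : ℝ) * I)), v0, vn]

/-- **Morera with slabs**: on the `k`-th of `n` slabs `G` is within `p k` of a function which is continuous
on the closed slab and holomorphic inside, with `∑ p k ≤ η` -/
theorem holo_of_slabs {U : Set ℂ} (hU : IsOpen U) {G : ℂ → ℂ} (hG : ContinuousOn G U)
    (h : ∀ a b c d : ℝ, a < b → c < d → Icc a b ×ℂ Icc c d ⊆ U → ∀ η > 0, ∃ (n : ℕ) (v : ℕ → ℝ)
      (H : ℕ → ℂ → ℂ) (p : ℕ → ℝ), v 0 = c ∧ v n = d ∧ (∀ k < n, v k ≤ v (k + 1)) ∧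
      (∀ k < n, ContinuousOn (H k) (Icc a b ×ℂ Icc (v k) (v (k + 1)))) ∧
      (∀ k < n, DifferentiableOn ℂ (H k) (Ioo a b ×ℂ Ioo (v k) (v (k + 1)))) ∧
      (∀ k < n, ∀ z ∈ Icc a b ×ℂ Icc (v k) (v (k + 1)), ‖G z - H k z‖ ≤ p k) ∧
      ∑ k ∈ Finset.range n, p k ≤ η) : DifferentiableOn ℂ G U := by
  refine holo_of_bint hU hG fun a b c d hab hcd hR => ?_
  rcases hab.eq_or_lt with rfl | hab'
  · rw [bint]; simp
  rcases hcd.eq_or_lt with rfl | hcd'
  · rw [bint]; simp
  set L := (b - a) + (d - c) with hL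
  have hL1 : 0 < L := by linarith
  rw [← norm_eq_zero]
  refine le_antisymm (le_of_forall_pos_le_add fun η hη => ?_) (norm_nonneg _)
  rw [zero_add]
  have hR' := hR
  rw [uIcc_of_le hab, uIcc_of_le hcd] at hR'
  obtain ⟨n, v, H, p, v0, vn, vmono, hHc, hHd, hp, hsum⟩ := h a b c d hab' hcd' hR' (η / (2 * L)) (by positivity)
  have hGR : ContinuousOn G ([[a, b]] ×ℂ [[c, d]]) := hG.mono hR
  -- monotonicity of `v`
  have vle : ∀ k ≤ n, ∀ j ≤ k, v j ≤ v k := by
    intro k hk
    induction k with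
    | zero => intro j hj; rw [Nat.le_zero.1 hj]
    | succ k ih =>
      intro j hj
      rcases Nat.lt_or_ge k j with h1 | h1
      · have : j = k + 1 := by omega
        rw [this]
      · exact (ih (by omega) j h1).trans (vmono k (by omega))
  have vI : ∀ k ≤ n, v k ∈ Icc c d := fun k hk => ⟨v0 ▸ vle k hk 0 (Nat.zero_le _), vn ▸ vle n le_rfl k hk⟩
  have vm : ∀ k ≤ n, v k ∈ [[c, d]] := fun k hk => by rw [uIcc_of_le hcd]; exact vI k hk
  rw [bint_slabs hGR n v0 vn vm]
  have hcell : ∀ k ∈ Finset.range n, ‖bint G a b (v k) (v (k + 1))‖ ≤ 2 * p k * L := by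
    intro k hk
    rw [Finset.mem_range] at hk
    have hvk := vmono k hk
    have hc : ContinuousOn (H k) ([[a, b]] ×ℂ [[v k, v (k + 1)]]) := by
      rw [uIcc_of_le hab, uIcc_of_le hvk]; exact hHc k hk
    have hd : DifferentiableOn ℂ (H k) (Ioo (min a b) (max a b) ×ℂ Ioo (min (v k) (v (k + 1))) (max (v k) (v (k + 1)))) := by
      rw [min_eq_left hab, max_eq_right hab, min_eq_left hvk, max_eq_right hvk]; exact hHd k hk
    have hsub : [[a, b]] ×ℂ [[v k, v (k + 1)]] ⊆ [[a, b]] ×ℂ [[c, d]] := by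
      refine reProdIm_subset_iff.2 (prod_mono (le_refl _) ?_)
      exact uIcc_subset_uIcc (vm k hk.le) (vm (k + 1) hk)
    have e := bint_sub (hGR.mono hsub) hc
    rw [bint_of_holo' hc hd, sub_zero] at e
    rw [← e]
    refine (bint_le (κ := p k) fun z hz => hp k hk z (by
      rwa [uIcc_of_le hab, uIcc_of_le hvk] at hz)).trans ?_
    have hp0 : 0 ≤ p k := (norm_nonneg _).trans (hp k hk (a + v k * I) (by
      rw [mem_reProdIm]; simp [hab, hvk]))
    rw [abs_of_nonneg (by linarith), abs_of_nonneg (by linarith)]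
    have h1 : v (k + 1) - v k ≤ d - c := by linarith [(vI k hk.le).1, (vI (k + 1) hk).2]
    have h2 : (b - a) + (v (k + 1) - v k) ≤ L := by rw [hL]; linarith
    gcongr
  calc ‖∑ k ∈ Finset.range n, bint G a b (v k) (v (k + 1))‖ ≤ ∑ k ∈ Finset.range n, 2 * p k * L :=
        (norm_sum_le _ _).trans (Finset.sum_le_sum hcell)
    _ = 2 * L * ∑ k ∈ Finset.range n, p k := by rw [Finset.mul_sum]; exact Finset.sum_congr rfl fun _ _ => by ring
    _ ≤ 2 * L * (η / (2 * L)) := by gcongr
    _ = η := by field_simp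

end Full
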