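import Pool.Agent.Full.End.LPoly

/-!
# FULL, end game: winding numbers and interior of a simple closed lattice polygon

`sc n v p` is the winding number of the closed lattice walk `v 0, ..., v n = v 0` around the tile `p` (the
unit square with lower left corner `p`), computed with a ray to the left.  For a simple polygon it takes the
values `0, 1` (counterclockwise) or `0, -1` (clockwise); the tile to the left of every edge has winding
number `a`, the tile to the right `a - 1`, `a = 1` or `a = 0`; the interior and the exterior are connected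
through edges.
-/

set_option autoImplicit false

namespace Full

open Finset

/-- directions east, north, west, south -/
def dir : Fin 4 → ℤ × ℤ := ![(1, 0), (0, 1), (-1, 0), (0, -1)]

/-- the four tiles around a vertex: NE, NW, SW, SE; `quad w k` is to the left of the ray from `w` in
direction `k` -/
def quad (w : ℤ × ℤ) : Fin 4 → ℤ × ℤ := ![(w.1, w.2), (w.1 - 1, w.2), (w.1 - 1, w.2 - 1), (w.1, w.2 - 1)]

/-- contribution of the directed edge `(u, w)` to the winding number around the tile `p` -/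
def sphi (u w p : ℤ × ℤ) : ℤ :=
  (if u.1 = w.1 ∧ u.1 ≤ p.1 ∧ u.2 = p.2 + 1 ∧ w.2 = p.2 then 1 else 0) -
  (if u.1 = w.1 ∧ u.1 ≤ p.1 ∧ u.2 = p.2 ∧ w.2 = p.2 + 1 then 1 else 0)

/-- contribution of the directed edge `(u, w)` to the flow from `x` to `y` -/
def fl (u w x y : ℤ × ℤ) : ℤ :=
  (if (u.1 = x.1 ∧ u.2 = x.2) ∧ (w.1 = y.1 ∧ w.2 = y.2) then 1 else 0) -
  (if (u.1 = y.1 ∧ u.2 = y.2) ∧ (w.1 = x.1 ∧ w.2 = x.2) then 1 else 0)

/-- winding number around the tile `p` -/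
def sc (n : ℕ) (v : ℕ → ℤ × ℤ) (p : ℤ × ℤ) : ℤ := ∑ i ∈ range n, sphi (v i) (v (i + 1)) p

/-- net number of steps from `x` to `y` -/
def flow (n : ℕ) (v : ℕ → ℤ × ℤ) (x y : ℤ × ℤ) : ℤ := ∑ i ∈ range n, fl (v i) (v (i + 1)) x y

lemma Adj.cases {u w : ℤ × ℤ} (h : Adj u w) :
    (w.1 = u.1 + 1 ∧ w.2 = u.2) ∨ (w.1 = u.1 ∧ w.2 = u.2 + 1) ∨ (w.1 = u.1 - 1 ∧ w.2 = u.2) ∨
    (w.1 = u.1 ∧ w.2 = u.2 - 1) := by
  unfold Adj at h
  rcases abs_cases (u.1 - w.1) with ⟨h1, h2⟩ | ⟨h1, h2⟩ <;>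
  rcases abs_cases (u.2 - w.2) with ⟨h3, h4⟩ | ⟨h3, h4⟩ <;> omega

lemma Adj.exists_dir {u w : ℤ × ℤ} (h : Adj u w) : ∃ k : Fin 4, w = u + dir k := by
  rcases h.cases with ⟨h1, h2⟩ | ⟨h1, h2⟩ | ⟨h1, h2⟩ | ⟨h1, h2⟩
  · exact ⟨0, Prod.ext h1 (by simp [dir, h2])⟩
  · exact ⟨1, Prod.ext (by simp [dir, h1]) h2⟩
  · exact ⟨2, Prod.ext (by simp [dir, h1, sub_eq_add_neg]) (by simp [dir, h2])⟩
  · exact ⟨3, Prod.ext (by simp [dir, h1]) (by simp [dir, h2, sub_eq_add_neg])⟩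

lemma adj_dir (u : ℤ × ℤ) (k : Fin 4) : Adj u (u + dir k) := by
  unfold Adj
  fin_cases k <;> simp [dir]

lemma fl_anti (u w x y : ℤ × ℤ) : fl u w x y = -fl u w y x := by
  unfold fl
  ring

lemma flow_anti (n : ℕ) (v : ℕ → ℤ × ℤ) (x y : ℤ × ℤ) : flow n v x y = -flow n v y x := by
  unfold flow
  rw [← sum_neg_distrib]
  exact sum_congr rfl fun i _ => fl_anti _ _ _ _

/-- the indicator of a horizontal half line -/
def hfl (w a : ℤ × ℤ) : ℤ := if a.2 = w.2 ∧ a.1 ≤ w.1 then 1 else 0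

lemma phi_east {u u' w : ℤ × ℤ} (h : Adj u u') :
    sphi u u' (w.1, w.2) - sphi u u' (w.1, w.2 - 1) = fl u u' w (w.1 + 1, w.2) + (hfl w u' - hfl w u) := by
  obtain ⟨a, b⟩ := u
  obtain ⟨a', b'⟩ := u'
  obtain ⟨x, y⟩ := w
  have hc := h.cases
  clear h
  simp only [sphi, fl, hfl] at hc ⊢
  rcases hc with ⟨h1, h2⟩ | ⟨h1, h2⟩ | ⟨h1, h2⟩ | ⟨h1, h2⟩ <;> subst h1 h2 <;> split_ifs <;> omega

lemma phi_north {u u' w : ℤ × ℤ} (h : Adj u u') :
    sphi u u' (w.1 - 1, w.2) - sphi u u' (w.1, w.2) = fl u u' w (w.1, w.2 + 1) := by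
  obtain ⟨a, b⟩ := u
  obtain ⟨a', b'⟩ := u'
  obtain ⟨x, y⟩ := w
  have hc := h.cases
  clear h
  simp only [sphi, fl] at hc ⊢
  rcases hc with ⟨h1, h2⟩ | ⟨h1, h2⟩ | ⟨h1, h2⟩ | ⟨h1, h2⟩ <;> subst h1 h2 <;> split_ifs <;> omega

lemma phi_south {u u' w : ℤ × ℤ} (h : Adj u u') :
    sphi u u' (w.1, w.2 - 1) - sphi u u' (w.1 - 1, w.2 - 1) = fl u u' w (w.1, w.2 - 1) := by
  obtain ⟨a, b⟩ := u
  obtain ⟨a', b'⟩ := u'
  obtain ⟨x, y⟩ := w
  have hc := h.cases
  clear h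
  simp only [sphi, fl] at hc ⊢
  rcases hc with ⟨h1, h2⟩ | ⟨h1, h2⟩ | ⟨h1, h2⟩ | ⟨h1, h2⟩ <;> subst h1 h2 <;> split_ifs <;> omega

/-- closed lattice walks -/
structure CWalk (n : ℕ) (v : ℕ → ℤ × ℤ) : Prop where
  adj : ∀ i < n, Adj (v i) (v (i + 1))
  closed : v n = v 0

variable {n : ℕ} {v : ℕ → ℤ × ℤ}

lemma CWalk.east (h : CWalk n v) (w : ℤ × ℤ) :
    sc n v (w.1, w.2) - sc n v (w.1, w.2 - 1) = flow n v w (w.1 + 1, w.2) := by
  unfold sc flow
  rw [← sum_sub_distrib]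
  have h1 : ∑ i ∈ range n, (sphi (v i) (v (i + 1)) (w.1, w.2) - sphi (v i) (v (i + 1)) (w.1, w.2 - 1)) =
      ∑ i ∈ range n, (fl (v i) (v (i + 1)) w (w.1 + 1, w.2) + (hfl w (v (i + 1)) - hfl w (v i))) :=
    sum_congr rfl fun i hi => phi_east (h.adj i (mem_range.1 hi))
  rw [h1, sum_add_distrib, sum_range_sub (fun i => hfl w (v i)), h.closed, sub_self, add_zero]

lemma CWalk.north (h : CWalk n v) (w : ℤ × ℤ) :
    sc n v (w.1 - 1, w.2) - sc n v (w.1, w.2) = flow n v w (w.1, w.2 + 1) := by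
  unfold sc flow
  rw [← sum_sub_distrib]
  exact sum_congr rfl fun i hi => phi_north (h.adj i (mem_range.1 hi))

lemma CWalk.south (h : CWalk n v) (w : ℤ × ℤ) :
    sc n v (w.1, w.2 - 1) - sc n v (w.1 - 1, w.2 - 1) = flow n v w (w.1, w.2 - 1) := by
  unfold sc flow
  rw [← sum_sub_distrib]
  exact sum_congr rfl fun i hi => phi_south (h.adj i (mem_range.1 hi))

lemma CWalk.west (h : CWalk n v) (w : ℤ × ℤ) :
    sc n v (w.1 - 1, w.2 - 1) - sc n v (w.1 - 1, w.2) = flow n v w (w.1 - 1, w.2) := by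
  have h1 := h.east (w.1 - 1, w.2)
  simp only [sub_add_cancel] at h1
  rw [flow_anti]
  have h2 : flow n v (w.1 - 1, w.2) (w.1, w.2) = flow n v (w.1 - 1, w.2) w := rfl
  linarith

/-- crossing the ray from `w` in direction `k` counterclockwise changes the winding number by the flow -/
lemma CWalk.step (h : CWalk n v) (w : ℤ × ℤ) (k : Fin 4) :
    sc n v (quad w k) - sc n v (quad w (k - 1)) = flow n v w (w + dir k) := by
  fin_cases k
  · have h1 := h.east w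
    have e : w + dir 0 = (w.1 + 1, w.2) := Prod.ext rfl (by simp [dir])
    show sc n v (w.1, w.2) - sc n v (w.1, w.2 - 1) = flow n v w (w + dir 0)
    rw [e]; exact h1
  · have h1 := h.north w
    have e : w + dir 1 = (w.1, w.2 + 1) := Prod.ext (by simp [dir]) rfl
    show sc n v (w.1 - 1, w.2) - sc n v (w.1, w.2) = flow n v w (w + dir 1)
    rw [e]; exact h1
  · have h1 := h.west w
    have e : w + dir 2 = (w.1 - 1, w.2) := Prod.ext (by simp [dir, sub_eq_add_neg]) (by simp [dir])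
    show sc n v (w.1 - 1, w.2 - 1) - sc n v (w.1 - 1, w.2) = flow n v w (w + dir 2)
    rw [e]; exact h1
  · have h1 := h.south w
    have e : w + dir 3 = (w.1, w.2 - 1) := Prod.ext (by simp [dir]) (by simp [dir, sub_eq_add_neg])
    show sc n v (w.1, w.2 - 1) - sc n v (w.1 - 1, w.2 - 1) = flow n v w (w + dir 3)
    rw [e]; exact h1

lemma quad_shift (w : ℤ × ℤ) (k : Fin 4) : quad (w + dir k) (k + 1) = quad w k := by
  fin_cases k
  · show ((w + dir 0).1 - 1, (w + dir 0).2) = (w.1, w.2)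
    simp [dir]
  · show ((w + dir 1).1 - 1, (w + dir 1).2 - 1) = (w.1 - 1, w.2)
    simp [dir]
  · show ((w + dir 2).1, (w + dir 2).2 - 1) = (w.1 - 1, w.2 - 1)
    simp [dir, sub_eq_add_neg]
  · show ((w + dir 3).1, (w + dir 3).2) = (w.1, w.2 - 1)
    simp [dir, sub_eq_add_neg]

lemma quad_shift' (w : ℤ × ℤ) (k : Fin 4) : quad (w + dir k) (k + 2) = quad w (k - 1) := by
  fin_cases k
  · show ((w + dir 0).1 - 1, (w + dir 0).2 - 1) = (w.1, w.2 - 1)
    simp [dir]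
  · show ((w + dir 1).1, (w + dir 1).2 - 1) = (w.1, w.2)
    simp [dir]
  · show ((w + dir 2).1, (w + dir 2).2) = (w.1 - 1, w.2)
    simp [dir, sub_eq_add_neg]
  · show ((w + dir 3).1 - 1, (w + dir 3).2) = (w.1 - 1, w.2 - 1)
    simp [dir, sub_eq_add_neg]

lemma dir_inj {j k : Fin 4} (h : dir j = dir k) : j = k := by
  revert j k; decide

lemma dir_opp (k : Fin 4) : dir (k + 2) = -dir k := by
  revert k; decide

lemma flow_eq_zero {x y : ℤ × ℤ} (h : ∀ i < n, ¬ (v i = x ∧ v (i + 1) = y) ∧ ¬ (v i = y ∧ v (i + 1) = x)) :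
    flow n v x y = 0 := by
  unfold flow
  refine sum_eq_zero fun i hi => ?_
  obtain ⟨h1, h2⟩ := h i (mem_range.1 hi)
  unfold fl
  rw [if_neg (fun h3 => h1 ⟨Prod.ext h3.1.1 h3.1.2, Prod.ext h3.2.1 h3.2.2⟩),
    if_neg (fun h3 => h2 ⟨Prod.ext h3.1.1 h3.1.2, Prod.ext h3.2.1 h3.2.2⟩), sub_zero]

/-- simple closed lattice polygons -/
structure SPoly (n : ℕ) (v : ℕ → ℤ × ℤ) : Prop extends CWalk n v where
  three : 3 ≤ n
  inj : ∀ i < n, ∀ j < n, v i = v j → i = j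

/-- the index of the next edge -/
def nxe (n i : ℕ) : ℕ := if i + 1 = n then 0 else i + 1

lemma nx_lt {n i : ℕ} (hi : i < n) : nxe n i < n := by
  unfold nxe; split_ifs <;> omega

lemma SPoly.v_nx (h : SPoly n v) {i : ℕ} (_hi : i < n) : v (nxe n i) = v (i + 1) := by
  unfold nxe
  split_ifs with h1
  · rw [h1, h.closed]
  · rfl

/-- the only edges at the vertex `v (i + 1)` are the edges `i` and `nxe i` -/
lemma SPoly.edges_at (h : SPoly n v) {i : ℕ} (hi : i < n) {j : ℕ} (hj : j < n) :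
    (v j = v (i + 1) → j = nxe n i) ∧ (v (j + 1) = v (i + 1) → j = i) := by
  constructor
  · intro h1
    exact h.inj j hj _ (nx_lt hi) (by rw [h1, h.v_nx hi])
  · intro h1
    have h2 : nxe n j = nxe n i := h.inj _ (nx_lt hj) _ (nx_lt hi) (by rw [h.v_nx hi, h.v_nx hj, h1])
    unfold nxe at h2
    split_ifs at h2 <;> omega

/-- no backtracking -/
lemma SPoly.no_back (h : SPoly n v) {i : ℕ} (hi : i < n) : v (nxe n i + 1) ≠ v i := by
  intro h1
  have h3 := h.three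
  have h2 : nxe n (nxe n i) = i := h.inj _ (nx_lt (nx_lt hi)) _ hi (by rw [h.v_nx (nx_lt hi), h1])
  unfold nxe at h2
  split_ifs at h2 <;> omega

lemma SPoly.flow_zero (h : SPoly n v) {i : ℕ} (hi : i < n) {y : ℤ × ℤ} (h1 : y ≠ v i)
    (h2 : y ≠ v (nxe n i + 1)) : flow n v (v (i + 1)) y = 0 := by
  refine flow_eq_zero fun j hj => ⟨fun h3 => ?_, fun h3 => ?_⟩
  · have h4 := (h.edges_at hi hj).1 h3.1
    rw [h4] at h3
    exact h2 h3.2.symm
  · have h4 := (h.edges_at hi hj).2 h3.2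
    rw [h4] at h3
    exact h1 h3.1.symm

/-- the flow along an edge is one -/
lemma SPoly.flow_one (h : SPoly n v) {i : ℕ} (hi : i < n) : flow n v (v i) (v (i + 1)) = 1 := by
  unfold flow
  rw [sum_eq_single i]
  · unfold fl
    rw [if_pos ⟨⟨rfl, rfl⟩, ⟨rfl, rfl⟩⟩, if_neg]
    · norm_num
    · rintro ⟨⟨h1, h2⟩, -⟩
      have h3 := h.adj i hi
      unfold Adj at h3
      rw [h1, h2] at h3
      simp at h3
  · intro j hj hne
    have hj' := mem_range.1 hj
    unfold fl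
    rw [if_neg, if_neg]
    · norm_num
    · rintro ⟨⟨h1, h2⟩, h3, h4⟩
      have e1 : v j = v (i + 1) := Prod.ext h1 h2
      have e2 : v (j + 1) = v i := Prod.ext h3 h4
      have e3 := (h.edges_at hi hj').1 e1
      rw [e3] at e2
      exact h.no_back hi e2
    · rintro ⟨⟨h1, h2⟩, -⟩
      exact hne (h.inj j hj' i hi (Prod.ext h1 h2))
  · intro h1
    exact absurd (mem_range.2 hi) h1

end Full
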