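import Pool.Agent.Full.End.Gam

/-!
# FULL, end game: the region of a coarse polygon and the quadrilateral

`cA_*` : statements about `CApprox (gam q hx hy) a τ B t`.  `qr q u = (1 + I) * q u` : the point `q u` in the coordinates
of the tile lattice.
* `CApprox.near_in`, `near_nb` : the cells of the region are near the rectangle;
* `CApprox.int9` : cells far inside the rectangle are in the region, with their neighbours;
* `CApprox.on_arc` : the edges with `On j` are near the side `j` of the rectangle;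
* `fine_pt`, `fine_diag` : positions of the fine points and tiles.
-/

set_option autoImplicit false

open Set Filter Topology H47Perc Complex Metric

namespace Full

/-- `q` in the coordinates of the tile lattice -/
noncomputable def qr (q : ℂ → ℂ) (u : ℂ) : ℂ := (1 + I) * q u

lemma IsTame.qr {q : ℂ → ℂ} (hq : IsTame q) : IsTame (qr q) := by
  refine ⟨continuous_const.mul hq.cont, ?_, ?_⟩
  · intro x y h
    exact hq.inj (mul_left_cancel₀ one_add_I_ne h)
  · have h1 : IsOpenMap fun z : ℂ => (1 + I) * z := (Homeomorph.mulLeft₀ _ one_add_I_ne).isOpenMap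
    exact h1.comp hq.isOpenMap

lemma mem_qr_iff {q : ℂ → ℂ} {x : ℂ} {S : Set ℂ} : x ∈ q '' S ↔ (1 + I) * x ∈ Full.qr q '' S := by
  constructor
  · rintro ⟨u, hu, rfl⟩
    exact ⟨u, hu, rfl⟩
  · rintro ⟨u, hu, h⟩
    exact ⟨u, hu, mul_left_cancel₀ one_add_I_ne h⟩

/-- the closed rectangle -/
def cR (hx hy : ℝ) : Set ℂ := {u | |u.re - 1 / 2| ≤ hx ∧ |u.im - 1 / 2| ≤ hy}

/-- the open rectangle -/
def oR (hx hy : ℝ) : Set ℂ := {u | |u.re - 1 / 2| < hx ∧ |u.im - 1 / 2| < hy}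

/-- the closed sides of the rectangle: bottom, right, top, left -/
def sR (hx hy : ℝ) (j : Fin 4) : Set ℂ := {u | u ∈ cR hx hy ∧
  (![u.im = 1 / 2 - hy, u.re = 1 / 2 + hx, u.im = 1 / 2 + hy, u.re = 1 / 2 - hx] : Fin 4 → Prop) j}

lemma isCompact_cR (hx hy : ℝ) : IsCompact (cR hx hy) := by
  refine Metric.isCompact_of_isClosed_isBounded ?_ ?_
  · have e : cR hx hy = {u : ℂ | |u.re - 1 / 2| ≤ hx} ∩ {u : ℂ | |u.im - 1 / 2| ≤ hy} := rfl
    rw [e]
    exact (isClosed_le (by fun_prop) continuous_const).inter (isClosed_le (by fun_prop) continuous_const)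
  · refine (Metric.isBounded_iff_subset_closedBall 0).2 ⟨(hx + 1) + (hy + 1), fun u hu => ?_⟩
    rw [mem_closedBall, dist_zero_right]
    refine (norm_le_abs_add u).trans ?_
    have h1 := abs_le.1 hu.1
    have h2 := abs_le.1 hu.2
    have h3 : |u.re| ≤ hx + 1 := abs_le.2 ⟨by linarith, by linarith⟩
    have h4 : |u.im| ≤ hy + 1 := abs_le.2 ⟨by linarith, by linarith⟩
    linarith

lemma isOpen_oR (hx hy : ℝ) : IsOpen (oR hx hy) := by
  have e : oR hx hy = {u : ℂ | |u.re - 1 / 2| < hx} ∩ {u : ℂ | |u.im - 1 / 2| < hy} := rfl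
  rw [e]
  exact (isOpen_lt (by fun_prop) continuous_const).inter (isOpen_lt (by fun_prop) continuous_const)

lemma isCompact_sR (hx hy : ℝ) (j : Fin 4) : IsCompact (sR hx hy j) := by
  refine (isCompact_cR hx hy).inter_right (t := {u : ℂ | (![u.im = 1 / 2 - hy, u.re = 1 / 2 + hx,
    u.im = 1 / 2 + hy, u.re = 1 / 2 - hx] : Fin 4 → Prop) j}) ?_
  fin_cases j
  · exact isClosed_eq continuous_im continuous_const
  · exact isClosed_eq continuous_re continuous_const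
  · exact isClosed_eq continuous_im continuous_const
  · exact isClosed_eq continuous_re continuous_const

/-- the parameter intervals of the sides -/
def pI : Fin 4 → Set ℝ := ![Icc (1 / 2) (3 / 2), Icc (3 / 2) (5 / 2), Icc (5 / 2) (7 / 2), Iic (1 / 2) ∪ Ici (7 / 2)]

lemma gam_eq (q : ℂ → ℂ) (hx hy s : ℝ) : gam q hx hy s = Full.qr q (rect (1 / 2 + I / 2) hx hy (sqb s)) := rfl

lemma rect_mem_cR {hx hy : ℝ} (h1 : 0 ≤ hx) (h2 : 0 ≤ hy) {z : ℂ} (hz : z ∈ cs) :
    rect (1 / 2 + I / 2) hx hy z ∈ cR hx hy := by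
  refine ⟨?_, ?_⟩
  · simp only [rect, half_re]
    rw [add_sub_cancel_left, abs_mul, abs_of_nonneg h1]
    nlinarith [abs_nonneg z.re, hz.1]
  · simp only [rect, half_im]
    rw [add_sub_cancel_left, abs_mul, abs_of_nonneg h2]
    nlinarith [abs_nonneg z.im, hz.2]

lemma gam_mem {q : ℂ → ℂ} {hx hy : ℝ} (h1 : 0 ≤ hx) (h2 : 0 ≤ hy) (s : ℝ) : gam q hx hy s ∈ Full.qr q '' cR hx hy :=
  ⟨_, rect_mem_cR h1 h2 (sb_mem s).1, rfl⟩

lemma gam_notMem {q : ℂ → ℂ} (hq : IsTame q) {hx hy : ℝ} (h1 : 0 < hx) (h2 : 0 < hy) (s : ℝ) :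
    gam q hx hy s ∉ Full.qr q '' oR hx hy := by
  rintro ⟨u, hu, h⟩
  have h3 : u = rect (1 / 2 + I / 2) hx hy (sqb s) := hq.qr.inj h
  apply (sb_mem s).2
  subst h3
  obtain ⟨a, b⟩ := hu
  simp only [rect, half_re] at a
  simp only [rect, half_im] at b
  rw [add_sub_cancel_left, abs_mul, abs_of_pos h1] at a
  rw [add_sub_cancel_left, abs_mul, abs_of_pos h2] at b
  exact ⟨by nlinarith, by nlinarith⟩

lemma gam_side {q : ℂ → ℂ} {hx hy : ℝ} (h1 : 0 ≤ hx) (h2 : 0 ≤ hy) {j : Fin 4} {s : ℝ} (hs : s ∈ pI j) :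
    gam q hx hy s ∈ Full.qr q '' sR hx hy j := by
  refine ⟨_, ⟨rect_mem_cR h1 h2 (sb_mem s).1, ?_⟩, rfl⟩
  fin_cases j
  · show (rect (1 / 2 + I / 2) hx hy (sqb s)).im = 1 / 2 - hy
    have hs' : s ∈ Icc (1 / 2 : ℝ) (3 / 2) := hs
    rw [sb_bot hs'.1 hs'.2]
    simp only [rect, half_im]
    ring
  · show (rect (1 / 2 + I / 2) hx hy (sqb s)).re = 1 / 2 + hx
    have hs' : s ∈ Icc (3 / 2 : ℝ) (5 / 2) := hs
    rw [sb_right hs'.1 hs'.2]
    simp only [rect, half_re]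
    ring
  · show (rect (1 / 2 + I / 2) hx hy (sqb s)).im = 1 / 2 + hy
    have hs' : s ∈ Icc (5 / 2 : ℝ) (7 / 2) := hs
    rw [sb_top hs'.1 hs'.2]
    simp only [rect, half_im]
    ring
  · show (rect (1 / 2 + I / 2) hx hy (sqb s)).re = 1 / 2 - hx
    have hs' : s ∈ Iic (1 / 2 : ℝ) ∪ Ici (7 / 2) := hs
    rcases hs' with h | h
    · rw [sb_left h]
      simp only [rect, half_re]
      ring
    · rw [sb_left' h]
      simp only [rect, half_re]
      ring

/-! ### distances between cells -/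

lemma norm_tctr_sub {a : ℝ} (ha : 0 ≤ a) {p p' : ℤ × ℤ} (h1 : |p'.1 - p.1| ≤ 1) (h2 : |p'.2 - p.2| ≤ 1) :
    ‖tctr a p' - tctr a p‖ ≤ 2 * a := by
  refine (norm_le_abs_add _).trans ?_
  simp only [tctr, sub_re, sub_im]
  have e1 : a * ((p'.1 : ℝ) + 1 / 2) - a * (p.1 + 1 / 2) = a * ((p'.1 - p.1 : ℤ) : ℝ) := by push_cast; ring
  have e2 : a * ((p'.2 : ℝ) + 1 / 2) - a * (p.2 + 1 / 2) = a * ((p'.2 - p.2 : ℤ) : ℝ) := by push_cast; ring
  rw [e1, e2, abs_mul, abs_mul, abs_of_nonneg ha]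
  have h1' : |((p'.1 - p.1 : ℤ) : ℝ)| ≤ 1 := by
    rw [← Int.cast_abs]; exact_mod_cast h1
  have h2' : |((p'.2 - p.2 : ℤ) : ℝ)| ≤ 1 := by
    rw [← Int.cast_abs]; exact_mod_cast h2
  nlinarith

namespace CApprox
variable {q : ℂ → ℂ} {hx hy a τ : ℝ} {B : Coarse} {t : ℕ → ℝ}

/-- the cells of the region are near the rectangle -/
theorem near_in (hq : IsTame q) (h1 : 0 < hx) (h2 : 0 < hy) (h : CApprox (gam q hx hy) a τ B t) {p : ℤ × ℤ}
    (hp : B.In p) : ∃ u ∈ cR hx hy, ‖Full.qr q u - tctr a p‖ ≤ τ := by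
  by_contra hcon
  push Not at hcon
  have hτ : 0 ≤ τ := h.pos.le.trans h.le
  have h3 : sc B.n B.v p = 0 := by
    refine h.wn p (fun s _ => ?_) 0 ?_
    · obtain ⟨u, hu, hu2⟩ := gam_mem (q := q) h1.le h2.le s
      rw [← hu2]
      exact (hcon u hu).le
    · refine wn_gam_out hq h1 h2 fun u hu1 hu2 he => ?_
      have h4 := hcon u ⟨hu1, hu2⟩
      rw [he] at h4
      unfold Full.qr at h4
      rw [sub_self, norm_zero] at h4
      linarith
  unfold Coarse.In at hp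
  rw [h3] at hp
  exact absurd hp (by decide)

theorem near_nb (hq : IsTame q) (h1 : 0 < hx) (h2 : 0 < hy) (h : CApprox (gam q hx hy) a τ B t) {p : ℤ × ℤ}
    (hp : B.Nb p) : ∃ u ∈ cR hx hy, ‖Full.qr q u - tctr a p‖ ≤ 3 * τ := by
  obtain ⟨p', h3, h4, h5⟩ := hp
  obtain ⟨u, hu, h6⟩ := h.near_in hq h1 h2 h3
  refine ⟨u, hu, ?_⟩
  have h7 := norm_tctr_sub h.pos.le h4 h5
  calc ‖Full.qr q u - tctr a p‖ = ‖(Full.qr q u - tctr a p') + (tctr a p' - tctr a p)‖ := by congr 1; ring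
    _ ≤ τ + 2 * a := (norm_add_le _ _).trans (add_le_add h6 h7)
    _ ≤ 3 * τ := by have := h.le; linarith

/-- a cell whose centre is in the open rectangle, far from its complement, is in the region -/
theorem in_of_deep (hq : IsTame q) (h1 : 0 < hx) (h2 : 0 < hy) (h : CApprox (gam q hx hy) a τ B t) {p : ℤ × ℤ}
    (hp : ∀ z, ‖z - tctr a p‖ < τ → z ∈ Full.qr q '' oR hx hy) : B.In p := by
  have hτ : 0 < τ := h.pos.trans_le h.le
  obtain ⟨u, hu, hu2⟩ := hp (tctr a p) (by rw [sub_self, norm_zero]; exact hτ)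
  obtain ⟨m, hm, ho⟩ := exists_ori (hq.rect (1 / 2 + I / 2) h1 h2).cont (hq.rect (1 / 2 + I / 2) h1 h2).inj
  set u' : ℂ := ⟨(u.re - (1 / 2 + I / 2 : ℂ).re) / hx, (u.im - (1 / 2 + I / 2 : ℂ).im) / hy⟩ with hu'
  have e1 : rect (1 / 2 + I / 2) hx hy u' = u := exists_rect h1 h2 u
  have h4 : u' ∈ os := by
    refine ⟨?_, ?_⟩
    · rw [hu']
      simp only [half_re]
      rw [abs_div, abs_of_pos h1, div_lt_one h1]
      exact hu.1
    · rw [hu']
      simp only [half_im]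
      rw [abs_div, abs_of_pos h2, div_lt_one h2]
      exact hu.2
  have h5 := (ho u' h4).const_mul one_add_I_ne
  have e2 : (fun s => gam q hx hy s - tctr a p) = fun t => (1 + I) * ((q ∘ rect (1 / 2 + I / 2) hx hy) (sqb t) -
      (q ∘ rect (1 / 2 + I / 2) hx hy) u') := by
    funext s
    simp only [Function.comp_apply, e1, gam]
    rw [← hu2]
    unfold Full.qr
    ring
  rw [← e2] at h5
  have h6 := h.wn p (fun s _ => by
    by_contra hlt
    push Not at hlt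
    exact gam_notMem hq h1 h2 s (hp _ hlt)) m h5
  rcases B.ccw p with h7 | h7
  · rw [h7] at h6
    rw [← h6] at hm
    exact absurd hm (by decide)
  · exact h7

/-- for small `τ`: cells near the points of a compact subset of the open rectangle are in the region, with their
neighbours -/
theorem int9 (hq : IsTame q) (h1 : 0 < hx) (h2 : 0 < hy) {K : Set ℂ} (hK : IsCompact K) (hK2 : K ⊆ oR hx hy) :
    ∃ δ > 0, ∀ (a τ : ℝ) (B : Coarse) (t : ℕ → ℝ), τ ≤ δ → CApprox (gam q hx hy) a τ B t → ∀ p : ℤ × ℤ,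
      (∃ u ∈ K, ‖Full.qr q u - tctr a p‖ ≤ δ) → B.Int9 p := by
  obtain ⟨δ, hδ, hsub⟩ := (hK.image hq.qr.cont).exists_thickening_subset_open (hq.qr.isOpenMap _ (isOpen_oR hx hy))
    (image_mono hK2)
  refine ⟨δ / 5, by positivity, fun a τ B t hτ h p ⟨u, hu, hu2⟩ p' h3 h4 => ?_⟩
  refine h.in_of_deep hq h1 h2 fun z hz => hsub ?_
  rw [mem_thickening_iff]
  refine ⟨Full.qr q u, mem_image_of_mem _ hu, ?_⟩
  have h5 := norm_tctr_sub h.pos.le h3 h4
  have h6 := h.le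
  rw [dist_eq_norm]
  calc ‖z - Full.qr q u‖ = ‖(z - tctr a p') + (tctr a p' - tctr a p) - (Full.qr q u - tctr a p)‖ := by congr 1; ring
    _ ≤ ‖z - tctr a p'‖ + ‖tctr a p' - tctr a p‖ + ‖Full.qr q u - tctr a p‖ :=
        (norm_sub_le _ _).trans (add_le_add (norm_add_le _ _) le_rfl)
    _ < δ := by linarith

/-- labels of the edges of an arc -/
theorem label (h : CApprox (gam q hx hy) a τ B t) {j : Fin 4} {i : ℕ} (hi : B.On j i) :
    ∃ s ∈ pI j, |t i - s| ≤ τ := by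
  have hτ : 0 ≤ τ := h.pos.le.trans h.le
  have hmono := mono_of_step h.mono
  have m01 := B.m01
  have m12 := B.m12
  have m23 := B.m23
  have m3 := B.m3
  have k0 := abs_le.1 (h.mark 0)
  have k1 := abs_le.1 (h.mark 1)
  have k2 := abs_le.1 (h.mark 2)
  have k3 := abs_le.1 (h.mark 3)
  have e0 : (((0 : Fin 4) : ℕ) : ℝ) = 0 := by norm_num
  have e1 : (((1 : Fin 4) : ℕ) : ℝ) = 1 := by norm_num
  have e2 : (((2 : Fin 4) : ℕ) : ℝ) = 2 := by norm_num
  have e3 : (((3 : Fin 4) : ℕ) : ℝ) = 3 := by norm_num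
  rw [e0] at k0
  rw [e1] at k1
  rw [e2] at k2
  rw [e3] at k3
  have key : ∀ l r : ℝ, l ≤ r → l - τ ≤ t i → t i ≤ r + τ → ∃ s ∈ Icc l r, |t i - s| ≤ τ := by
    intro l r hlr hl hr
    refine ⟨max l (min r (t i)), ⟨le_max_left _ _, max_le hlr (min_le_left _ _)⟩, ?_⟩
    rw [abs_le]
    rcases le_total r (t i) with c | c
    · rw [min_eq_left c, max_eq_right hlr]
      constructor <;> linarith
    · rw [min_eq_right c]
      rcases le_total l (t i) with c' | c'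
      · rw [max_eq_right c', sub_self]
        constructor <;> linarith
      · rw [max_eq_left c']
        constructor <;> linarith
  obtain ⟨hin, hi⟩ := hi
  fin_cases j
  · have hi' : B.M 0 ≤ i ∧ i ≤ B.M 1 := hi
    have a1 := hmono _ _ hi'.1 hin.le
    have a2 := hmono _ _ hi'.2 (by omega)
    exact key _ _ (by norm_num) (by linarith) (by linarith)
  · have hi' : B.M 1 ≤ i ∧ i ≤ B.M 2 := hi
    have a1 := hmono _ _ hi'.1 hin.le
    have a2 := hmono _ _ hi'.2 (by omega)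
    exact key _ _ (by norm_num) (by linarith) (by linarith)
  · have hi' : B.M 2 ≤ i ∧ i ≤ B.M 3 := hi
    have a1 := hmono _ _ hi'.1 hin.le
    have a2 := hmono _ _ hi'.2 (by omega)
    exact key _ _ (by norm_num) (by linarith) (by linarith)
  · have hi' : i ≤ B.M 0 ∨ B.M 3 ≤ i := hi
    show ∃ s ∈ Iic (1 / 2 : ℝ) ∪ Ici (7 / 2), |t i - s| ≤ τ
    rcases hi' with hi' | hi'
    · have a1 := hmono _ _ hi' (by omega)
      refine ⟨min (1 / 2) (t i), Or.inl (mem_Iic.2 (min_le_left _ _)), ?_⟩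
      rw [abs_le]
      rcases le_total (1 / 2) (t i) with c | c
      · rw [min_eq_left c]; constructor <;> linarith
      · rw [min_eq_right c, sub_self]; constructor <;> linarith
    · have a1 := hmono _ _ hi' hin.le
      refine ⟨max (7 / 2) (t i), Or.inr (mem_Ici.2 (le_max_left _ _)), ?_⟩
      rw [abs_le]
      rcases le_total (7 / 2) (t i) with c | c
      · rw [max_eq_right c, sub_self]; constructor <;> linarith
      · rw [max_eq_left c]; constructor <;> linarith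

end CApprox

/-- uniform continuity of the boundary curve -/
theorem gam_uc {q : ℂ → ℂ} (hq : IsTame q) {hx hy : ℝ} {ρ : ℝ} (hρ : 0 < ρ) :
    ∃ δ > 0, ∀ s ∈ Icc (-1 : ℝ) 5, ∀ s' ∈ Icc (-1 : ℝ) 5, |s - s'| ≤ δ → ‖gam q hx hy s - gam q hx hy s'‖ ≤ ρ := by
  have h1 : UniformContinuousOn (gam q hx hy) (Icc (-1 : ℝ) 5) :=
    isCompact_Icc.uniformContinuousOn_of_continuous (continuous_gam hq).continuousOn
  rw [Metric.uniformContinuousOn_iff] at h1
  obtain ⟨δ, hδ, h2⟩ := h1 ρ hρ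
  refine ⟨δ / 2, by positivity, fun s hs s' hs' h => ?_⟩
  have h3 := h2 s hs s' hs' (by rw [Real.dist_eq]; linarith)
  rw [dist_eq_norm] at h3
  exact h3.le

/-- for small `τ`: the edges of the arc `j` are near the side `j` of the rectangle -/
theorem CApprox.on_arc {q : ℂ → ℂ} (hq : IsTame q) {hx hy : ℝ} (h1 : 0 < hx) (h2 : 0 < hy) {ρ : ℝ} (hρ : 0 < ρ) :
    ∃ δ > 0, ∀ (a τ : ℝ) (B : Coarse) (t : ℕ → ℝ), τ ≤ δ → CApprox (gam q hx hy) a τ B t → ∀ (j : Fin 4) (i : ℕ),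
      B.On j i → ∃ u ∈ sR hx hy j, ‖Full.qr q u - gp a (B.v i)‖ ≤ ρ := by
  obtain ⟨δ, hδ, huc⟩ := gam_uc (hx := hx) (hy := hy) hq (show 0 < ρ / 2 by positivity)
  refine ⟨min (min δ (ρ / 2)) 1, by positivity, fun a τ B t hτ h j i hi => ?_⟩
  have hτ1 : τ ≤ δ := hτ.trans ((min_le_left _ _).trans (min_le_left _ _))
  have hτ2 : τ ≤ ρ / 2 := hτ.trans ((min_le_left _ _).trans (min_le_right _ _))
  have hτ3 : τ ≤ 1 := hτ.trans (min_le_right _ _)
  obtain ⟨s, hs, hs2⟩ := h.label hi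
  obtain ⟨u, hu, hu2⟩ := gam_side (q := q) h1.le h2.le hs
  have h3 := h.mem i hi.1.le
  have h4 := h.close i hi.1.le
  have h5 := abs_le.1 hs2
  have h6 := huc s ⟨by linarith [h3.1], by linarith [h3.2]⟩ (t i) ⟨by linarith [h3.1], by linarith [h3.2]⟩
    (by rw [abs_sub_comm]; linarith)
  refine ⟨u, hu, ?_⟩
  rw [hu2]
  calc ‖gam q hx hy s - gp a (B.v i)‖
      = ‖(gam q hx hy s - gam q hx hy (t i)) - (gp a (B.v i) - gam q hx hy (t i))‖ := by congr 1; ring
    _ ≤ ρ / 2 + τ := (norm_sub_le _ _).trans (add_le_add h6 h4)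
    _ ≤ ρ := by linarith

/-! ### fine points and tiles -/

lemma one_add_I_mul_pt (ε : ℝ) (w : ℤ × ℤ) : (1 + I) * pt ε w = ⟨ε * w.1, ε * w.2⟩ := by
  apply Complex.ext
  · simp only [pt, mul_re, add_re, one_re, I_re, add_im, one_im, I_im]
    ring
  · simp only [pt, mul_im, add_re, one_re, I_re, add_im, one_im, I_im]
    ring

lemma gp_eq (a : ℝ) (v : ℤ × ℤ) : gp a v = (a : ℂ) * cp v := by
  apply Complex.ext <;> simp [gp, cp]

/-- position of the fine points -/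
theorem fine_pt {ε a : ℝ} {k : ℕ} (hk : 0 < k) (ha : 0 < a) (w v : ℤ × ℤ) :
    ‖(1 + I) * pt ε w - gp a v‖ ≤ a * ‖fp k w - cp v‖ + |k * ε - a| * (‖fp k w - cp v‖ + ‖gp a v‖ / a) := by
  have hk' : (k : ℝ) ≠ 0 := by positivity
  have e1 : (1 + I) * pt ε w = ((k * ε : ℝ) : ℂ) * fp k w := by
    rw [one_add_I_mul_pt]
    apply Complex.ext
    · simp only [fp, mul_re, ofReal_re, ofReal_im]
      field_simp
      ring
    · simp only [fp, mul_im, ofReal_re, ofReal_im]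
      field_simp
      ring
  have e2 : (1 + I) * pt ε w - gp a v = (a : ℂ) * (fp k w - cp v) + ((k * ε - a : ℝ) : ℂ) * ((fp k w - cp v) + cp v) := by
    rw [e1, gp_eq]
    push_cast
    ring
  have e3 : ‖gp a v‖ / a = ‖cp v‖ := by
    rw [gp_eq, norm_mul, Complex.norm_real, Real.norm_eq_abs, abs_of_pos ha]
    field_simp
  rw [e2, e3]
  refine (norm_add_le _ _).trans ?_
  rw [norm_mul, norm_mul, Complex.norm_real, Complex.norm_real, Real.norm_eq_abs, Real.norm_eq_abs, abs_of_pos ha]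
  gcongr
  exact norm_add_le _ _

lemma mem_diag_tile {ε : ℝ} {p : ℤ × ℤ} {x : ℂ} (hx : x ∈ diag ε p) :
    ∃ y : ℂ, ((p.1 : ℝ) ≤ y.re ∧ y.re ≤ p.1 + 1) ∧ ((p.2 : ℝ) ≤ y.im ∧ y.im ≤ p.2 + 1) ∧ (1 + I) * x = (ε : ℂ) * y := by
  obtain ⟨s, r, hs, hr, hsr, rfl⟩ := hx
  have hA := one_add_I_mul_pt ε (cA p)
  have hB := one_add_I_mul_pt ε (cB p)
  have a2 := cA_snd p
  have b2 := cB_snd p
  have ab := cAB_fst p
  have a1 := cA_fst p
  refine ⟨⟨s * (cA p).1 + r * (cB p).1, s * (cA p).2 + r * (cB p).2⟩, ?_, ?_, ?_⟩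
  · have hB1 : ((cB p).1 : ℝ) = 2 * p.1 + 1 - (cA p).1 := by
      have : (cB p).1 = 2 * p.1 + 1 - (cA p).1 := by omega
      rw [this]; push_cast; ring
    simp only [hB1]
    have hr' : r = 1 - s := by linarith
    rcases a1 with h | h
    · have h' : ((cA p).1 : ℝ) = p.1 := by rw [h]
      rw [h', hr']
      constructor <;> nlinarith
    · have h' : ((cA p).1 : ℝ) = p.1 + 1 := by rw [h]; push_cast; ring
      rw [h', hr']
      constructor <;> nlinarith
  · have hA2 : ((cA p).2 : ℝ) = p.2 := by rw [a2]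
    have hB2 : ((cB p).2 : ℝ) = p.2 + 1 := by rw [b2]; push_cast; ring
    simp only [hA2, hB2]
    have hr' : r = 1 - s := by linarith
    rw [hr']
    constructor <;> nlinarith
  · have e : (1 + I) * (s • pt ε (cA p) + r • pt ε (cB p))
        = (s : ℂ) * ((1 + I) * pt ε (cA p)) + (r : ℂ) * ((1 + I) * pt ε (cB p)) := by
      simp only [real_smul]
      ring
    rw [e, hA, hB]
    apply Complex.ext
    · simp only [add_re, mul_re, ofReal_re, ofReal_im]
      ring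
    · simp only [add_im, mul_im, ofReal_re, ofReal_im]
      ring

/-- position of the fine tiles -/
theorem fine_diag {ε a : ℝ} {k : ℕ} (hk : 0 < k) (ha : 0 < a) {p : ℤ × ℤ} {x : ℂ} (hx : x ∈ diag ε p) :
    ‖(1 + I) * x - tctr a (cc k p)‖ ≤ a + |k * ε - a| * (1 + ‖tctr a (cc k p)‖ / a) := by
  obtain ⟨y, ⟨y1, y2⟩, ⟨y3, y4⟩, hy⟩ := mem_diag_tile hx
  have hk0 : (0 : ℝ) < k := by positivity
  have hkz : (0 : ℤ) < k := by exact_mod_cast hk
  set c : ℂ := ⟨((cc k p).1 : ℝ) + 1 / 2, ((cc k p).2 : ℝ) + 1 / 2⟩ with hc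
  have e0 : tctr a (cc k p) = (a : ℂ) * c := by
    apply Complex.ext <;> simp [tctr, hc]
  have hyk : ‖y / (k : ℂ) - c‖ ≤ 1 := by
    refine (norm_le_abs_add _).trans ?_
    have key : ∀ (m : ℤ) (r : ℝ), (m : ℝ) ≤ r → r ≤ m + 1 → |r / k - (((m / k : ℤ) : ℝ) + 1 / 2)| ≤ 1 / 2 := by
      intro m r h1 h2
      have h3 : (k : ℤ) * (m / k) ≤ m := Int.mul_ediv_self_le hkz.ne'
      have h4 : m < k * (m / k) + k := by
        have := Int.lt_mul_ediv_self_add (x := m) hkz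
        exact this
      have h3' : (k : ℝ) * ((m / k : ℤ) : ℝ) ≤ m := by exact_mod_cast h3
      have h4' : (m : ℝ) + 1 ≤ k * ((m / k : ℤ) : ℝ) + k := by exact_mod_cast h4
      rw [abs_le]
      constructor
      · have : ((m / k : ℤ) : ℝ) ≤ r / k := by rw [le_div_iff₀ hk0]; linarith
        linarith
      · have : r / k ≤ ((m / k : ℤ) : ℝ) + 1 := by rw [div_le_iff₀ hk0]; nlinarith
        linarith
    have r1 : (y / (k : ℂ) - c).re = y.re / k - (((cc k p).1 : ℝ) + 1 / 2) := by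
      simp [hc]
    have r2 : (y / (k : ℂ) - c).im = y.im / k - (((cc k p).2 : ℝ) + 1 / 2) := by
      simp [hc]
    rw [r1, r2]
    have h1 := key p.1 y.re y1 y2
    have h2 := key p.2 y.im y3 y4
    have h1' : |y.re / k - (((cc k p).1 : ℝ) + 1 / 2)| ≤ 1 / 2 := h1
    have h2' : |y.im / k - (((cc k p).2 : ℝ) + 1 / 2)| ≤ 1 / 2 := h2
    linarith
  have e1 : (1 + I) * x - tctr a (cc k p)
      = (a : ℂ) * (y / (k : ℂ) - c) + ((k * ε - a : ℝ) : ℂ) * ((y / (k : ℂ) - c) + c) := by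
    have hkc : (k : ℂ) ≠ 0 := by exact_mod_cast hk0.ne'
    rw [hy, e0]
    push_cast
    field_simp
    ring
  have e2 : ‖tctr a (cc k p)‖ / a = ‖c‖ := by
    rw [e0, norm_mul, Complex.norm_real, Real.norm_eq_abs, abs_of_pos ha]
    field_simp
  rw [e1, e2]
  refine (norm_add_le _ _).trans ?_
  rw [norm_mul, norm_mul, Complex.norm_real, Complex.norm_real, Real.norm_eq_abs, Real.norm_eq_abs, abs_of_pos ha]
  have h3 : ‖y / (k : ℂ) - c + c‖ ≤ 1 + ‖c‖ := (norm_add_le _ _).trans (add_le_add hyk le_rfl)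
  have h4 : a * ‖y / (k : ℂ) - c‖ ≤ a * 1 := mul_le_mul_of_nonneg_left hyk ha.le
  have h5 := mul_le_mul_of_nonneg_left h3 (abs_nonneg ((k : ℝ) * ε - a))
  linarith

end Full
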